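import Pool.Agent.H.MP_ebc13b_lc.h46.Defs

/-!
Order language for 3-coloured prismatic graphs.
-/

namespace Pool.Agent.H.MP_ebc13b_lc.h53

open Pool.Agent.H.MP_ebc13b_lc.h46

variable {α : Type*} [DecidableEq α]

/-- The graph induced on `A` is prismatic and properly coloured by `col`. -/
structure PC (G : SimpleGraph α) (A : Finset α) (col : α → ZMod 3) : Prop where
  pr : Prism G A
  col : ∀ u ∈ A, ∀ v ∈ A, G.Adj u v → col u ≠ col v

/-- `T` is a triangle inside `A` -/
def IsT (G : SimpleGraph α) (A T : Finset α) : Prop := T ⊆ A ∧ G.IsNClique 3 T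

/-- `v < T` -/
def vlt (G : SimpleGraph α) (col : α → ZMod 3) (v : α) (T : Finset α) : Prop :=
  v ∉ T ∧ ∃ u ∈ T, G.Adj v u ∧ col u = col v + 1

/-- `v > T` -/
def vgt (G : SimpleGraph α) (col : α → ZMod 3) (v : α) (T : Finset α) : Prop :=
  v ∉ T ∧ ∃ u ∈ T, G.Adj v u ∧ col u = col v + 2

/-- `T < T'` -/
def tlt (G : SimpleGraph α) (col : α → ZMod 3) (T T' : Finset α) : Prop :=
  ∀ v ∈ T, vlt G col v T'

/-- no block `L(K_33)`: no three triangles are cyclically ordered -/
def NoCyc (G : SimpleGraph α) (A : Finset α) (col : α → ZMod 3) : Prop :=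
  ∀ T₁ T₂ T₃, IsT G A T₁ → IsT G A T₂ → IsT G A T₃ → tlt G col T₁ T₂ → tlt G col T₂ T₃ →
    ¬ tlt G col T₃ T₁

/-- `v` lies in two triangles -/
def Hub (G : SimpleGraph α) (A : Finset α) (v : α) : Prop :=
  ∃ T T', IsT G A T ∧ IsT G A T' ∧ T ≠ T' ∧ v ∈ T ∧ v ∈ T'

/-- no parallels: a hub has at most one linked hub of each colour -/
def NoPar (G : SimpleGraph α) (A : Finset α) (col : α → ZMod 3) : Prop :=
  ∀ y h h' T T', Hub G A y → Hub G A h → Hub G A h' → IsT G A T → IsT G A T' →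
    y ∈ T → h ∈ T → y ∈ T' → h' ∈ T' → y ≠ h → y ≠ h' → col h = col h' → h = h'

section

variable {G : SimpleGraph α} {A : Finset α} {col : α → ZMod 3}

theorem z3_cases (a b : ZMod 3) (h : a ≠ b) : b = a + 1 ∨ b = a + 2 := by
  revert a b; decide

theorem z3_12 (a : ZMod 3) : a + 1 ≠ a + 2 := by revert a; decide

theorem z3_11 (a : ZMod 3) : a + 1 + 1 = a + 2 := by revert a; decide

theorem z3_21 (a : ZMod 3) : a + 2 + 1 = a := by revert a; decide

theorem z3_sub1 (a b : ZMod 3) (h : b = a + 1) : a = b + 2 := by subst h; revert a; decide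

theorem z3_sub2 (a b : ZMod 3) (h : b = a + 2) : a = b + 1 := by subst h; revert a; decide

theorem IsT.sub {T : Finset α} (h : IsT G A T) : T ⊆ A := h.1

theorem IsT.adj {T : Finset α} (h : IsT G A T) {u v : α} (hu : u ∈ T) (hv : v ∈ T) (hn : u ≠ v) :
    G.Adj u v := h.2.isClique (by simpa using hu) (by simpa using hv) hn

theorem PC.col_inj (hC : PC G A col) {T : Finset α} (h : IsT G A T) {u v : α} (hu : u ∈ T)
    (hv : v ∈ T) (hc : col u = col v) : u = v := by
  by_contra hn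
  exact hC.col u (h.1 hu) v (h.1 hv) (h.adj hu hv hn) hc

theorem PC.ex_col (hC : PC G A col) {T : Finset α} (h : IsT G A T) (k : ZMod 3) :
    ∃ u ∈ T, col u = k := by
  have hi : Set.InjOn col (T : Set α) := by
    intro u hu v hv huv
    exact hC.col_inj h (by simpa using hu) (by simpa using hv) huv
  have hcard : (T.image col).card = 3 := by
    rw [Finset.card_image_of_injOn hi, h.2.card_eq]
  have huniv : T.image col = Finset.univ := by
    apply Finset.eq_univ_of_card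
    rw [hcard]
    decide
  have : k ∈ T.image col := by rw [huniv]; exact Finset.mem_univ k
  obtain ⟨u, hu, huk⟩ := Finset.mem_image.1 this
  exact ⟨u, hu, huk⟩

/-- the unique neighbour -/
theorem PC.nb_unique (hC : PC G A col) {T : Finset α} (h : IsT G A T) {v : α} (hv : v ∈ A)
    (hvT : v ∉ T) {x y : α} (hx : x ∈ T) (hy : y ∈ T) (h1 : G.Adj v x) (h2 : G.Adj v y) :
    x = y := by
  obtain ⟨u, _, _, h4⟩ := hC.pr T h.1 h.2 v hv hvT
  exact (h4 x hx h1).trans (h4 y hy h2).symm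

theorem PC.lt_or_gt (hC : PC G A col) {T : Finset α} (h : IsT G A T) {v : α} (hv : v ∈ A)
    (hvT : v ∉ T) : vlt G col v T ∨ vgt G col v T := by
  obtain ⟨u, hu, hvu, _⟩ := hC.pr T h.1 h.2 v hv hvT
  have hne := hC.col v hv u (h.1 hu) hvu
  rcases z3_cases _ _ hne with h1 | h1
  · exact Or.inl ⟨hvT, u, hu, hvu, h1⟩
  · exact Or.inr ⟨hvT, u, hu, hvu, h1⟩

theorem PC.not_both (hC : PC G A col) {T : Finset α} (h : IsT G A T) {v : α} (hv : v ∈ A)
    (h1 : vlt G col v T) (h2 : vgt G col v T) : False := by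
  obtain ⟨h3, x, hx, hvx, hxc⟩ := h1
  obtain ⟨_, y, hy, hvy, hyc⟩ := h2
  have := hC.nb_unique h hv h3 hx hy hvx hvy
  subst this
  exact z3_12 (col v) (hxc.symm.trans hyc)

theorem PC.gt_of_not_lt (hC : PC G A col) {T : Finset α} (h : IsT G A T) {v : α} (hv : v ∈ A)
    (hvT : v ∉ T) (h1 : ¬ vlt G col v T) : vgt G col v T :=
  (hC.lt_or_gt h hv hvT).resolve_left h1

theorem PC.lt_of_not_gt (hC : PC G A col) {T : Finset α} (h : IsT G A T) {v : α} (hv : v ∈ A)
    (hvT : v ∉ T) (h1 : ¬ vgt G col v T) : vlt G col v T :=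
  (hC.lt_or_gt h hv hvT).resolve_right h1

theorem PC.lt_adj (hC : PC G A col) {T : Finset α} (h : IsT G A T) {v u : α}
    (h1 : vlt G col v T) (hu : u ∈ T) (hc : col u = col v + 1) : G.Adj v u := by
  obtain ⟨_, x, hx, hvx, hxc⟩ := h1
  have := hC.col_inj h hx hu (hxc.trans hc.symm)
  subst this
  exact hvx

theorem PC.gt_adj (hC : PC G A col) {T : Finset α} (h : IsT G A T) {v u : α}
    (h1 : vgt G col v T) (hu : u ∈ T) (hc : col u = col v + 2) : G.Adj v u := by
  obtain ⟨_, x, hx, hvx, hxc⟩ := h1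
  have := hC.col_inj h hx hu (hxc.trans hc.symm)
  subst this
  exact hvx

/-- Two triangles share at most one vertex. -/
theorem PC.share (hC : PC G A col) {T T' : Finset α} (h : IsT G A T) (h' : IsT G A T')
    (hne : T ≠ T') {u v : α} (hu : u ∈ T) (hv : v ∈ T) (hu' : u ∈ T') (hv' : v ∈ T') : u = v := by
  by_contra hn
  apply hne
  have key : ∀ S S' : Finset α, IsT G A S → IsT G A S' → u ∈ S → v ∈ S → u ∈ S' → v ∈ S' →
      S ⊆ S' := by
    intro S S' hS hS' h1 h2 h3 h4 w hw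
    by_contra hwS'
    have hwu : w ≠ u := fun e => hwS' (e ▸ h3)
    have hwv : w ≠ v := fun e => hwS' (e ▸ h4)
    exact hn (hC.nb_unique hS' (hS.1 hw) hwS' h3 h4 (hS.adj hw h1 hwu) (hS.adj hw h2 hwv))
  exact Finset.Subset.antisymm (key T T' h h' hu hv hu' hv') (key T' T h' h hu' hv' hu hv)

/-- a vertex adjacent to two different vertices of a triangle is in the triangle -/
theorem PC.mem_of_adj2 (hC : PC G A col) {T : Finset α} (h : IsT G A T) {w u v : α} (hw : w ∈ A)
    (hu : u ∈ T) (hv : v ∈ T) (hn : u ≠ v) (h1 : G.Adj w u) (h2 : G.Adj w v) : w ∈ T := by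
  by_contra hwT
  exact hn (hC.nb_unique h hw hwT hu hv h1 h2)

theorem tlt.disj {T T' : Finset α} (h : tlt G col T T') : Disjoint T T' := by
  rw [Finset.disjoint_left]
  intro v hv
  exact (h v hv).1

/-- one comparable vertex determines the comparison of disjoint triangles -/
theorem PC.tlt_of (hC : PC G A col) {T T' : Finset α} (h : IsT G A T) (h' : IsT G A T')
    (hd : Disjoint T T') {v : α} (hv : v ∈ T) (hlt : vlt G col v T') : tlt G col T T' := by
  -- successor step: if the vertex of colour `k` is `< T'`, so is the vertex of colour `k + 1`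
  have hd' : ∀ x ∈ T, x ∉ T' := Finset.disjoint_left.1 hd
  have step : ∀ x ∈ T, ∀ y ∈ T, vlt G col x T' → col y = col x + 1 → vlt G col y T' := by
    intro x hx y hy hxl hc
    by_contra hyn
    have hyg := hC.gt_of_not_lt h' (h.1 hy) (hd' y hy) hyn
    -- the vertex `z` of `T'` of colour `col x + 1 + 2 = col x`
    obtain ⟨z, hz, hzc⟩ := hC.ex_col h' (col y + 2)
    have hyz := hC.gt_adj h' hyg hz hzc
    -- the vertex `w` of `T'` of colour `col x + 2`
    obtain ⟨w, hw, hwc⟩ := hC.ex_col h' (col x + 2)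
    obtain ⟨u, hu, huc⟩ := hC.ex_col h' (col x + 1)
    have hxu := hC.lt_adj h' hxl hu huc
    -- `w` is adjacent to some vertex of `T`
    obtain ⟨t, ht, hwt, _⟩ := hC.pr T h.1 h.2 w (h'.1 hw) (fun hm => hd' w hm hw)
    have hwt' : t ∉ T' := hd' t ht
    -- the third vertex
    by_cases htx : t = x
    · subst htx
      have := hC.nb_unique h' (h.1 ht) hwt' hw hu hwt.symm hxu
      subst this
      exact z3_12 _ (huc.symm.trans hwc)
    · by_cases hty : t = y
      · subst hty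
        have := hC.nb_unique h' (h.1 ht) hwt' hw hz hwt.symm hyz
        subst this
        rw [hzc, hc] at hwc
        revert hwc
        generalize col x = a
        revert a
        decide
      · -- then `t` has colour `col x + 2 = col w`
        have h1 := hC.col t (h.1 ht) x (h.1 hx) (h.adj ht hx htx)
        have h2 := hC.col t (h.1 ht) y (h.1 hy) (h.adj ht hy hty)
        have h3 := hC.col w (h'.1 hw) t (h.1 ht) hwt
        rw [hc] at h2
        rw [hwc] at h3
        revert h1 h2 h3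
        generalize col x = a
        generalize col t = b
        revert a b
        decide
  intro x hx
  by_cases hxv : col x = col v
  · rw [hC.col_inj h hx hv hxv]; exact hlt
  · rcases z3_cases _ _ (Ne.symm hxv) with h1 | h1
    · exact step v hv x hx hlt h1
    · obtain ⟨y, hy, hyc⟩ := hC.ex_col h (col v + 1)
      have := step v hv y hy hlt hyc
      refine step y hy x hx this ?_
      rw [h1, hyc, z3_11]

theorem PC.tlt_gt (hC : PC G A col) {T T' : Finset α} (h : IsT G A T) (h' : IsT G A T')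
    (hlt : tlt G col T T') : ∀ v ∈ T', vgt G col v T := by
  intro v hv
  have hvT : v ∉ T := fun hm => (hlt v hm).1 hv
  obtain ⟨u, hu, huc⟩ := hC.ex_col h (col v + 2)
  refine ⟨hvT, u, hu, ?_, huc⟩
  exact (hC.lt_adj h' (hlt u hu) hv (z3_sub2 _ _ huc)).symm

/-- if one vertex of `T'` is `> T` then `T < T'` -/
theorem PC.tlt_of_gt (hC : PC G A col) {T T' : Finset α} (h : IsT G A T) (h' : IsT G A T')
    (hd : Disjoint T T') {v : α} (hv : v ∈ T') (hgt : vgt G col v T) : tlt G col T T' := by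
  obtain ⟨hvT, u, hu, hvu, huc⟩ := hgt
  refine hC.tlt_of h h' hd hu ⟨Finset.disjoint_left.1 hd hu, v, hv, hvu.symm, z3_sub2 _ _ huc⟩

theorem PC.tlt_or (hC : PC G A col) {T T' : Finset α} (h : IsT G A T) (h' : IsT G A T')
    (hd : Disjoint T T') : tlt G col T T' ∨ tlt G col T' T := by
  obtain ⟨v, hv, _⟩ := hC.ex_col h 0
  rcases hC.lt_or_gt h' (h.1 hv) (Finset.disjoint_left.1 hd hv) with h1 | h1
  · exact Or.inl (hC.tlt_of h h' hd hv h1)
  · exact Or.inr (hC.tlt_of_gt h' h hd.symm hv h1)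

theorem PC.tlt_asymm (hC : PC G A col) {T T' : Finset α} (h : IsT G A T) (h' : IsT G A T')
    (h1 : tlt G col T T') (h2 : tlt G col T' T) : False := by
  obtain ⟨v, hv, _⟩ := hC.ex_col h 0
  exact hC.not_both h' (h.1 hv) (h1 v hv) (hC.tlt_gt h' h h2 v hv)

/-- `T₁ < T₂ < T₃` implies that `T₁` and `T₃` are disjoint -/
theorem PC.disj13 (hC : PC G A col) {T₁ T₂ T₃ : Finset α} (_h1 : IsT G A T₁) (h2 : IsT G A T₂)
    (h3 : IsT G A T₃) (h12 : tlt G col T₁ T₂) (h23 : tlt G col T₂ T₃) : Disjoint T₁ T₃ := by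
  rw [Finset.disjoint_left]
  intro v hv hv3
  exact hC.not_both h2 (_h1.1 hv) (h12 v hv) (hC.tlt_gt h2 h3 h23 v hv3)

theorem PC.tlt_trans (hC : PC G A col) (hN : NoCyc G A col) {T₁ T₂ T₃ : Finset α}
    (h1 : IsT G A T₁) (h2 : IsT G A T₂) (h3 : IsT G A T₃) (h12 : tlt G col T₁ T₂)
    (h23 : tlt G col T₂ T₃) : tlt G col T₁ T₃ :=
  (hC.tlt_or h1 h3 (hC.disj13 h1 h2 h3 h12 h23)).resolve_right (hN _ _ _ h1 h2 h3 h12 h23)

/-- Uniformity: a vertex whose colour is not the colour of `h` compares in the same way with all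
triangles through `h`. -/
theorem PC.uni_lt (hC : PC G A col) {T T' : Finset α} (h : IsT G A T) (h' : IsT G A T')
    {x v : α} (hx : x ∈ T) (hx' : x ∈ T') (hv : v ∈ A) (hvT' : v ∉ T') (hc : col v ≠ col x)
    (hlt : vlt G col v T) : vlt G col v T' := by
  rcases z3_cases _ _ hc with h1 | h1
  · exact ⟨hvT', x, hx', hC.lt_adj h hlt hx h1, h1⟩
  · apply hC.lt_of_not_gt h' hv hvT'
    intro hg
    exact hC.not_both h hv hlt ⟨hlt.1, x, hx, hC.gt_adj h' hg hx' h1, h1⟩

theorem PC.uni_gt (hC : PC G A col) {T T' : Finset α} (h : IsT G A T) (h' : IsT G A T')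
    {x v : α} (hx : x ∈ T) (hx' : x ∈ T') (hv : v ∈ A) (hvT' : v ∉ T') (hc : col v ≠ col x)
    (hgt : vgt G col v T) : vgt G col v T' := by
  apply hC.gt_of_not_lt h' hv hvT'
  intro hl
  exact hC.not_both h hv (hC.uni_lt h' h hx' hx hv hgt.1 hc hl) hgt

/-- Inversion: if `v < T`, `v > T'` and `T < T'` then `v` and the vertices of `T` and `T'` of the
colours `col v + 1`, `col v + 2` form a triangle. -/
theorem PC.inv (hC : PC G A col) {T T' : Finset α} (h : IsT G A T) (h' : IsT G A T')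
    (hlt : tlt G col T T') {v x y : α} (hv : v ∈ A) (h1 : vlt G col v T) (h2 : vgt G col v T')
    (hx : x ∈ T) (hxc : col x = col v + 1) (hy : y ∈ T') (hyc : col y = col v + 2) :
    IsT G A {v, x, y} := by
  have hvx := hC.lt_adj h h1 hx hxc
  have hvy := hC.gt_adj h' h2 hy hyc
  have hxy : G.Adj x y := by
    refine hC.lt_adj h' (hlt x hx) hy ?_
    rw [hyc, hxc, z3_11]
  refine ⟨?_, clique_abc hvx hvy hxy⟩
  intro w hw
  simp only [Finset.mem_insert, Finset.mem_singleton] at hw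
  rcases hw with rfl | rfl | rfl
  · exact hv
  · exact h.1 hx
  · exact h'.1 hy

/-- Two triangles through `x`: any triangle missing `x` is disjoint from one of them. -/
theorem PC.disj_or (hC : PC G A col) {T₁ T₂ T' : Finset α} (h1 : IsT G A T₁) (h2 : IsT G A T₂)
    (h' : IsT G A T') (hne : T₁ ≠ T₂) {x : α} (hx1 : x ∈ T₁) (hx2 : x ∈ T₂) (hx' : x ∉ T') :
    Disjoint T₁ T' ∨ Disjoint T₂ T' := by
  by_contra hcon
  rw [not_or, Finset.not_disjoint_iff, Finset.not_disjoint_iff] at hcon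
  obtain ⟨⟨a, ha, ha'⟩, b, hb, hb'⟩ := hcon
  have hxa : x ≠ a := fun e => hx' (e ▸ ha')
  have hxb : x ≠ b := fun e => hx' (e ▸ hb')
  have hab : a = b := hC.nb_unique h' (h1.1 hx1) hx' ha' hb' (h1.adj hx1 ha hxa)
    (h2.adj hx2 hb hxb)
  subst hab
  exact hxa (hC.share h1 h2 hne hx1 ha hx2 hb)

/-- If `Q` contains `x ≠ y` and `T ∋ x`, `T' ∋ y` are other triangles then `T` and `T'` are
disjoint. -/
theorem PC.disj_link (hC : PC G A col) {Q T T' : Finset α} (hQ : IsT G A Q) (h : IsT G A T)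
    (h' : IsT G A T') (hT : T ≠ Q) (hT' : T' ≠ Q) {x y : α} (hxy : x ≠ y) (hxQ : x ∈ Q)
    (hyQ : y ∈ Q) (hx : x ∈ T) (hy : y ∈ T') : Disjoint T T' := by
  rw [Finset.disjoint_left]
  intro w hw hw'
  by_cases hwQ : w ∈ Q
  · have e1 := hC.share h hQ hT hx hw hxQ hwQ
    have e2 := hC.share h' hQ hT' hy hw' hyQ hwQ
    exact hxy (e1.trans e2.symm)
  · have hwx : w ≠ x := fun e => hwQ (e ▸ hxQ)
    have hwy : w ≠ y := fun e => hwQ (e ▸ hyQ)
    exact hxy (hC.nb_unique hQ (h.1 hw) hwQ hxQ hyQ (h.adj hw hx hwx) (h'.adj hw' hy hwy))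

/-- Uniformity of the order of two vertices. -/
theorem PC.uniform (hC : PC G A col) (hP : NoPar G A col) {x x' : α} (hne : x ≠ x')
    {T₁ T₂ T₁' T₂' : Finset α} (h1 : IsT G A T₁) (h2 : IsT G A T₂) (h1' : IsT G A T₁')
    (h2' : IsT G A T₂') (hx1 : x ∈ T₁) (hx2 : x ∈ T₂) (hx1' : x' ∈ T₁') (hx2' : x' ∈ T₂')
    (hlt : tlt G col T₁ T₁') (hgt : tlt G col T₂' T₂) : False := by
  have hxA : x ∈ A := h1.1 hx1
  have hxA' : x' ∈ A := h1'.1 hx1'
  have a1 : vlt G col x T₁' := hlt x hx1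
  have a2 : vgt G col x T₂' := hC.tlt_gt h2' h2 hgt x hx2
  have a3 : vgt G col x' T₁ := hC.tlt_gt h1 h1' hlt x' hx1'
  have a4 : vlt G col x' T₂ := hgt x' hx2'
  have n1 : T₁' ≠ T₂' := by
    rintro rfl
    exact hC.not_both h1' hxA a1 a2
  have n2 : T₁ ≠ T₂ := by
    rintro rfl
    exact hC.not_both h1 hxA' a4 a3
  by_cases hc : col x = col x'
  · have m1 : ¬ Disjoint T₁ T₂' := by
      intro hd
      rcases hC.tlt_or h1 h2' hd with h | h
      · exact hC.not_both h2' hxA (h x hx1) a2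
      · exact hC.not_both h1 hxA' (h x' hx2') a3
    have m2 : ¬ Disjoint T₂ T₁' := by
      intro hd
      rcases hC.tlt_or h2 h1' hd with h | h
      · exact hC.not_both h2 hxA' a4 (hC.tlt_gt h2 h1' h x' hx1')
      · exact hC.not_both h1' hxA a1 (hC.tlt_gt h1' h2 h x hx2)
    obtain ⟨y, hy2, hy1'⟩ := Finset.not_disjoint_iff.1 m2
    have hyx : y ≠ x := fun e => a1.1 (e ▸ hy1')
    have hyx' : y ≠ x' := fun e => a4.1 (e ▸ hy2)
    have hne2 : T₂ ≠ T₁' := by
      rintro rfl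
      exact a1.1 hx2
    exact hne (hP y x x' T₂ T₁' ⟨T₂, T₁', h2, h1', hne2, hy2, hy1'⟩
      ⟨T₁, T₂, h1, h2, n2, hx1, hx2⟩ ⟨T₁', T₂', h1', h2', n1, hx1', hx2'⟩ h2 h1' hy2 hx2 hy1' hx1'
      hyx hyx' hc)
  · rcases z3_cases _ _ hc with h | h
    · have hadj := hC.lt_adj h1' a1 hx1' h
      exact hC.not_both h2' hxA ⟨a2.1, x', hx2', hadj, h⟩ a2
    · have hadj := hC.gt_adj h2' a2 hx2' h
      exact hC.not_both h1' hxA a1 ⟨a1.1, x', hx1', hadj, h⟩

end

end Pool.Agent.H.MP_ebc13b_lc.h53
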