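import Pool.Agent.H.MP_ebc13b_lc.h46.LPF
import Pool.Agent.H.MP_ebc13b_lc.h53.Ord

/-!
The approximate linear program and the redistribution lemma.
-/

namespace Pool.Agent.H.MP_ebc13b_lc.h53

open Pool.Agent.H.MP_ebc13b_lc.h46

variable {α : Type*} [DecidableEq α]

/-- `y` is a nonnegative weight on the edges inside `A` with sum `w v` at every vertex `v` -/
structure YF (G : SimpleGraph α) (A : Finset α) (w : α → ℝ) (y : α → α → ℝ) : Prop where
  y0 : ∀ u v, 0 ≤ y u v
  ysymm : ∀ u v, y u v = y v u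
  yE : ∀ u v, y u v ≠ 0 → G.Adj u v ∧ u ∈ A ∧ v ∈ A
  sum : ∀ v ∈ A, ∑ u ∈ A, y v u = w v

/-- the load of the vertex `v` -/
noncomputable def ld (A : Finset α) (z : Finset α → ℝ) (v : α) : ℝ :=
  ∑ T ∈ A.powerset, if v ∈ T then z T else 0

/-- `z` is a nonnegative weight on the triangles inside `A` -/
def ZT (G : SimpleGraph α) (A : Finset α) (z : Finset α → ℝ) : Prop :=
  (∀ T, 0 ≤ z T) ∧ ∀ T, z T ≠ 0 → IsT G A T

/-- The approximate linear program: triangles of total weight about `t` and edges cover every vertex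
`v` up to a slack `s v ≥ 0`. The total error is at most `ε`. -/
def ALP (G : SimpleGraph α) (A : Finset α) (t : ℕ) (ε : ℝ) : Prop :=
  ∃ (z : Finset α → ℝ) (y : α → α → ℝ) (s : α → ℝ), ZT G A z ∧ (∀ v, 0 ≤ s v) ∧
    YF G A (fun v => 1 - ld A z v - s v) y ∧
    |∑ T ∈ A.powerset, z T - t| + ∑ v ∈ A, s v ≤ ε

variable {G G' : SimpleGraph α} {A B K : Finset α} {col : α → ZMod 3}

theorem YF.w0 {w : α → ℝ} {y : α → α → ℝ} (h : YF G A w y) {v : α} (hv : v ∈ A) : 0 ≤ w v := by
  rw [← h.sum v hv]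
  exact Finset.sum_nonneg (fun u _ => h.y0 v u)

theorem YF.zero {w : α → ℝ} {y : α → α → ℝ} (h : YF G A w y) {u v : α}
    (hv : v ∉ A) : y u v = 0 := by
  by_contra hne
  exact hv (h.yE u v hne).2.2

/-- delete vertices of demand `0` -/
theorem YF.restrict {w w' : α → ℝ} {y : α → α → ℝ} (h : YF G A w y) (hB : B ⊆ A)
    (h0 : ∀ v ∈ A, v ∉ B → w v = 0) (hw : ∀ v ∈ B, w' v = w v) : YF G B w' y := by
  have hz : ∀ u v, y u v ≠ 0 → v ∈ B := by
    intro u v hne
    by_contra hvB
    obtain ⟨_, hu, hv⟩ := h.yE u v hne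
    have h1 := h.sum v hv
    rw [h0 v hv hvB] at h1
    have h2 := (Finset.sum_eq_zero_iff_of_nonneg (fun x _ => h.y0 v x)).1 h1 u hu
    rw [h.ysymm] at h2
    exact hne h2
  refine ⟨h.y0, h.ysymm, ?_, ?_⟩
  · intro u v hne
    refine ⟨(h.yE u v hne).1, hz v u (by rw [h.ysymm]; exact hne), hz u v hne⟩
  · intro v hv
    rw [hw v hv, ← h.sum v (hB hv)]
    apply Finset.sum_subset hB
    intro u _ hu
    by_contra hne
    exact hu (hz v u hne)

theorem YF.congr {w w' : α → ℝ} {y : α → α → ℝ} (h : YF G A w y) (hw : ∀ v ∈ A, w' v = w v) :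
    YF G A w' y := ⟨h.y0, h.ysymm, h.yE, fun v hv => by rw [hw v hv]; exact h.sum v hv⟩

theorem alp_of_lpf {t : ℕ} (h : LPF G A t) : ALP G A t 0 := by
  obtain ⟨z, y, h1, h2, h3, h4, h5, h6, h7⟩ := h
  refine ⟨z, y, fun _ => 0, ⟨h1, h2⟩, fun _ => le_rfl, ⟨h4, h5, h6, ?_⟩, ?_⟩
  · intro v hv
    have := h7 v hv
    unfold ld
    linarith
  · simp [h3]

/-- **Redistribution lemma.**  Inside `K` the graph `G` is replaced by `G'`; vertices of `K` of the
same colour are twins outside `K`.  Given a new demand on `K` and a new weight `η` inside `K` with the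
same outer totals of the colour classes, the outer edges can be redistributed. -/
theorem redist {w w' : α → ℝ} {y η : α → α → ℝ} (hK : K ⊆ B)
    (hout : ∀ u v, u ∈ B → v ∈ B → (u ∉ K ∨ v ∉ K) → (G'.Adj u v ↔ G.Adj u v))
    (htw : ∀ x ∈ K, ∀ x' ∈ K, col x = col x' → ∀ u ∈ B, u ∉ K → (G.Adj x u ↔ G.Adj x' u))
    (hy : YF G B w y) (hw : ∀ v ∈ B, v ∉ K → w' v = w v)
    (η0 : ∀ u v, 0 ≤ η u v) (ηsymm : ∀ u v, η u v = η v u)
    (ηE : ∀ u v, η u v ≠ 0 → G'.Adj u v ∧ u ∈ K ∧ v ∈ K)
    (hη : ∀ x ∈ K, ∑ u ∈ K, η x u ≤ w' x)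
    (hsum : ∀ k, ∑ x ∈ K.filter (fun x => col x = k), (w' x - ∑ u ∈ K, η x u) =
      ∑ x ∈ K.filter (fun x => col x = k), (w x - ∑ u ∈ K, y x u)) :
    ∃ y', YF G' B w' y' := by
  classical
  set ρ : α → ℝ := fun x => w' x - ∑ u ∈ K, η x u with hρ
  have ρ0 : ∀ x ∈ K, 0 ≤ ρ x := fun x hx => sub_nonneg.2 (hη x hx)
  set e : ZMod 3 → α → ℝ := fun k u => ∑ x ∈ K.filter (fun x => col x = k), y x u with he
  have e0 : ∀ k u, 0 ≤ e k u := fun k u => Finset.sum_nonneg (fun x _ => hy.y0 x u)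
  set E : ZMod 3 → ℝ := fun k => ∑ x ∈ K.filter (fun x => col x = k), ρ x with hE
  have E0 : ∀ k, 0 ≤ E k := fun k =>
    Finset.sum_nonneg (fun x hx => ρ0 x (Finset.mem_of_mem_filter x hx))
  -- the outer totals
  have hsplit : ∀ (f : α → ℝ), ∑ u ∈ B, f u = ∑ u ∈ B \ K, f u + ∑ u ∈ K, f u := by
    intro f
    rw [Finset.sum_sdiff hK]
  have hEe : ∀ k, E k = ∑ u ∈ B \ K, e k u := by
    intro k
    have h1 : E k = ∑ x ∈ K.filter (fun x => col x = k), (w x - ∑ u ∈ K, y x u) := hsum k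
    rw [h1, he]
    dsimp only
    rw [Finset.sum_comm]
    apply Finset.sum_congr rfl
    intro x hx
    have hxK := Finset.mem_of_mem_filter x hx
    rw [← hy.sum x (hK hxK), hsplit]
    ring
  have ez : ∀ k, E k = 0 → ∀ u ∈ B \ K, e k u = 0 := by
    intro k hk u hu
    rw [hEe k] at hk
    exact (Finset.sum_eq_zero_iff_of_nonneg (fun x _ => e0 k x)).1 hk u hu
  set y' : α → α → ℝ := fun u v =>
    if u ∈ K then (if v ∈ K then η u v else ρ u * e (col u) v / E (col u))
    else (if v ∈ K then ρ v * e (col v) u / E (col v) else y u v) with hy'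
  have adj_of : ∀ x ∈ K, ∀ u, u ∉ K → e (col x) u ≠ 0 → G'.Adj x u ∧ u ∈ B := by
    intro x hx u hu hne
    obtain ⟨x', hx', hne'⟩ := Finset.exists_ne_zero_of_sum_ne_zero hne
    obtain ⟨hx'K, hc⟩ := Finset.mem_filter.1 hx'
    obtain ⟨h1, h2, h3⟩ := hy.yE x' u hne'
    exact ⟨(hout x u (hK hx) h3 (Or.inr hu)).2 ((htw x' hx'K x hx hc u h3 hu).1 h1), h3⟩
  refine ⟨y', ?_, ?_, ?_, ?_⟩
  · intro u v
    rw [hy']
    dsimp only
    split_ifs with h1 h2 h2
    · exact η0 u v
    · exact div_nonneg (mul_nonneg (ρ0 u h1) (e0 _ _)) (E0 _)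
    · exact div_nonneg (mul_nonneg (ρ0 v h2) (e0 _ _)) (E0 _)
    · exact hy.y0 u v
  · intro u v
    rw [hy']
    dsimp only
    split_ifs with h1 h2 h2
    · exact ηsymm u v
    · rfl
    · rfl
    · exact hy.ysymm u v
  · intro u v hne
    rw [hy'] at hne
    dsimp only at hne
    split_ifs at hne with h1 h2 h2
    · obtain ⟨a, b, c⟩ := ηE u v hne
      exact ⟨a, hK b, hK c⟩
    · have h3 : e (col u) v ≠ 0 := by
        intro h0
        apply hne
        rw [h0, mul_zero, zero_div]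
      obtain ⟨h4, h5⟩ := adj_of u h1 v h2 h3
      exact ⟨h4, hK h1, h5⟩
    · have h3 : e (col v) u ≠ 0 := by
        intro h0
        apply hne
        rw [h0, mul_zero, zero_div]
      obtain ⟨h4, h5⟩ := adj_of v h2 u h1 h3
      exact ⟨h4.symm, h5, hK h2⟩
    · obtain ⟨a, b, c⟩ := hy.yE u v hne
      exact ⟨(hout u v b c (Or.inl h1)).2 a, b, c⟩
  · intro v hv
    rw [hsplit]
    by_cases hvK : v ∈ K
    · have h1 : ∑ u ∈ B \ K, y' v u = ρ v := by
        have h2 : ∀ u ∈ B \ K, y' v u = ρ v * e (col v) u / E (col v) := by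
          intro u hu
          have huK : u ∉ K := (Finset.mem_sdiff.1 hu).2
          rw [hy']
          dsimp only
          rw [if_pos hvK, if_neg huK]
        rw [Finset.sum_congr rfl h2, ← Finset.sum_div, ← Finset.mul_sum, ← hEe]
        by_cases hz : E (col v) = 0
        · have h3 : ρ v = 0 := by
            refine (Finset.sum_eq_zero_iff_of_nonneg (fun x hx => ρ0 x
              (Finset.mem_of_mem_filter x hx))).1 hz v (Finset.mem_filter.2 ⟨hvK, rfl⟩)
          rw [h3]; simp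
        · field_simp
      have h4 : ∑ u ∈ K, y' v u = ∑ u ∈ K, η v u := by
        apply Finset.sum_congr rfl
        intro u hu
        rw [hy']
        dsimp only
        rw [if_pos hvK, if_pos hu]
      rw [h1, h4, hρ]
      dsimp only
      ring
    · have hvBK : v ∈ B \ K := Finset.mem_sdiff.2 ⟨hv, hvK⟩
      have h1 : ∑ u ∈ B \ K, y' v u = ∑ u ∈ B \ K, y v u := by
        apply Finset.sum_congr rfl
        intro u hu
        have huK : u ∉ K := (Finset.mem_sdiff.1 hu).2
        rw [hy']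
        dsimp only
        rw [if_neg hvK, if_neg huK]
      have h2 : ∑ u ∈ K, y' v u = ∑ u ∈ K, y v u := by
        have h3 : ∀ u ∈ K, y' v u = ρ u * e (col u) v / E (col u) := by
          intro u hu
          rw [hy']
          dsimp only
          rw [if_neg hvK, if_pos hu]
        rw [Finset.sum_congr rfl h3]
        rw [← Finset.sum_fiberwise_of_maps_to (s := K) (t := Finset.univ) (g := col)
          (fun _ _ => Finset.mem_univ _),
          ← Finset.sum_fiberwise_of_maps_to (s := K) (t := Finset.univ) (g := col)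
          (fun _ _ => Finset.mem_univ _)]
        apply Finset.sum_congr rfl
        intro k _
        have h4 : ∀ x ∈ K.filter (fun x => col x = k), ρ x * e (col x) v / E (col x) =
            ρ x * (e k v / E k) := by
          intro x hx
          rw [(Finset.mem_filter.1 hx).2, mul_div_assoc]
        rw [Finset.sum_congr rfl h4, ← Finset.sum_mul]
        have h5 : ∑ x ∈ K.filter (fun x => col x = k), y v x = e k v := by
          rw [he]
          dsimp only
          exact Finset.sum_congr rfl (fun x _ => hy.ysymm v x)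
        rw [h5]
        change E k * (e k v / E k) = e k v
        by_cases hz : E k = 0
        · rw [ez k hz v hvBK]; simp
        · field_simp
      rw [h1, h2, ← hsplit, hw v hv hvK]
      exact hy.sum v hv

end Pool.Agent.H.MP_ebc13b_lc.h53
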