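import Pool.Agent.H.MP_ebc13b_lc.h53.Line

/-!
Positions of the vertices in the natural order.
-/

namespace Pool.Agent.H.MP_ebc13b_lc.h53

open Pool.Agent.H.MP_ebc13b_lc.h46

variable {α : Type*} [DecidableEq α] {G : SimpleGraph α} {A : Finset α} {col : α → ZMod 3}

namespace Line

variable (L : Line G A col)

/-- the two-hub triangle `Q_i` -/
def Q (i : ℕ) : Finset α := {L.h i, L.mid i, L.h (i + 1)}


theorem Q_T {i : ℕ} (h : L.lk i) : IsT G A (L.Q i) := L.lk_T i h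

theorem Q_blk {i : ℕ} (h : L.lk i) : L.blk (L.Q i) = 2 * i + 1 := L.lk_blk i h

theorem h_mem_Q (i : ℕ) : L.h i ∈ L.Q i := by simp [Q]

theorem h1_mem_Q (i : ℕ) : L.h (i + 1) ∈ L.Q i := by simp [Q]

theorem mid_mem_Q (i : ℕ) : L.mid i ∈ L.Q i := by simp [Q]

theorem eq_Q {T : Finset α} (hT : IsT G A T) {i : ℕ} (h : L.blk T = 2 * i + 1) :
    T = L.Q i := (L.blk_odd T hT i h).2

/-- the hubs of a triangle, in terms of its block -/
theorem hub_iff {T : Finset α} (hT : IsT G A T) {j : ℕ} (hj : j < L.m) :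
    L.h j ∈ T ↔ (L.blk T = 2 * j ∨ L.blk T = 2 * j + 1 ∨ L.blk T + 1 = 2 * j) := by
  constructor
  · intro h
    rcases L.blk_mem T hT j hj h with h1 | ⟨h1, _⟩ | ⟨h1, h2, _⟩ <;> omega
  · rintro (h | h | h)
    · exact (L.blk_even T hT j h).2.1
    · rw [L.eq_Q hT h]
      exact L.h_mem_Q j
    · obtain ⟨k, rfl⟩ : ∃ k, j = k + 1 := ⟨j - 1, by omega⟩
      rw [L.eq_Q hT (i := k) (by omega)]
      exact L.h1_mem_Q k

theorem blk_lt {T : Finset α} (hT : IsT G A T) : L.blk T < 2 * L.m := by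
  rcases Nat.even_or_odd' (L.blk T) with ⟨i, hi | hi⟩
  · have := (L.blk_even T hT i hi).1
    omega
  · have := L.lk_lt i (L.blk_odd T hT i hi).1
    omega

/-- triangles without common hub are disjoint -/
theorem disj_of {T T' : Finset α} (hT : IsT G A T) (hT' : IsT G A T') (hne : T ≠ T')
    (h : ∀ j < L.m, L.h j ∈ T → L.h j ∉ T') : Disjoint T T' := by
  rw [Finset.disjoint_left]
  intro v hv hv'
  obtain ⟨i, hi, rfl⟩ := L.share T T' hT hT' hne v hv hv'
  exact h i hi hv hv'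

theorem h_ne {i j : ℕ} (hi : i < L.m) (hj : j < L.m) (hne : i ≠ j) : L.h i ≠ L.h j :=
  fun h => hne (L.inj i hi j hj h)

theorem mid_col {i : ℕ} (h : L.lk i) : col (L.mid i) = col (L.h (i + 1)) + 1 := by
  rw [L.lk_mid i h, L.lk_col i h, z3_11]

theorem mid_ne_h {i j : ℕ} (h : L.lk i) (hj : j < L.m) : L.mid i ≠ L.h j := by
  intro he
  have h1 : L.h j ∈ L.Q i := he ▸ L.mid_mem_Q i
  have h2 := (L.hub_iff (L.Q_T h) hj).1 h1
  rw [L.Q_blk h] at h2
  have h3 : j = i ∨ j = i + 1 := by omega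
  rcases h3 with rfl | rfl
  · have := L.lk_mid _ h
    rw [he] at this
    revert this
    generalize col (L.h j) = a
    revert a
    decide
  · have := L.mid_col h
    rw [he] at this
    revert this
    generalize col (L.h (i + 1)) = a
    revert a
    decide

/-- the middle vertex lies in no other triangle -/
theorem mid_unique {i : ℕ} (h : L.lk i) {T : Finset α} (hT : IsT G A T) (hm : L.mid i ∈ T) :
    T = L.Q i := by
  by_contra hne
  obtain ⟨j, hj, he⟩ := L.share T (L.Q i) hT (L.Q_T h) hne _ hm (L.mid_mem_Q i)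
  exact L.mid_ne_h h hj he

theorem mid_A {i : ℕ} (h : L.lk i) : L.mid i ∈ A := (L.Q_T h).1 (L.mid_mem_Q i)

theorem lk_m {i : ℕ} (h : L.lk i) : i < L.m := by have := L.lk_lt i h; omega

/-- another triangle at the left hub of a link -/
theorem ex_left {i : ℕ} (h : L.lk i) : ∃ T, IsT G A T ∧ L.h i ∈ T ∧ L.blk T < 2 * i + 1 := by
  rcases L.ne i (L.lk_m h) with ⟨T, hT, hb⟩ | ⟨_, h1, h2⟩
  · exact ⟨T, hT, (L.blk_even T hT i hb).2.1, by omega⟩
  · refine ⟨L.Q (i - 1), L.Q_T h2, ?_, ?_⟩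
    · have := L.h1_mem_Q (i - 1)
      rwa [Nat.sub_add_cancel h1] at this
    · rw [L.Q_blk h2]; omega

/-- another triangle at the right hub of a link -/
theorem ex_right {i : ℕ} (h : L.lk i) :
    ∃ T, IsT G A T ∧ L.h (i + 1) ∈ T ∧ 2 * i + 1 < L.blk T := by
  rcases L.ne (i + 1) (L.lk_lt i h) with ⟨T, hT, hb⟩ | ⟨h1, _, _⟩
  · exact ⟨T, hT, (L.blk_even T hT _ hb).2.1, by omega⟩
  · exact ⟨L.Q (i + 1), L.Q_T h1, L.h_mem_Q _, by rw [L.Q_blk h1]; omega⟩

/-- `B` or both `Q`'s: a triangle at `h i` disjoint from a given triangle missing `h i` -/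
theorem ex_disj {i : ℕ} (hi : i < L.m) {T : Finset α} (hT : IsT G A T) (hn : L.h i ∉ T) :
    ∃ S, IsT G A S ∧ L.h i ∈ S ∧ Disjoint S T := by
  rcases L.ne i hi with ⟨S, hS, hb⟩ | ⟨h1, h2, h3⟩
  · obtain ⟨_, h4, h5⟩ := L.blk_even S hS i hb
    refine ⟨S, hS, h4, L.disj_of hS hT (fun e => hn (e ▸ h4)) ?_⟩
    intro j hj hjS hjT
    have := h5 j hj hjS
    subst this
    exact hn hjT
  · have hi1 : L.h i ∈ L.Q (i - 1) := by
      have := L.h1_mem_Q (i - 1)
      rwa [Nat.sub_add_cancel h2] at this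
    by_cases hd : Disjoint (L.Q i) T
    · exact ⟨L.Q i, L.Q_T h1, L.h_mem_Q i, hd⟩
    · refine ⟨L.Q (i - 1), L.Q_T h3, hi1, ?_⟩
      by_contra hd'
      obtain ⟨v, hv, hv'⟩ := Finset.not_disjoint_iff.1 hd
      obtain ⟨w, hw, hw'⟩ := Finset.not_disjoint_iff.1 hd'
      obtain ⟨j, hj, rfl⟩ := L.share _ _ (L.Q_T h1) hT (fun e => hn (e ▸ L.h_mem_Q i)) v hv hv'
      obtain ⟨k, hk, rfl⟩ := L.share _ _ (L.Q_T h3) hT (fun e => hn (e ▸ hi1)) w hw hw'
      have a1 := (L.hub_iff (L.Q_T h1) hj).1 hv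
      have a2 := (L.hub_iff (L.Q_T h3) hk).1 hw
      rw [L.Q_blk h1] at a1
      rw [L.Q_blk h3] at a2
      have b1 := (L.hub_iff hT hj).1 hv'
      have b2 := (L.hub_iff hT hk).1 hw'
      have hji : j ≠ i := fun e => hn (e ▸ hv')
      have hki : k ≠ i := fun e => hn (e ▸ hw')
      omega

/-- position of a hub, left part -/
theorem h_gt (hC : PC G A col) {i : ℕ} (hi : i < L.m) {T : Finset α} (hT : IsT G A T)
    (hn : L.h i ∉ T) (hb : L.blk T < 2 * i) : vgt G col (L.h i) T := by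
  obtain ⟨S, hS, h1, h2⟩ := L.ex_disj hi hT hn
  have h3 := (L.hub_iff hS hi).1 h1
  have h4 : L.blk T < L.blk S := by
    by_contra h5
    have h6 : L.blk T + 1 ≠ 2 * i := fun e => hn ((L.hub_iff hT hi).2 (Or.inr (Or.inr e)))
    omega
  exact hC.tlt_gt hT hS (L.dis T S hT hS h2.symm h4) _ h1

/-- position of a hub, right part -/
theorem h_lt (hC : PC G A col) {i : ℕ} (hi : i < L.m) {T : Finset α} (hT : IsT G A T)
    (hn : L.h i ∉ T) (hb : 2 * i < L.blk T) : vlt G col (L.h i) T := by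
  obtain ⟨S, hS, h1, h2⟩ := L.ex_disj hi hT hn
  have h3 := (L.hub_iff hS hi).1 h1
  have h4 : L.blk S < L.blk T := by
    by_contra h5
    have h6 : L.blk T ≠ 2 * i + 1 := fun e => hn ((L.hub_iff hT hi).2 (Or.inr (Or.inl e)))
    omega
  exact L.dis S T hS hT h2 h4 _ h1

/-- the middle vertex and the star of the left hub -/
theorem mid_lt_star {i : ℕ} (h : L.lk i) {T : Finset α} (hT : IsT G A T) (hi : L.h i ∈ T)
    (hne : T ≠ L.Q i) : vlt G col (L.mid i) T := by
  refine ⟨fun hm => hne (L.mid_unique h hT hm), L.h i, hi, ?_, z3_sub2 _ _ (L.lk_mid i h)⟩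
  exact (L.Q_T h).adj (L.mid_mem_Q i) (L.h_mem_Q i) (L.mid_ne_h h (L.lk_m h))

/-- the middle vertex and the star of the right hub -/
theorem mid_gt_star {i : ℕ} (h : L.lk i) {T : Finset α} (hT : IsT G A T)
    (hi : L.h (i + 1) ∈ T) (hne : T ≠ L.Q i) : vgt G col (L.mid i) T := by
  refine ⟨fun hm => hne (L.mid_unique h hT hm), L.h (i + 1), hi, ?_, z3_sub1 _ _ (L.mid_col h)⟩
  exact (L.Q_T h).adj (L.mid_mem_Q i) (L.h1_mem_Q i) (L.mid_ne_h h (L.lk_lt i h))

/-- the middle vertex and the triangles on the left -/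
theorem mid_gt (hC : PC G A col) {i : ℕ} (h : L.lk i) {T : Finset α} (hT : IsT G A T)
    (hi : L.h i ∉ T) (hb : L.blk T < 2 * i + 1) : vgt G col (L.mid i) T := by
  have hne : T ≠ L.Q i := by
    rintro rfl
    rw [L.Q_blk h] at hb
    omega
  have hd : Disjoint T (L.Q i) := by
    apply L.disj_of hT (L.Q_T h) hne
    intro j hj h1 h2
    have h3 := (L.hub_iff (L.Q_T h) hj).1 h2
    rw [L.Q_blk h] at h3
    have h4 := (L.hub_iff hT hj).1 h1
    have h5 : j ≠ i := fun e => hi (e ▸ h1)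
    omega
  exact hC.tlt_gt hT (L.Q_T h) (L.dis _ _ hT (L.Q_T h) hd (by rw [L.Q_blk h]; exact hb)) _ (L.mid_mem_Q i)

/-- the middle vertex and the triangles on the right -/
theorem mid_lt {i : ℕ} (h : L.lk i) {T : Finset α} (hT : IsT G A T)
    (hi : L.h (i + 1) ∉ T) (hb : 2 * i + 1 < L.blk T) : vlt G col (L.mid i) T := by
  have hne : L.Q i ≠ T := by
    rintro rfl
    rw [L.Q_blk h] at hb
    omega
  have hd : Disjoint (L.Q i) T := by
    apply L.disj_of (L.Q_T h) hT hne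
    intro j hj h2 h1
    have h3 := (L.hub_iff (L.Q_T h) hj).1 h2
    rw [L.Q_blk h] at h3
    have h4 := (L.hub_iff hT hj).1 h1
    have h5 : j ≠ i + 1 := fun e => hi (e ▸ h1)
    omega
  exact L.dis _ _ (L.Q_T h) hT hd (by rw [L.Q_blk h]; exact hb) _ (L.mid_mem_Q i)

/-- inversions for disjoint triangles -/
theorem inv_disj (hC : PC G A col) {T T' : Finset α} (hT : IsT G A T) (hT' : IsT G A T')
    (hd : Disjoint T T') (hb : L.blk T < L.blk T') {v : α} (hv : v ∈ A) (h1 : vlt G col v T)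
    (h2 : vgt G col v T') :
    ∃ i, L.lk i ∧ v = L.mid i ∧ L.h i ∈ T ∧ L.h (i + 1) ∈ T' ∧ T ≠ L.Q i ∧ T' ≠ L.Q i := by
  have hlt := L.dis T T' hT hT' hd hb
  obtain ⟨x, hx, hxc⟩ := hC.ex_col hT (col v + 1)
  obtain ⟨y, hy, hyc⟩ := hC.ex_col hT' (col v + 2)
  have hQ := hC.inv hT hT' hlt hv h1 h2 hx hxc hy hyc
  have hxT' := Finset.disjoint_left.1 hd hx
  have hyT := Finset.disjoint_right.1 hd hy
  have n1 : ({v, x, y} : Finset α) ≠ T := fun e => hyT (e ▸ by simp)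
  have n2 : ({v, x, y} : Finset α) ≠ T' := fun e => hxT' (e ▸ by simp)
  obtain ⟨i, hi, rfl⟩ := L.share _ _ hQ hT n1 x (by simp) hx
  obtain ⟨j, hj, rfl⟩ := L.share _ _ hQ hT' n2 y (by simp) hy
  have hij : i ≠ j := by
    rintro rfl
    exact hxT' hy
  have a1 := (L.hub_iff hQ hi).1 (by simp)
  have a2 := (L.hub_iff hQ hj).1 (by simp)
  have hblk : (L.blk {v, L.h i, L.h j} = 2 * i + 1 ∧ j = i + 1) ∨
      (L.blk {v, L.h i, L.h j} = 2 * j + 1 ∧ i = j + 1) := by omega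
  rcases hblk with ⟨hb1, rfl⟩ | ⟨hb1, rfl⟩
  · obtain ⟨hl, he⟩ := L.blk_odd _ hQ i hb1
    refine ⟨i, hl, ?_, hx, hy, ?_, ?_⟩
    · apply hC.col_inj (L.Q_T hl)
      · unfold Q; rw [← he]; simp
      · exact L.mid_mem_Q i
      · rw [L.lk_mid i hl, hxc]
        generalize col v = a
        revert a
        decide
    · rintro rfl
      exact hyT (L.h1_mem_Q i)
    · rintro rfl
      exact hxT' (L.h_mem_Q i)
  · exfalso
    obtain ⟨hl, _⟩ := L.blk_odd _ hQ j hb1
    have := L.lk_col j hl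
    rw [hxc, hyc] at this
    revert this
    generalize col v = a
    revert a
    decide

/-- **Inversions.**  `v < T`, `v > T'` and `blk T < blk T'` only for `v = mid i`, `T ≠ Q_i` in the
star of `h i` and `T' ≠ Q_i` in the star of `h (i+1)`. -/
theorem inv (hC : PC G A col) {T T' : Finset α} (hT : IsT G A T) (hT' : IsT G A T')
    (hb : L.blk T < L.blk T') {v : α} (hv : v ∈ A) (h1 : vlt G col v T) (h2 : vgt G col v T') :
    ∃ i, L.lk i ∧ v = L.mid i ∧ L.h i ∈ T ∧ L.h (i + 1) ∈ T' ∧ T ≠ L.Q i ∧ T' ≠ L.Q i := by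
  by_cases hd : Disjoint T T'
  · exact L.inv_disj hC hT hT' hd hb hv h1 h2
  exfalso
  have hne : T ≠ T' := by rintro rfl; omega
  obtain ⟨x, hx, hx'⟩ := Finset.not_disjoint_iff.1 hd
  obtain ⟨i, hi, rfl⟩ := L.share _ _ hT hT' hne x hx hx'
  have a1 := (L.hub_iff hT hi).1 hx
  have a2 := (L.hub_iff hT' hi).1 hx'
  -- the colour of `v` is the colour of `h i`
  have hcv : col v = col (L.h i) := by
    by_contra hcv
    exact hC.not_both hT' hv (hC.uni_lt hT hT' hx hx' hv h2.1 hcv h1) h2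
  have hcase : L.blk T + 1 = 2 * i ∨ (L.blk T = 2 * i ∧ L.blk T' = 2 * i + 1) := by omega
  rcases hcase with hc | ⟨hc, hc'⟩
  · -- `T = Q_{i-1}`
    obtain ⟨k, rfl⟩ : ∃ k, i = k + 1 := ⟨i - 1, by omega⟩
    have hbT : L.blk T = 2 * k + 1 := by omega
    obtain ⟨hl, hTQ⟩ := L.blk_odd _ hT k hbT
    change T = L.Q k at hTQ
    subst hTQ
    obtain ⟨S, hS, hS1, hS2⟩ := L.ex_left hl
    have hST' : Disjoint S T' := by
      apply L.disj_of hS hT'
      · rintro rfl; omega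
      · intro j hj h3 h4
        have h5 := (L.hub_iff hS hj).1 h3
        have h6 := (L.hub_iff hT' hj).1 h4
        omega
    have hbS : L.blk S < L.blk T' := by omega
    have hlt := L.dis _ _ hS hT' hST' hbS
    have hvS : v ∉ S := fun hm => hC.not_both hT' hv (hlt v hm) h2
    rcases hC.lt_or_gt hS hv hvS with h3 | h3
    · obtain ⟨j, hj, rfl, b1, b2, b3, b4⟩ := L.inv_disj hC hS hT' hST' hbS hv h3 h2
      have c1 := (L.hub_iff hS (L.lk_m hj)).1 b1
      have c2 := (L.hub_iff hT' (L.lk_lt j hj)).1 b2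
      have hjk : j = k := by omega
      subst hjk
      exact h1.1 (L.mid_mem_Q j)
    · -- `v > S`, `v < Q_k`
      have hck : col v ≠ col (L.h k) := by
        rw [hcv, L.lk_col k hl]
        generalize col (L.h k) = a
        revert a
        decide
      exact hC.not_both hS hv (hC.uni_lt (L.Q_T hl) hS (L.h_mem_Q k) hS1 hv hvS hck h1) h3
  · -- `T` in `B_i`, `T' = Q_i`
    obtain ⟨hl, hTQ⟩ := L.blk_odd _ hT' i hc'
    change T' = L.Q i at hTQ
    subst hTQ
    obtain ⟨S, hS, hS1, hS2⟩ := L.ex_right hl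
    have hTS : Disjoint T S := by
      apply L.disj_of hT hS
      · rintro rfl; omega
      · intro j hj h3 h4
        have h5 := (L.hub_iff hT hj).1 h3
        have h6 := (L.hub_iff hS hj).1 h4
        omega
    have hbS : L.blk T < L.blk S := by omega
    have hlt := L.dis _ _ hT hS hTS hbS
    have hvS : v ∉ S := fun hm => hC.not_both hT hv h1 (hC.tlt_gt hT hS hlt v hm)
    rcases hC.lt_or_gt hS hv hvS with h3 | h3
    · have hck : col v ≠ col (L.h (i + 1)) := by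
        rw [hcv, L.lk_col i hl]
        generalize col (L.h i) = a
        revert a
        decide
      exact hC.not_both (L.Q_T hl) hv (hC.uni_lt hS (L.Q_T hl) hS1 (L.h1_mem_Q i) hv h2.1 hck h3) h2
    · obtain ⟨j, hj, rfl, b1, b2, b3, b4⟩ := L.inv_disj hC hT hS hTS hbS hv h1 h3
      have c1 := (L.hub_iff hT (L.lk_m hj)).1 b1
      have c2 := (L.hub_iff hS (L.lk_lt j hj)).1 b2
      have hjk : j = i := by omega
      subst hjk
      exact h2.1 (L.mid_mem_Q j)

/-- Monotonicity for vertices which are not middle vertices. -/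
theorem mono_lt (hC : PC G A col) {v : α} (hv : v ∈ A) (hm : ∀ i, L.lk i → v ≠ L.mid i)
    {T T' : Finset α} (hT : IsT G A T) (hT' : IsT G A T') (hb : L.blk T < L.blk T')
    (hvT' : v ∉ T') (h1 : vlt G col v T) : vlt G col v T' := by
  apply hC.lt_of_not_gt hT' hv hvT'
  intro h2
  obtain ⟨i, h3, h4, _⟩ := L.inv hC hT hT' hb hv h1 h2
  exact hm i h3 h4

theorem mono_gt (hC : PC G A col) {v : α} (hv : v ∈ A) (hm : ∀ i, L.lk i → v ≠ L.mid i)
    {T T' : Finset α} (hT : IsT G A T) (hT' : IsT G A T') (hb : L.blk T < L.blk T')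
    (hvT : v ∉ T) (h1 : vgt G col v T') : vgt G col v T := by
  apply hC.gt_of_not_lt hT hv hvT
  intro h2
  obtain ⟨i, h3, h4, _⟩ := L.inv hC hT hT' hb hv h2 h1
  exact hm i h3 h4

end Line

end Pool.Agent.H.MP_ebc13b_lc.h53
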