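import Pool.Agent.H.MP_ebc13b_lc.h53.Rev

/-!
Maximal stable sets: the triangles met by a maximal stable set without consecutive middle vertices
form a cyclic interval.
-/

namespace Pool.Agent.H.MP_ebc13b_lc.h53

open Pool.Agent.H.MP_ebc13b_lc.h46

variable {α : Type*} [DecidableEq α] {G : SimpleGraph α} {A : Finset α} {col : α → ZMod 3}

/-- maximal stable subsets of `A` -/
structure MaxS (G : SimpleGraph α) (A F : Finset α) : Prop where
  sub : F ⊆ A
  stab : ∀ u ∈ F, ∀ v ∈ F, ¬ G.Adj u v
  max : ∀ v ∈ A, v ∉ F → ∃ f ∈ F, G.Adj v f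

/-- the triangle `T` meets `F` -/
def Hit (F T : Finset α) : Prop := ∃ u ∈ T, u ∈ F

/-- (F-a) -/
theorem MaxS.lt_of_hit {F : Finset α} (hF : MaxS G A F) (hC : PC G A col) {T : Finset α}
    (hT : IsT G A T) {u f : α} (hu : u ∈ T) (huF : u ∈ F) (hf : f ∈ F) (hc : col f = col u + 1) :
    vlt G col f T := by
  have hfT : f ∉ T := by
    intro h
    by_cases he : f = u
    · rw [he] at hc
      revert hc
      generalize col u = a
      revert a
      decide
    · exact hF.stab f hf u huF (hT.adj h hu he)
  apply hC.lt_of_not_gt hT (hF.sub hf) hfT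
  intro hg
  exact hF.stab f hf u huF (hC.gt_adj hT hg hu (z3_sub1 _ _ hc))

theorem MaxS.gt_of_hit {F : Finset α} (hF : MaxS G A F) (hC : PC G A col) {T : Finset α}
    (hT : IsT G A T) {u f : α} (hu : u ∈ T) (huF : u ∈ F) (hf : f ∈ F) (hc : col f = col u + 2) :
    vgt G col f T := by
  have hfT : f ∉ T := by
    intro h
    by_cases he : f = u
    · rw [he] at hc
      revert hc
      generalize col u = a
      revert a
      decide
    · exact hF.stab f hf u huF (hT.adj h hu he)
  apply hC.gt_of_not_lt hT (hF.sub hf) hfT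
  intro hg
  exact hF.stab f hf u huF (hC.lt_adj hT hg hu (z3_sub2 _ _ hc))

/-- (F-b) -/
theorem MaxS.of_miss {F : Finset α} (hF : MaxS G A F) (hC : PC G A col) {S : Finset α}
    (hS : IsT G A S) (hm : ¬ Hit F S) (k : ZMod 3) :
    (∃ f ∈ F, col f = k + 2 ∧ vlt G col f S) ∨ (∃ f ∈ F, col f = k + 1 ∧ vgt G col f S) := by
  obtain ⟨s, hs, hsc⟩ := hC.ex_col hS k
  have hsF : s ∉ F := fun h => hm ⟨s, hs, h⟩
  obtain ⟨f, hf, hsf⟩ := hF.max s (hS.1 hs) hsF
  have hfS : f ∉ S := fun h => hm ⟨f, h, hf⟩
  have hne := hC.col s (hS.1 hs) f (hF.sub hf) hsf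
  rcases z3_cases _ _ hne with h | h
  · right
    exact ⟨f, hf, by rw [h, hsc], hfS, s, hs, hsf.symm, z3_sub1 _ _ h⟩
  · left
    exact ⟨f, hf, by rw [h, hsc], hfS, s, hs, hsf.symm, z3_sub2 _ _ h⟩

theorem MaxS.nadj {F : Finset α} (hF : MaxS G A F) {u v : α} (hu : u ∈ F) (hv : v ∈ F)
    (h : G.Adj u v) : False := hF.stab u hu v hv h

/-- `T` is met iff some class condition holds -/
theorem MaxS.hit_of {F : Finset α} (hF : MaxS G A F) (hC : PC G A col) {S : Finset α}
    (hS : IsT G A S) (k : ZMod 3) (h1 : ∀ f ∈ F, col f = k + 2 → ¬ vlt G col f S)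
    (h2 : ∀ f ∈ F, col f = k + 1 → ¬ vgt G col f S) : Hit F S := by
  by_contra hm
  rcases hF.of_miss hC hS hm k with ⟨f, a, b, c⟩ | ⟨f, a, b, c⟩
  · exact h1 f a b c
  · exact h2 f a b c

namespace Line

variable (L : Line G A col)

/-- (M1) -/
theorem M1 (hC : PC G A col) {F : Finset α} (hF : MaxS G A F) {i : ℕ} (hl : L.lk i)
    (hm : L.mid i ∈ F) {f : α} (hf : f ∈ F) (hc : col f = col (L.h i)) {T : Finset α}
    (hT : IsT G A T) (hi : L.h (i + 1) ∈ T) (h : vgt G col f T) : False := by
  have hfQ : f ∉ L.Q i := by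
    intro hfQ
    have : f = L.h i := hC.col_inj (L.Q_T hl) hfQ (L.h_mem_Q i) hc
    rw [this] at hf
    exact hF.stab _ hm _ hf ((L.Q_T hl).adj (L.mid_mem_Q i) (L.h_mem_Q i)
      (L.mid_ne_h hl (L.lk_m hl)))
  have hne : col f ≠ col (L.h (i + 1)) := by
    rw [hc, L.lk_col i hl]
    generalize col (L.h i) = a
    revert a
    decide
  have h1 := hC.uni_gt hT (L.Q_T hl) hi (L.h1_mem_Q i) (hF.sub hf) hfQ hne h
  exact hF.stab _ hf _ hm (hC.gt_adj (L.Q_T hl) h1 (L.mid_mem_Q i) (by rw [L.lk_mid i hl, hc]))

/-- (M2) -/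
theorem M2 (hC : PC G A col) {F : Finset α} (hF : MaxS G A F) {i : ℕ} (hl : L.lk i)
    (hm : L.mid i ∈ F) {f : α} (hf : f ∈ F) (hc : col f = col (L.h i) + 1) {T : Finset α}
    (hT : IsT G A T) (hi : L.h i ∈ T) (h : vlt G col f T) : False := by
  have hfQ : f ∉ L.Q i := by
    intro hfQ
    have : f = L.h (i + 1) := hC.col_inj (L.Q_T hl) hfQ (L.h1_mem_Q i) (by rw [hc, L.lk_col i hl])
    rw [this] at hf
    exact hF.stab _ hm _ hf ((L.Q_T hl).adj (L.mid_mem_Q i) (L.h1_mem_Q i)
      (L.mid_ne_h hl (L.lk_lt i hl)))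
  have hne : col f ≠ col (L.h i) := by
    rw [hc]
    generalize col (L.h i) = a
    revert a
    decide
  have h1 := hC.uni_lt hT (L.Q_T hl) hi (L.h_mem_Q i) (hF.sub hf) hfQ hne h
  refine hF.stab _ hf _ hm (hC.lt_adj (L.Q_T hl) h1 (L.mid_mem_Q i) ?_)
  rw [L.lk_mid i hl, hc, z3_11]

/-- no two consecutive middle vertices in `F` -/
def NoCons (F : Finset α) : Prop :=
  ∀ i, L.lk i → L.lk (i + 1) → L.mid i ∈ F → L.mid (i + 1) ∉ F

/-- the vertices of `Q_i` by colour -/
theorem Q_cases {i : ℕ} {u : α} (hu : u ∈ L.Q i) : u = L.h i ∨ u = L.mid i ∨ u = L.h (i + 1) := by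
  unfold Q at hu
  simpa using hu

/-- case of equal colours: reason for a missed triangle `S` between, right type -/
theorem alpha (hC : PC G A col) {F : Finset α} (hF : MaxS G A F) (hN : L.NoCons F)
    {T S : Finset α} (hT : IsT G A T) (hS : IsT G A S) (hm : ¬ Hit F S)
    {u f : α} (hu : u ∈ T) (huF : u ∈ F)
    (hTS : L.blk T < L.blk S) (hf : f ∈ F) (hfc : col f = col u + 1)
    (hfS : vgt G col f S) :
    ∃ i, L.lk i ∧ L.mid i ∈ F ∧ L.blk T = 2 * i ∧ L.h (i + 1) ∈ S ∧ S ≠ L.Q i ∧
      col u = col (L.h i) + 1 := by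
  have h1 := hF.lt_of_hit hC hT hu huF hf hfc
  obtain ⟨i, a1, a2, a3, a4, a5, a6⟩ := L.inv hC hT hS hTS (hF.sub hf) h1 hfS
  subst a2
  have hcu : col u = col (L.h i) + 1 := by
    rw [L.lk_mid i a1] at hfc
    revert hfc
    generalize col u = a
    generalize col (L.h i) = b
    revert a b
    decide
  refine ⟨i, a1, hf, ?_, a4, a6, hcu⟩
  have a7 := (L.hub_iff hT (L.lk_m a1)).1 a3
  rcases a7 with h | h | h
  · exact h
  · exact absurd (L.eq_Q hT h) a5
  · exfalso
    obtain ⟨k, rfl⟩ : ∃ k, i = k + 1 := ⟨i - 1, by omega⟩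
    have hb : L.blk T = 2 * k + 1 := by omega
    obtain ⟨hl, hTQ⟩ := L.blk_odd T hT k hb
    change T = L.Q k at hTQ
    subst hTQ
    have : u = L.mid k := by
      apply hC.col_inj hT hu (L.mid_mem_Q k)
      rw [hcu, L.lk_mid k hl, L.lk_col k hl, z3_11]
    subst this
    exact hN k hl a1 huF hf

/-- consequences of type `α` -/
theorem alpha_no (hC : PC G A col) {F : Finset α} (hF : MaxS G A F) (hN : L.NoCons F)
    {T S T' S₀ : Finset α} (hT : IsT G A T) (hS : IsT G A S) (hT' : IsT G A T')
    (hS₀ : IsT G A S₀) (hm : ¬ Hit F S) (hm₀ : ¬ Hit F S₀)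
    {u u' : α} (hu : u ∈ T) (huF : u ∈ F) (hu' : u' ∈ T') (huF' : u' ∈ F)
    (hTS : L.blk T < L.blk S) (hST' : L.blk S < L.blk T')
    (hS₀ : L.blk S₀ < L.blk T ∨ L.blk T' < L.blk S₀) (hcc : col u' = col u)
    (hf : ∃ f ∈ F, col f = col u + 1 ∧ vgt G col f S) : False := by
  obtain ⟨f₀, hf₀, hfc₀, hfS₀⟩ := hf
  obtain ⟨i, hl, hmF, hbT, hiS, hSQ, hcu⟩ :=
    L.alpha hC hF hN hT hS hm hu huF hTS hf₀ hfc₀ hfS₀
  have hiT : L.h i ∈ T := (L.hub_iff hT (L.lk_m hl)).2 (Or.inl hbT)
  have hbS := (L.hub_iff hS (L.lk_lt i hl)).1 hiS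
  have hbSQ : L.blk S ≠ 2 * i + 1 := fun e => hSQ (L.eq_Q hS e)
  -- the third class is empty
  have hemp : ∀ f ∈ F, col f ≠ col u + 2 := by
    intro f hf hfc
    have hfc' : col f = col (L.h i) := by
      rw [hfc, hcu]
      generalize col (L.h i) = b
      revert b
      decide
    have h1 := hF.gt_of_hit hC hT' hu' huF' hf (by rw [hfc, hcc])
    have hfS : f ∉ S := fun h => hm ⟨f, h, hf⟩
    rcases hC.lt_or_gt hS (hF.sub hf) hfS with h2 | h2
    · obtain ⟨l, b1, b2, b3, b4, b5, b6⟩ := L.inv hC hS hT' hST' (hF.sub hf) h2 h1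
      have b7 := (L.hub_iff hS (L.lk_m b1)).1 b3
      have b8 : L.blk S ≠ 2 * l + 1 := fun e => b5 (L.eq_Q hS e)
      have hcases : l = i + 1 ∨ l = i + 2 := by omega
      rcases hcases with rfl | rfl
      · exact hN i hl b1 hmF (b2 ▸ hf)
      · -- colour of `mid (i+2)`
        have e : L.blk S = 2 * (i + 1) + 1 := by omega
        have e1 := (L.blk_odd S hS (i + 1) e).1
        have e2 := L.lk_mid _ b1
        rw [← b2, hfc', L.lk_col _ e1, L.lk_col i hl] at e2
        revert e2
        generalize col (L.h i) = b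
        revert b
        decide
    · exact L.M1 hC hF hl hmF hf hfc' hS hiS h2
  rcases hS₀ with h | h
  · -- left
    rcases hF.of_miss hC ‹IsT G A S₀› hm₀ (col u + 1) with ⟨f, hf, hfc, hfl⟩ | ⟨f, hf, hfc, _⟩
    · have hfc' : col f = col (L.h i) + 1 := by
        rw [hfc, hcu]
        generalize col (L.h i) = b
        revert b
        decide
      by_cases hfT : f ∈ T
      · -- `f` is in `T`, a triangle of `B_i`
        have hfh : f ≠ L.h i := by
          rintro rfl
          revert hfc'
          generalize col (L.h i) = b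
          revert b
          decide
        by_cases hiS₀ : L.h i ∈ S₀
        · refine hC.not_both ‹IsT G A S₀› (hF.sub hf) hfl
            ⟨hfl.1, L.h i, hiS₀, hT.adj hfT hiT hfh, z3_sub1 _ _ hfc'⟩
        · have hd : Disjoint S₀ T := by
            apply L.disj_of ‹IsT G A S₀› hT
            · rintro rfl; exact hiS₀ hiT
            · intro j hj h3 h4
              have h5 := (L.hub_iff hT hj).1 h4
              have h6 : j = i := by omega
              subst h6
              exact hiS₀ h3
          have h7 := L.dis _ _ ‹IsT G A S₀› hT hd h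
          exact hC.not_both ‹IsT G A S₀› (hF.sub hf) hfl (hC.tlt_gt ‹IsT G A S₀› hT h7 f hfT)
      · rcases hC.lt_or_gt hT (hF.sub hf) hfT with h2 | h2
        · exact L.M2 hC hF hl hmF hf hfc' hT hiT h2
        · obtain ⟨l, b1, b2, b3, b4, b5, b6⟩ :=
            L.inv hC ‹IsT G A S₀› hT h (hF.sub hf) hfl h2
          have b7 := (L.hub_iff hT (L.lk_lt l b1)).1 b4
          have hli : i = l + 1 := by omega
          subst hli
          exact hN l b1 hl (b2 ▸ hf) hmF
    · apply hemp f hf
      rw [hfc]
      exact z3_11 _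
  · -- right
    rcases hF.of_miss hC ‹IsT G A S₀› hm₀ (col u) with ⟨f, hf, hfc, _⟩ | ⟨f, hf, hfc, hfg⟩
    · exact hemp f hf hfc
    · have h1 := hF.lt_of_hit hC hT hu huF hf hfc
      obtain ⟨l, b1, b2, b3, b4, b5, b6⟩ :=
        L.inv hC hT ‹IsT G A S₀› (by omega) (hF.sub hf) h1 hfg
      have b7 := (L.hub_iff hT (L.lk_m b1)).1 b3
      have b8 : L.blk T ≠ 2 * l + 1 := fun e => b5 (L.eq_Q hT e)
      have hli : l = i := by omega
      subst hli
      have b9 := (L.hub_iff ‹IsT G A S₀› (L.lk_lt _ hl)).1 b4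
      omega

/-- type `γ`, left side -/
theorem gamma_left (hC : PC G A col) {F : Finset α} (hF : MaxS G A F) (hN : L.NoCons F)
    {T S S₀ : Finset α} (hT : IsT G A T) (hS : IsT G A S)
    (hS₀ : IsT G A S₀) (hm : ¬ Hit F S) (hm₀ : ¬ Hit F S₀)
    {u : α} (hu : u ∈ T) (huF : u ∈ F)
    (hTS : L.blk T < L.blk S) (h : L.blk S₀ < L.blk T)
    (hemp : ∀ f ∈ F, col f ≠ col u + 1) : False := by
  rcases hF.of_miss hC hS₀ hm₀ (col u) with ⟨f, hf, hfc, hfl⟩ | ⟨f, hf, hfc, _⟩
  · have h1 := hF.gt_of_hit hC hT hu huF hf hfc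
    obtain ⟨j, a1, a2, a3, a4, a5, a6⟩ := L.inv hC hS₀ hT h (hF.sub hf) hfl h1
    subst a2
    have hcj : col u = col (L.h j) := by
      rw [L.lk_mid j a1] at hfc
      revert hfc
      generalize col u = a
      generalize col (L.h j) = b
      revert a b
      decide
    have a7 := (L.hub_iff hT (L.lk_lt j a1)).1 a4
    have a8 : L.blk T ≠ 2 * j + 1 := fun e => a6 (L.eq_Q hT e)
    have hbT : L.blk T = 2 * (j + 1) := by
      rcases a7 with h2 | h2 | h2
      · exact h2
      · exfalso
        obtain ⟨hl, hTQ⟩ := L.blk_odd T hT (j + 1) h2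
        change T = L.Q (j + 1) at hTQ
        subst hTQ
        have : u = L.mid (j + 1) := by
          apply hC.col_inj hT hu (L.mid_mem_Q _)
          rw [hcj, L.lk_mid _ hl, L.lk_col j a1]
          generalize col (L.h j) = b
          revert b
          decide
        subst this
        exact hN j a1 hl hf huF
      · omega
    rcases hF.of_miss hC hS hm (col u + 2) with ⟨g, hg, hgc, _⟩ | ⟨g, hg, hgc, hgg⟩
    · apply hemp g hg
      rw [hgc]
      generalize col u = b
      revert b
      decide
    · have hgc' : col g = col u := by rw [hgc, z3_21]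
      have hgT : vgt G col g T := by
        by_cases hgT : g ∈ T
        · exfalso
          have : g = u := hC.col_inj hT hgT hu hgc'
          subst this
          by_cases hjS : L.h (j + 1) ∈ S
          · have hgh : g ≠ L.h (j + 1) := by
              intro e
              have := L.lk_col j a1
              rw [← e, hcj] at this
              revert this
              generalize col (L.h j) = b
              revert b
              decide
            refine hC.not_both hS (hF.sub hg)
              ⟨hgg.1, L.h (j + 1), hjS, hT.adj hu a4 hgh, ?_⟩ hgg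
            rw [L.lk_col j a1, hcj]
          · have hd : Disjoint T S := by
              apply L.disj_of hT hS
              · rintro rfl; exact hjS a4
              · intro i hi h3 h4
                have h5 := (L.hub_iff hT hi).1 h3
                have h6 : i = j + 1 := by omega
                subst h6
                exact hjS h4
            exact hC.not_both hS (hF.sub hg) (L.dis _ _ hT hS hd hTS g hu) hgg
        · apply hC.gt_of_not_lt hT (hF.sub hg) hgT
          intro hlt
          obtain ⟨l, b1, b2, b3, b4, b5, b6⟩ := L.inv hC hT hS hTS (hF.sub hg) hlt hgg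
          have b7 := (L.hub_iff hT (L.lk_m b1)).1 b3
          have b8 : L.blk T ≠ 2 * l + 1 := fun e => b5 (L.eq_Q hT e)
          have hlj : l = j + 1 := by omega
          subst hlj
          exact hN j a1 b1 hf (b2 ▸ hg)
      exact L.M1 hC hF a1 hf hg (hgc'.trans hcj) hT a4 hgT
  · exact hemp f hf hfc

theorem NoCons.rev {L : Line G A col} (hC : PC G A col) {F : Finset α} (hN : L.NoCons F) :
    (L.rev hC).NoCons F := by
  intro i h1 h2 h3 h4
  rw [L.rev_lk] at h1 h2
  rw [L.rev_mid] at h3 h4
  have e : L.m - 2 - i = (L.m - 2 - (i + 1)) + 1 := by omega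
  rw [e] at h1 h3
  exact hN _ h2.2 h1.2 h4 h3

/-- **F1**: without consecutive middle vertices, the triangles met by the maximal stable set `F`
form a cyclic interval. -/
theorem F1_no (hC : PC G A col) {F : Finset α} (hF : MaxS G A F) (hN : L.NoCons F)
    {T S T' S₀ : Finset α} (hT : IsT G A T) (hS : IsT G A S) (hT' : IsT G A T')
    (hS₀ : IsT G A S₀) (h1 : Hit F T) (hm : ¬ Hit F S) (h2 : Hit F T') (hm₀ : ¬ Hit F S₀)
    (hTS : L.blk T < L.blk S) (hST' : L.blk S < L.blk T')
    (hb : L.blk S₀ < L.blk T ∨ L.blk T' < L.blk S₀) : False := by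
  obtain ⟨u, hu, huF⟩ := h1
  obtain ⟨u', hu', huF'⟩ := h2
  have leT := L.blk_le hT
  have leS := L.blk_le hS
  have leT' := L.blk_le hT'
  have leS₀ := L.blk_le hS₀
  by_cases hc : col u' = col u
  · rcases hF.of_miss hC hS hm (col u) with ⟨f, hf, hfc, hfl⟩ | hf
    · refine (L.rev hC).alpha_no hC.rev hF (hN.rev hC) hT' hS hT hS₀ hm hm₀ hu' huF' hu huF
        ?_ ?_ ?_ ?_ ⟨f, hf, ?_, vgt_rcol.2 hfl⟩
      · rw [L.rev_blk, L.rev_blk]; omega
      · rw [L.rev_blk, L.rev_blk]; omega
      · rw [L.rev_blk, L.rev_blk, L.rev_blk]; omega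
      · simp only [rcol, hc]
      · simp only [rcol]
        rw [hfc, hc]
        generalize col u = a
        revert a
        decide
    · exact L.alpha_no hC hF hN hT hS hT' hS₀ hm hm₀ hu huF hu' huF' hTS hST' hb hc hf
  · rcases z3_cases _ _ (Ne.symm hc) with hc | hc
    · -- `k' = k + 1`
      have hnd : ¬ Disjoint T T' := by
        intro hd
        have hlt := L.dis T T' hT hT' hd (hTS.trans hST')
        exact hF.stab u huF u' huF' (hC.lt_adj hT' (hlt u hu) hu' hc)
      obtain ⟨x, hx, hx'⟩ := Finset.not_disjoint_iff.1 hnd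
      obtain ⟨i, hi, rfl⟩ := L.share T T' hT hT' (by rintro rfl; omega) x hx hx'
      have a1 := (L.hub_iff hT hi).1 hx
      have a2 := (L.hub_iff hT' hi).1 hx'
      have a3 : L.blk T + 1 = 2 * i := by omega
      have a4 : L.blk T' = 2 * i + 1 := by omega
      obtain ⟨k, rfl⟩ : ∃ k, i = k + 1 := ⟨i - 1, by omega⟩
      obtain ⟨hl, e1⟩ := L.blk_odd T hT k (by omega)
      obtain ⟨hl', e2⟩ := L.blk_odd T' hT' _ a4
      change T = L.Q k at e1
      change T' = L.Q (k + 1) at e2
      subst e1 e2
      have c1 := L.lk_col k hl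
      have c2 := L.lk_mid k hl
      have c3 := L.lk_col _ hl'
      have c4 := L.lk_mid _ hl'
      have n1 : L.h (k + 1) ∉ F := by
        intro hh
        have e3 : u = L.h (k + 1) := by
          by_contra hne
          exact hF.stab _ huF _ hh (hT.adj hu hx hne)
        have e4 : u' = L.h (k + 1) := by
          by_contra hne
          exact hF.stab _ huF' _ hh (hT'.adj hu' hx' hne)
        rw [e3, e4] at hc
        revert hc
        generalize col (L.h (k + 1)) = b
        revert b
        decide
      rcases L.Q_cases hu with rfl | rfl | rfl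
      · rcases L.Q_cases hu' with rfl | rfl | rfl
        · exact n1 huF'
        · rw [c4, c1] at hc
          revert hc
          generalize col (L.h k) = b
          revert b
          decide
        · rw [c3, c1] at hc
          revert hc
          generalize col (L.h k) = b
          revert b
          decide
      · rcases L.Q_cases hu' with rfl | rfl | rfl
        · exact n1 huF'
        · exact hN k hl hl' huF huF'
        · rw [c3, c1, c2] at hc
          revert hc
          generalize col (L.h k) = b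
          revert b
          decide
      · exact n1 huF
    · -- `k' = k + 2`
      have hemp : ∀ f ∈ F, col f ≠ col u + 1 := by
        intro f hf hfc
        have b1 := hF.lt_of_hit hC hT hu huF hf hfc
        have b2 := hF.gt_of_hit hC hT' hu' huF' hf (by
          rw [hfc, hc]
          generalize col u = b
          revert b
          decide)
        obtain ⟨i, a1, a2, a3, a4, a5, a6⟩ :=
          L.inv hC hT hT' (hTS.trans hST') (hF.sub hf) b1 b2
        subst a2
        have hcu : col u = col (L.h i) + 1 := by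
          rw [L.lk_mid i a1] at hfc
          revert hfc
          generalize col u = a
          generalize col (L.h i) = b
          revert a b
          decide
        have a7 := (L.hub_iff hT (L.lk_m a1)).1 a3
        have a8 := (L.hub_iff hT' (L.lk_lt i a1)).1 a4
        have a9 : L.blk T ≠ 2 * i + 1 := fun e => a5 (L.eq_Q hT e)
        have a10 : L.blk T' ≠ 2 * i + 1 := fun e => a6 (L.eq_Q hT' e)
        have a11 : L.blk T = 2 * i := by
          rcases a7 with h | h | h
          · exact h
          · exact absurd h a9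
          · exfalso
            obtain ⟨k, rfl⟩ : ∃ k, i = k + 1 := ⟨i - 1, by omega⟩
            obtain ⟨hl, hTQ⟩ := L.blk_odd T hT k (by omega)
            change T = L.Q k at hTQ
            subst hTQ
            have : u = L.mid k := by
              apply hC.col_inj hT hu (L.mid_mem_Q k)
              rw [hcu, L.lk_mid k hl, L.lk_col k hl, z3_11]
            subst this
            exact hN k hl a1 huF hf
        have a12 : L.blk T' = 2 * (i + 1) := by
          rcases a8 with h | h | h
          · exact h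
          · exfalso
            obtain ⟨hl, hTQ⟩ := L.blk_odd T' hT' (i + 1) h
            change T' = L.Q (i + 1) at hTQ
            subst hTQ
            have : u' = L.mid (i + 1) := by
              apply hC.col_inj hT' hu' (L.mid_mem_Q _)
              rw [hc, hcu, L.lk_mid _ hl, L.lk_col i a1]
            subst this
            exact hN i a1 hl hf huF'
          · omega
        have hSQ : S = L.Q i := L.eq_Q hS (by omega)
        subst hSQ
        exact hm ⟨L.mid i, L.mid_mem_Q i, hf⟩
      rcases hb with hb | hb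
      · exact L.gamma_left hC hF hN hT hS hS₀ hm hm₀ hu huF hTS hb hemp
      · refine (L.rev hC).gamma_left hC.rev hF (hN.rev hC) hT' hS hS₀ hm hm₀ hu' huF' ?_ ?_ ?_
        · rw [L.rev_blk, L.rev_blk]; omega
        · rw [L.rev_blk, L.rev_blk]; omega
        · intro f hf hfc
          apply hemp f hf
          simp only [rcol] at hfc
          rw [hc] at hfc
          revert hfc
          generalize col f = a
          generalize col u = b
          revert a b
          decide

end Line

end Pool.Agent.H.MP_ebc13b_lc.h53
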