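import Pool.Agent.H.MP_ebc13b_lc.h53.ZShape

/-!
Positions of the vertices in the natural order, integer version.
-/

namespace Pool.Agent.H.MP_ebc13b_lc.h53

open Pool.Agent.H.MP_ebc13b_lc.h46

variable {α : Type*} [DecidableEq α] {G : SimpleGraph α} {A : Finset α} {col : α → ZMod 3}

/-- the block `b` belongs to the star of the hub `i` -/
def inS (i b : ℤ) : Prop := b = 2 * i - 1 ∨ b = 2 * i ∨ b = 2 * i + 1

instance (i b : ℤ) : Decidable (inS i b) := by unfold inS; infer_instance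

theorem inS_iff {i b : ℤ} : inS i b ↔ 2 * i - 1 ≤ b ∧ b ≤ 2 * i + 1 := by
  unfold inS
  omega

theorem inS_neg {i b : ℤ} : inS (-i) (-b) ↔ inS i b := by
  unfold inS
  omega

namespace ZLine

variable (Z : ZLine G A col)

/-- `h i` is a (pseudo) hub -/
def re (i : ℤ) : Prop := ∃ b, inS i b ∧ (Z.bl b).Nonempty

/-- the two-hub triangle `Q_i` -/
def Q (i : ℤ) : Finset α := {Z.h i, Z.mid i, Z.h (i + 1)}

theorem re_of {i b : ℤ} {T : Finset α} (hT : T ∈ Z.bl b) (h : inS i b) : Z.re i :=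
  ⟨b, h, T, hT⟩

theorem lk_re {i : ℤ} (h : Z.lk i) : Z.re i := ⟨2 * i + 1, Or.inr (Or.inr rfl), h⟩

theorem lk_re1 {i : ℤ} (h : Z.lk i) : Z.re (i + 1) := ⟨2 * i + 1, by unfold inS; omega, h⟩

theorem Q_mem {i : ℤ} (h : Z.lk i) : Z.Q i ∈ Z.bl (2 * i + 1) := by
  obtain ⟨T, hT⟩ := h
  have := Z.eqQ i T hT
  rw [this] at hT
  exact hT

theorem eq_Q {i : ℤ} {T : Finset α} (hT : T ∈ Z.bl (2 * i + 1)) : T = Z.Q i := Z.eqQ i T hT

theorem Q_T {i : ℤ} (h : Z.lk i) : IsT G A (Z.Q i) := Z.isT _ _ (Z.Q_mem h)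

theorem h_mem_Q (i : ℤ) : Z.h i ∈ Z.Q i := by simp [Q]

theorem h1_mem_Q (i : ℤ) : Z.h (i + 1) ∈ Z.Q i := by simp [Q]

theorem mid_mem_Q (i : ℤ) : Z.mid i ∈ Z.Q i := by simp [Q]

theorem Q_cases {i : ℤ} {u : α} (hu : u ∈ Z.Q i) : u = Z.h i ∨ u = Z.mid i ∨ u = Z.h (i + 1) := by
  unfold Q at hu
  simpa using hu

theorem mem' {i b : ℤ} {T : Finset α} (hT : T ∈ Z.bl b) (h : inS i b) : Z.h i ∈ T :=
  Z.mem i b T h hT

theorem hub_iff {i b : ℤ} {T : Finset α} (hi : Z.re i) (hT : T ∈ Z.bl b) :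
    Z.h i ∈ T ↔ inS i b := ⟨fun h => Z.hub i hi b T hT h, fun h => Z.mem' hT h⟩

theorem hA {i : ℤ} (hi : Z.re i) : Z.h i ∈ A := by
  obtain ⟨b, hb, T, hT⟩ := hi
  exact (Z.isT b T hT).1 (Z.mem' hT hb)

theorem hinj {i j : ℤ} (hi : Z.re i) (hj : Z.re j) (h : Z.h i = Z.h j) : i = j := by
  have h1 := hi
  obtain ⟨b, hb, T, hT⟩ := h1
  obtain ⟨b', hb', T', hT'⟩ := id hj
  have h2 : inS j b := (Z.hub_iff hj hT).1 (h ▸ Z.mem' hT hb)
  have h3 : inS i b' := (Z.hub_iff hi hT').1 (h.symm ▸ Z.mem' hT' hb')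
  by_contra hne
  -- `b` is the odd block between `i` and `j`
  have key : ∀ k, Z.lk k → Z.h k ≠ Z.h (k + 1) := by
    intro k hk e
    have hc := (Z.Q_T hk).2.card_eq
    unfold Q at hc
    rw [← e] at hc
    have : ({Z.h k, Z.mid k, Z.h k} : Finset α).card ≤ 2 := by
      have e1 : ({Z.h k, Z.mid k, Z.h k} : Finset α) = {Z.h k, Z.mid k} := by
        ext w
        simp only [Finset.mem_insert, Finset.mem_singleton]
        tauto
      rw [e1]
      exact Finset.card_le_two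
    omega
  unfold inS at hb h2
  have hcase : (b = 2 * i + 1 ∧ j = i + 1) ∨ (b = 2 * j + 1 ∧ i = j + 1) := by omega
  rcases hcase with ⟨rfl, rfl⟩ | ⟨rfl, rfl⟩
  · exact key i ⟨T, hT⟩ h
  · exact key j ⟨T, hT⟩ h.symm

theorem eq_of_block {b : ℤ} {T T' : Finset α} (hT : T ∈ Z.bl b) (hT' : T' ∈ Z.bl b) {i : ℤ}
    (hb : b = 2 * i + 1) : T = T' := by
  subst hb
  rw [Z.eq_Q hT, Z.eq_Q hT']

/-- triangles without common hub are disjoint -/
theorem disj_of {b b' : ℤ} {T T' : Finset α} (hT : T ∈ Z.bl b) (hT' : T' ∈ Z.bl b')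
    (hne : T ≠ T') (h : ∀ i, inS i b → ¬ inS i b') : Disjoint T T' := by
  rw [Finset.disjoint_left]
  intro v hv hv'
  obtain ⟨i, _, h1, h2⟩ := Z.share b b' T T' hT hT' hne v hv hv'
  exact h i h1 h2

theorem ne_of_lt {b b' : ℤ} {T T' : Finset α} (hT : T ∈ Z.bl b) (hT' : T' ∈ Z.bl b')
    (h : b < b') : T ≠ T' := by
  rintro rfl
  have := Z.uniq T b b' hT hT'
  omega

theorem mid_col {i : ℤ} (h : Z.lk i) : col (Z.mid i) = col (Z.h (i + 1)) + 1 := by
  rw [Z.colm i h, Z.col1 i h, z3_11]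

theorem mid_ne_h {i j : ℤ} (h : Z.lk i) (hj : Z.re j) : Z.mid i ≠ Z.h j := by
  intro he
  have h1 : Z.h j ∈ Z.Q i := he ▸ Z.mid_mem_Q i
  have h2 := (Z.hub_iff hj (Z.Q_mem h)).1 h1
  unfold inS at h2
  have h3 : j = i ∨ j = i + 1 := by omega
  rcases h3 with rfl | rfl
  · have := Z.colm _ h
    rw [he] at this
    revert this
    generalize col (Z.h j) = a
    revert a
    decide
  · have := Z.mid_col h
    rw [he] at this
    revert this
    generalize col (Z.h (i + 1)) = a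
    revert a
    decide

/-- the middle vertex lies in no other triangle -/
theorem mid_unique {i : ℤ} (h : Z.lk i) {b : ℤ} {T : Finset α} (hT : T ∈ Z.bl b)
    (hm : Z.mid i ∈ T) : T = Z.Q i ∧ b = 2 * i + 1 := by
  have e : T = Z.Q i := by
    by_contra hne
    obtain ⟨j, he, h1, h2⟩ := Z.share b _ T (Z.Q i) hT (Z.Q_mem h) hne _ hm (Z.mid_mem_Q i)
    exact Z.mid_ne_h h (Z.re_of hT h1) he
  refine ⟨e, ?_⟩
  subst e
  exact Z.uniq _ _ _ hT (Z.Q_mem h)

theorem mid_A {i : ℤ} (h : Z.lk i) : Z.mid i ∈ A := (Z.Q_T h).1 (Z.mid_mem_Q i)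

/-- another triangle at the left hub of a link -/
theorem ex_left {i : ℤ} (h : Z.lk i) : ∃ b, ∃ T ∈ Z.bl b, (b = 2 * i - 1 ∨ b = 2 * i) := by
  by_cases h1 : (Z.bl (2 * i)).Nonempty
  · obtain ⟨T, hT⟩ := h1
    exact ⟨_, T, hT, Or.inr rfl⟩
  · obtain ⟨T, hT⟩ := (Z.ne i h1).2 h
    exact ⟨_, T, hT, Or.inl rfl⟩

/-- another triangle at the right hub of a link -/
theorem ex_right {i : ℤ} (h : Z.lk i) :
    ∃ b, ∃ T ∈ Z.bl b, (b = 2 * i + 2 ∨ b = 2 * i + 3) := by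
  by_cases h1 : (Z.bl (2 * (i + 1))).Nonempty
  · obtain ⟨T, hT⟩ := h1
    exact ⟨_, T, hT, Or.inl (by ring)⟩
  · have e : 2 * (i + 1) - 1 = 2 * i + 1 := by ring
    have h2 := (Z.ne (i + 1) h1).1 (by rw [e]; exact h)
    obtain ⟨T, hT⟩ := h2
    exact ⟨_, T, hT, Or.inr (by ring)⟩

/-- a triangle at `h i` disjoint from a given triangle missing `h i` -/
theorem ex_disj {i b : ℤ} (hi : Z.re i) {T : Finset α} (hT : T ∈ Z.bl b) (hn : ¬ inS i b) :
    ∃ b', inS i b' ∧ ∃ S ∈ Z.bl b', Disjoint S T := by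
  by_cases h0 : (Z.bl (2 * i)).Nonempty
  · obtain ⟨S, hS⟩ := h0
    refine ⟨2 * i, Or.inr (Or.inl rfl), S, hS, Z.disj_of hS hT ?_ ?_⟩
    · rintro rfl
      have := Z.uniq _ _ _ hT hS
      unfold inS at hn
      omega
    · intro j h1 h2
      unfold inS at *
      omega
  · have hne := Z.ne i h0
    obtain ⟨b₁, hb₁, hb₁'⟩ := hi
    have hboth : (Z.bl (2 * i - 1)).Nonempty ∧ (Z.bl (2 * i + 1)).Nonempty := by
      unfold inS at hb₁
      rcases hb₁ with rfl | rfl | rfl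
      · exact ⟨hb₁', hne.1 hb₁'⟩
      · exact absurd hb₁' h0
      · exact ⟨hne.2 hb₁', hb₁'⟩
    obtain ⟨⟨S₁, hS₁⟩, S₂, hS₂⟩ := hboth
    by_cases hb : b < 2 * i
    · refine ⟨2 * i + 1, Or.inr (Or.inr rfl), S₂, hS₂, Z.disj_of hS₂ hT ?_ ?_⟩
      · rintro rfl
        have := Z.uniq _ _ _ hT hS₂
        omega
      · intro j h1 h2
        unfold inS at *
        omega
    · refine ⟨2 * i - 1, Or.inl rfl, S₁, hS₁, Z.disj_of hS₁ hT ?_ ?_⟩
      · rintro rfl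
        have := Z.uniq _ _ _ hT hS₁
        omega
      · intro j h1 h2
        unfold inS at *
        omega

/-- position of a hub, left part -/
theorem h_gt (hC : PC G A col) {i b : ℤ} (hi : Z.re i) {T : Finset α} (hT : T ∈ Z.bl b)
    (hb : b < 2 * i - 1) : vgt G col (Z.h i) T := by
  obtain ⟨b', h1, S, hS, hd⟩ := Z.ex_disj hi hT (by unfold inS; omega)
  refine hC.tlt_gt (Z.isT _ _ hT) (Z.isT _ _ hS) (Z.dis b b' T S hT hS hd.symm ?_) _
    (Z.mem' hS h1)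
  unfold inS at h1
  omega

/-- position of a hub, right part -/
theorem h_lt {i b : ℤ} (hi : Z.re i) {T : Finset α} (hT : T ∈ Z.bl b)
    (hb : 2 * i + 1 < b) : vlt G col (Z.h i) T := by
  obtain ⟨b', h1, S, hS, hd⟩ := Z.ex_disj hi hT (by unfold inS; omega)
  refine Z.dis b' b S T hS hT hd ?_ _ (Z.mem' hS h1)
  unfold inS at h1
  omega

/-- the middle vertex and the star of the left hub -/
theorem mid_lt_star {i b : ℤ} (h : Z.lk i) {T : Finset α} (hT : T ∈ Z.bl b)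
    (hb : b = 2 * i - 1 ∨ b = 2 * i) : vlt G col (Z.mid i) T := by
  refine ⟨fun hm => ?_, Z.h i, Z.mem' hT (by unfold inS; omega), ?_, z3_sub2 _ _ (Z.colm i h)⟩
  · have := (Z.mid_unique h hT hm).2
    omega
  · exact (Z.Q_T h).adj (Z.mid_mem_Q i) (Z.h_mem_Q i) (Z.mid_ne_h h (Z.lk_re h))

/-- the middle vertex and the star of the right hub -/
theorem mid_gt_star {i b : ℤ} (h : Z.lk i) {T : Finset α} (hT : T ∈ Z.bl b)
    (hb : b = 2 * i + 2 ∨ b = 2 * i + 3) : vgt G col (Z.mid i) T := by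
  refine ⟨fun hm => ?_, Z.h (i + 1), Z.mem' hT (by unfold inS; omega), ?_,
    z3_sub1 _ _ (Z.mid_col h)⟩
  · have := (Z.mid_unique h hT hm).2
    omega
  · exact (Z.Q_T h).adj (Z.mid_mem_Q i) (Z.h1_mem_Q i) (Z.mid_ne_h h (Z.lk_re1 h))

/-- the middle vertex and the triangles on the left -/
theorem mid_gt (hC : PC G A col) {i b : ℤ} (h : Z.lk i) {T : Finset α} (hT : T ∈ Z.bl b)
    (hb : b < 2 * i - 1) : vgt G col (Z.mid i) T := by
  have hd : Disjoint T (Z.Q i) := by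
    apply Z.disj_of hT (Z.Q_mem h) (Z.ne_of_lt hT (Z.Q_mem h) (by omega))
    intro j h1 h2
    unfold inS at *
    omega
  exact hC.tlt_gt (Z.isT _ _ hT) (Z.Q_T h) (Z.dis _ _ _ _ hT (Z.Q_mem h) hd (by omega)) _
    (Z.mid_mem_Q i)

/-- the middle vertex and the triangles on the right -/
theorem mid_lt {i b : ℤ} (h : Z.lk i) {T : Finset α} (hT : T ∈ Z.bl b)
    (hb : 2 * i + 3 < b) : vlt G col (Z.mid i) T := by
  have hd : Disjoint (Z.Q i) T := by
    apply Z.disj_of (Z.Q_mem h) hT (Z.ne_of_lt (Z.Q_mem h) hT (by omega))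
    intro j h1 h2
    unfold inS at *
    omega
  exact Z.dis _ _ _ _ (Z.Q_mem h) hT hd (by omega) _ (Z.mid_mem_Q i)

/-- inversions for disjoint triangles -/
theorem inv_disj (hC : PC G A col) {b b' : ℤ} {T T' : Finset α} (hT : T ∈ Z.bl b)
    (hT' : T' ∈ Z.bl b')
    (hd : Disjoint T T') (hb : b < b') {v : α} (hv : v ∈ A) (h1 : vlt G col v T)
    (h2 : vgt G col v T') :
    ∃ i, Z.lk i ∧ v = Z.mid i ∧ (b = 2 * i - 1 ∨ b = 2 * i) ∧ (b' = 2 * i + 2 ∨ b' = 2 * i + 3) := by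
  have hlt := Z.dis b b' T T' hT hT' hd hb
  have iT := Z.isT _ _ hT
  have iT' := Z.isT _ _ hT'
  obtain ⟨x, hx, hxc⟩ := hC.ex_col iT (col v + 1)
  obtain ⟨y, hy, hyc⟩ := hC.ex_col iT' (col v + 2)
  have hQ := hC.inv iT iT' hlt hv h1 h2 hx hxc hy hyc
  obtain ⟨q, hq⟩ := Z.ex _ hQ
  have hxT' := Finset.disjoint_left.1 hd hx
  have hyT := Finset.disjoint_right.1 hd hy
  have n1 : ({v, x, y} : Finset α) ≠ T := fun e => hyT (e ▸ by simp)
  have n2 : ({v, x, y} : Finset α) ≠ T' := fun e => hxT' (e ▸ by simp)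
  obtain ⟨i, rfl, hi1, hi2⟩ := Z.share _ _ _ _ hq hT n1 x (by simp) hx
  obtain ⟨j, rfl, hj1, hj2⟩ := Z.share _ _ _ _ hq hT' n2 y (by simp) hy
  have hij : i ≠ j := by
    rintro rfl
    exact hxT' hy
  have hblk : (q = 2 * i + 1 ∧ j = i + 1) ∨ (q = 2 * j + 1 ∧ i = j + 1) := by omega
  rcases hblk with ⟨rfl, rfl⟩ | ⟨rfl, rfl⟩
  · have hl : Z.lk i := ⟨_, hq⟩
    have e : b ≠ 2 * i + 1 := by
      rintro rfl
      have h5 := Z.eq_Q hT
      rw [h5] at hyT
      exact hyT (Z.h1_mem_Q i)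
    have e' : b' ≠ 2 * i + 1 := by
      rintro rfl
      have h5 := Z.eq_Q hT'
      rw [h5] at hxT'
      exact hxT' (Z.h_mem_Q i)
    refine ⟨i, hl, ?_, by omega, by omega⟩
    apply hC.col_inj (Z.Q_T hl)
    · rw [← Z.eq_Q hq]; simp
    · exact Z.mid_mem_Q i
    · rw [Z.colm i hl, hxc]
      generalize col v = a
      revert a
      decide
  · exfalso
    have hl : Z.lk j := ⟨_, hq⟩
    have := Z.col1 j hl
    rw [hxc, hyc] at this
    revert this
    generalize col v = a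
    revert a
    decide

/-- **Inversions.** -/
theorem inv (hC : PC G A col) {b b' : ℤ} {T T' : Finset α} (hT : T ∈ Z.bl b)
    (hT' : T' ∈ Z.bl b') (hb : b < b') {v : α} (hv : v ∈ A) (h1 : vlt G col v T)
    (h2 : vgt G col v T') :
    ∃ i, Z.lk i ∧ v = Z.mid i ∧ (b = 2 * i - 1 ∨ b = 2 * i) ∧ (b' = 2 * i + 2 ∨ b' = 2 * i + 3) := by
  by_cases hd : Disjoint T T'
  · exact Z.inv_disj hC hT hT' hd hb hv h1 h2
  exfalso
  have iT := Z.isT _ _ hT
  have iT' := Z.isT _ _ hT'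
  have hne : T ≠ T' := Z.ne_of_lt hT hT' hb
  obtain ⟨x, hx, hx'⟩ := Finset.not_disjoint_iff.1 hd
  obtain ⟨i, rfl, a1, a2⟩ := Z.share _ _ _ _ hT hT' hne x hx hx'
  -- the colour of `v` is the colour of `h i`
  have hcv : col v = col (Z.h i) := by
    by_contra hcv
    exact hC.not_both iT' hv (hC.uni_lt iT iT' hx hx' hv h2.1 hcv h1) h2
  have hcase : b = 2 * (i - 1) + 1 ∨ (b = 2 * i ∧ b' = 2 * i + 1) := by omega
  rcases hcase with rfl | ⟨rfl, rfl⟩
  · -- `T = Q_{i-1}`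
    have hl : Z.lk (i - 1) := ⟨T, hT⟩
    have e := Z.eq_Q hT
    subst e
    have ei : i - 1 + 1 = i := by ring
    obtain ⟨s, S, hS, hs⟩ := Z.ex_left hl
    have iS := Z.isT _ _ hS
    have hST' : Disjoint S T' := by
      apply Z.disj_of hS hT' (Z.ne_of_lt hS hT' (by omega))
      intro j h3 h4
      unfold inS at h3 h4
      omega
    have hlt := Z.dis _ _ _ _ hS hT' hST' (by omega)
    have hvS : v ∉ S := fun hm => hC.not_both iT' hv (hlt v hm) h2
    rcases hC.lt_or_gt iS hv hvS with h3 | h3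
    · obtain ⟨j, hj, rfl, b1, b2⟩ := Z.inv_disj hC hS hT' hST' (by omega) hv h3 h2
      have hjk : j = i - 1 := by omega
      subst hjk
      exact h1.1 (Z.mid_mem_Q _)
    · have hck : col v ≠ col (Z.h (i - 1)) := by
        have := Z.col1 _ hl
        rw [ei] at this
        rw [hcv, this]
        generalize col (Z.h (i - 1)) = a
        revert a
        decide
      exact hC.not_both iS hv (hC.uni_lt (Z.Q_T hl) iS (Z.h_mem_Q _)
        (Z.mem' hS (by unfold inS; omega)) hv hvS hck h1) h3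
  · -- `T` in `B_i`, `T' = Q_i`
    have hl : Z.lk i := ⟨T', hT'⟩
    have e := Z.eq_Q hT'
    subst e
    obtain ⟨s, S, hS, hs⟩ := Z.ex_right hl
    have iS := Z.isT _ _ hS
    have hTS : Disjoint T S := by
      apply Z.disj_of hT hS (Z.ne_of_lt hT hS (by omega))
      intro j h3 h4
      unfold inS at h3 h4
      omega
    have hlt := Z.dis _ _ _ _ hT hS hTS (by omega)
    have hvS : v ∉ S := fun hm => hC.not_both iT hv h1 (hC.tlt_gt iT iS hlt v hm)
    rcases hC.lt_or_gt iS hv hvS with h3 | h3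
    · have hck : col v ≠ col (Z.h (i + 1)) := by
        rw [hcv, Z.col1 i hl]
        generalize col (Z.h i) = a
        revert a
        decide
      exact hC.not_both (Z.Q_T hl) hv (hC.uni_lt iS (Z.Q_T hl)
        (Z.mem' hS (by unfold inS; omega)) (Z.h1_mem_Q i) hv h2.1 hck h3) h2
    · obtain ⟨j, hj, rfl, b1, b2⟩ := Z.inv_disj hC hT hS hTS (by omega) hv h1 h3
      have hjk : j = i := by omega
      subst hjk
      exact h2.1 (Z.mid_mem_Q j)

/-- Monotonicity for vertices which are not middle vertices. -/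
theorem mono_lt (hC : PC G A col) {v : α} (hv : v ∈ A) (hm : ∀ i, Z.lk i → v ≠ Z.mid i)
    {b b' : ℤ} {T T' : Finset α} (hT : T ∈ Z.bl b) (hT' : T' ∈ Z.bl b') (hb : b < b')
    (hvT' : v ∉ T') (h1 : vlt G col v T) : vlt G col v T' := by
  apply hC.lt_of_not_gt (Z.isT _ _ hT') hv hvT'
  intro h2
  obtain ⟨i, h3, h4, _⟩ := Z.inv hC hT hT' hb hv h1 h2
  exact hm i h3 h4

theorem mono_gt (hC : PC G A col) {v : α} (hv : v ∈ A) (hm : ∀ i, Z.lk i → v ≠ Z.mid i)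
    {b b' : ℤ} {T T' : Finset α} (hT : T ∈ Z.bl b) (hT' : T' ∈ Z.bl b') (hb : b < b')
    (hvT : v ∉ T) (h1 : vgt G col v T') : vgt G col v T := by
  apply hC.gt_of_not_lt (Z.isT _ _ hT) hv hvT
  intro h2
  obtain ⟨i, h3, h4, _⟩ := Z.inv hC hT hT' hb hv h2 h1
  exact hm i h3 h4

theorem mirror_lk (hC : PC G A col) {i : ℤ} : (Z.mirror hC).lk i ↔ Z.lk (-i - 1) := by
  unfold lk
  rw [Z.mirror_bl]
  have e : -(2 * i + 1) = 2 * (-i - 1) + 1 := by ring
  rw [e]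

theorem mirror_HitB (hC : PC G A col) {F : Finset α} {b : ℤ} :
    (Z.mirror hC).HitB F b ↔ Z.HitB F (-b) := Iff.rfl

theorem mirror_Q (hC : PC G A col) {i : ℤ} : (Z.mirror hC).Q i = Z.Q (-i - 1) := by
  unfold Q
  rw [Z.mirror_h, Z.mirror_h, Z.mirror_mid]
  have e1 : -(i + 1) = -i - 1 := by ring
  have e2 : -i - 1 + 1 = -i := by ring
  rw [e1, e2]
  ext w
  simp only [Finset.mem_insert, Finset.mem_singleton]
  tauto

end ZLine

end Pool.Agent.H.MP_ebc13b_lc.h53
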