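import Pool.Agent.H.MP_ebc13b_lc.h53.ParL

/-!
Back from the modified graph.
-/

namespace Pool.Agent.H.MP_ebc13b_lc.h53

open Pool.Agent.H.MP_ebc13b_lc.h46

variable {α : Type*} [DecidableEq α]

namespace Par

variable {G : SimpleGraph α} {A : Finset α} {col : α → ZMod 3} {c : ZMod 3}
  {h v h1 h2 m1 m2 b1 b2 : α}

/-- Integral solutions of the modified graph give integral solutions of `G`. -/
theorem back (P : Par G A col c h v h1 h2 m1 m2 b1 b2) (hC : PC G A col) {t : ℕ}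
    (hI : ISol P.g A t) : ISol G A t := by
  classical
  obtain ⟨S, hS1, hS2, hS3, y, hy0, hys, hyE, hysum⟩ := hI
  have hST : ∀ T ∈ S, IsT P.g A T := hS2
  have hSG : ∀ T ∈ S, IsT G A T ∧ T ≠ {h, m2, h2} ∧ T ≠ {v, b1, h1} :=
    fun T hT => P.g_tri hC (hST T hT)
  refine ⟨S, hS1, fun T hT => (hSG T hT).1, hS3, ?_⟩
  set B : Finset α := A \ S.biUnion id with hB
  have hBA : B ⊆ A := Finset.sdiff_subset
  have memB : ∀ {x}, x ∈ A → (∀ T ∈ S, x ∉ T) → x ∈ B := by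
    intro x hx hT
    refine Finset.mem_sdiff.2 ⟨hx, ?_⟩
    intro hm
    obtain ⟨T, hTS, hxT⟩ := Finset.mem_biUnion.1 hm
    exact hT T hTS hxT
  have notB : ∀ {x T}, T ∈ S → x ∈ T → x ∉ B := by
    intro x T hT hx hm
    exact (Finset.mem_sdiff.1 hm).2 (Finset.mem_biUnion.2 ⟨T, hT, hx⟩)
  set w : α → ℝ := fun u => if u ∈ B then 1 else 0 with hw
  have hyF : YF P.g B w y := ⟨hy0, hys, hyE, fun u hu => by
    rw [hysum u hu, hw]
    dsimp only
    rw [if_pos hu]⟩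
  have w0 : ∀ x ∈ P.K, x ∉ B → w x = 0 := by
    intro x _ hx
    rw [hw]
    dsimp only
    rw [if_neg hx]
  have w1 : ∀ {x}, x ∈ B → w x = 1 := by
    intro x hx
    rw [hw]
    dsimp only
    rw [if_pos hx]
  have bm2 : m2 ∈ B := memB P.Am2 (fun T hT hm => (hSG T hT).2.1 (P.sm2 T (hSG T hT).1 hm))
  have bb1 : b1 ∈ B := memB P.Ab1 (fun T hT hm => (hSG T hT).2.2 (P.sb1 T (hSG T hT).1 hm))
  have z1 : y h2 m2 = 0 := by
    by_contra hne
    exact P.gx_h2m2 (hyE h2 m2 hne).1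
  have z2 : y h1 b1 = 0 := by
    by_contra hne
    exact P.gx_h1b1 (hyE h1 b1 hne).1
  obtain ⟨r1, r2, r3, r4, r5, r6⟩ := P.y_le (P.g_col hC) (P.gx_h1m2 hC) (P.gx_h1b2 hC)
    (P.gx_h2m1 hC) (P.gx_h2b1 hC) hyF w0
  have g1 := hy0 h2 b2
  have g2 := hy0 h1 m1
  have g3 := hy0 m1 b1
  have g4 := hy0 m1 b2
  have g5 := hy0 m2 b1
  have g6 := hy0 m2 b2
  have fin : (∃ y', YF G B w y') → FPM G B := by
    rintro ⟨y', hy'⟩
    exact ⟨y', hy'.y0, hy'.ysymm, hy'.yE, fun u hu => by rw [hy'.sum u hu, w1 hu]⟩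
  apply fin
  rw [w1 bm2] at r4
  rw [w1 bb1] at r5
  by_cases hQT : ({h, m1, h1} : Finset α) ∈ S ∨ ({v, b2, h2} : Finset α) ∈ S
  · -- one of the two triangles is used
    have hd : y m1 b1 + y m1 b2 + y m2 b1 + y m2 b2 ≤ 1 := by
      rcases hQT with hq | hq
      · have e1 : y m1 b1 = 0 := by
          by_contra hne
          exact notB hq (by simp) (hyE m1 b1 hne).2.1
        have e2 : y m1 b2 = 0 := by
          by_contra hne
          exact notB hq (by simp) (hyE m1 b2 hne).2.1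
        linarith
      · have e1 : y m1 b2 = 0 := by
          by_contra hne
          exact notB hq (by simp) (hyE m1 b2 hne).2.2
        have e2 : y m2 b2 = 0 := by
          by_contra hne
          exact notB hq (by simp) (hyE m2 b2 hne).2.2
        linarith
    refine P.redist8 hC (G1 := P.g) (G2 := G) (w := w) (w' := w) hBA
      P.g_out (fun u w _ => Iff.rfl)
      (P.g_col hC) (P.gx_h1m2 hC) (P.gx_h1b2 hC) (P.gx_h2m1 hC) (P.gx_h2b1 hC) hyF
      (fun u _ huK => rfl)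
      (fun x hx hxB => ⟨w0 x hx hxB, w0 x hx hxB⟩)
      (y h1 m1) 0 0 (y h2 b2) 0 0 (y m1 b1 + y m1 b2 + y m2 b1 + y m2 b2) 0
      g2 le_rfl le_rfl g1 le_rfl le_rfl (by linarith) le_rfl
      (fun e => ⟨P.a_mh1.symm, (hyE h1 m1 e).2⟩)
      (fun e => absurd rfl e)
      (fun e => absurd rfl e)
      (fun e => ⟨P.swap.a_bh1.symm, (hyE h2 b2 e).2⟩)
      (fun e => absurd rfl e)
      (fun e => absurd rfl e)
      (fun _ => ⟨P.swap.a_m1b2 hC, bm2, bb1⟩)
      (fun e => absurd rfl e)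
      (by linarith) (by linarith) (by linarith)
      (by rw [w1 bm2]; linarith) (by rw [w1 bb1]; linarith) (by linarith)
      (by linarith) (by linarith)
      (by linarith)
  · rw [not_or] at hQT
    have bh1 : h1 ∈ B := by
      refine memB P.Ah1 (fun T hT hm => ?_)
      rcases P.sh1 T (hSG T hT).1 hm with e | e
      · exact hQT.1 (e ▸ hT)
      · exact (hSG T hT).2.2 e
    have bh2 : h2 ∈ B := by
      refine memB P.Ah2 (fun T hT hm => ?_)
      rcases P.sh2 T (hSG T hT).1 hm with e | e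
      · exact (hSG T hT).2.1 e
      · exact hQT.2 (e ▸ hT)
    have bm1 : m1 ∈ B := memB P.Am1 (fun T hT hm =>
      hQT.1 ((P.sm1 T (hSG T hT).1 hm) ▸ hT))
    have bb2 : b2 ∈ B := memB P.Ab2 (fun T hT hm =>
      hQT.2 ((P.sb2 T (hSG T hT).1 hm) ▸ hT))
    rw [w1 bh1] at r1
    rw [w1 bh2] at r2
    rw [w1 bm1] at r3
    rw [w1 bb2] at r6
    refine P.redist8 hC (G1 := P.g) (G2 := G) (w := w) (w' := w) hBA
      P.g_out (fun u w _ => Iff.rfl)
      (P.g_col hC) (P.gx_h1m2 hC) (P.gx_h1b2 hC) (P.gx_h2m1 hC) (P.gx_h2b1 hC) hyF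
      (fun u _ huK => rfl)
      (fun x hx hxB => ⟨w0 x hx hxB, w0 x hx hxB⟩)
      (y h1 m1 / 2) (y h1 m1 / 2) (y h2 b2 / 2) (y h2 b2 / 2) 0
      ((y m1 b1 + y m1 b2 + y m2 b1 + y m2 b2) / 2)
      ((y m1 b1 + y m1 b2 + y m2 b1 + y m2 b2) / 2) 0
      (by linarith) (by linarith) (by linarith) (by linarith) le_rfl (by linarith)
      (by linarith) le_rfl
      (fun _ => ⟨P.a_mh1.symm, bh1, bm1⟩)
      (fun _ => ⟨P.swap.a_mh1.symm, bh2, bm2⟩)
      (fun _ => ⟨P.a_bh1.symm, bh1, bb1⟩)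
      (fun _ => ⟨P.swap.a_bh1.symm, bh2, bb2⟩)
      (fun e => absurd rfl e)
      (fun _ => ⟨P.a_m1b2 hC, bm1, bb2⟩)
      (fun _ => ⟨P.swap.a_m1b2 hC, bm2, bb1⟩)
      (fun e => absurd rfl e)
      (by rw [w1 bh1]; linarith) (by rw [w1 bh2]; linarith) (by rw [w1 bm1]; linarith)
      (by rw [w1 bm2]; linarith) (by rw [w1 bb1]; linarith) (by rw [w1 bb2]; linarith)
      (by rw [z1, z2]; ring) (by rw [z1]; ring)
      (by rw [z2]; ring)

end Par

end Pool.Agent.H.MP_ebc13b_lc.h53
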