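import Pool.Agent.H.MP_ebc13b_lc.h53.ParL

/-!
Elimination of a pair of parallels.
-/

namespace Pool.Agent.H.MP_ebc13b_lc.h53

open Pool.Agent.H.MP_ebc13b_lc.h46

variable {α : Type*} [DecidableEq α]

namespace Par

variable {G : SimpleGraph α} {A : Finset α} {col : α → ZMod 3} {c : ZMod 3}
  {h v h1 h2 m1 m2 b1 b2 : α}

/-- Case 1: the triangle `Q1` can be removed. -/
theorem case1 (P : Par G A col c h v h1 h2 m1 m2 b1 b2) (hC : PC G A col) {t : ℕ} (ht : 1 ≤ t)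
    {ε : ℝ} {z : Finset α → ℝ} {y : α → α → ℝ} {s : α → ℝ} (hS : AS G A t ε z y s)
    (hge : 1 ≤ z {h, m1, h1} + z {h, m2, h2} + y h1 m1 + y h2 m2) :
    ALP G (A \ {h, m1, h1}) (t - 1) ε := by
  classical
  obtain ⟨z1, y1, s1, ⟨hz1, s10, hy1, herr⟩, hinc⟩ := dv hC.pr P.Ah ht hS
  set B : Finset α := A.erase h with hB
  have hBA : B ⊆ A := Finset.erase_subset h A
  have i1 := hinc m1 h1 P.Q1
  have i2 := hinc m2 h2 P.Q2
  have ysy := hS.2.2.1.ysymm
  rw [hy1.ysymm m1 h1, ysy m1 h1] at i1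
  rw [hy1.ysymm m2 h2, ysy m2 h2] at i2
  have ha1 : 1 ≤ y1 h1 m1 + y1 h2 m2 := by linarith
  have z1h : ∀ T, z1 T ≠ 0 → h ∉ T := by
    intro T hne hm
    exact (Finset.mem_erase.1 ((hz1.2 T hne).1 hm)).1 rfl
  have zQ1 : z1 {h, m1, h1} = 0 := by
    by_contra hne
    exact z1h _ hne (by simp)
  have zQ2 : z1 {h, m2, h2} = 0 := by
    by_contra hne
    exact z1h _ hne (by simp)
  have KB : P.K ⊆ B := by
    intro x hx
    exact Finset.mem_erase.2 ⟨fun e => P.hK (e ▸ hx), P.KA hx⟩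
  have kh1 : h1 ∈ P.K := P.memK.2 (Or.inl rfl)
  have kh2 : h2 ∈ P.K := P.memK.2 (Or.inr (Or.inl rfl))
  have km1 : m1 ∈ P.K := P.memK.2 (Or.inr (Or.inr (Or.inl rfl)))
  have km2 : m2 ∈ P.K := P.memK.2 (Or.inr (Or.inr (Or.inr (Or.inl rfl))))
  have kb1 : b1 ∈ P.K := P.memK.2 (Or.inr (Or.inr (Or.inr (Or.inr (Or.inl rfl)))))
  have kb2 : b2 ∈ P.K := P.memK.2 (Or.inr (Or.inr (Or.inr (Or.inr (Or.inr rfl)))))
  have vB : v ∈ B := Finset.mem_erase.2 ⟨P.n_h_v.symm, P.Av⟩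
  have T1B : ({v, b1, h1} : Finset α) ⊆ B := by
    intro x hx
    simp only [Finset.mem_insert, Finset.mem_singleton] at hx
    rcases hx with rfl | rfl | rfl
    · exact vB
    · exact KB kb1
    · exact KB kh1
  have T2B : ({v, b2, h2} : Finset α) ⊆ B := by
    intro x hx
    simp only [Finset.mem_insert, Finset.mem_singleton] at hx
    rcases hx with rfl | rfl | rfl
    · exact vB
    · exact KB kb2
    · exact KB kh2
  obtain ⟨l1, l2, l3, l4, l5, l6⟩ := P.lds hBA hz1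
  rw [zQ1] at l1 l3
  rw [zQ2] at l2 l4
  obtain ⟨r1, r2, r3, r4, r5, r6⟩ := P.y_le hC.col (P.x_h1m2 hC) (P.x_h1b2 hC)
    (P.swap.x_h1m2 hC) (P.swap.x_h1b2 hC) hy1 (fun x hx hxB => absurd (KB hx) hxB)
  rw [l1] at r1
  rw [l2] at r2
  rw [l3] at r3
  rw [l4] at r4
  rw [l5] at r5
  rw [l6] at r6
  have n1 := s10 h1
  have n2 := s10 h2
  have n3 := s10 m1
  have n4 := s10 m2
  have n5 := s10 b1
  have n6 := s10 b2
  have g1 := hy1.y0 h1 b1
  have g2 := hy1.y0 h2 b2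
  have g3 := hy1.y0 m1 b1
  have g4 := hy1.y0 m1 b2
  have g5 := hy1.y0 m2 b1
  have g6 := hy1.y0 m2 b2
  have t1 := hz1.1 {v, b1, h1}
  have t2 := hz1.1 {v, b2, h2}
  set τ1 := z1 {v, b1, h1} with hτ1
  set τ2 := z1 {v, b2, h2} with hτ2
  obtain ⟨p, q, p0, q0, hpq, hp, hq⟩ := split_le (x := s1 b1 + s1 b2)
    (p := 1 - (y1 m1 b1 + y1 m1 b2 + y1 m2 b1 + y1 m2 b2))
    (q := 1 - (τ1 + τ2) - (y1 h1 b1 + y1 h2 b2)) (by linarith) (by linarith) (by linarith)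
  have hq' := hq (by linarith)
  set w : α → ℝ := fun u => 1 - ld B z1 u - s1 u with hw
  set z2 : Finset α → ℝ := sh {v, b1, h1} {v, b2, h2} (z1 {v, b1, h1}) z1 with hz2
  set s2 : α → ℝ := kf h1 h2 m1 m2 b1 b2 0 (s1 h1 + s1 h2) 0 (s1 m1 + s1 m2) p q s1 with hs2
  set w' : α → ℝ := kf h1 h2 m1 m2 b1 b2 0 (1 - (τ1 + τ2) - (s1 h1 + s1 h2)) 0
    (1 - (s1 m1 + s1 m2)) (1 - p) (1 - (τ1 + τ2) - q) w with hw'
  obtain ⟨e1, e2, e3, e4, e5, e6⟩ := P.kfs 0 (1 - (τ1 + τ2) - (s1 h1 + s1 h2)) 0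
    (1 - (s1 m1 + s1 m2)) (1 - p) (1 - (τ1 + τ2) - q) w
  rw [← hw'] at e1 e2 e3 e4 e5 e6
  have w1 : w h1 = 1 - τ1 - s1 h1 := by
    rw [hw]; dsimp only; rw [l1]; ring
  have w2 : w h2 = 1 - τ2 - s1 h2 := by
    rw [hw]; dsimp only; rw [l2]; ring
  have w3 : w m1 = 1 - s1 m1 := by
    rw [hw]; dsimp only; rw [l3]; ring
  have w4 : w m2 = 1 - s1 m2 := by
    rw [hw]; dsimp only; rw [l4]; ring
  have w5 : w b1 = 1 - τ1 - s1 b1 := by
    rw [hw]; dsimp only; rw [l5]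
  have w6 : w b2 = 1 - τ2 - s1 b2 := by
    rw [hw]; dsimp only; rw [l6]
  obtain ⟨y2, hy2⟩ := P.redist8 hC (G1 := G) (G2 := G) (w := w) (w' := w') hBA
    (fun u w _ => Iff.rfl) (fun u w _ => Iff.rfl)
    hC.col (P.x_h1m2 hC) (P.x_h1b2 hC)
    (P.swap.x_h1m2 hC) (P.swap.x_h1b2 hC) hy1
    (fun u _ huK => P.kf_out _ _ _ _ _ _ _ huK)
    (fun x hx hxB => absurd (KB hx) hxB)
    0 (y1 h1 m1 + y1 h2 m2 - 1) 0 (y1 h1 b1 + y1 h2 b2) 0 0
    (y1 m1 b1 + y1 m1 b2 + y1 m2 b1 + y1 m2 b2) 0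
    le_rfl (by linarith) le_rfl (by linarith) le_rfl le_rfl (by linarith) le_rfl
    (fun e => absurd rfl e)
    (fun _ => ⟨P.swap.a_mh1.symm, KB kh2, KB km2⟩)
    (fun e => absurd rfl e)
    (fun _ => ⟨P.swap.a_bh1.symm, KB kh2, KB kb2⟩)
    (fun e => absurd rfl e)
    (fun e => absurd rfl e)
    (fun _ => ⟨P.swap.a_m1b2 hC, KB km2, KB kb1⟩)
    (fun e => absurd rfl e)
    (by rw [e1]; linarith) (by rw [e2]; linarith) (by rw [e3]; linarith)
    (by rw [e4]; linarith) (by rw [e5]; linarith) (by rw [e6]; linarith)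
    (by rw [e1, e2, w1, w2]; ring) (by rw [e3, e4, w3, w4]; ring)
    (by rw [e5, e6, w5, w6]; linarith)
  -- restriction
  have hB'B : A \ {h, m1, h1} ⊆ B := by
    intro x hx
    obtain ⟨a, b⟩ := Finset.mem_sdiff.1 hx
    exact Finset.mem_erase.2 ⟨fun e => b (by rw [e]; simp), a⟩
  have z2sub : ∀ T, z2 T ≠ 0 → T ⊆ A \ {h, m1, h1} ∧ G.IsNClique 3 T := by
    intro T hne
    obtain ⟨a1, a2⟩ := sh_ne P.TT hne
    have hTB : IsT G B T := by
      rcases a2 with a2 | a2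
      · exact hz1.2 T a2
      · rw [a2]; exact ⟨T2B, P.T2.2⟩
    have hTA : IsT G A T := ⟨hTB.1.trans hBA, hTB.2⟩
    have hhT : h ∉ T := fun hm => (Finset.mem_erase.1 (hTB.1 hm)).1 rfl
    refine ⟨?_, hTB.2⟩
    intro x hx
    refine Finset.mem_sdiff.2 ⟨hTA.1 hx, ?_⟩
    intro hxQ
    simp only [Finset.mem_insert, Finset.mem_singleton] at hxQ
    rcases hxQ with rfl | rfl | rfl
    · exact hhT hx
    · have e := P.sm1 T hTA hx
      exact hhT (by rw [e]; simp)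
    · rcases P.sh1 T hTA hx with e | e
      · exact hhT (by rw [e]; simp)
      · exact a1 e
  have hld : ∀ u, ld (A \ {h, m1, h1}) z2 u = ld B z2 u := by
    intro u
    unfold ld
    rw [sum_pow_sub hB'B]
    intro T hne
    apply (z2sub T _).1
    intro h0
    apply hne
    rw [h0]; simp
  have hz2t : ZT G B z2 := sh_zt hz1 P.TT ⟨T2B, P.T2.2⟩
  refine ⟨z2, y2, s2, ⟨hz2t.1, z2sub⟩,
    kf_nonneg le_rfl (by linarith) le_rfl (by linarith) p0 q0 s10, ?_, ?_⟩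
  · refine hy2.restrict hB'B ?_ ?_
    · intro u hu hu'
      have : u ∈ ({h, m1, h1} : Finset α) := by
        by_contra hn
        exact hu' (Finset.mem_sdiff.2 ⟨hBA hu, hn⟩)
      simp only [Finset.mem_insert, Finset.mem_singleton] at this
      rcases this with rfl | rfl | rfl
      · exact absurd rfl (Finset.mem_erase.1 hu).1
      · exact e3
      · exact e1
    · intro u hu
      rw [hld u, hz2, sh_ld T1B T2B]
      obtain ⟨k1, k2, k3, k4, k5, k6⟩ := P.kfs 0 (s1 h1 + s1 h2) 0 (s1 m1 + s1 m2) p q s1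
      rw [← hs2] at k1 k2 k3 k4 k5 k6
      have uQ := (Finset.mem_sdiff.1 hu).2
      by_cases huK : u ∈ P.K
      · obtain ⟨d1, d2, d3, d4, d5, d6, d7, d8, d9, d10, d11, d12, d13, d14, d15⟩ := P.ds
        rcases P.memK.1 huK with rfl | rfl | rfl | rfl | rfl | rfl
        · exact absurd (by simp) uQ
        · rw [e2, k2, l2, if_pos (by simp), if_neg (by
            simp [P.swap.n_v_h1.symm, d8, d1.symm])]
          ring
        · exact absurd (by simp) uQ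
        · rw [e4, k4, l4, if_neg (by simp [P.vm2.symm, d14, d7.symm]),
            if_neg (by simp [P.vm2.symm, d13, d3.symm])]
          ring
        · rw [e5, k5, l5, if_neg (by simp [P.n_v_b1.symm, d15, d8.symm]), if_pos (by simp)]
          ring
        · rw [e6, k6, l6, if_pos (by simp), if_neg (by
            simp [P.swap.n_v_b1.symm, d15.symm, d5.symm])]
          ring
      · have hh := P.kf_out 0 (1 - (τ1 + τ2) - (s1 h1 + s1 h2)) 0
          (1 - (s1 m1 + s1 m2)) (1 - p) (1 - (τ1 + τ2) - q) w huK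
        rw [← hw'] at hh
        have hh' := P.kf_out 0 (s1 h1 + s1 h2) 0 (s1 m1 + s1 m2) p q s1 huK
        rw [← hs2] at hh'
        rw [hh, hh']
        have hiff : u ∈ ({v, b2, h2} : Finset α) ↔ u ∈ ({v, b1, h1} : Finset α) := by
          simp only [Finset.mem_insert, Finset.mem_singleton]
          rw [P.memK] at huK
          tauto
        rw [hw]
        dsimp only
        by_cases h5 : u ∈ ({v, b1, h1} : Finset α)
        · rw [if_pos h5, if_pos (hiff.2 h5)]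
          ring
        · rw [if_neg h5, if_neg (fun e => h5 (hiff.1 e))]
          ring
  · have f1 : ∑ T ∈ (A \ {h, m1, h1}).powerset, z2 T = ∑ T ∈ B.powerset, z1 T := by
      rw [← sum_pow_sub hB'B (fun T hne => (z2sub T hne).1), hz2, sh_sum T1B T2B]
    have f2 : ∑ u ∈ A \ {h, m1, h1}, s2 u ≤ ∑ u ∈ B, s1 u := by
      have f3 : ∑ u ∈ B, s2 u = ∑ u ∈ B, s1 u := by
        rw [hs2, P.kf_sum _ _ _ _ _ _ _ KB]
        linarith
      rw [← f3]
      apply Finset.sum_le_sum_of_subset_of_nonneg hB'B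
      intro u _ _
      exact kf_nonneg le_rfl (by linarith) le_rfl (by linarith) p0 q0 s10 u
    rw [f1]
    linarith

end Par

end Pool.Agent.H.MP_ebc13b_lc.h53
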