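import Pool.Agent.H.MP_ebc13b_lc.h53.Par

/-!
Existence of a pair of parallels.
-/

namespace Pool.Agent.H.MP_ebc13b_lc.h53

open Pool.Agent.H.MP_ebc13b_lc.h46

variable {α : Type*} [DecidableEq α] {G : SimpleGraph α} {A : Finset α} {col : α → ZMod 3}

theorem NoCyc.rev (hC : PC G A col) (hN : NoCyc G A col) : NoCyc G A (rcol col) := by
  intro T₁ T₂ T₃ h1 h2 h3 h12 h23 h31
  rw [hC.tlt_rcol h1 h2] at h12
  rw [hC.tlt_rcol h2 h3] at h23
  rw [hC.tlt_rcol h3 h1] at h31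
  exact hN T₃ T₂ T₁ h3 h2 h1 h23 h12 h31

theorem IsT.eq3 {T : Finset α} (hT : IsT G A T) {x y z : α} (hx : x ∈ T) (hy : y ∈ T)
    (hz : z ∈ T) (h1 : x ≠ y) (h2 : x ≠ z) (h3 : y ≠ z) : T = {x, y, z} := by
  symm
  apply Finset.eq_of_subset_of_card_le
  · intro w hw
    simp only [Finset.mem_insert, Finset.mem_singleton] at hw
    rcases hw with rfl | rfl | rfl <;> assumption
  · rw [hT.2.card_eq, Finset.card_insert_of_notMem (by simp [h1, h2]),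
      Finset.card_insert_of_notMem (by simpa using h3), Finset.card_singleton]

theorem Hub.other {v : α} (h : Hub G A v) (Q : Finset α) : ∃ T, IsT G A T ∧ T ≠ Q ∧ v ∈ T := by
  obtain ⟨T, T', h1, h2, h3, h4, h5⟩ := h
  by_cases he : T = Q
  · exact ⟨T', h2, fun e => h3 (he.trans e.symm), h5⟩
  · exact ⟨T, h1, he, h4⟩

theorem PC.link_lt (hC : PC G A col) {Q X Y : Finset α} {x y : α} (hQ : IsT G A Q)
    (hX : IsT G A X) (hY : IsT G A Y) (nX : X ≠ Q) (nY : Y ≠ Q) (xQ : x ∈ Q) (yQ : y ∈ Q)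
    (xX : x ∈ X) (yY : y ∈ Y) (hy : col y = col x + 1) : tlt G col X Y := by
  have hxy : x ≠ y := by
    intro e
    rw [← e] at hy
    exact z3_1ne0 _ hy.symm
  have hd := hC.disj_link hQ hX hY nX nY hxy xQ yQ xX yY
  exact hC.tlt_of hX hY hd xX ⟨Finset.disjoint_left.1 hd xX, y, yY, hQ.adj xQ yQ hxy, hy⟩

theorem PC.three_hubs (hC : PC G A col) (hN : NoCyc G A col) {Q X Y Z : Finset α} {x y z : α}
    (hQ : IsT G A Q) (hX : IsT G A X) (hY : IsT G A Y) (hZ : IsT G A Z) (nX : X ≠ Q)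
    (nY : Y ≠ Q) (nZ : Z ≠ Q) (xQ : x ∈ Q) (yQ : y ∈ Q) (zQ : z ∈ Q) (xX : x ∈ X) (yY : y ∈ Y)
    (zZ : z ∈ Z) (hy : col y = col x + 1) (hz : col z = col x + 2) : False := by
  refine hN X Y Z hX hY hZ (hC.link_lt hQ hX hY nX nY xQ yQ xX yY hy)
    (hC.link_lt hQ hY hZ nY nZ yQ zQ yY zZ (by rw [hz, hy, z3_11]))
    (hC.link_lt hQ hZ hX nZ nX zQ xQ zZ xX (by rw [hz, z3_21]))

theorem par_of (hC : PC G A col) (hN : NoCyc G A col) {h h1 h2 : α} {Q1 Q2 : Finset α}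
    (H1 : Hub G A h1) (H2 : Hub G A h2) (hQ1 : IsT G A Q1) (hQ2 : IsT G A Q2) (q1 : h ∈ Q1)
    (q1' : h1 ∈ Q1) (q2 : h ∈ Q2) (q2' : h2 ∈ Q2) (hc1 : col h1 = col h + 1)
    (hc2 : col h2 = col h + 1) (hne : h1 ≠ h2) :
    ∃ v m1 m2 b1 b2, Par G A col (col h) h v h1 h2 m1 m2 b1 b2 := by
  have nQ : Q1 ≠ Q2 := by
    rintro rfl
    exact hne (hC.col_inj hQ1 q1' q2' (hc1.trans hc2.symm))
  obtain ⟨m1, q1'', cm1⟩ := hC.ex_col hQ1 (col h + 2)
  obtain ⟨m2, q2'', cm2⟩ := hC.ex_col hQ2 (col h + 2)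
  -- the meeting point
  have meet : ∀ X Y, IsT G A X → IsT G A Y → X ≠ Q1 → Y ≠ Q2 → h1 ∈ X → h2 ∈ Y →
      ∃ v, v ∈ X ∧ v ∈ Y ∧ col v = col h + 2 := by
    intro X Y hX hY nX nY hx hy
    have l1 : tlt G col Q2 X := hC.link_lt hQ1 hQ2 hX nQ.symm nX q1 q1' q2 hx hc1
    have l2 : tlt G col Q1 Y := hC.link_lt hQ2 hQ1 hY nQ nY q2 q2' q1 hy hc2
    have hnd : ¬ Disjoint X Y := by
      intro hd
      rcases hC.tlt_or hX hY hd with l | l
      · exact hC.not_both hX (hY.1 hy) (l1 h2 q2') (hC.tlt_gt hX hY l h2 hy)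
      · exact hC.not_both hY (hX.1 hx) (l2 h1 q1') (hC.tlt_gt hY hX l h1 hx)
    obtain ⟨v, hvX, hvY⟩ := Finset.not_disjoint_iff.1 hnd
    refine ⟨v, hvX, hvY, ?_⟩
    have n1 : v ≠ h1 := by
      rintro rfl
      exact (l2 v q1').1 hvY
    rcases z3_all (col v) (col h) with e | e | e
    · exfalso
      have hm1v : G.Adj m1 v := hC.lt_adj hY (l2 m1 q1'') hvY (by rw [cm1, z3_21, e])
      have hv1 : v ∉ Q1 := by
        intro hv
        exact n1 (hC.share hX hQ1 nX hvX hx hv q1')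
      have h3 := hC.nb_unique hQ1 (hX.1 hvX) hv1 q1'' q1' hm1v.symm (hX.adj hvX hx n1)
      rw [h3, hc1] at cm1
      exact z3_12 _ cm1
    · exact absurd (hC.col_inj hX hvX hx (e.trans hc1.symm)) n1
    · exact e
  obtain ⟨T1, hT1, nT1, t1⟩ := H1.other Q1
  obtain ⟨T2, hT2, nT2, t2⟩ := H2.other Q2
  obtain ⟨v, v1, v2, cv⟩ := meet T1 T2 hT1 hT2 nT1 nT2 t1 t2
  obtain ⟨b1, t1', cb1⟩ := hC.ex_col hT1 (col h)
  obtain ⟨b2, t2', cb2⟩ := hC.ex_col hT2 (col h)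
  have l1 : tlt G col Q2 T1 := hC.link_lt hQ1 hQ2 hT1 nQ.symm nT1 q1 q1' q2 t1 hc1
  have l2 : tlt G col Q1 T2 := hC.link_lt hQ2 hQ1 hT2 nQ nT2 q2 q2' q1 t2 hc2
  have ne0 := z3_1ne0 (col h)
  have ne1 := z3_2ne0 (col h)
  have ne2 := z3_2ne1 (col h)
  have dif : ∀ {a b : α}, col a ≠ col b → a ≠ b := fun hab e => hab (by rw [e])
  have eQ1 : Q1 = {h, m1, h1} := hQ1.eq3 q1 q1'' q1' (dif (by rw [cm1]; exact ne1.symm))
    (dif (by rw [hc1]; exact ne0.symm)) (dif (by rw [cm1, hc1]; exact ne2))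
  have eQ2 : Q2 = {h, m2, h2} := hQ2.eq3 q2 q2'' q2' (dif (by rw [cm2]; exact ne1.symm))
    (dif (by rw [hc2]; exact ne0.symm)) (dif (by rw [cm2, hc2]; exact ne2))
  have eT1 : T1 = {v, b1, h1} := hT1.eq3 v1 t1' t1 (dif (by rw [cv, cb1]; exact ne1))
    (dif (by rw [cv, hc1]; exact ne2)) (dif (by rw [cb1, hc1]; exact ne0.symm))
  have eT2 : T2 = {v, b2, h2} := hT2.eq3 v2 t2' t2 (dif (by rw [cv, cb2]; exact ne1))
    (dif (by rw [cv, hc2]; exact ne2)) (dif (by rw [cb2, hc2]; exact ne0.symm))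
  have nT : T1 ≠ T2 := by
    rintro rfl
    exact hne (hC.col_inj hT1 t1 t2 (hc1.trans hc2.symm))
  -- `v` is not in the triangles `Q`
  have vQ1 : v ∉ Q1 := by
    intro hv
    exact (l2 v hv).1 v2
  have vQ2 : v ∉ Q2 := by
    intro hv
    exact (l1 v hv).1 v1
  have hT1' : h ∉ T1 := (l1 h q2).1
  have hT2' : h ∉ T2 := (l2 h q1).1
  have sh1 : ∀ T, IsT G A T → h1 ∈ T → T = Q1 ∨ T = T1 := by
    intro T hT hm
    by_cases e : T = Q1
    · exact Or.inl e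
    · right
      obtain ⟨v', w1, w2, cv'⟩ := meet T T2 hT hT2 e nT2 hm t2
      have e2 := hC.col_inj hT2 w2 v2 (cv'.trans cv.symm)
      subst e2
      by_contra hne'
      have := hC.share hT hT1 hne' w1 hm v1 t1
      rw [this, hc1] at cv
      exact ne2 cv.symm
  have sh2 : ∀ T, IsT G A T → h2 ∈ T → T = Q2 ∨ T = T2 := by
    intro T hT hm
    by_cases e : T = Q2
    · exact Or.inl e
    · right
      obtain ⟨v', w1, w2, cv'⟩ := meet T1 T hT1 hT nT1 e t1 hm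
      have e2 := hC.col_inj hT1 w1 v1 (cv'.trans cv.symm)
      subst e2
      by_contra hne'
      have := hC.share hT hT2 hne' w2 hm v2 t2
      rw [this, hc2] at cv
      exact ne2 cv.symm
  have sm1 : ∀ T, IsT G A T → m1 ∈ T → T = Q1 := by
    intro T hT hm
    by_contra hne'
    exact hC.three_hubs hN hQ1 hQ2 hT1 hT nQ.symm nT1 hne' q1 q1' q1'' q2 t1 hm hc1 cm1
  have sm2 : ∀ T, IsT G A T → m2 ∈ T → T = Q2 := by
    intro T hT hm
    by_contra hne'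
    exact hC.three_hubs hN hQ2 hQ1 hT2 hT nQ nT2 hne' q2 q2' q2'' q1 t2 hm hc2 cm2
  have sb1 : ∀ T, IsT G A T → b1 ∈ T → T = T1 := by
    intro T hT hm
    by_contra hne'
    exact hC.three_hubs hN hT1 hT hQ1 hT2 hne' nT1.symm nT.symm t1' t1 v1 hm q1' v2
      (by rw [hc1, cb1]) (by rw [cv, cb1])
  have sb2 : ∀ T, IsT G A T → b2 ∈ T → T = T2 := by
    intro T hT hm
    by_contra hne'
    exact hC.three_hubs hN hT2 hT hQ2 hT1 hne' nT2.symm nT t2' t2 v2 hm q2' v1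
      (by rw [hc2, cb2]) (by rw [cv, cb2])
  have mm : m1 ≠ m2 := by
    rintro rfl
    have := hC.share hQ1 hQ2 nQ q1 q1'' q2 q2''
    rw [← this] at cm1
    exact ne1 cm1.symm
  have bb : b1 ≠ b2 := by
    rintro rfl
    have := hC.share hT1 hT2 nT v1 t1' v2 t2'
    rw [this, cb1] at cv
    exact ne1 cv.symm
  refine ⟨v, m1, m2, b1, b2, ?_⟩
  rw [eQ1] at hQ1 sh1 sm1
  rw [eQ2] at hQ2 sh2 sm2
  rw [eT1] at hT1 sh1 sb1
  rw [eT2] at hT2 sh2 sb2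
  exact ⟨hQ1, hQ2, hT1, hT2, rfl, cv, hc1, hc2, cm1, cm2, cb1, cb2, hne, mm, bb,
    fun e => vQ1 (e ▸ q1''), fun e => vQ2 (e ▸ q2''), fun e => hT1' (e ▸ t1'),
    fun e => hT2' (e ▸ t2'), sh1, sh2, sm1, sm2, sb1, sb2⟩

/-- If there are parallels then `G` has the structure `Par`, up to mirror image. -/
theorem exists_par (hC : PC G A col) (hN : NoCyc G A col) (hP : ¬ NoPar G A col) :
    ∃ col' : α → ZMod 3, PC G A col' ∧ ∃ c h v h1 h2 m1 m2 b1 b2,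
      Par G A col' c h v h1 h2 m1 m2 b1 b2 := by
  unfold NoPar at hP
  push Not at hP
  obtain ⟨h, h1, h2, Q1, Q2, H, H1, H2, hQ1, hQ2, q1, q1', q2, q2', n1, n2, hc, hne⟩ := hP
  have hcol := hC.col h (hQ1.1 q1) h1 (hQ1.1 q1') (hQ1.adj q1 q1' n1)
  rcases z3_cases _ _ hcol with e | e
  · obtain ⟨v, m1, m2, b1, b2, P⟩ := par_of hC hN H1 H2 hQ1 hQ2 q1 q1' q2 q2' e
      (hc.symm.trans e) hne
    exact ⟨col, hC, _, _, _, _, _, _, _, _, _, P⟩
  · have e1 : ∀ a : ZMod 3, -(a + 2) = -a + 1 := by decide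
    have e' : rcol col h1 = rcol col h + 1 := by
      unfold rcol
      rw [e, e1]
    have hc' : rcol col h1 = rcol col h2 := by
      unfold rcol
      rw [hc]
    obtain ⟨v, m1, m2, b1, b2, P⟩ := par_of hC.rev (hN.rev hC) H1 H2 hQ1 hQ2 q1 q1' q2 q2' e'
      (hc'.symm.trans e') hne
    exact ⟨rcol col, hC.rev, _, _, _, _, _, _, _, _, _, P⟩

end Pool.Agent.H.MP_ebc13b_lc.h53
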