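import Pool.Agent.H.MP_ebc13b_lc.h53.ParFd

/-!
Passing to the modified graph.
-/

namespace Pool.Agent.H.MP_ebc13b_lc.h53

open Pool.Agent.H.MP_ebc13b_lc.h46

variable {α : Type*} [DecidableEq α]

namespace Par

variable {G : SimpleGraph α} {A : Finset α} {col : α → ZMod 3} {c : ZMod 3}
  {h v h1 h2 m1 m2 b1 b2 : α}

/-- Case 3: the approximate linear program of the modified graph. -/
theorem case3 (P : Par G A col c h v h1 h2 m1 m2 b1 b2) (hC : PC G A col) {t : ℕ}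
    {ε : ℝ} {z : Finset α → ℝ} {y : α → α → ℝ} {s : α → ℝ} (hS : AS G A t ε z y s)
    (hle1 : z {h, m1, h1} + z {h, m2, h2} + y h1 m1 + y h2 m2 ≤ 1)
    (hle2 : z {v, b1, h1} + z {v, b2, h2} + y h1 b1 + y h2 b2 ≤ 1) :
    ALP P.g A t ε := by
  classical
  obtain ⟨hz, s0, hy, herr⟩ := hS
  have KA := P.KA
  obtain ⟨l1, l2, l3, l4, l5, l6⟩ := P.lds (le_refl A) hz
  obtain ⟨r1, r2, r3, r4, r5, r6⟩ := P.y_le hC.col (P.x_h1m2 hC) (P.x_h1b2 hC)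
    (P.swap.x_h1m2 hC) (P.swap.x_h1b2 hC) hy (fun x hx hxB => absurd (KA hx) hxB)
  rw [l1] at r1
  rw [l2] at r2
  rw [l3] at r3
  rw [l4] at r4
  rw [l5] at r5
  rw [l6] at r6
  have n1 := s0 h1
  have n2 := s0 h2
  have n3 := s0 m1
  have n4 := s0 m2
  have n5 := s0 b1
  have n6 := s0 b2
  have g1 := hy.y0 h1 b1
  have g2 := hy.y0 h2 b2
  have g3 := hy.y0 m1 b1
  have g4 := hy.y0 m1 b2
  have g5 := hy.y0 m2 b1
  have g6 := hy.y0 m2 b2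
  have g7 := hy.y0 h1 m1
  have g8 := hy.y0 h2 m2
  have t1 := hz.1 {v, b1, h1}
  have t2 := hz.1 {v, b2, h2}
  have t3 := hz.1 {h, m1, h1}
  have t4 := hz.1 {h, m2, h2}
  obtain ⟨σ1, σ2, σ3, σ4, σ5, σ6, x5, x6, x7, x8, ⟨σ10, σ20, σ30, σ40, σ50, σ60⟩, hx0, heq,
    hle⟩ := ar3
    (K := z {h, m1, h1} + z {h, m2, h2}) (T := z {v, b1, h1} + z {v, b2, h2})
    (a := y h1 m1 + y h2 m2) (b := y h1 b1 + y h2 b2)
    (d := y m1 b1 + y m1 b2 + y m2 b1 + y m2 b2) (S1 := s h1 + s h2) (S2 := s m1 + s m2)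
    (S3 := s b1 + s b2) (by linarith only [g3, g4, g5, g6]) (by linarith only [n1, n2])
    (by linarith only [n3, n4]) (by linarith only [n5, n6]) (by linarith only [hle1])
    (by linarith only [hle2]) (by linarith only [r1, r2]) (by linarith only [r3, r4])
    (by linarith only [r5, r6]) (by linarith only [r3, r4, n3, n4])
    (by linarith only [r5, r6, n5, n6])
  obtain ⟨z2, hz2g, hld, hsum⟩ := P.move2 hC hz
  obtain ⟨y2, hy2⟩ := P.match3 hC hy (by linarith only [g7, g8]) (by linarith only [g1, g2])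
    hx0 heq hle rfl rfl rfl
    (by rw [l1, l2]; ring) (by rw [l3, l4]; ring)
    (by rw [l5, l6]; ring)
  refine ⟨z2, y2, kf h1 h2 m1 m2 b1 b2 σ1 σ2 σ3 σ4 σ5 σ6 s, hz2g,
    kf_nonneg σ10 σ20 σ30 σ40 σ50 σ60 s0, ?_, ?_⟩
  · exact hy2.congr fun u _ => P.cong3 s hz hld σ1 σ2 σ3 σ4 σ5 σ6 u
  · have f2 : ∑ u ∈ A, kf h1 h2 m1 m2 b1 b2 σ1 σ2 σ3 σ4 σ5 σ6 s u = ∑ u ∈ A, s u := by
      rw [P.kf_sum _ _ _ _ _ _ _ KA]
      linarith only [heq.1, heq.2.1, heq.2.2.1]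
    rw [hsum, f2]
    exact herr

end Par

end Pool.Agent.H.MP_ebc13b_lc.h53
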