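import Pool.Agent.H.MP_ebc13b_lc.h53.Alp
import Pool.Agent.H.MP_ebc13b_lc.h46.FT2

/-!
The case `t = 0` of the approximate linear program.
-/

namespace Pool.Agent.H.MP_ebc13b_lc.h53

open Pool.Agent.H.MP_ebc13b_lc.h46

variable {α : Type*} [DecidableEq α] {G : SimpleGraph α} {A : Finset α}

/-- the loads of the vertices of a stable set -/
theorem sum_ld_stab {z : Finset α → ℝ} (hz : ZT G A z) {D : Finset α} (hD : Stab G A D) :
    ∑ v ∈ D, ld A z v ≤ ∑ T ∈ A.powerset, z T := by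
  classical
  unfold ld
  rw [Finset.sum_comm]
  apply Finset.sum_le_sum
  intro T _
  by_cases h1 : z T = 0
  · rw [h1]; simp
  · have hT := hz.2 T h1
    rw [← Finset.sum_filter, Finset.sum_const, nsmul_eq_mul]
    have h2 : (D.filter (fun v => v ∈ T)).card ≤ 1 := by
      apply Finset.card_le_one.2
      intro a ha b hb
      obtain ⟨a1, a2⟩ := Finset.mem_filter.1 ha
      obtain ⟨b1, b2⟩ := Finset.mem_filter.1 hb
      by_contra hn
      exact hD.2 a a1 b b1 (hT.adj a2 b2 hn)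
    have h3 : ((D.filter (fun v => v ∈ T)).card : ℝ) ≤ 1 := by exact_mod_cast h2
    calc ((D.filter (fun v => v ∈ T)).card : ℝ) * z T ≤ 1 * z T :=
          mul_le_mul_of_nonneg_right h3 (hz.1 T)
      _ = z T := one_mul _

theorem fpm_of_alp (hPr : Prism G A) {ε : ℝ} (hε : ε < 1) (h : ALP G A 0 ε) : FPM G A := by
  classical
  by_contra hcon
  obtain ⟨z, y, s, hz, s0, hy, herr⟩ := h
  have hS : Slots G A ∅ (fun _ => ∅) := by
    constructor <;> simp
  have hinf : ¬ Feas G A ∅ (fun _ => ∅) := fun hf => hcon (fpm_of_feas hf)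
  obtain ⟨D, hD, m, _, hlt⟩ := ft2 hPr hS (by simp) hinf
  rw [Finset.sum_empty] at hlt
  unfold cc at hlt
  have h1 : ((nb G A D).card : ℝ) + 1 ≤ D.card := by
    have : (nb G A D).card + 1 ≤ D.card := by omega
    exact_mod_cast this
  have h2 : ∑ v ∈ D, ∑ u ∈ A, y v u = ∑ v ∈ D, (1 - ld A z v - s v) :=
    Finset.sum_congr rfl (fun v hv => hy.sum v (hD.1 hv))
  have h3 : ∑ v ∈ D, ∑ u ∈ A, y v u ≤ ∑ u ∈ nb G A D, ∑ v ∈ A, y u v := by
    rw [Finset.sum_comm]
    have h4 : ∑ u ∈ A, ∑ v ∈ D, y v u = ∑ u ∈ nb G A D, ∑ v ∈ D, y v u := by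
      symm
      apply Finset.sum_subset nb_sub
      intro u hu hun
      apply Finset.sum_eq_zero
      intro v hv
      by_contra hne
      exact hun (mem_nb.2 ⟨hu, v, hv, (hy.yE v u hne).1.symm⟩)
    rw [h4]
    apply Finset.sum_le_sum
    intro u _
    calc ∑ v ∈ D, y v u = ∑ v ∈ D, y u v := Finset.sum_congr rfl (fun v _ => hy.ysymm v u)
      _ ≤ ∑ v ∈ A, y u v :=
        Finset.sum_le_sum_of_subset_of_nonneg hD.1 (fun v _ _ => hy.y0 u v)
  have h5 : ∑ u ∈ nb G A D, ∑ v ∈ A, y u v ≤ (nb G A D).card := by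
    calc ∑ u ∈ nb G A D, ∑ v ∈ A, y u v ≤ ∑ u ∈ nb G A D, (1 : ℝ) := by
          apply Finset.sum_le_sum
          intro u hu
          rw [hy.sum u (nb_sub hu)]
          have h6 : 0 ≤ ld A z u := by
            unfold ld
            apply Finset.sum_nonneg
            intro T _
            split_ifs
            · exact hz.1 T
            · exact le_rfl
          linarith [s0 u]
      _ = (nb G A D).card := by simp
  have h6 : ∑ v ∈ D, (1 - ld A z v - s v) = (D.card : ℝ) - ∑ v ∈ D, ld A z v - ∑ v ∈ D, s v := by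
    rw [Finset.sum_sub_distrib, Finset.sum_sub_distrib]
    simp
  have h7 := sum_ld_stab hz hD
  have h8 : ∑ v ∈ D, s v ≤ ∑ v ∈ A, s v :=
    Finset.sum_le_sum_of_subset_of_nonneg hD.1 (fun v _ _ => s0 v)
  have h9 : ∑ T ∈ A.powerset, z T ≤ |∑ T ∈ A.powerset, z T - ((0 : ℕ) : ℝ)| := by
    rw [Nat.cast_zero, sub_zero]
    exact le_abs_self _
  linarith

theorem isol_zero_alp (hPr : Prism G A) {ε : ℝ} (hε : ε < 1) (h : ALP G A 0 ε) :
    ISol G A 0 := by
  refine ⟨∅, Finset.card_empty, by simp, by simp, ?_⟩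
  rw [Finset.biUnion_empty, Finset.sdiff_empty]
  exact fpm_of_alp hPr hε h

end Pool.Agent.H.MP_ebc13b_lc.h53
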