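import Pool.Agent.H.MP_ebc13b_lc.h53.CycElim
import Pool.Agent.H.MP_ebc13b_lc.h53.ParEx
import Pool.Agent.H.MP_ebc13b_lc.h53.ParE
import Pool.Agent.H.MP_ebc13b_lc.h53.ParF
import Pool.Agent.H.MP_ebc13b_lc.h53.ParB
import Pool.Agent.H.MP_ebc13b_lc.h53.Zero

/-!
Elimination of the blocks `L(K_33)` and of the parallels.
-/

namespace Pool.Agent.H.MP_ebc13b_lc.h53

open Pool.Agent.H.MP_ebc13b_lc.h46

variable {α : Type*} [DecidableEq α]

open Classical in
/-- the number of triangles inside `A` -/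
noncomputable def ntri (G : SimpleGraph α) (A : Finset α) : ℕ :=
  (A.powerset.filter (fun T => G.IsNClique 3 T)).card

theorem ntri_lt {G G' : SimpleGraph α} {A A' : Finset α} (h1 : ∀ T, IsT G' A' T → IsT G A T)
    (h2 : ∃ T, IsT G A T ∧ ¬ IsT G' A' T) : ntri G' A' < ntri G A := by
  classical
  unfold ntri
  apply Finset.card_lt_card
  rw [Finset.ssubset_iff_of_subset]
  · obtain ⟨T, h3, h4⟩ := h2
    refine ⟨T, Finset.mem_filter.2 ⟨Finset.mem_powerset.2 h3.1, h3.2⟩, ?_⟩
    intro h5
    obtain ⟨a, b⟩ := Finset.mem_filter.1 h5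
    exact h4 ⟨Finset.mem_powerset.1 a, b⟩
  · intro T hT
    obtain ⟨a, b⟩ := Finset.mem_filter.1 hT
    have h3 := h1 T ⟨Finset.mem_powerset.1 a, b⟩
    exact Finset.mem_filter.2 ⟨Finset.mem_powerset.2 h3.1, h3.2⟩

theorem PC.mono {G : SimpleGraph α} {A B : Finset α} {col : α → ZMod 3} (hC : PC G A col)
    (hB : B ⊆ A) : PC G B col :=
  ⟨hC.pr.mono hB, fun u hu v hv => hC.col u (hB hu) v (hB hv)⟩

/-- removing a triangle in case 1 -/
theorem remove {G : SimpleGraph α} {A : Finset α} {col : α → ZMod 3} {n : ℕ} {ε : ℝ} {Q : Finset α}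
    {t : ℕ} (hC : PC G A col) (ht : 1 ≤ t) (hQ : IsT G A Q) (hn : A.card ≤ n)
    (hev : Even (A.card + t)) (hA : ALP G (A \ Q) (t - 1) ε)
    (ih : ∀ (G' : SimpleGraph α) (A' : Finset α) (col' : α → ZMod 3) (t' : ℕ),
      ntri G' A' < ntri G A → A'.card ≤ n → PC G' A' col' → ALP G' A' t' ε →
      Even (A'.card + t') → ISol G' A' t') : ISol G A t := by
  have hcard : (A \ Q).card + 3 = A.card := by
    have h1 := Finset.card_sdiff_add_card_eq_card hQ.1
    rw [hQ.2.card_eq] at h1
    exact h1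
  have h1 : ISol G (A \ Q) (t - 1) := by
    refine ih G (A \ Q) col (t - 1) ?_ (by omega) (hC.mono Finset.sdiff_subset) hA ?_
    · refine ntri_lt (fun T hT => ⟨hT.1.trans Finset.sdiff_subset, hT.2⟩) ⟨Q, hQ, ?_⟩
      intro hT
      obtain ⟨x, hx, _⟩ := hC.ex_col hQ 0
      exact (Finset.mem_sdiff.1 (hT.1 hx)).2 hx
    · rw [Nat.even_iff] at hev ⊢
      omega
  have h2 := isol_insert hQ.1 hQ.2 h1
  have e : t - 1 + 1 = t := by omega
  rw [e] at h2
  exact h2

/-- **Elimination.** If the approximate linear program can be rounded for all graphs without cyclic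
triples and without parallels, then it can be rounded for all graphs. -/
theorem elim {n : ℕ} {ε : ℝ} (hε : ε < 1)
    (base : ∀ (G : SimpleGraph α) (A : Finset α) (col : α → ZMod 3) (t : ℕ), A.card ≤ n →
      PC G A col → NoCyc G A col → NoPar G A col → ALP G A t ε → Even (A.card + t) →
      ISol G A t)
    (G : SimpleGraph α) (A : Finset α) (col : α → ZMod 3) (t : ℕ) (hn : A.card ≤ n)
    (hC : PC G A col) (hA : ALP G A t ε) (hev : Even (A.card + t)) : ISol G A t := by
  classical
  induction hk : ntri G A using Nat.strong_induction_on generalizing G A col t with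
  | _ k ih =>
    have ih' : ∀ (G' : SimpleGraph α) (A' : Finset α) (col' : α → ZMod 3) (t' : ℕ),
        ntri G' A' < ntri G A → A'.card ≤ n → PC G' A' col' → ALP G' A' t' ε →
        Even (A'.card + t') → ISol G' A' t' := by
      intro G' A' col' t' h1 h2 h3 h4 h5
      exact ih (ntri G' A') (hk ▸ h1) G' A' col' t' h2 h3 h4 h5 rfl
    by_cases hcyc : NoCyc G A col
    · by_cases hpar : NoPar G A col
      · exact base G A col t hn hC hcyc hpar hA hev
      · obtain ⟨col', hC', c, h, v, h1, h2, m1, m2, b1, b2, P⟩ := exists_par hC hcyc hpar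
        rcases Nat.eq_zero_or_pos t with rfl | ht
        · exact isol_zero_alp hC.pr hε hA
        obtain ⟨z, y, s, hS⟩ := hA
        have hS' : AS G A t ε z y s := hS
        rcases le_or_gt 1 (z {h, m1, h1} + z {h, m2, h2} + y h1 m1 + y h2 m2) with hc | hc
        · exact remove hC' ht P.Q1 hn hev (P.case1 hC' ht hS' hc) ih'
        rcases le_or_gt 1 (z {v, b1, h1} + z {v, b2, h2} + y h1 b1 + y h2 b2) with hd | hd
        · exact remove hC'.rev ht P.T1 hn hev (P.mirror.case1 hC'.rev ht hS' hd) ih'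
        have hA' := P.case3 hC' hS' hc.le hd.le
        have h3 : ISol P.g A t := by
          refine ih' P.g A col' t ?_ hn (P.g_pc hC') hA' hev
          refine ntri_lt (fun T hT => (P.g_tri hC' hT).1) ⟨_, P.Q2, ?_⟩
          intro hT
          exact (P.g_tri hC' hT).2.1 rfl
        exact P.back hC' h3
    · unfold NoCyc at hcyc
      push Not at hcyc
      obtain ⟨T₁, T₂, T₃, h1, h2, h3, h12, h23, h31⟩ := hcyc
      have hcy : Cy G A col T₁ T₂ T₃ := ⟨h1, h2, h3, h12, h23, h31⟩
      apply hcy.isol hC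
      refine ih' hcy.lin A col t ?_ hn (hcy.lin_pc hC) (hcy.alp hC hA) hev
      exact ntri_lt (fun T hT => hcy.lin_tri hC hT) (hcy.lin_column hC)

end Pool.Agent.H.MP_ebc13b_lc.h53
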