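import Pool.Agent.H.MP_ebc13b_lc.h53.RowsAvg

/-!
Three cyclically ordered triangles: the block `L(K_33)` and its linearization.
-/

namespace Pool.Agent.H.MP_ebc13b_lc.h53

open Pool.Agent.H.MP_ebc13b_lc.h46

variable {α : Type*} [DecidableEq α] {G G' H : SimpleGraph α} {A B : Finset α}
  {col : α → ZMod 3} {T₁ T₂ T₃ : Finset α}

theorem z3_ne1 (a : ZMod 3) : a ≠ a + 1 := by revert a; decide

theorem z3_ne2 (a : ZMod 3) : a ≠ a + 2 := by revert a; decide

theorem z3_cyc (a b : ZMod 3) (h1 : b = a + 1) (h2 : a = b + 1) : False := by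
  subst h1; revert a; decide

/-- adjacency between ordered triangles -/
theorem PC.tlt_adj (hC : PC G A col) {T T' : Finset α} (hT : IsT G A T) (hT' : IsT G A T')
    (h : tlt G col T T') {u v : α} (hu : u ∈ T) (hv : v ∈ T') :
    G.Adj u v ↔ col v = col u + 1 := by
  constructor
  · intro hadj
    obtain ⟨huT, x, hx, hux, hxc⟩ := h u hu
    rw [← hC.nb_unique hT' (hT.1 hu) huT hx hv hux hadj]
    exact hxc
  · intro hc
    exact hC.lt_adj hT' (h u hu) hv hc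

/-- a cyclic triple of triangles -/
structure Cy (G : SimpleGraph α) (A : Finset α) (col : α → ZMod 3) (T₁ T₂ T₃ : Finset α) :
    Prop where
  t1 : IsT G A T₁
  t2 : IsT G A T₂
  t3 : IsT G A T₃
  l12 : tlt G col T₁ T₂
  l23 : tlt G col T₂ T₃
  l31 : tlt G col T₃ T₁

theorem Cy.rot (h : Cy G A col T₁ T₂ T₃) : Cy G A col T₂ T₃ T₁ :=
  ⟨h.t2, h.t3, h.t1, h.l23, h.l31, h.l12⟩

/-- the vertices of the block -/
def Cy.K (_ : Cy G A col T₁ T₂ T₃) : Finset α := T₁ ∪ T₂ ∪ T₃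

theorem Cy.memK (h : Cy G A col T₁ T₂ T₃) {x : α} : x ∈ h.K ↔ x ∈ T₁ ∨ x ∈ T₂ ∨ x ∈ T₃ := by
  unfold Cy.K
  rw [Finset.mem_union, Finset.mem_union, or_assoc]

theorem Cy.KA (h : Cy G A col T₁ T₂ T₃) : h.K ⊆ A := by
  intro x hx
  rcases h.memK.1 hx with h1 | h1 | h1
  · exact h.t1.1 h1
  · exact h.t2.1 h1
  · exact h.t3.1 h1

/-- outside vertices compare in the same way with the three rows -/
theorem Cy.step (h : Cy G A col T₁ T₂ T₃) (hC : PC G A col) {w : α} (hw : w ∈ A)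
    (hwK : w ∉ h.K) (h1 : vlt G col w T₁) : vlt G col w T₂ := by
  have hw1 : w ∉ T₁ := fun e => hwK (h.memK.2 (Or.inl e))
  have hw2 : w ∉ T₂ := fun e => hwK (h.memK.2 (Or.inr (Or.inl e)))
  have hw3 : w ∉ T₃ := fun e => hwK (h.memK.2 (Or.inr (Or.inr e)))
  apply hC.lt_of_not_gt h.t2 hw hw2
  intro h2
  obtain ⟨x, hx, hxc⟩ := hC.ex_col h.t1 (col w + 1)
  obtain ⟨y, hy, hyc⟩ := hC.ex_col h.t2 (col w + 2)
  obtain ⟨z, hz, hzc⟩ := hC.ex_col h.t3 (col w)
  have hQ := hC.inv h.t1 h.t2 h.l12 hw h1 h2 hx hxc hy hyc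
  have hzx : G.Adj z x := (hC.tlt_adj h.t3 h.t1 h.l31 hz hx).2 (by rw [hxc, hzc])
  have hyz : G.Adj y z := (hC.tlt_adj h.t2 h.t3 h.l23 hy hz).2 (by rw [hzc, hyc, z3_21])
  have hxy : x ≠ y := by
    rintro rfl
    rw [hxc] at hyc
    exact z3_12 _ hyc
  have hzQ : z ∉ ({w, x, y} : Finset α) := by
    simp only [Finset.mem_insert, Finset.mem_singleton, not_or]
    refine ⟨?_, ?_, ?_⟩
    · rintro rfl; exact hw3 hz
    · rintro rfl; exact Finset.disjoint_left.1 h.l31.disj hz hx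
    · rintro rfl; exact Finset.disjoint_left.1 h.l23.disj hy hz
  exact hxy (hC.nb_unique hQ (h.t3.1 hz) hzQ (by simp) (by simp) hzx hyz.symm)

theorem Cy.lt_iff (h : Cy G A col T₁ T₂ T₃) (hC : PC G A col) {w : α} (hw : w ∈ A)
    (hwK : w ∉ h.K) : (vlt G col w T₁ ↔ vlt G col w T₂) ∧ (vlt G col w T₂ ↔ vlt G col w T₃) := by
  have k1 : w ∉ h.rot.K := fun e => hwK (h.memK.2 (by have := h.rot.memK.1 e; tauto))
  have k2 : w ∉ h.rot.rot.K := fun e => hwK (h.memK.2 (by have := h.rot.rot.memK.1 e; tauto))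
  have s1 := h.step hC hw hwK
  have s2 := h.rot.step hC hw k1
  have s3 := h.rot.rot.step hC hw k2
  exact ⟨⟨s1, fun e => s3 (s2 e)⟩, ⟨s2, fun e => s1 (s3 e)⟩⟩

/-- twins -/
theorem Cy.twin (h : Cy G A col T₁ T₂ T₃) (hC : PC G A col) {x x' u : α} (hx : x ∈ h.K)
    (hx' : x' ∈ h.K) (hc : col x = col x') (hu : u ∈ A) (huK : u ∉ h.K) (hadj : G.Adj x u) :
    G.Adj x' u := by
  have iff := h.lt_iff hC hu huK
  have n1 : u ∉ T₁ := fun e => huK (h.memK.2 (Or.inl e))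
  have n2 : u ∉ T₂ := fun e => huK (h.memK.2 (Or.inr (Or.inl e)))
  have n3 : u ∉ T₃ := fun e => huK (h.memK.2 (Or.inr (Or.inr e)))
  -- `u < T₁` or `u > T₁` from `x`
  have hcu := hC.col u hu x (h.KA hx) hadj.symm
  have fromx : ∀ T, IsT G A T → u ∉ T → x ∈ T → (col x = col u + 1 ∧ vlt G col u T) ∨
      (col x = col u + 2 ∧ ¬ vlt G col u T) := by
    intro T hT hn hxT
    rcases z3_cases _ _ hcu with h1 | h1
    · exact Or.inl ⟨h1, hn, x, hxT, hadj.symm, h1⟩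
    · exact Or.inr ⟨h1, fun h2 => hC.not_both hT hu h2 ⟨hn, x, hxT, hadj.symm, h1⟩⟩
  have tox : ∀ T, IsT G A T → u ∉ T → x' ∈ T → ((col x = col u + 1 ∧ vlt G col u T) ∨
      (col x = col u + 2 ∧ ¬ vlt G col u T)) → G.Adj x' u := by
    intro T hT hn hxT hh
    rcases hh with ⟨h1, h2⟩ | ⟨h1, h2⟩
    · exact (hC.lt_adj hT h2 hxT (hc ▸ h1)).symm
    · exact (hC.gt_adj hT (hC.gt_of_not_lt hT hu hn h2) hxT (hc ▸ h1)).symm
  have base : (col x = col u + 1 ∧ vlt G col u T₁) ∨ (col x = col u + 2 ∧ ¬ vlt G col u T₁) := by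
    rcases h.memK.1 hx with h1 | h1 | h1
    · exact fromx T₁ h.t1 n1 h1
    · have := fromx T₂ h.t2 n2 h1
      rw [iff.1]; exact this
    · have := fromx T₃ h.t3 n3 h1
      rw [iff.1, iff.2]; exact this
  rcases h.memK.1 hx' with h1 | h1 | h1
  · exact tox T₁ h.t1 n1 h1 base
  · refine tox T₂ h.t2 n2 h1 ?_
    rw [← iff.1]; exact base
  · refine tox T₃ h.t3 n3 h1 ?_
    rw [← iff.2, ← iff.1]; exact base

/-- A triangle of a graph `H` which agrees with `G` outside `K` and meets `K` lies in `K`. -/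
theorem Cy.sub_of_meet (h : Cy G A col T₁ T₂ T₃) (hC : PC G A col)
    (hHc : ∀ u ∈ A, ∀ v ∈ A, H.Adj u v → col u ≠ col v)
    (hout : ∀ u v, u ∉ h.K ∨ v ∉ h.K → (H.Adj u v ↔ G.Adj u v)) {S : Finset α}
    (hS : IsT H A S) {x : α} (hxS : x ∈ S) (hxK : x ∈ h.K) : S ⊆ h.K := by
  intro u huS
  by_contra huK
  have hux : u ≠ x := fun e => huK (e ▸ hxK)
  have hHux : H.Adj u x := hS.adj huS hxS hux
  have hGux : G.Adj u x := (hout u x (Or.inl huK)).1 hHux
  -- the third vertex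
  obtain ⟨u₂, hu₂S, hu₂u, hu₂x⟩ : ∃ u₂ ∈ S, u₂ ≠ u ∧ u₂ ≠ x := by
    have h3 : 2 < S.card := by rw [hS.2.card_eq]; norm_num
    obtain ⟨a, ha, h4⟩ := Finset.exists_mem_notMem_of_card_lt_card
      (s := {u, x}) (t := S) (lt_of_le_of_lt Finset.card_le_two h3)
    simp only [Finset.mem_insert, Finset.mem_singleton, not_or] at h4
    exact ⟨a, ha, h4⟩
  have huA := hS.1 huS
  have hHuu₂ : H.Adj u u₂ := hS.adj huS hu₂S hu₂u.symm
  have hGuu₂ : G.Adj u u₂ := (hout u u₂ (Or.inl huK)).1 hHuu₂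
  have hHxu₂ : H.Adj x u₂ := hS.adj hxS hu₂S hu₂x.symm
  have hcx := hHc x (hS.1 hxS) u₂ (hS.1 hu₂S) hHxu₂
  by_cases hu₂K : u₂ ∈ h.K
  · -- `u` sees two vertices of `T₁`
    obtain ⟨a, ha, hac⟩ := hC.ex_col h.t1 (col x)
    obtain ⟨b, hb, hbc⟩ := hC.ex_col h.t1 (col u₂)
    have haK : a ∈ h.K := h.memK.2 (Or.inl ha)
    have hbK : b ∈ h.K := h.memK.2 (Or.inl hb)
    have h1 := h.twin hC hxK haK hac.symm huA huK hGux.symm
    have h2 := h.twin hC hu₂K hbK hbc.symm huA huK hGuu₂.symm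
    have huT : u ∉ T₁ := fun e => huK (h.memK.2 (Or.inl e))
    have := hC.nb_unique h.t1 huA huT ha hb h1.symm h2.symm
    rw [this, hbc] at hac
    exact hcx hac.symm
  · -- another vertex `x'` of the class of `x`
    have hGxu₂ : G.Adj x u₂ := (hout x u₂ (Or.inr hu₂K)).1 hHxu₂
    obtain ⟨x', hx'K, hx'x, hx'c⟩ : ∃ x' ∈ h.K, x' ≠ x ∧ col x' = col x := by
      rcases h.memK.1 hxK with h1 | h1 | h1
      · obtain ⟨b, hb, hbc⟩ := hC.ex_col h.t2 (col x)
        exact ⟨b, h.memK.2 (Or.inr (Or.inl hb)), fun e =>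
          Finset.disjoint_left.1 h.l12.disj h1 (e ▸ hb), hbc⟩
      · obtain ⟨b, hb, hbc⟩ := hC.ex_col h.t3 (col x)
        exact ⟨b, h.memK.2 (Or.inr (Or.inr hb)), fun e =>
          Finset.disjoint_left.1 h.l23.disj h1 (e ▸ hb), hbc⟩
      · obtain ⟨b, hb, hbc⟩ := hC.ex_col h.t1 (col x)
        exact ⟨b, h.memK.2 (Or.inl hb), fun e =>
          Finset.disjoint_left.1 h.l31.disj h1 (e ▸ hb), hbc⟩
    have h1 := h.twin hC hxK hx'K hx'c.symm huA huK hGux.symm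
    have h2 := h.twin hC hxK hx'K hx'c.symm (hS.1 hu₂S) hu₂K hGxu₂
    have hT : IsT G A {x, u, u₂} := by
      refine ⟨?_, clique_abc hGux.symm hGxu₂ hGuu₂⟩
      intro v hv
      simp only [Finset.mem_insert, Finset.mem_singleton] at hv
      rcases hv with rfl | rfl | rfl
      · exact hS.1 hxS
      · exact huA
      · exact hS.1 hu₂S
    have hx'T : x' ∉ ({x, u, u₂} : Finset α) := by
      simp only [Finset.mem_insert, Finset.mem_singleton, not_or]
      refine ⟨hx'x, ?_, ?_⟩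
      · rintro rfl; exact huK hx'K
      · rintro rfl; exact hu₂K hx'K
    exact hu₂u (hC.nb_unique hT (h.KA hx'K) hx'T (by simp) (by simp) h1 h2).symm

/-- the linearized graph -/
def Cy.lin (_ : Cy G A col T₁ T₂ T₃) : SimpleGraph α where
  Adj u v := (G.Adj u v ∧ ¬ (u ∈ T₁ ∧ v ∈ T₃) ∧ ¬ (u ∈ T₃ ∧ v ∈ T₁)) ∨
    (u ∈ T₁ ∧ v ∈ T₃ ∧ col v = col u + 1) ∨ (u ∈ T₃ ∧ v ∈ T₁ ∧ col u = col v + 1)
  symm := ⟨by
    rintro u v (⟨h1, h2, h3⟩ | ⟨h1, h2, h3⟩ | ⟨h1, h2, h3⟩)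
    · exact Or.inl ⟨h1.symm, fun e => h3 ⟨e.2, e.1⟩, fun e => h2 ⟨e.2, e.1⟩⟩
    · exact Or.inr (Or.inr ⟨h2, h1, h3⟩)
    · exact Or.inr (Or.inl ⟨h2, h1, h3⟩)⟩
  loopless := ⟨by
    rintro u (⟨h1, _⟩ | ⟨_, _, h3⟩ | ⟨_, _, h3⟩)
    · exact G.loopless.irrefl u h1
    · exact z3_ne1 _ h3
    · exact z3_ne1 _ h3⟩

theorem Cy.lin_adj (h : Cy G A col T₁ T₂ T₃) {u v : α} : h.lin.Adj u v ↔
    (G.Adj u v ∧ ¬ (u ∈ T₁ ∧ v ∈ T₃) ∧ ¬ (u ∈ T₃ ∧ v ∈ T₁)) ∨
    (u ∈ T₁ ∧ v ∈ T₃ ∧ col v = col u + 1) ∨ (u ∈ T₃ ∧ v ∈ T₁ ∧ col u = col v + 1) := Iff.rfl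

theorem Cy.lin_out (h : Cy G A col T₁ T₂ T₃) {u v : α} (hu : u ∉ h.K ∨ v ∉ h.K) :
    h.lin.Adj u v ↔ G.Adj u v := by
  rw [h.lin_adj]
  simp only [h.memK] at hu
  constructor
  · rintro (⟨h1, _⟩ | ⟨h1, h2, _⟩ | ⟨h1, h2, _⟩)
    · exact h1
    · tauto
    · tauto
  · intro h1
    left
    exact ⟨h1, by tauto, by tauto⟩

theorem Cy.lin_col (h : Cy G A col T₁ T₂ T₃) (hC : PC G A col) : ∀ u ∈ A, ∀ v ∈ A,
    h.lin.Adj u v → col u ≠ col v := by
  rintro u hu v hv (⟨h1, _⟩ | ⟨_, _, h3⟩ | ⟨_, _, h3⟩)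
  · exact hC.col u hu v hv h1
  · rw [h3]; exact z3_ne1 _
  · rw [h3]; exact (z3_ne1 _).symm

/-- the row index -/
noncomputable def Cy.r (_ : Cy G A col T₁ T₂ T₃) (v : α) : ℕ :=
  if v ∈ T₁ then 0 else if v ∈ T₂ then 1 else 2

theorem Cy.r1 (h : Cy G A col T₁ T₂ T₃) {v : α} (hv : v ∈ T₁) : h.r v = 0 := by
  unfold Cy.r; rw [if_pos hv]

theorem Cy.r2 (h : Cy G A col T₁ T₂ T₃) {v : α} (hv : v ∈ T₂) : h.r v = 1 := by
  unfold Cy.r; rw [if_neg (fun e => Finset.disjoint_left.1 h.l12.disj e hv), if_pos hv]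

theorem Cy.r3 (h : Cy G A col T₁ T₂ T₃) {v : α} (hv : v ∈ T₃) : h.r v = 2 := by
  unfold Cy.r
  rw [if_neg (fun e => Finset.disjoint_left.1 h.l31.disj hv e),
    if_neg (fun e => Finset.disjoint_left.1 h.l23.disj e hv)]

/-- in the linearized graph, inside `K`: adjacency is the linear order -/
theorem Cy.lin_in (h : Cy G A col T₁ T₂ T₃) (hC : PC G A col) {u v : α} (hu : u ∈ h.K)
    (hv : v ∈ h.K) (hc : col v = col u + 1) : h.lin.Adj u v ↔ h.r u ≤ h.r v := by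
  have huv : u ≠ v := by
    rintro rfl
    exact z3_ne1 _ hc
  have d12 := Finset.disjoint_left.1 h.l12.disj
  have d23 := Finset.disjoint_left.1 h.l23.disj
  have d31 := Finset.disjoint_left.1 h.l31.disj
  have nc : ¬ col u = col v + 1 := fun e => z3_cyc _ _ hc e
  rw [h.lin_adj]
  rcases h.memK.1 hu with hu | hu | hu
  · rw [h.r1 hu]
    simp only [Nat.zero_le, iff_true]
    rcases h.memK.1 hv with hv | hv | hv
    · left
      exact ⟨h.t1.adj hu hv huv, fun e => d31 e.2 hv, fun e => d31 e.1 hu⟩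
    · left
      exact ⟨(hC.tlt_adj h.t1 h.t2 h.l12 hu hv).2 hc, fun e => d23 hv e.2, fun e => d31 e.1 hu⟩
    · right; left
      exact ⟨hu, hv, hc⟩
  · rw [h.r2 hu]
    rcases h.memK.1 hv with hv | hv | hv
    · rw [h.r1 hv]
      constructor
      · rintro (⟨h1, _⟩ | ⟨h1, _⟩ | ⟨h1, _⟩)
        · exact absurd ((hC.tlt_adj h.t1 h.t2 h.l12 hv hu).1 h1.symm) nc
        · exact absurd hu (d12 h1)
        · exact absurd h1 (d23 hu)
      · intro h1; omega
    · rw [h.r2 hv]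
      simp only [le_refl, iff_true]
      left
      exact ⟨h.t2.adj hu hv huv, fun e => d12 e.1 hu, fun e => d23 hu e.1⟩
    · rw [h.r3 hv]
      simp only [Nat.one_le_ofNat, iff_true]
      left
      exact ⟨(hC.tlt_adj h.t2 h.t3 h.l23 hu hv).2 hc, fun e => d12 e.1 hu, fun e => d23 hu e.1⟩
  · rw [h.r3 hu]
    rcases h.memK.1 hv with hv | hv | hv
    · rw [h.r1 hv]
      constructor
      · rintro (⟨_, _, h1⟩ | ⟨h1, _⟩ | ⟨_, _, h1⟩)
        · exact absurd ⟨hu, hv⟩ h1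
        · exact absurd h1 (d31 hu)
        · exact absurd h1 nc
      · intro h1; omega
    · rw [h.r2 hv]
      constructor
      · rintro (⟨h1, _⟩ | ⟨_, h1, _⟩ | ⟨_, h1, _⟩)
        · exact absurd ((hC.tlt_adj h.t2 h.t3 h.l23 hv hu).1 h1.symm) nc
        · exact absurd h1 (d23 hv)
        · exact absurd hv (d12 h1)
      · intro h1; omega
    · rw [h.r3 hv]
      simp only [le_refl, iff_true]
      left
      exact ⟨h.t3.adj hu hv huv, fun e => d31 hu e.1, fun e => d31 hv e.2⟩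

/-- the rows are triangles of the linearized graph -/
theorem Cy.lin_row (h : Cy G A col T₁ T₂ T₃) : ∀ T, (T = T₁ ∨ T = T₂ ∨ T = T₃) →
    IsT h.lin A T := by
  have d12 := Finset.disjoint_left.1 h.l12.disj
  have d23 := Finset.disjoint_left.1 h.l23.disj
  have d31 := Finset.disjoint_left.1 h.l31.disj
  intro T hT
  have key : ∀ T, IsT G A T → (∀ u ∈ T, ∀ v ∈ T, ¬ (u ∈ T₁ ∧ v ∈ T₃) ∧ ¬ (u ∈ T₃ ∧ v ∈ T₁)) →
      IsT h.lin A T := by
    intro T hT hh
    refine ⟨hT.1, ?_, hT.2.card_eq⟩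
    intro u hu v hv hne
    have hu' : u ∈ T := by simpa using hu
    have hv' : v ∈ T := by simpa using hv
    exact Or.inl ⟨hT.adj hu' hv' hne, hh u hu' v hv'⟩
  rcases hT with rfl | rfl | rfl
  · exact key _ h.t1 (fun u hu v hv => ⟨fun e => d31 e.2 hv, fun e => d31 e.1 hu⟩)
  · exact key _ h.t2 (fun u hu v hv => ⟨fun e => d12 e.1 hu, fun e => d12 e.2 hv⟩)
  · exact key _ h.t3 (fun u hu v hv => ⟨fun e => d31 hu e.1, fun e => d31 hv e.2⟩)

/-- triangles of the linearized graph which meet `K` are rows -/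
theorem Cy.lin_meet (h : Cy G A col T₁ T₂ T₃) (hC : PC G A col) {S : Finset α}
    (hS : IsT h.lin A S) {x : α} (hxS : x ∈ S) (hxK : x ∈ h.K) : S = T₁ ∨ S = T₂ ∨ S = T₃ := by
  have hsub := h.sub_of_meet hC (h.lin_col hC) (fun u v => h.lin_out) hS hxS hxK
  -- the vertices of `S` by colour
  have inj : Set.InjOn col (S : Set α) := by
    intro u hu v hv huv
    have hu' : u ∈ S := by simpa using hu
    have hv' : v ∈ S := by simpa using hv
    by_contra hne
    exact h.lin_col hC u (hS.1 hu') v (hS.1 hv') (hS.adj hu' hv' hne) huv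
  have hex : ∀ k, ∃ u ∈ S, col u = k := by
    intro k
    have hcard : (S.image col).card = 3 := by
      rw [Finset.card_image_of_injOn inj, hS.2.card_eq]
    have huniv : S.image col = Finset.univ := by
      apply Finset.eq_univ_of_card
      rw [hcard]
      decide
    have : k ∈ S.image col := by rw [huniv]; exact Finset.mem_univ k
    obtain ⟨u, hu, huk⟩ := Finset.mem_image.1 this
    exact ⟨u, hu, huk⟩
  have mono : ∀ u ∈ S, ∀ v ∈ S, col v = col u + 1 → h.r u ≤ h.r v := by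
    intro u hu v hv hc
    have hne : u ≠ v := by
      rintro rfl
      exact z3_ne1 _ hc
    exact (h.lin_in hC (hsub hu) (hsub hv) hc).1 (hS.adj hu hv hne)
  have req : ∀ u ∈ S, ∀ v ∈ S, h.r u ≤ h.r v := by
    intro u hu v hv
    by_cases hc : col u = col v
    · rw [inj (by simpa using hu) (by simpa using hv) hc]
    · rcases z3_cases _ _ hc with h1 | h1
      · exact mono u hu v hv h1
      · obtain ⟨m, hm, hmc⟩ := hex (col u + 1)
        exact (mono u hu m hm hmc).trans (mono m hm v hv (by rw [h1, hmc, z3_11]))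
  -- all vertices are in the row of `x`
  have fin : ∀ T, (∀ v ∈ S, v ∈ T) → T.card = 3 → S = T := by
    intro T hT hc
    exact Finset.eq_of_subset_of_card_le hT (by rw [hS.2.card_eq, hc])
  rcases h.memK.1 hxK with h1 | h1 | h1
  · left
    refine fin _ ?_ h.t1.2.card_eq
    intro v hv
    have h2 := req v hv x hxS
    rw [h.r1 h1] at h2
    rcases h.memK.1 (hsub hv) with h3 | h3 | h3
    · exact h3
    · rw [h.r2 h3] at h2; omega
    · rw [h.r3 h3] at h2; omega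
  · right; left
    refine fin _ ?_ h.t2.2.card_eq
    intro v hv
    have h2 := req v hv x hxS
    have h2' := req x hxS v hv
    rw [h.r2 h1] at h2 h2'
    rcases h.memK.1 (hsub hv) with h3 | h3 | h3
    · rw [h.r1 h3] at h2'; omega
    · exact h3
    · rw [h.r3 h3] at h2; omega
  · right; right
    refine fin _ ?_ h.t3.2.card_eq
    intro v hv
    have h2' := req x hxS v hv
    rw [h.r3 h1] at h2'
    rcases h.memK.1 (hsub hv) with h3 | h3 | h3
    · rw [h.r1 h3] at h2'; omega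
    · rw [h.r2 h3] at h2'; omega
    · exact h3

/-- triangles of the linearized graph are triangles of `G` -/
theorem Cy.lin_tri (h : Cy G A col T₁ T₂ T₃) (hC : PC G A col) {S : Finset α}
    (hS : IsT h.lin A S) : IsT G A S := by
  by_cases hm : ∃ x ∈ S, x ∈ h.K
  · obtain ⟨x, hxS, hxK⟩ := hm
    rcases h.lin_meet hC hS hxS hxK with rfl | rfl | rfl
    · exact h.t1
    · exact h.t2
    · exact h.t3
  · push Not at hm
    refine ⟨hS.1, ?_, hS.2.card_eq⟩
    intro u hu v hv hne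
    have hu' : u ∈ S := by simpa using hu
    have hv' : v ∈ S := by simpa using hv
    exact (h.lin_out (Or.inl (hm u hu'))).1 (hS.adj hu' hv' hne)

/-- triangles of `G` which avoid `K` are triangles of the linearized graph -/
theorem Cy.tri_lin (h : Cy G A col T₁ T₂ T₃) {S : Finset α}
    (hS : IsT G A S) (hm : ∀ x ∈ S, x ∉ h.K) : IsT h.lin A S := by
  refine ⟨hS.1, ?_, hS.2.card_eq⟩
  intro u hu v hv hne
  have hu' : u ∈ S := by simpa using hu
  have hv' : v ∈ S := by simpa using hv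
  exact (h.lin_out (Or.inl (hm u hu'))).2 (hS.adj hu' hv' hne)

/-- the linearized graph is prismatic -/
theorem Cy.lin_pc (h : Cy G A col T₁ T₂ T₃) (hC : PC G A col) : PC h.lin A col := by
  refine ⟨?_, h.lin_col hC⟩
  intro S hSA hS3 v hv hvS
  have hS : IsT h.lin A S := ⟨hSA, hS3⟩
  have hSG := h.lin_tri hC hS
  by_cases hm : ∃ x ∈ S, x ∈ h.K
  · obtain ⟨x, hxS, hxK⟩ := hm
    have hsub := h.sub_of_meet hC (h.lin_col hC) (fun u v => h.lin_out) hS hxS hxK
    by_cases hvK : v ∈ h.K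
    · -- inside `K`
      have key : ∀ T, IsT G A T → T ⊆ h.K → v ∉ T → ∀ n, (∀ u ∈ T, h.r u = n) → h.r v ≠ n →
          ∃ u ∈ T, h.lin.Adj v u ∧ ∀ u' ∈ T, h.lin.Adj v u' → u' = u := by
        intro T hT hTK hvT n hn hrv
        obtain ⟨a, ha, hac⟩ := hC.ex_col hT (col v + 1)
        obtain ⟨b, hb, hbc⟩ := hC.ex_col hT (col v + 2)
        have hvb : h.lin.Adj b v ↔ h.r b ≤ h.r v := h.lin_in hC (hTK hb) hvK (z3_sub2 _ _ hbc)
        have hva : h.lin.Adj v a ↔ h.r v ≤ h.r a := h.lin_in hC hvK (hTK ha) hac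
        rw [hn b hb] at hvb
        rw [hn a ha] at hva
        have only : ∀ u' ∈ T, h.lin.Adj v u' → u' = a ∨ u' = b := by
          intro u' hu' hadj
          rcases z3_cases _ _ (h.lin_col hC v hv u' (hT.1 hu') hadj) with h1 | h1
          · exact Or.inl (hC.col_inj hT hu' ha (h1.trans hac.symm))
          · exact Or.inr (hC.col_inj hT hu' hb (h1.trans hbc.symm))
        rcases lt_or_gt_of_ne hrv with h1 | h1
        · refine ⟨a, ha, hva.2 h1.le, ?_⟩
          intro u' hu' hadj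
          rcases only u' hu' hadj with rfl | rfl
          · rfl
          · have := hvb.1 hadj.symm
            omega
        · refine ⟨b, hb, (hvb.2 h1.le).symm, ?_⟩
          intro u' hu' hadj
          rcases only u' hu' hadj with rfl | rfl
          · have := hva.1 hadj
            omega
          · rfl
      rcases h.lin_meet hC hS hxS hxK with rfl | rfl | rfl
      · refine key _ h.t1 hsub hvS 0 (fun u hu => h.r1 hu) ?_
        rcases h.memK.1 hvK with h3 | h3 | h3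
        · exact absurd h3 hvS
        · rw [h.r2 h3]; omega
        · rw [h.r3 h3]; omega
      · refine key _ h.t2 hsub hvS 1 (fun u hu => h.r2 hu) ?_
        rcases h.memK.1 hvK with h3 | h3 | h3
        · rw [h.r1 h3]; omega
        · exact absurd h3 hvS
        · rw [h.r3 h3]; omega
      · refine key _ h.t3 hsub hvS 2 (fun u hu => h.r3 hu) ?_
        rcases h.memK.1 hvK with h3 | h3 | h3
        · rw [h.r1 h3]; omega
        · rw [h.r2 h3]; omega
        · exact absurd h3 hvS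
    · obtain ⟨u, hu, h1, h2⟩ := hC.pr S hSG.1 hSG.2 v hv hvS
      exact ⟨u, hu, (h.lin_out (Or.inl hvK)).2 h1, fun u' hu' h3 =>
        h2 u' hu' ((h.lin_out (Or.inl hvK)).1 h3)⟩
  · push Not at hm
    obtain ⟨u, hu, h1, h2⟩ := hC.pr S hSG.1 hSG.2 v hv hvS
    exact ⟨u, hu, (h.lin_out (Or.inr (hm u hu))).2 h1, fun u' hu' h3 =>
      h2 u' hu' ((h.lin_out (Or.inr (hm u' hu'))).1 h3)⟩

/-- a triangle of `G` which is destroyed -/
theorem Cy.lin_column (h : Cy G A col T₁ T₂ T₃) (hC : PC G A col) :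
    ∃ S, IsT G A S ∧ ¬ IsT h.lin A S := by
  obtain ⟨x, hx, hxc⟩ := hC.ex_col h.t1 0
  obtain ⟨y, hy, hyc⟩ := hC.ex_col h.t2 1
  obtain ⟨z, hz, hzc⟩ := hC.ex_col h.t3 2
  have hxy : G.Adj x y := (hC.tlt_adj h.t1 h.t2 h.l12 hx hy).2 (by rw [hxc, hyc]; decide)
  have hyz : G.Adj y z := (hC.tlt_adj h.t2 h.t3 h.l23 hy hz).2 (by rw [hyc, hzc]; decide)
  have hzx : G.Adj z x := (hC.tlt_adj h.t3 h.t1 h.l31 hz hx).2 (by rw [hxc, hzc]; decide)
  refine ⟨{x, y, z}, ⟨?_, clique_abc hxy hzx.symm hyz⟩, ?_⟩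
  · intro v hv
    simp only [Finset.mem_insert, Finset.mem_singleton] at hv
    rcases hv with rfl | rfl | rfl
    · exact h.t1.1 hx
    · exact h.t2.1 hy
    · exact h.t3.1 hz
  · intro hS
    have h1 : h.lin.Adj z x := by
      apply hS.adj (by simp) (by simp)
      rintro rfl
      exact Finset.disjoint_left.1 h.l31.disj hz hx
    have hc : col x = col z + 1 := by rw [hxc, hzc]; decide
    have h2 := (h.lin_in hC (h.memK.2 (Or.inr (Or.inr hz))) (h.memK.2 (Or.inl hx)) hc).1 h1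
    rw [h.r3 hz, h.r1 hx] at h2
    omega

end Pool.Agent.H.MP_ebc13b_lc.h53
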