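import Pool.Agent.H.MP_ebc13b_lc.h53.Cyc

/-!
Elimination of the blocks `L(K_33)`.
-/

namespace Pool.Agent.H.MP_ebc13b_lc.h53

open Pool.Agent.H.MP_ebc13b_lc.h46

variable {α : Type*} [DecidableEq α] {G G' H : SimpleGraph α} {A B : Finset α}
  {col : α → ZMod 3} {T₁ T₂ T₃ : Finset α}

/-- every colour class of a union of disjoint rows has as many elements as there are rows -/
theorem class_card {R : Finset (Finset α)} (hC' : PC G' B col)
    (hR : ∀ T ∈ R, IsT G' B T) (hRd : ∀ T ∈ R, ∀ T' ∈ R, T ≠ T' → Disjoint T T') (k : ZMod 3) :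
    ((R.biUnion id).filter (fun x => col x = k)).card = R.card := by
  classical
  rcases R.eq_empty_or_nonempty with rfl | hne
  · simp
  have h1 : ∀ T ∈ R, ∃ u ∈ T, col u = k := fun T hT => hC'.ex_col (hR T hT) k
  haveI : Nonempty α := by
    obtain ⟨T, hT⟩ := hne
    obtain ⟨u, _, _⟩ := h1 T hT
    exact ⟨u⟩
  choose! g hg1 hg2 using h1
  symm
  apply Finset.card_nbij g
  · intro T hT
    exact Finset.mem_filter.2 ⟨Finset.mem_biUnion.2 ⟨T, hT, hg1 T hT⟩, hg2 T hT⟩
  · intro T hT T' hT' h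
    by_contra hne
    exact Finset.disjoint_left.1 (hRd T hT T' hT' hne) (hg1 T hT) (h ▸ hg1 T' hT')
  · intro x hx
    have hx' : x ∈ (R.biUnion id).filter (fun x => col x = k) := by simpa using hx
    obtain ⟨hxK, hxk⟩ := Finset.mem_filter.1 hx'
    obtain ⟨T, hT, hxT⟩ := Finset.mem_biUnion.1 hxK
    exact ⟨T, by simpa using hT, hC'.col_inj (hR T hT) (hg1 T hT) hxT
      ((hg2 T hT).trans hxk.symm)⟩

/-- class averages have the same total -/
theorem sum_avg {K : Finset α} {n : ℝ} (hn : n ≠ 0)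
    (hcard : ∀ k, ((K.filter (fun x => col x = k)).card : ℝ) = n) (f : α → ℝ) :
    ∑ x ∈ K, (∑ x' ∈ K.filter (fun x' => col x' = col x), f x') / n = ∑ x ∈ K, f x := by
  classical
  rw [← Finset.sum_fiberwise_of_maps_to (s := K) (t := Finset.univ) (g := col)
    (fun _ _ => Finset.mem_univ _), ← Finset.sum_fiberwise_of_maps_to (s := K) (t := Finset.univ)
    (g := col) (fun _ _ => Finset.mem_univ _)]
  apply Finset.sum_congr rfl
  intro k _
  have h1 : ∀ x ∈ K.filter (fun x => col x = k),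
      (∑ x' ∈ K.filter (fun x' => col x' = col x), f x') / n =
        (∑ x' ∈ K.filter (fun x' => col x' = k), f x') / n := by
    intro x hx
    rw [(Finset.mem_filter.1 hx).2]
  rw [Finset.sum_congr rfl h1, Finset.sum_const, nsmul_eq_mul, hcard]
  field_simp

/-- the set of rows -/
def Cy.R (_ : Cy G A col T₁ T₂ T₃) : Finset (Finset α) := {T₁, T₂, T₃}

theorem Cy.memR (h : Cy G A col T₁ T₂ T₃) {T : Finset α} : T ∈ h.R ↔ T = T₁ ∨ T = T₂ ∨ T = T₃ := by
  unfold Cy.R
  simp

theorem Cy.R_K (h : Cy G A col T₁ T₂ T₃) : h.K = h.R.biUnion id := by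
  ext x
  rw [h.memK, Finset.mem_biUnion]
  constructor
  · rintro (h1 | h1 | h1)
    · exact ⟨T₁, h.memR.2 (Or.inl rfl), h1⟩
    · exact ⟨T₂, h.memR.2 (Or.inr (Or.inl rfl)), h1⟩
    · exact ⟨T₃, h.memR.2 (Or.inr (Or.inr rfl)), h1⟩
  · rintro ⟨T, hT, hx⟩
    rcases h.memR.1 hT with rfl | rfl | rfl
    · exact Or.inl hx
    · exact Or.inr (Or.inl hx)
    · exact Or.inr (Or.inr hx)

theorem Cy.R_disj (h : Cy G A col T₁ T₂ T₃) : ∀ T ∈ h.R, ∀ T' ∈ h.R, T ≠ T' → Disjoint T T' := by
  intro T hT T' hT' hne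
  rcases h.memR.1 hT with rfl | rfl | rfl <;> rcases h.memR.1 hT' with rfl | rfl | rfl
  · exact absurd rfl hne
  · exact h.l12.disj
  · exact h.l31.disj.symm
  · exact h.l12.disj.symm
  · exact absurd rfl hne
  · exact h.l23.disj
  · exact h.l31.disj
  · exact h.l23.disj.symm
  · exact absurd rfl hne

theorem Cy.R_ne (h : Cy G A col T₁ T₂ T₃) (hC : PC G A col) : T₁ ≠ T₂ ∧ T₁ ≠ T₃ ∧ T₂ ≠ T₃ := by
  have key : ∀ T T' : Finset α, IsT G A T → Disjoint T T' → T ≠ T' := by
    rintro T T' hT hd rfl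
    obtain ⟨x, hx, _⟩ := hC.ex_col hT 0
    exact Finset.disjoint_left.1 hd hx hx
  exact ⟨key _ _ h.t1 h.l12.disj, key _ _ h.t1 h.l31.disj.symm, key _ _ h.t2 h.l23.disj⟩

theorem Cy.R_card (h : Cy G A col T₁ T₂ T₃) (hC : PC G A col) : h.R.card = 3 := by
  obtain ⟨h1, h2, h3⟩ := h.R_ne hC
  unfold Cy.R
  rw [Finset.card_insert_of_notMem (by simp [h1, h2]), Finset.card_insert_of_notMem (by simpa using h3),
    Finset.card_singleton]

theorem Cy.R_T (h : Cy G A col T₁ T₂ T₃) : ∀ T ∈ h.R, IsT G A T := by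
  intro T hT
  rcases h.memR.1 hT with rfl | rfl | rfl
  · exact h.t1
  · exact h.t2
  · exact h.t3

theorem Cy.R_lin (h : Cy G A col T₁ T₂ T₃) : ∀ T ∈ h.R, IsT h.lin A T := fun T hT =>
  h.lin_row T (h.memR.1 hT)

open Classical in
/-- the approximate linear program of the linearized graph is feasible -/
theorem Cy.alp (h : Cy G A col T₁ T₂ T₃) (hC : PC G A col) {t : ℕ} {ε : ℝ}
    (hA : ALP G A t ε) : ALP h.lin A t ε := by
  obtain ⟨z, y, s, ⟨z0, zT⟩, s0, hy, herr⟩ := hA
  have hKA := h.KA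
  have hcard : ∀ k, ((h.K.filter (fun x => col x = k)).card : ℝ) = 3 := by
    intro k
    have h1 := class_card (B := A) hC h.R_T h.R_disj k
    rw [← h.R_K, h.R_card hC] at h1
    exact_mod_cast h1
  -- triangles of positive weight meeting `K` lie in `K`
  have hmeet : ∀ T, z T ≠ 0 → ¬ Disjoint T h.K → T ⊆ h.K := by
    intro T hT hd
    obtain ⟨x, hx, hxK⟩ := Finset.not_disjoint_iff.1 hd
    exact h.sub_of_meet hC hC.col (fun _ _ _ => Iff.rfl) (zT T hT) hx hxK
  set M : ℝ := ∑ T ∈ A.powerset, if Disjoint T h.K then 0 else z T with hM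
  have M0 : 0 ≤ M := Finset.sum_nonneg (fun T _ => by split_ifs; exact le_rfl; exact z0 T)
  set z' : Finset α → ℝ := fun T => if T ∈ h.R then M / 3 else if Disjoint T h.K then z T else 0
    with hz'
  set s' : α → ℝ := fun x => if x ∈ h.K then
    (∑ x' ∈ h.K.filter (fun x' => col x' = col x), s x') / 3 else s x with hs'
  obtain ⟨y', hy'⟩ := rows_avg (G := G) (G' := h.lin) (K := h.K) (R := h.R) hC (h.lin_pc hC)
    h.R_lin h.R_disj ⟨T₁, h.memR.2 (Or.inl rfl)⟩ h.R_K (fun u v => h.lin_out)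
    (fun x hx x' hx' hc u hu huK => ⟨h.twin hC hx hx' hc hu huK,
      h.twin hC hx' hx hc.symm hu huK⟩) hy
  have hrow : ∀ T ∈ h.R, T ⊆ h.K := by
    intro T hT
    rw [h.R_K]
    intro x hx
    exact Finset.mem_biUnion.2 ⟨T, hT, hx⟩
  have hrow_nd : ∀ T ∈ h.R, ¬ Disjoint T h.K := by
    intro T hT hd
    obtain ⟨x, hx, _⟩ := hC.ex_col (h.R_T T hT) 0
    exact Finset.disjoint_left.1 hd hx (hrow T hT hx)
  -- loads
  have ld_out : ∀ v ∈ A, v ∉ h.K → ld A z' v = ld A z v := by
    intro v hv hvK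
    unfold ld
    apply Finset.sum_congr rfl
    intro T _
    by_cases hvT : v ∈ T
    · rw [if_pos hvT, if_pos hvT, hz']
      dsimp only
      rw [if_neg (fun hTR => hvK (hrow T hTR hvT))]
      by_cases hd : Disjoint T h.K
      · rw [if_pos hd]
      · rw [if_neg hd]
        by_contra hne
        exact hvK (hmeet T (Ne.symm hne) hd hvT)
    · rw [if_neg hvT, if_neg hvT]
  have ld_in : ∀ v ∈ h.K, ld A z' v = M / 3 := by
    intro v hvK
    rw [h.R_K] at hvK
    obtain ⟨T, hT, hvT⟩ := Finset.mem_biUnion.1 hvK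
    have hvT' : v ∈ T := hvT
    unfold ld
    rw [Finset.sum_eq_single T]
    · rw [if_pos hvT', hz']
      dsimp only
      rw [if_pos hT]
    · intro T' _ hne
      by_cases hvT'' : v ∈ T'
      · rw [if_pos hvT'', hz']
        dsimp only
        rw [if_neg, if_neg]
        · intro hd
          exact Finset.disjoint_left.1 hd hvT'' (hrow T hT hvT')
        · intro hT'
          exact Finset.disjoint_left.1 (h.R_disj T' hT' T hT hne) hvT'' hvT'
      · rw [if_neg hvT'']
    · intro hnot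
      exact absurd (Finset.mem_powerset.2 (h.R_T T hT).1) hnot
  -- class sums of the old loads
  have ld_class : ∀ k, ∑ x ∈ h.K.filter (fun x => col x = k), ld A z x = M := by
    intro k
    unfold ld
    rw [Finset.sum_comm, hM]
    apply Finset.sum_congr rfl
    intro T _
    by_cases hzT : z T = 0
    · rw [hzT]; simp
    · by_cases hd : Disjoint T h.K
      · rw [if_pos hd]
        apply Finset.sum_eq_zero
        intro x hx
        rw [if_neg]
        intro hxT
        exact Finset.disjoint_left.1 hd hxT (Finset.mem_of_mem_filter x hx)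
      · rw [if_neg hd]
        obtain ⟨x, hxT, hxk⟩ := hC.ex_col (zT T hzT) k
        rw [Finset.sum_eq_single x]
        · rw [if_pos hxT]
        · intro x' hx' hne
          rw [if_neg]
          intro hxT'
          exact hne (hC.col_inj (zT T hzT) hxT' hxT ((Finset.mem_filter.1 hx').2.trans hxk.symm))
        · intro hnot
          exact absurd (Finset.mem_filter.2 ⟨hmeet T hzT hd hxT, hxk⟩) hnot
  refine ⟨z', y', s', ⟨?_, ?_⟩, ?_, ?_, ?_⟩
  · intro T
    rw [hz']
    dsimp only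
    split_ifs
    · positivity
    · exact z0 T
    · exact le_rfl
  · intro T hT
    rw [hz'] at hT
    dsimp only at hT
    by_cases h1 : T ∈ h.R
    · exact h.R_lin T h1
    · rw [if_neg h1] at hT
      by_cases h2 : Disjoint T h.K
      · rw [if_pos h2] at hT
        exact h.tri_lin (zT T hT) (fun x hx => Finset.disjoint_left.1 h2 hx)
      · rw [if_neg h2] at hT
        exact absurd rfl hT
  · intro v
    rw [hs']
    dsimp only
    split_ifs
    · exact div_nonneg (Finset.sum_nonneg (fun x _ => s0 x)) (by norm_num)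
    · exact s0 v
  · apply hy'.congr
    intro v hv
    by_cases hvK : v ∈ h.K
    · rw [if_pos hvK, ld_in v hvK, hs']
      dsimp only
      rw [if_pos hvK, Finset.sum_sub_distrib, Finset.sum_sub_distrib, ld_class, Finset.sum_const,
        nsmul_eq_mul, hcard, h.R_card hC]
      push_cast
      ring
    · rw [if_neg hvK, ld_out v hv hvK, hs']
      dsimp only
      rw [if_neg hvK]
  · have e1 : ∑ T ∈ A.powerset, z' T = ∑ T ∈ A.powerset, z T := by
      have h1 : ∀ T ∈ A.powerset, z' T = (if T ∈ h.R then M / 3 else 0) +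
          (z T - if Disjoint T h.K then 0 else z T) := by
        intro T _
        rw [hz']
        dsimp only
        by_cases h1 : T ∈ h.R
        · rw [if_pos h1, if_pos h1, if_neg (hrow_nd T h1)]
          ring
        · rw [if_neg h1, if_neg h1]
          split_ifs <;> ring
      rw [Finset.sum_congr rfl h1, Finset.sum_add_distrib, Finset.sum_sub_distrib, ← hM]
      have h2 : ∑ T ∈ A.powerset, (if T ∈ h.R then M / 3 else 0) = M := by
        rw [Finset.sum_ite_mem, Finset.inter_eq_right.2, Finset.sum_const, h.R_card hC,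
          nsmul_eq_mul]
        · push_cast
          ring
        · intro T hT
          exact Finset.mem_powerset.2 (h.R_T T hT).1
      rw [h2]
      ring
    have e2 : ∑ v ∈ A, s' v = ∑ v ∈ A, s v := by
      rw [← Finset.sum_sdiff hKA, ← Finset.sum_sdiff hKA]
      congr 1
      · apply Finset.sum_congr rfl
        intro v hv
        rw [hs']
        dsimp only
        rw [if_neg (Finset.mem_sdiff.1 hv).2]
      · rw [← sum_avg (n := 3) (by norm_num) hcard s]
        apply Finset.sum_congr rfl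
        intro v hv
        rw [hs']
        dsimp only
        rw [if_pos hv]
    rw [e1, e2]
    exact herr

open Classical in
/-- integral solutions of the linearized graph give integral solutions of `G` -/
theorem Cy.isol (h : Cy G A col T₁ T₂ T₃) (hC : PC G A col) {t : ℕ}
    (hI : ISol h.lin A t) : ISol G A t := by
  obtain ⟨S, hS1, hS2, hS3, y, hy0, hys, hyE, hysum⟩ := hI
  have hST : ∀ T ∈ S, IsT h.lin A T := hS2
  refine ⟨S, hS1, fun T hT => h.lin_tri hC (hST T hT), hS3, ?_⟩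
  set B : Finset α := A \ S.biUnion id with hB
  have hBA : B ⊆ A := Finset.sdiff_subset
  have hyF : YF h.lin B (fun _ => 1) y := ⟨hy0, hys, hyE, hysum⟩
  have pcm : ∀ {G : SimpleGraph α}, PC G A col → PC G B col := fun {G} hC =>
    ⟨hC.pr.mono hBA, fun u hu v hv => hC.col u (hBA hu) v (hBA hv)⟩
  -- the remaining rows
  set R : Finset (Finset α) := h.R \ S with hR
  have hRR : R ⊆ h.R := Finset.sdiff_subset
  have rowB : ∀ T ∈ R, T ⊆ B := by
    intro T hT x hx
    obtain ⟨h1, h2⟩ := Finset.mem_sdiff.1 hT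
    refine Finset.mem_sdiff.2 ⟨(h.R_T T h1).1 hx, ?_⟩
    intro h3
    obtain ⟨T', hT', hx'⟩ := Finset.mem_biUnion.1 h3
    have hx'' : x ∈ T' := hx'
    have hTR : T' ∈ h.R := h.memR.2 (h.lin_meet hC (hST T' hT') hx'' (by
      rw [h.R_K]; exact Finset.mem_biUnion.2 ⟨T, h1, hx⟩))
    by_cases he : T = T'
    · exact h2 (he ▸ hT')
    · exact Finset.disjoint_left.1 (h.R_disj T h1 T' hTR he) hx hx''
  have hKB : R.biUnion id = h.K ∩ B := by
    ext x
    rw [Finset.mem_biUnion, Finset.mem_inter, h.R_K, Finset.mem_biUnion]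
    constructor
    · rintro ⟨T, hT, hx⟩
      exact ⟨⟨T, hRR hT, hx⟩, rowB T hT hx⟩
    · rintro ⟨⟨T, hT, hx⟩, hxB⟩
      refine ⟨T, Finset.mem_sdiff.2 ⟨hT, ?_⟩, hx⟩
      intro hTS
      exact (Finset.mem_sdiff.1 hxB).2 (Finset.mem_biUnion.2 ⟨T, hTS, hx⟩)
  have houtB : ∀ u v, u ∈ B → v ∈ B → (u ∉ R.biUnion id ∨ v ∉ R.biUnion id) →
      (h.lin.Adj u v ↔ G.Adj u v) := by
    intro u v hu hv hh
    apply h.lin_out
    rw [hKB, Finset.mem_inter, Finset.mem_inter] at hh
    tauto
  -- pass to the induced subgraphs on `B`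
  set G₁ : SimpleGraph α := G.induce (B : Set α) |>.map (Function.Embedding.subtype _) with hG₁
  set H₁ : SimpleGraph α := h.lin.induce (B : Set α) |>.map (Function.Embedding.subtype _) with hH₁
  have adjG₁ : ∀ u v, G₁.Adj u v ↔ G.Adj u v ∧ u ∈ B ∧ v ∈ B := by
    intro u v
    rw [hG₁, SimpleGraph.map_adj]
    constructor
    · rintro ⟨a, b, hab, rfl, rfl⟩
      exact ⟨hab, a.2, b.2⟩
    · rintro ⟨h1, h2, h3⟩
      exact ⟨⟨u, h2⟩, ⟨v, h3⟩, h1, rfl, rfl⟩
  have adjH₁ : ∀ u v, H₁.Adj u v ↔ h.lin.Adj u v ∧ u ∈ B ∧ v ∈ B := by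
    intro u v
    rw [hH₁, SimpleGraph.map_adj]
    constructor
    · rintro ⟨a, b, hab, rfl, rfl⟩
      exact ⟨hab, a.2, b.2⟩
    · rintro ⟨h1, h2, h3⟩
      exact ⟨⟨u, h2⟩, ⟨v, h3⟩, h1, rfl, rfl⟩
  rcases R.eq_empty_or_nonempty with hRe | hRne
  · -- no row is left: the graphs agree on `B`
    refine ⟨y, hy0, hys, ?_, hysum⟩
    intro u v hne
    obtain ⟨a, b, c⟩ := hyE u v hne
    refine ⟨(houtB u v b c ?_).1 a, b, c⟩
    left
    rw [hRe]
    simp
  · have mono : ∀ (G G₁ : SimpleGraph α), (∀ u v, G₁.Adj u v ↔ G.Adj u v ∧ u ∈ B ∧ v ∈ B) →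
        PC G B col → PC G₁ B col := by
      intro G G₁ hadj hC
      refine ⟨?_, fun u hu v hv huv => hC.col u hu v hv ((hadj u v).1 huv).1⟩
      intro T hT h3 v hv hvT
      have h3' : G.IsNClique 3 T := by
        refine ⟨fun a ha b hb hab => ((hadj a b).1 (h3.isClique ha hb hab)).1, h3.card_eq⟩
      obtain ⟨u, hu, h4, h5⟩ := hC.pr T hT h3' v hv hvT
      exact ⟨u, hu, (hadj v u).2 ⟨h4, hv, hT hu⟩, fun u' hu' h6 => h5 u' hu' ((hadj v u').1 h6).1⟩
    have hR₁ : ∀ T ∈ R, IsT G₁ B T := by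
      intro T hT
      refine ⟨rowB T hT, ?_, (h.R_T T (hRR hT)).2.card_eq⟩
      intro u hu v hv hne
      have hu' : u ∈ T := by simpa using hu
      have hv' : v ∈ T := by simpa using hv
      exact (adjG₁ u v).2 ⟨(h.R_T T (hRR hT)).adj hu' hv' hne, rowB T hT hu', rowB T hT hv'⟩
    have hyF₁ : YF H₁ B (fun _ => 1) y := by
      refine ⟨hy0, hys, ?_, hysum⟩
      intro u v hne
      obtain ⟨a, b, c⟩ := hyE u v hne
      exact ⟨(adjH₁ u v).2 ⟨a, b, c⟩, b, c⟩
    obtain ⟨y', hy'⟩ := rows_avg (G := H₁) (G' := G₁) (K := R.biUnion id) (R := R)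
      (mono _ _ adjH₁ (pcm (h.lin_pc hC))) (mono _ _ adjG₁ (pcm hC)) hR₁
      (fun T hT T' hT' => h.R_disj T (hRR hT) T' (hRR hT')) hRne rfl (by
        intro u v hh
        rw [adjG₁, adjH₁]
        constructor
        · rintro ⟨a, b, c⟩
          exact ⟨(houtB u v b c hh).2 a, b, c⟩
        · rintro ⟨a, b, c⟩
          exact ⟨(houtB u v b c hh).1 a, b, c⟩) (by
        intro x hx x' hx' hc u hu huK
        rw [hKB, Finset.mem_inter] at hx hx' huK
        have huK' : u ∉ h.K := fun e => huK ⟨e, hu⟩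
        rw [adjH₁, adjH₁, h.lin_out (Or.inr huK'), h.lin_out (Or.inr huK')]
        constructor
        · rintro ⟨a, b, c⟩
          exact ⟨h.twin hC hx.1 hx'.1 hc (hBA hu) huK' a, hx'.2, c⟩
        · rintro ⟨a, b, c⟩
          exact ⟨h.twin hC hx'.1 hx.1 hc.symm (hBA hu) huK' a, hx.2, c⟩) hyF₁
    refine ⟨y', hy'.y0, hy'.ysymm, ?_, ?_⟩
    · intro u v hne
      obtain ⟨a, b, c⟩ := hy'.yE u v hne
      exact ⟨((adjG₁ u v).1 a).1, b, c⟩
    · intro v hv
      rw [hy'.sum v hv]
      split_ifs with h1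
      · have h2 := class_card (B := B) (mono _ _ adjG₁ (pcm hC)) hR₁
          (fun T hT T' hT' => h.R_disj T (hRR hT) T' (hRR hT')) (col v)
        rw [Finset.sum_const, h2, nsmul_eq_mul, mul_one]
        apply div_self
        have := Finset.card_pos.2 hRne
        positivity
      · rfl

end Pool.Agent.H.MP_ebc13b_lc.h53
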