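import Pool.Agent.H.MP_ebc13b_lc.h53.ParR

/-!
Deletion of a vertex in the approximate linear program.
-/

namespace Pool.Agent.H.MP_ebc13b_lc.h53

open Pool.Agent.H.MP_ebc13b_lc.h46

variable {α : Type*} [DecidableEq α]

/-- a solution of the approximate linear program -/
def AS (G : SimpleGraph α) (A : Finset α) (t : ℕ) (ε : ℝ) (z : Finset α → ℝ) (y : α → α → ℝ)
    (s : α → ℝ) : Prop :=
  ZT G A z ∧ (∀ v, 0 ≤ s v) ∧ YF G A (fun v => 1 - ld A z v - s v) y ∧
    |∑ T ∈ A.powerset, z T - t| + ∑ v ∈ A, s v ≤ ε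

variable {G : SimpleGraph α} {A B : Finset α}

/-- the edges replacing a triangle `T` and covering `u` -/
theorem repl (hPr : Prism G A) {u : α} {T : Finset α} (hu : u ∈ A) (hT : IsT G A T) :
    ∃ E : α → α → ℝ, (∀ p q, 0 ≤ E p q) ∧ (∀ p q, E p q = E q p) ∧
      (∀ p q, E p q ≠ 0 → G.Adj p q ∧ (p ∈ T ∨ p = u) ∧ (q ∈ T ∨ q = u)) ∧
      ∀ B : Finset α, T ⊆ B → u ∈ B → ∀ p,
        ∑ q ∈ B, E p q = (if p = u then 1 else 0) + (if p ∈ T then 1 else 0) := by
  by_cases huT : u ∈ T
  · obtain ⟨a, b, h1, h2, h3, hTe⟩ := exists_abc hT.2 huT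
    refine ⟨fun p q => pr u a 1 p q + pr u b 1 p q, ?_, ?_, ?_, ?_⟩
    · intro p q
      exact add_nonneg (pr_nonneg zero_le_one _ _) (pr_nonneg zero_le_one _ _)
    · intro p q
      dsimp only
      rw [pr_symm u a, pr_symm u b]
    · intro p q hne
      dsimp only at hne
      by_cases hz : pr u a 1 p q = 0
      · rw [hz, zero_add] at hne
        obtain ⟨_, h4⟩ := pr_ne hne
        rcases h4 with ⟨rfl, rfl⟩ | ⟨rfl, rfl⟩
        · exact ⟨h2, Or.inr rfl, Or.inl (by rw [hTe]; simp)⟩
        · exact ⟨h2.symm, Or.inl (by rw [hTe]; simp), Or.inr rfl⟩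
      · obtain ⟨_, h4⟩ := pr_ne hz
        rcases h4 with ⟨rfl, rfl⟩ | ⟨rfl, rfl⟩
        · exact ⟨h1, Or.inr rfl, Or.inl (by rw [hTe]; simp)⟩
        · exact ⟨h1.symm, Or.inl (by rw [hTe]; simp), Or.inr rfl⟩
    · intro B hTB huB p
      have ha : a ∈ B := hTB (by rw [hTe]; simp)
      have hb : b ∈ B := hTB (by rw [hTe]; simp)
      rw [Finset.sum_add_distrib, sum_pr h1.ne (fun _ => ⟨huB, ha⟩),
        sum_pr h2.ne (fun _ => ⟨huB, hb⟩), hTe]
      simp only [Finset.mem_insert, Finset.mem_singleton]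
      by_cases e1 : p = u
      · simp [e1]
      · by_cases e2 : p = a
        · subst e2
          have : ¬ p = b := h3.ne
          simp [e1, this]
        · simp [e1, e2]
  · obtain ⟨t, ht, hadj, _⟩ := hPr T hT.1 hT.2 u hu huT
    obtain ⟨a, b, h1, h2, h3, hTe⟩ := exists_abc hT.2 ht
    have hua : u ≠ a := by
      rintro rfl
      exact huT (by rw [hTe]; simp)
    have hub : u ≠ b := by
      rintro rfl
      exact huT (by rw [hTe]; simp)
    refine ⟨fun p q => pr u t 1 p q + pr a b 1 p q, ?_, ?_, ?_, ?_⟩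
    · intro p q
      exact add_nonneg (pr_nonneg zero_le_one _ _) (pr_nonneg zero_le_one _ _)
    · intro p q
      dsimp only
      rw [pr_symm u t, pr_symm a b]
    · intro p q hne
      dsimp only at hne
      by_cases hz : pr u t 1 p q = 0
      · rw [hz, zero_add] at hne
        obtain ⟨_, h4⟩ := pr_ne hne
        rcases h4 with ⟨rfl, rfl⟩ | ⟨rfl, rfl⟩
        · exact ⟨h3, Or.inl (by rw [hTe]; simp), Or.inl (by rw [hTe]; simp)⟩
        · exact ⟨h3.symm, Or.inl (by rw [hTe]; simp), Or.inl (by rw [hTe]; simp)⟩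
      · obtain ⟨_, h4⟩ := pr_ne hz
        rcases h4 with ⟨rfl, rfl⟩ | ⟨rfl, rfl⟩
        · exact ⟨hadj, Or.inr rfl, Or.inl ht⟩
        · exact ⟨hadj.symm, Or.inl ht, Or.inr rfl⟩
    · intro B hTB huB p
      have ht' : t ∈ B := hTB ht
      have ha : a ∈ B := hTB (by rw [hTe]; simp)
      have hb : b ∈ B := hTB (by rw [hTe]; simp)
      rw [Finset.sum_add_distrib, sum_pr hadj.ne (fun _ => ⟨huB, ht'⟩),
        sum_pr h3.ne (fun _ => ⟨ha, hb⟩), hTe]
      simp only [Finset.mem_insert, Finset.mem_singleton]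
      by_cases e1 : p = u
      · subst e1
        have : ¬ p = t := hadj.ne
        simp [this, hua, hub]
      · by_cases e2 : p = t
        · subst e2
          have n1 : ¬ p = a := h1.ne
          have n2 : ¬ p = b := h2.ne
          simp [e1, n1, n2]
        · simp [e1, e2]

/-- the edge replacing a triangle `T` through `h` -/
theorem repl0 {h : α} {T : Finset α} (hT : IsT G A T) (hh : h ∈ T) :
    ∃ E : α → α → ℝ, (∀ p q, 0 ≤ E p q) ∧ (∀ p q, E p q = E q p) ∧
      (∀ p q, E p q ≠ 0 → G.Adj p q ∧ (p ∈ T ∧ p ≠ h) ∧ (q ∈ T ∧ q ≠ h)) ∧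
      (∀ B : Finset α, T.erase h ⊆ B → ∀ p, p ≠ h →
        ∑ q ∈ B, E p q = (if p ∈ T then 1 else 0)) ∧
      ∀ p q, T = {h, p, q} → E p q = 1 := by
  obtain ⟨a, b, h1, h2, h3, hTe⟩ := exists_abc hT.2 hh
  refine ⟨fun p q => pr a b 1 p q, ?_, ?_, ?_, ?_, ?_⟩
  · intro p q
    exact pr_nonneg zero_le_one _ _
  · intro p q
    dsimp only
    rw [pr_symm a b]
  · intro p q hne
    obtain ⟨_, h4⟩ := pr_ne hne
    rcases h4 with ⟨rfl, rfl⟩ | ⟨rfl, rfl⟩
    · exact ⟨h3, ⟨by rw [hTe]; simp, h1.ne.symm⟩, ⟨by rw [hTe]; simp, h2.ne.symm⟩⟩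
    · exact ⟨h3.symm, ⟨by rw [hTe]; simp, h2.ne.symm⟩, ⟨by rw [hTe]; simp, h1.ne.symm⟩⟩
  · intro B hTB p hp
    have ha : a ∈ B := hTB (Finset.mem_erase.2 ⟨h1.ne.symm, by rw [hTe]; simp⟩)
    have hb : b ∈ B := hTB (Finset.mem_erase.2 ⟨h2.ne.symm, by rw [hTe]; simp⟩)
    rw [sum_pr h3.ne (fun _ => ⟨ha, hb⟩), hTe]
    simp only [Finset.mem_insert, Finset.mem_singleton]
    simp [hp]
  · intro p q he
    have hcard : ({h, p, q} : Finset α).card = 3 := by rw [← he]; exact hT.2.card_eq
    have hpq : p ≠ q := by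
      rintro rfl
      have : ({h, p, p} : Finset α).card ≤ 2 := by
        rw [Finset.pair_eq_singleton]
        exact Finset.card_le_two
      omega
    have hph : p ≠ h := by
      rintro rfl
      have : ({p, p, q} : Finset α).card ≤ 2 := by
        rw [Finset.insert_eq_of_mem (Finset.mem_insert_self _ _)]
        exact Finset.card_le_two
      omega
    have hqh : q ≠ h := by
      rintro rfl
      have : ({q, p, q} : Finset α).card ≤ 2 := by
        rw [Finset.insert_eq_of_mem (by simp)]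
        exact Finset.card_le_two
      omega
    have hp : p ∈ T := by rw [he]; simp
    have hq : q ∈ T := by rw [he]; simp
    rw [hTe] at hp hq
    simp only [Finset.mem_insert, Finset.mem_singleton] at hp hq
    have hp' := hp.resolve_left hph
    have hq' := hq.resolve_left hqh
    show pr a b 1 p q = 1
    unfold pr
    rw [if_pos]
    rcases hp' with rfl | rfl <;> rcases hq' with rfl | rfl
    · exact absurd rfl hpq
    · exact Or.inl ⟨rfl, rfl⟩
    · exact Or.inr ⟨rfl, rfl⟩
    · exact absurd rfl hpq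

/-- sums over the subsets of a smaller set -/
theorem sum_pow_sub (hB : B ⊆ A) {f : Finset α → ℝ} (hf : ∀ T, f T ≠ 0 → T ⊆ B) :
    ∑ T ∈ A.powerset, f T = ∑ T ∈ B.powerset, f T := by
  symm
  apply Finset.sum_subset (Finset.powerset_mono.2 hB)
  intro T _ hT
  by_contra hne
  exact hT (Finset.mem_powerset.2 (hf T hne))

theorem dv (hPr : Prism G A) {h : α} (hh : h ∈ A) {t : ℕ} (ht : 1 ≤ t) {ε : ℝ}
    {z : Finset α → ℝ} {y : α → α → ℝ} {s : α → ℝ} (hS : AS G A t ε z y s) :
    ∃ z' y' s', AS G (A.erase h) (t - 1) ε z' y' s' ∧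
      ∀ p q, IsT G A {h, p, q} → y p q + z {h, p, q} ≤ y' p q := by
  classical
  obtain ⟨⟨z0, zT⟩, s0, hy, herr⟩ := hS
  have hE : ∀ u T, ∃ E : α → α → ℝ, u ∈ A → IsT G A T → (∀ p q, 0 ≤ E p q) ∧
      (∀ p q, E p q = E q p) ∧
      (∀ p q, E p q ≠ 0 → G.Adj p q ∧ (p ∈ T ∨ p = u) ∧ (q ∈ T ∨ q = u)) ∧
      ∀ B : Finset α, T ⊆ B → u ∈ B → ∀ p,
        ∑ q ∈ B, E p q = (if p = u then 1 else 0) + (if p ∈ T then 1 else 0) := by
    intro u T
    by_cases h1 : u ∈ A
    · by_cases h2 : IsT G A T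
      · obtain ⟨E, hE⟩ := repl hPr h1 h2
        exact ⟨E, fun _ _ => hE⟩
      · exact ⟨fun _ _ => 0, fun _ h => absurd h h2⟩
    · exact ⟨fun _ _ => 0, fun h => absurd h h1⟩
  choose E hE using hE
  have hF : ∀ T, ∃ E : α → α → ℝ, h ∈ T → IsT G A T → (∀ p q, 0 ≤ E p q) ∧
      (∀ p q, E p q = E q p) ∧
      (∀ p q, E p q ≠ 0 → G.Adj p q ∧ (p ∈ T ∧ p ≠ h) ∧ (q ∈ T ∧ q ≠ h)) ∧
      (∀ B : Finset α, T.erase h ⊆ B → ∀ p, p ≠ h →
        ∑ q ∈ B, E p q = (if p ∈ T then 1 else 0)) ∧
      ∀ p q, T = {h, p, q} → E p q = 1 := by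
    intro T
    by_cases h1 : h ∈ T
    · by_cases h2 : IsT G A T
      · obtain ⟨E, hE⟩ := repl0 h2 h1
        exact ⟨E, fun _ _ => hE⟩
      · exact ⟨fun _ _ => 0, fun _ h => absurd h h2⟩
    · exact ⟨fun _ _ => 0, fun h => absurd h h1⟩
  choose F hF using hF
  set lam : ℝ := ld A z h with hlam
  set σ : ℝ := ∑ T ∈ A.powerset, (if h ∈ T then 0 else z T) with hσ
  set Δ : ℝ := ∑ u ∈ A, y h u with hΔ
  have hΔ' : Δ = 1 - lam - s h := hy.sum h hh
  have σ0 : 0 ≤ σ := Finset.sum_nonneg (fun T _ => by split_ifs; exact le_rfl; exact z0 T)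
  have Δ0 : 0 ≤ Δ := Finset.sum_nonneg (fun u _ => hy.y0 h u)
  set M : ℝ := max Δ σ with hM
  have M0 : 0 ≤ M := le_max_of_le_left Δ0
  have hΔM : Δ ≤ M := le_max_left _ _
  have hσM : σ ≤ M := le_max_right _ _
  have rΔ : 0 ≤ 1 - Δ / M := by
    have : Δ / M ≤ 1 := div_le_one_of_le₀ hΔM M0
    linarith
  have rσ : 0 ≤ 1 - σ / M := by
    have : σ / M ≤ 1 := div_le_one_of_le₀ hσM M0
    linarith
  set x : α → Finset α → ℝ := fun u T => if h ∈ T then 0 else y h u * z T / M with hx
  have x0 : ∀ u T, 0 ≤ x u T := by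
    intro u T
    rw [hx]
    dsimp only
    split_ifs
    · exact le_rfl
    · exact div_nonneg (mul_nonneg (hy.y0 h u) (z0 T)) M0
  have xne : ∀ u T, x u T ≠ 0 → h ∉ T ∧ u ∈ A ∧ u ≠ h ∧ IsT G A T := by
    intro u T hne
    rw [hx] at hne
    dsimp only at hne
    split_ifs at hne with h1
    · exact absurd rfl hne
    · have h2 : y h u ≠ 0 := by
        intro h0
        apply hne
        rw [h0, zero_mul, zero_div]
      have h3 : z T ≠ 0 := by
        intro h0
        apply hne
        rw [h0, mul_zero, zero_div]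
      obtain ⟨h4, _, h5⟩ := hy.yE h u h2
      exact ⟨h1, h5, h4.ne.symm, zT T h3⟩
  set y1 : α → α → ℝ := fun p q => ∑ T ∈ A.powerset, (if h ∈ T then z T * F T p q else 0)
    with hy1
  set y2 : α → α → ℝ := fun p q => ∑ u ∈ A, ∑ T ∈ A.powerset, x u T * E u T p q with hy2
  have y1t : ∀ p q T, 0 ≤ (if h ∈ T then z T * F T p q else 0) := by
    intro p q T
    split_ifs with h1
    · by_cases h2 : z T = 0
      · rw [h2, zero_mul]
      · exact mul_nonneg (z0 T) ((hF T h1 (zT T h2)).1 p q)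
    · exact le_rfl
  have y10 : ∀ p q, 0 ≤ y1 p q := fun p q => Finset.sum_nonneg (fun T _ => y1t p q T)
  have y20 : ∀ p q, 0 ≤ y2 p q := by
    intro p q
    apply Finset.sum_nonneg
    intro u _
    apply Finset.sum_nonneg
    intro T _
    by_cases h2 : x u T = 0
    · rw [h2, zero_mul]
    · obtain ⟨_, a, _, b⟩ := xne u T h2
      exact mul_nonneg (x0 u T) ((hE u T a b).1 p q)
  have y1s : ∀ p q, y1 p q = y1 q p := by
    intro p q
    rw [hy1]
    dsimp only
    apply Finset.sum_congr rfl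
    intro T _
    by_cases h1 : h ∈ T
    · rw [if_pos h1, if_pos h1]
      by_cases h2 : z T = 0
      · rw [h2, zero_mul, zero_mul]
      · rw [(hF T h1 (zT T h2)).2.1 p q]
    · rw [if_neg h1, if_neg h1]
  have y2s : ∀ p q, y2 p q = y2 q p := by
    intro p q
    rw [hy2]
    dsimp only
    apply Finset.sum_congr rfl
    intro u _
    apply Finset.sum_congr rfl
    intro T _
    by_cases h2 : x u T = 0
    · rw [h2, zero_mul, zero_mul]
    · obtain ⟨_, a, _, b⟩ := xne u T h2
      rw [(hE u T a b).2.1 p q]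
  have y1E : ∀ p q, y1 p q ≠ 0 → G.Adj p q ∧ (p ∈ A ∧ p ≠ h) ∧ (q ∈ A ∧ q ≠ h) := by
    intro p q hne
    obtain ⟨T, _, hne'⟩ := Finset.exists_ne_zero_of_sum_ne_zero hne
    by_cases h1 : h ∈ T
    · rw [if_pos h1] at hne'
      have h2 : z T ≠ 0 := left_ne_zero_of_mul hne'
      have h3 := zT T h2
      obtain ⟨a, b, c⟩ := (hF T h1 h3).2.2.1 p q (right_ne_zero_of_mul hne')
      exact ⟨a, ⟨h3.1 b.1, b.2⟩, ⟨h3.1 c.1, c.2⟩⟩
    · rw [if_neg h1] at hne'
      exact absurd rfl hne'
  have y2E : ∀ p q, y2 p q ≠ 0 → G.Adj p q ∧ (p ∈ A ∧ p ≠ h) ∧ (q ∈ A ∧ q ≠ h) := by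
    intro p q hne
    obtain ⟨u, _, hne'⟩ := Finset.exists_ne_zero_of_sum_ne_zero hne
    obtain ⟨T, _, hne''⟩ := Finset.exists_ne_zero_of_sum_ne_zero hne'
    obtain ⟨a1, a2, a3, a4⟩ := xne u T (left_ne_zero_of_mul hne'')
    obtain ⟨a, b, c⟩ := (hE u T a2 a4).2.2.1 p q (right_ne_zero_of_mul hne'')
    refine ⟨a, ?_, ?_⟩
    · rcases b with b | b
      · exact ⟨a4.1 b, fun e => a1 (e ▸ b)⟩
      · rw [b]; exact ⟨a2, a3⟩
    · rcases c with b | b
      · exact ⟨a4.1 b, fun e => a1 (e ▸ b)⟩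
      · rw [b]; exact ⟨a2, a3⟩
  set z' : Finset α → ℝ := fun T => if h ∈ T then 0 else z T * (1 - Δ / M) with hz'
  set s' : α → ℝ := fun u => s u + y h u * (1 - σ / M) with hs'
  set y' : α → α → ℝ := fun p q => if p = h ∨ q = h then 0 else y p q + y1 p q + y2 p q with hy'
  have z'sub : ∀ T, z' T ≠ 0 → T ⊆ A.erase h ∧ IsT G A T := by
    intro T hne
    rw [hz'] at hne
    dsimp only at hne
    split_ifs at hne with h1
    · exact absurd rfl hne
    · have h2 := zT T (left_ne_zero_of_mul hne)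
      exact ⟨Finset.subset_erase.2 ⟨h2.1, h1⟩, h2⟩
  have yhh : y h h = 0 := by
    by_contra hne
    exact (hy.yE h h hne).1.ne rfl
  -- row sums
  have sumy : ∀ p ∈ A, p ≠ h → ∑ q ∈ A.erase h, y p q = 1 - ld A z p - s p - y h p := by
    intro p hp hph
    have h1 := hy.sum p hp
    rw [← Finset.add_sum_erase _ _ hh] at h1
    rw [hy.ysymm h p]
    linarith
  have sumy1 : ∀ p, p ≠ h → ∑ q ∈ A.erase h, y1 p q =
      ∑ T ∈ A.powerset, (if h ∈ T then (if p ∈ T then z T else 0) else 0) := by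
    intro p hph
    rw [hy1]
    dsimp only
    rw [Finset.sum_comm]
    apply Finset.sum_congr rfl
    intro T _
    by_cases h1 : h ∈ T
    · simp only [if_pos h1]
      rw [← Finset.mul_sum]
      by_cases h2 : z T = 0
      · rw [h2, zero_mul]
        simp
      · have h3 := zT T h2
        rw [(hF T h1 h3).2.2.2.1 (A.erase h) (Finset.erase_subset_erase h h3.1) p hph]
        split_ifs <;> simp
    · simp only [if_neg h1]
      simp
  have sumx : ∀ p, ∑ T ∈ A.powerset, x p T = y h p * σ / M := by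
    intro p
    rw [hσ, Finset.mul_sum, Finset.sum_div]
    apply Finset.sum_congr rfl
    intro T _
    rw [hx]
    dsimp only
    split_ifs
    · simp
    · rfl
  have sumx' : ∀ T, ∑ u ∈ A, x u T = if h ∈ T then 0 else Δ * z T / M := by
    intro T
    rw [hx]
    dsimp only
    split_ifs
    · simp
    · rw [← Finset.sum_div, ← Finset.sum_mul]
  have sumy2 : ∀ p ∈ A, p ≠ h → ∑ q ∈ A.erase h, y2 p q = y h p * σ / M +
      ∑ T ∈ A.powerset, (if h ∈ T then 0 else (if p ∈ T then z T else 0)) * (Δ / M) := by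
    intro p hp hph
    rw [hy2]
    dsimp only
    rw [Finset.sum_comm]
    have e1 : ∀ u ∈ A, ∑ q ∈ A.erase h, ∑ T ∈ A.powerset, x u T * E u T p q =
        ∑ T ∈ A.powerset, (x u T * (if p = u then 1 else 0) +
          x u T * (if p ∈ T then 1 else 0)) := by
      intro u hu
      rw [Finset.sum_comm]
      apply Finset.sum_congr rfl
      intro T _
      rw [← Finset.mul_sum]
      by_cases h2 : x u T = 0
      · rw [h2]; simp
      · obtain ⟨a1, a2, a3, a4⟩ := xne u T h2
        rw [(hE u T a2 a4).2.2.2 (A.erase h) (Finset.subset_erase.2 ⟨a4.1, a1⟩)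
          (Finset.mem_erase.2 ⟨a3, a2⟩) p]
        ring
    rw [Finset.sum_congr rfl e1]
    simp only [Finset.sum_add_distrib]
    congr 1
    · rw [Finset.sum_eq_single p]
      · simp only [if_true, mul_one]
        exact sumx p
      · intro u _ hup
        apply Finset.sum_eq_zero
        intro T _
        rw [if_neg (Ne.symm hup), mul_zero]
      · intro hn
        exact absurd hp hn
    · rw [Finset.sum_comm]
      apply Finset.sum_congr rfl
      intro T _
      rw [← Finset.sum_mul, sumx']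
      split_ifs
      · simp
      · simp
      · simp; ring
      · simp
  have ldsplit : ∀ p, ld A z p =
      ∑ T ∈ A.powerset, (if h ∈ T then (if p ∈ T then z T else 0) else 0) +
      ∑ T ∈ A.powerset, (if h ∈ T then 0 else (if p ∈ T then z T else 0)) := by
    intro p
    unfold ld
    rw [← Finset.sum_add_distrib]
    apply Finset.sum_congr rfl
    intro T _
    by_cases h1 : h ∈ T
    · simp [h1]
    · simp [h1]
  have ldz' : ∀ p, ld (A.erase h) z' p =
      ∑ T ∈ A.powerset, (if h ∈ T then 0 else (if p ∈ T then z T else 0)) * (1 - Δ / M) := by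
    intro p
    unfold ld
    rw [← sum_pow_sub (A := A) (B := A.erase h) (Finset.erase_subset h A)]
    · apply Finset.sum_congr rfl
      intro T _
      rw [hz']
      dsimp only
      by_cases h1 : h ∈ T
      · simp [h1]
      · by_cases h2 : p ∈ T
        · simp [h1, h2]
        · simp [h1, h2]
    · intro T hne
      have : z' T ≠ 0 := by
        intro h0
        apply hne
        rw [h0]
        simp
      exact (z'sub T this).1
  refine ⟨z', y', s', ⟨⟨?_, ?_⟩, ?_, ⟨?_, ?_, ?_, ?_⟩, ?_⟩, ?_⟩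
  · intro T
    rw [hz']
    dsimp only
    split_ifs
    · exact le_rfl
    · exact mul_nonneg (z0 T) rΔ
  · intro T hne
    obtain ⟨h1, h2⟩ := z'sub T hne
    exact ⟨h1, h2.2⟩
  · intro u
    rw [hs']
    dsimp only
    exact add_nonneg (s0 u) (mul_nonneg (hy.y0 h u) rσ)
  · intro p q
    rw [hy']
    dsimp only
    split_ifs
    · exact le_rfl
    · exact add_nonneg (add_nonneg (hy.y0 p q) (y10 p q)) (y20 p q)
  · intro p q
    rw [hy']
    dsimp only
    rw [y1s p q, y2s p q, hy.ysymm p q]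
    congr 1
    apply propext
    tauto
  · intro p q hne
    rw [hy'] at hne
    dsimp only at hne
    split_ifs at hne with h1
    · exact absurd rfl hne
    · rw [not_or] at h1
      by_cases e1 : y p q = 0
      · by_cases e2 : y1 p q = 0
        · have e3 : y2 p q ≠ 0 := by
            intro h0
            apply hne
            rw [e1, e2, h0]
            norm_num
          obtain ⟨a, b, c⟩ := y2E p q e3
          exact ⟨a, Finset.mem_erase.2 ⟨b.2, b.1⟩, Finset.mem_erase.2 ⟨c.2, c.1⟩⟩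
        · obtain ⟨a, b, c⟩ := y1E p q e2
          exact ⟨a, Finset.mem_erase.2 ⟨b.2, b.1⟩, Finset.mem_erase.2 ⟨c.2, c.1⟩⟩
      · obtain ⟨a, b, c⟩ := hy.yE p q e1
        exact ⟨a, Finset.mem_erase.2 ⟨h1.1, b⟩, Finset.mem_erase.2 ⟨h1.2, c⟩⟩
  · intro p hp
    obtain ⟨hph, hpA⟩ := Finset.mem_erase.1 hp
    have e1 : ∀ q ∈ A.erase h, y' p q = y p q + y1 p q + y2 p q := by
      intro q hq
      rw [hy']
      dsimp only
      rw [if_neg]
      rintro (e | e)
      · exact hph e
      · exact (Finset.mem_erase.1 hq).1 e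
    rw [Finset.sum_congr rfl e1, Finset.sum_add_distrib, Finset.sum_add_distrib,
      sumy p hpA hph, sumy1 p hph, sumy2 p hpA hph, ldz', ldsplit p, ← Finset.sum_mul,
      ← Finset.sum_mul, hs']
    dsimp only
    ring
  · have e1 : ∑ T ∈ (A.erase h).powerset, z' T = σ * (1 - Δ / M) := by
      rw [← sum_pow_sub (A := A) (B := A.erase h) (Finset.erase_subset h A)
        (fun T hne => (z'sub T hne).1), hσ, Finset.sum_mul]
      apply Finset.sum_congr rfl
      intro T _
      rw [hz']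
      dsimp only
      split_ifs
      · simp
      · rfl
    have e2 : ∑ u ∈ A.erase h, s' u = ∑ u ∈ A, s u - s h + Δ * (1 - σ / M) := by
      have e3 : ∑ u ∈ A, s' u = ∑ u ∈ A, s u + Δ * (1 - σ / M) := by
        rw [hs']
        dsimp only
        rw [Finset.sum_add_distrib, ← Finset.sum_mul]
      rw [← Finset.add_sum_erase _ _ hh] at e3
      have e4 : s' h = s h := by
        rw [hs']
        dsimp only
        rw [yhh]
        ring
      rw [e4] at e3
      linarith
    have e5 : ∑ T ∈ A.powerset, z T = lam + σ := by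
      rw [hlam, hσ]
      unfold ld
      rw [← Finset.sum_add_distrib]
      apply Finset.sum_congr rfl
      intro T _
      split_ifs <;> simp
    rw [e5] at herr
    have ht' : ((t - 1 : ℕ) : ℝ) = t - 1 := by
      rw [Nat.cast_sub ht, Nat.cast_one]
    have ht1 : (1 : ℝ) ≤ t := by exact_mod_cast ht
    rw [e1, e2, ht']
    have sh0 := s0 h
    have habs := abs_le.1 (le_refl |lam + σ - (t : ℝ)|)
    rcases le_or_gt Δ σ with hle | hgt
    · have hMσ : M = σ := max_eq_right hle
      rw [hMσ]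
      rcases eq_or_lt_of_le σ0 with h0 | hpos
      · rw [← h0]
        have hΔ0 : Δ = 0 := le_antisymm (by rw [h0]; exact hle) Δ0
        rw [hΔ0]
        have h1 : |0 * (1 - 0 / 0) - ((t : ℝ) - 1)| = t - 1 := by
          rw [zero_mul, zero_sub, abs_neg, abs_of_nonneg (by linarith)]
        rw [h1]
        rw [hΔ0] at hΔ'
        rw [← h0] at herr habs
        have h2 : |lam + 0 - (t : ℝ)| = t - lam := by
          rw [abs_of_nonpos (by linarith)]
          ring
        rw [h2] at herr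
        linarith
      · have h1 : σ * (1 - Δ / σ) = σ - Δ := by
          field_simp
        have h2 : Δ * (1 - σ / σ) = 0 := by
          rw [div_self hpos.ne']
          ring
        rw [h1, h2]
        have h3 : |σ - Δ - ((t : ℝ) - 1)| ≤ |lam + σ - t| + s h := by
          have : σ - Δ - ((t : ℝ) - 1) = (lam + σ - t) + s h := by
            rw [hΔ']
            ring
          rw [this]
          calc |lam + σ - ↑t + s h| ≤ |lam + σ - t| + |s h| := abs_add_le _ _
            _ = _ := by rw [abs_of_nonneg sh0]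
        linarith
    · have hMΔ : M = Δ := max_eq_left hgt.le
      have hpos : 0 < Δ := lt_of_le_of_lt σ0 hgt
      rw [hMΔ]
      have h1 : σ * (1 - Δ / Δ) = 0 := by
        rw [div_self hpos.ne']
        ring
      have h2 : Δ * (1 - σ / Δ) = Δ - σ := by
        field_simp
      rw [h1, h2]
      have h3 : |0 - ((t : ℝ) - 1)| = t - 1 := by
        rw [zero_sub, abs_neg, abs_of_nonneg (by linarith)]
      rw [h3]
      linarith [habs.1]
  · intro p q hT
    have hph : p ≠ h := by
      rintro rfl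
      have h1 : ({p, p, q} : Finset α).card ≤ 2 := by
        rw [Finset.insert_eq_of_mem (Finset.mem_insert_self _ _)]
        exact Finset.card_le_two
      have := hT.2.card_eq
      omega
    have hqh : q ≠ h := by
      rintro rfl
      have h1 : ({q, p, q} : Finset α).card ≤ 2 := by
        rw [Finset.insert_eq_of_mem (by simp)]
        exact Finset.card_le_two
      have := hT.2.card_eq
      omega
    have e1 : y' p q = y p q + y1 p q + y2 p q := by
      rw [hy']
      dsimp only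
      rw [if_neg (by tauto)]
    have e2 : z {h, p, q} ≤ y1 p q := by
      have hmem : h ∈ ({h, p, q} : Finset α) := by simp
      have h1 : (if h ∈ ({h, p, q} : Finset α) then z {h, p, q} * F {h, p, q} p q else 0) =
          z {h, p, q} := by
        rw [if_pos hmem, (hF _ hmem hT).2.2.2.2 p q rfl, mul_one]
      rw [← h1, hy1]
      exact Finset.single_le_sum (f := fun T => if h ∈ T then z T * F T p q else 0)
        (fun T _ => y1t p q T) (Finset.mem_powerset.2 hT.1)
    rw [e1]
    linarith [y20 p q]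

end Pool.Agent.H.MP_ebc13b_lc.h53
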