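import Pool.Agent.H.MP_ebc13b_lc.h53.FShape

/-!
The shapes of maximal stable sets: runs of four, conclusion.
-/

namespace Pool.Agent.H.MP_ebc13b_lc.h53

open Pool.Agent.H.MP_ebc13b_lc.h46

variable {α : Type*} [DecidableEq α] {G : SimpleGraph α} {A : Finset α} {col : α → ZMod 3}

namespace Line

variable (L : Line G A col)

/-- (E) mirrored and shifted: in a run of four the class of `mid (i+2)` -/
theorem four_mid (hC : PC G A col) {F : Finset α} (hF : MaxS G A F) {i : ℕ} (hl : L.lk i)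
    (hl1 : L.lk (i + 1)) (hl2 : L.lk (i + 2)) (hl3 : L.lk (i + 3))
    (hm1 : L.mid (i + 1) ∈ F) (hm3 : L.mid (i + 3) ∈ F) :
    ∀ f ∈ F, col f = col (L.h i) + 1 → f = L.mid (i + 2) := by
  intro f hf hfc
  exact L.three_mid hC hF hl1 hl2 hl3 hm1 hm3 f hf (by rw [hfc, L.lk_col i hl])

/-- run of four, left side -/
theorem four_left (hC : PC G A col) {F : Finset α} (hF : MaxS G A F) {i : ℕ} (hl : L.lk i)
    (hl1 : L.lk (i + 1)) (hl2 : L.lk (i + 2)) (hl3 : L.lk (i + 3)) (hm : L.mid i ∈ F)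
    (hm1 : L.mid (i + 1) ∈ F) (hm2 : L.mid (i + 2) ∈ F) (hm3 : L.mid (i + 3) ∈ F) :
    (∀ T, IsT G A T → Hit F T → 2 * i + 1 ≤ L.blk T) ∧
      ∀ T, IsT G A T → L.h (i + 1) ∈ T → Hit F T := by
  have c1 := L.lk_col i hl
  have c2 := L.lk_mid i hl
  have c3 := L.lk_col _ hl1
  have c5 := L.lk_col _ hl2
  have c6 := L.lk_mid _ hl3
  constructor
  · intro T hT hh
    by_contra hlt
    have h1 : L.h (i + 1) ∉ T := by
      intro h
      have := (L.hub_iff hT (L.lk_lt i hl)).1 h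
      omega
    obtain ⟨k, a1, a2, a3, _⟩ := L.left_out hC hF hl1 hl2 hm1 hm2 hT h1 (by omega) hh _ hm3 (by
      have e : L.h (i + 3) = L.h (i + 2 + 1) := rfl
      have e' : L.h (i + 2) = L.h (i + 1 + 1) := rfl
      rw [c6, e, c5, e', c3, c1]
      generalize col (L.h i) = b
      revert b
      decide)
    have h3 := L.mid_inj hl3 a2 a3
    omega
  · intro T hT h
    rcases (L.hub_iff hT (L.lk_lt _ hl)).1 h with e | e | e
    · -- `B (i+1)`
      have hi2T : L.h (i + 2) ∉ T := by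
        intro h
        have := (L.hub_iff hT (L.lk_lt _ hl1)).1 h
        omega
      have hQ : T ≠ L.Q (i + 1) := by
        rintro rfl
        rw [L.Q_blk hl1] at e
        omega
      apply hF.hit_of hC hT (col (L.h i) + 2)
      · intro f hf hfc h'
        have e1 := L.four_mid hC hF hl hl1 hl2 hl3 hm1 hm3 f hf (by
          rw [hfc]
          generalize col (L.h i) = b
          revert b
          decide)
        subst e1
        exact hC.not_both hT (hF.sub hf) h' (L.mid_gt hC hl2 hT hi2T (by omega))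
      · intro f hf hfc h'
        have e1 := L.three_mid hC hF hl hl1 hl2 hm hm2 f hf (by rw [hfc, z3_21])
        subst e1
        exact hC.not_both hT (hF.sub hf) (L.mid_lt_star hl1 hT h hQ) h'
    · rw [L.eq_Q hT e]
      exact ⟨_, L.mid_mem_Q _, hm1⟩
    · rw [L.eq_Q hT (i := i) (by omega)]
      exact ⟨_, L.mid_mem_Q _, hm⟩

/-- run of four -/
theorem shape_four (hC : PC G A col) {F : Finset α} (hF : MaxS G A F) {i : ℕ} (hl : L.lk i)
    (hl1 : L.lk (i + 1)) (hl2 : L.lk (i + 2)) (hl3 : L.lk (i + 3)) (hm : L.mid i ∈ F)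
    (hm1 : L.mid (i + 1) ∈ F) (hm2 : L.mid (i + 2) ∈ F) (hm3 : L.mid (i + 3) ∈ F) :
    L.Shape2 F (i + 1) := by
  have hlt := L.lk_lt _ hl3
  obtain ⟨l1, l2⟩ := L.four_left hC hF hl hl1 hl2 hl3 hm hm1 hm2 hm3
  have e0 : L.m - 2 - (i + 3) + 1 = L.m - 2 - (i + 2) := by omega
  have e1 : L.m - 2 - (i + 3) + 2 = L.m - 2 - (i + 1) := by omega
  have e2 : L.m - 2 - (i + 3) + 3 = L.m - 2 - i := by omega
  have e3 : (L.rev hC).h (L.m - 2 - (i + 3) + 1) = L.h (i + 3) := by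
    rw [L.rev_h]; congr 1; omega
  obtain ⟨r1, r2⟩ := (L.rev hC).four_left hC.rev hF (i := L.m - 2 - (i + 3)) (L.rev_lk' hC hl3)
    (by rw [e0]; exact L.rev_lk' hC hl2) (by rw [e1]; exact L.rev_lk' hC hl1)
    (by rw [e2]; exact L.rev_lk' hC hl)
    (by rw [L.rev_mid' hC hl3]; exact hm3) (by rw [e0, L.rev_mid' hC hl2]; exact hm2)
    (by rw [e1, L.rev_mid' hC hl1]; exact hm1) (by rw [e2, L.rev_mid' hC hl]; exact hm)
  rw [e3] at r2
  have r1' : ∀ T, IsT G A T → Hit F T → L.blk T ≤ 2 * i + 7 := by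
    intro T hT hh
    have h1 := r1 T hT hh
    rw [L.rev_blk] at h1
    have h2 := L.blk_le hT
    omega
  have hB : L.AllMiss F (2 * (i + 2)) := by
    rintro T hT hb ⟨u, hu, huF⟩
    have hi2T : L.h (i + 2) ∈ T := (L.hub_iff hT (L.lk_lt _ hl1)).2 (Or.inl hb)
    have c1 := L.lk_col i hl
    have c3 := L.lk_col _ hl1
    have n1 : col u ≠ col (L.h i) + 2 := by
      intro e
      have : u = L.h (i + 2) := hC.col_inj hT hu hi2T (by
        have e' : L.h (i + 2) = L.h (i + 1 + 1) := rfl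
        rw [e, e', c3, c1, z3_11])
      exact L.right_notF hF hl1 hm1 (this ▸ huF)
    have n2 : col u ≠ col (L.h i) := by
      intro e
      have e1 := L.three_mid hC hF hl hl1 hl2 hm hm2 u huF e
      subst e1
      have := L.mid_unique hl1 hT hu
      rw [this, L.Q_blk hl1] at hb
      omega
    have n3 : col u ≠ col (L.h i) + 1 := by
      intro e
      have e1 := L.four_mid hC hF hl hl1 hl2 hl3 hm1 hm3 u huF e
      subst e1
      have := L.mid_unique hl2 hT hu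
      rw [this, L.Q_blk hl2] at hb
      omega
    revert n1 n2 n3
    generalize col u = a
    generalize col (L.h i) = b
    revert a b
    decide
  refine ⟨hl1, hl2, ⟨_, L.mid_mem_Q _, hm1⟩, ⟨_, L.mid_mem_Q _, hm2⟩, hB, ?_, Or.inl ?_,
    Or.inl ?_⟩
  · intro T hT hh
    have a1 := l1 T hT hh
    have a2 := r1' T hT hh
    have a3 : L.blk T ≠ 2 * (i + 2) := fun e => hB T hT e hh
    by_cases b : L.blk T ≤ 2 * i + 3
    · exact Or.inl ((L.hub_iff hT (L.lk_lt _ hl)).2 (by omega))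
    · exact Or.inr ((L.hub_iff hT (L.lk_lt _ hl2)).2 (by omega))
  · intro T hT h
    exact ⟨T, hT, rfl, l2 T hT h⟩
  · intro T hT h
    exact ⟨T, hT, rfl, r2 T hT h⟩

/-- **The shapes of maximal stable sets.** -/
theorem shape (hC : PC G A col) {F : Finset α} (hF : MaxS G A F) :
    L.Shape0 F ∨ (∃ i, L.Shape1 F i) ∨ (∃ i, L.Shape2 F i) ∨ (∃ i, L.Shape3 F i) := by
  by_cases hN : L.NoCons F
  · left
    intro T S T' S₀ hT hS hT' hS₀ hhT hmS hhT' hmS₀ h1 h2 h3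
    exact L.F1_no hC hF hN hT hS hT' hS₀ hhT (hmS S hS rfl) hhT' (hmS₀ S₀ hS₀ rfl) h1 h2 h3
  by_cases h4 : ∃ i, (L.lk i ∧ L.lk (i + 1) ∧ L.lk (i + 2) ∧ L.lk (i + 3)) ∧
      L.mid i ∈ F ∧ L.mid (i + 1) ∈ F ∧ L.mid (i + 2) ∈ F ∧ L.mid (i + 3) ∈ F
  · obtain ⟨i, ⟨a1, a2, a3, a4⟩, b1, b2, b3, b4⟩ := h4
    exact Or.inr (Or.inr (Or.inl ⟨_, L.shape_four hC hF a1 a2 a3 a4 b1 b2 b3 b4⟩))
  by_cases h3 : ∃ i, (L.lk i ∧ L.lk (i + 1) ∧ L.lk (i + 2)) ∧
      L.mid i ∈ F ∧ L.mid (i + 1) ∈ F ∧ L.mid (i + 2) ∈ F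
  · obtain ⟨i, ⟨a1, a2, a3⟩, b1, b2, b3⟩ := h3
    rcases L.shape_three hC hF a1 a2 a3 b1 b2 b3 (by
      rintro k rfl hk hmk
      exact h4 ⟨k, ⟨hk, a1, a2, a3⟩, hmk, b1, b2, b3⟩) (by
      intro hk hmk
      exact h4 ⟨i, ⟨a1, a2, a3, hk⟩, b1, b2, b3, hmk⟩) with h | h | h
    · exact Or.inl h
    · exact Or.inr (Or.inr (Or.inl h))
    · exact Or.inr (Or.inr (Or.inr h))
  unfold NoCons at hN
  push Not at hN
  obtain ⟨i, hl, hl1, hm, hm1⟩ := hN
  by_cases hemp : ∀ f ∈ F, col f ≠ col (L.h i) + 1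
  · exact Or.inr (Or.inl ⟨i, L.shape_one hC hF hl hl1 hm hm1 hemp⟩)
  · push Not at hemp
    rcases L.shape_two hC hF hl hl1 hm hm1 (by
      rintro k rfl hk hmk
      exact h3 ⟨k, ⟨hk, hl, hl1⟩, hmk, hm, hm1⟩) (by
      intro hk hmk
      exact h3 ⟨i, ⟨hl, hl1, hk⟩, hm, hm1, hmk⟩) hemp with h | h
    · exact Or.inl h
    · exact Or.inr (Or.inr (Or.inl ⟨i, h⟩))

end Line

end Pool.Agent.H.MP_ebc13b_lc.h53
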