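import Pool.Agent.H.MP_ebc13b_lc.h53.FTwo

/-!
The shapes of maximal stable sets.
-/

namespace Pool.Agent.H.MP_ebc13b_lc.h53

open Pool.Agent.H.MP_ebc13b_lc.h46

variable {α : Type*} [DecidableEq α] {G : SimpleGraph α} {A : Finset α} {col : α → ZMod 3}

namespace Line

variable (L : Line G A col)

/-- all triangles of the block `b` miss `F` -/
def AllMiss (F : Finset α) (b : ℕ) : Prop := ∀ T, IsT G A T → L.blk T = b → ¬ Hit F T

/-- some triangle of the block `b` meets `F` -/
def HitB (F : Finset α) (b : ℕ) : Prop := ∃ T, IsT G A T ∧ L.blk T = b ∧ Hit F T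

/-- the blocks met by `F` form a cyclic interval -/
def Shape0 (F : Finset α) : Prop :=
  ∀ T S T' S₀, IsT G A T → IsT G A S → IsT G A T' → IsT G A S₀ → Hit F T →
    L.AllMiss F (L.blk S) → Hit F T' → L.AllMiss F (L.blk S₀) → L.blk T < L.blk S →
    L.blk S < L.blk T' → (L.blk S₀ < L.blk T ∨ L.blk T' < L.blk S₀) → False

/-- the triangles missed by `F` are those of `star (h i) - Q i` and `star (h (i+2)) - Q (i+1)` -/
def Shape1 (F : Finset α) (i : ℕ) : Prop :=
  L.lk i ∧ L.lk (i + 1) ∧ ∀ T, IsT G A T →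
    (¬ Hit F T ↔ (L.h i ∈ T ∧ T ≠ L.Q i) ∨ (L.h (i + 2) ∈ T ∧ T ≠ L.Q (i + 1)))

/-- the block `2 (i+1)` is a hole, the met blocks are `Q i` or the star of `h i` and `Q (i+1)` or
the star of `h (i+2)` -/
def Shape2 (F : Finset α) (i : ℕ) : Prop :=
  L.lk i ∧ L.lk (i + 1) ∧ Hit F (L.Q i) ∧ Hit F (L.Q (i + 1)) ∧ L.AllMiss F (2 * (i + 1)) ∧
    (∀ T, IsT G A T → Hit F T → L.h i ∈ T ∨ L.h (i + 2) ∈ T) ∧
    ((∀ T, IsT G A T → L.h i ∈ T → L.HitB F (L.blk T)) ∨
      (∀ T, IsT G A T → L.h i ∈ T → Hit F T → T = L.Q i)) ∧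
    ((∀ T, IsT G A T → L.h (i + 2) ∈ T → L.HitB F (L.blk T)) ∨
      (∀ T, IsT G A T → L.h (i + 2) ∈ T → Hit F T → T = L.Q (i + 1)))

/-- the met triangles are `Q i`, `Q (i+1)`, `Q (i+2)` -/
def Shape3 (F : Finset α) (i : ℕ) : Prop :=
  L.lk i ∧ L.lk (i + 1) ∧ L.lk (i + 2) ∧ ∀ T, IsT G A T →
    (Hit F T ↔ T = L.Q i ∨ T = L.Q (i + 1) ∨ T = L.Q (i + 2))

section rev

variable (hC : PC G A col)

theorem rev_lk' {j : ℕ} (h : L.lk j) : (L.rev hC).lk (L.m - 2 - j) := by
  have h1 := L.lk_lt j h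
  rw [L.rev_lk]
  refine ⟨by omega, ?_⟩
  have : L.m - 2 - (L.m - 2 - j) = j := by omega
  rw [this]; exact h

theorem rev_mid' {j : ℕ} (h : L.lk j) : (L.rev hC).mid (L.m - 2 - j) = L.mid j := by
  have h1 := L.lk_lt j h
  rw [L.rev_mid]
  congr 1
  omega

theorem rev_h' {j : ℕ} (h : j < L.m) : (L.rev hC).h (L.m - 1 - j) = L.h j := by
  rw [L.rev_h]
  congr 1
  omega

theorem rev_Q' {j : ℕ} (h : L.lk j) : (L.rev hC).Q (L.m - 2 - j) = L.Q j := by
  have h1 := L.lk_lt j h
  have e1 : (L.rev hC).h (L.m - 2 - j) = L.h (j + 1) := by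
    rw [L.rev_h]; congr 1; omega
  have e2 : (L.rev hC).h (L.m - 2 - j + 1) = L.h j := by
    rw [L.rev_h]; congr 1; omega
  unfold Q
  rw [e1, e2, L.rev_mid' hC h]
  ext w
  simp only [Finset.mem_insert, Finset.mem_singleton]
  tauto

end rev

/-- run of length exactly two, left side -/
theorem two_left (hC : PC G A col) {F : Finset α} (hF : MaxS G A F) {i : ℕ} (hl : L.lk i)
    (hl1 : L.lk (i + 1)) (hm : L.mid i ∈ F) (hm1 : L.mid (i + 1) ∈ F)
    (hno : ∀ k, i = k + 1 → L.lk k → L.mid k ∉ F)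
    (hex : ∃ f ∈ F, col f = col (L.h i) + 1) :
    (∀ T, IsT G A T → Hit F T → 2 * i ≤ L.blk T) ∧
      ((∀ T, IsT G A T → L.h i ∈ T → L.HitB F (L.blk T)) ∨
        (∀ T, IsT G A T → L.h i ∈ T → Hit F T → T = L.Q i)) := by
  obtain ⟨f₀, hf₀, hfc₀⟩ := hex
  have hQi : Hit F (L.Q i) := ⟨_, L.mid_mem_Q i, hm⟩
  constructor
  · intro T hT hh
    by_contra hlt
    by_cases hiT : L.h i ∈ T
    · have h1 := (L.hub_iff hT (L.lk_m hl)).1 hiT
      obtain ⟨k, rfl⟩ : ∃ k, i = k + 1 := ⟨i - 1, by omega⟩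
      obtain ⟨hk, e⟩ := L.blk_odd T hT k (by omega)
      change T = L.Q k at e
      subst e
      exact hno k rfl hk (L.Q_ext hC hF hk hl hl1 hm hm1 hh)
    · obtain ⟨k, a1, a2, a3, _⟩ :=
        L.left_out hC hF hl hl1 hm hm1 hT hiT (by omega) hh f₀ hf₀ hfc₀
      exact hno k a1 a2 (a3 ▸ hf₀)
  · by_cases hB : L.HitB F (2 * i)
    · left
      intro T hT hiT
      rcases (L.hub_iff hT (L.lk_m hl)).1 hiT with h | h | h
      · rw [h]; exact hB
      · rw [h]
        exact ⟨L.Q i, L.Q_T hl, L.Q_blk hl, hQi⟩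
      · exfalso
        obtain ⟨k, rfl⟩ : ∃ k, i = k + 1 := ⟨i - 1, by omega⟩
        obtain ⟨hk, e⟩ := L.blk_odd T hT k (by omega)
        obtain ⟨T₁, b1, b2, b3⟩ := hB
        exact hno k rfl hk (L.B_ext hC hF hk hl hl1 hm hm1 b1 b2 b3)
    · right
      intro T hT hiT hh
      rcases (L.hub_iff hT (L.lk_m hl)).1 hiT with h | h | h
      · exact absurd ⟨T, hT, h, hh⟩ hB
      · exact L.eq_Q hT h
      · exfalso
        obtain ⟨k, rfl⟩ : ∃ k, i = k + 1 := ⟨i - 1, by omega⟩
        obtain ⟨hk, e⟩ := L.blk_odd T hT k (by omega)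
        change T = L.Q k at e
        subst e
        exact hno k rfl hk (L.Q_ext hC hF hk hl hl1 hm hm1 hh)

/-- run of length exactly two, right side -/
theorem two_right (hC : PC G A col) {F : Finset α} (hF : MaxS G A F) {i : ℕ} (hl : L.lk i)
    (hl1 : L.lk (i + 1)) (hm : L.mid i ∈ F) (hm1 : L.mid (i + 1) ∈ F)
    (hno : L.lk (i + 2) → L.mid (i + 2) ∉ F)
    (hex : ∃ f ∈ F, col f = col (L.h i) + 1) :
    (∀ T, IsT G A T → Hit F T → L.blk T ≤ 2 * i + 4) ∧
      ((∀ T, IsT G A T → L.h (i + 2) ∈ T → L.HitB F (L.blk T)) ∨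
        (∀ T, IsT G A T → L.h (i + 2) ∈ T → Hit F T → T = L.Q (i + 1))) := by
  have hlt := L.lk_lt _ hl1
  have e0 : L.m - 2 - (i + 1) + 1 = L.m - 2 - i := by omega
  have eh : (L.rev hC).h (L.m - 2 - (i + 1)) = L.h (i + 2) := by
    rw [L.rev_h]; congr 1; omega
  have key := (L.rev hC).two_left hC.rev hF (i := L.m - 2 - (i + 1)) (L.rev_lk' hC hl1)
    (by rw [e0]; exact L.rev_lk' hC hl) (by rw [L.rev_mid' hC hl1]; exact hm1)
    (by rw [e0, L.rev_mid' hC hl]; exact hm) (by
      intro k hk hk1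
      have e1 : L.m - 2 - k = i + 2 := by omega
      rw [L.rev_lk, e1] at hk1
      rw [L.rev_mid, e1]
      exact hno hk1.2) (by
      obtain ⟨f, hf, hfc⟩ := hex
      refine ⟨f, hf, ?_⟩
      rw [eh]
      simp only [rcol]
      have e2 : L.h (i + 2) = L.h (i + 1 + 1) := rfl
      rw [e2, hfc, L.lk_col _ hl1, L.lk_col i hl]
      generalize col (L.h i) = b
      revert b
      decide)
  rw [eh, L.rev_Q' hC hl1] at key
  obtain ⟨k1, k2⟩ := key
  constructor
  · intro T hT hh
    have h1 := k1 T hT hh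
    rw [L.rev_blk] at h1
    have h2 := L.blk_le hT
    omega
  · rcases k2 with k2 | k2
    · left
      intro T hT h
      obtain ⟨T', h1, h2, h3⟩ := k2 T hT h
      refine ⟨T', h1, ?_, h3⟩
      rw [L.rev_blk, L.rev_blk] at h2
      have h4 := L.blk_le hT
      have h5 := L.blk_le h1
      omega
    · right
      exact k2

/-- run of length exactly two -/
theorem shape_two (hC : PC G A col) {F : Finset α} (hF : MaxS G A F) {i : ℕ} (hl : L.lk i)
    (hl1 : L.lk (i + 1)) (hm : L.mid i ∈ F) (hm1 : L.mid (i + 1) ∈ F)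
    (hno : ∀ k, i = k + 1 → L.lk k → L.mid k ∉ F)
    (hno' : L.lk (i + 2) → L.mid (i + 2) ∉ F)
    (hex : ∃ f ∈ F, col f = col (L.h i) + 1) : L.Shape0 F ∨ L.Shape2 F i := by
  obtain ⟨l1, l2⟩ := L.two_left hC hF hl hl1 hm hm1 hno hex
  obtain ⟨r1, r2⟩ := L.two_right hC hF hl hl1 hm hm1 hno' hex
  have hQi : Hit F (L.Q i) := ⟨_, L.mid_mem_Q i, hm⟩
  have hQi1 : Hit F (L.Q (i + 1)) := ⟨_, L.mid_mem_Q _, hm1⟩
  by_cases hB : L.AllMiss F (2 * (i + 1))
  · right
    refine ⟨hl, hl1, hQi, hQi1, hB, ?_, l2, r2⟩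
    intro T hT hh
    have h1 := l1 T hT hh
    have h2 := r1 T hT hh
    have h3 : L.blk T ≠ 2 * (i + 1) := fun e => hB T hT e hh
    by_cases h4 : L.blk T ≤ 2 * i + 1
    · left
      exact (L.hub_iff hT (L.lk_m hl)).2 (by omega)
    · right
      exact (L.hub_iff hT (L.lk_lt _ hl1)).2 (by omega)
  · left
    intro T S T' S₀ hT hS hT' hS₀ hhT hmS hhT' hmS₀ h1 h2 h3
    have a1 := l1 T hT hhT
    have a2 := r1 T' hT' hhT'
    have b1 : L.blk S ≠ 2 * i + 1 := by
      intro e
      exact hmS _ (L.Q_T hl) (by rw [e, L.Q_blk hl]) hQi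
    have b2 : L.blk S ≠ 2 * (i + 1) := by
      intro e
      rw [e] at hmS
      exact hB hmS
    have b3 : L.blk S ≠ 2 * (i + 1) + 1 := by
      intro e
      exact hmS _ (L.Q_T hl1) (by rw [e, L.Q_blk hl1]) hQi1
    omega

/-- shape 1 -/
theorem shape_one (hC : PC G A col) {F : Finset α} (hF : MaxS G A F) {i : ℕ} (hl : L.lk i)
    (hl1 : L.lk (i + 1)) (hm : L.mid i ∈ F) (hm1 : L.mid (i + 1) ∈ F)
    (hemp : ∀ f ∈ F, col f ≠ col (L.h i) + 1) : L.Shape1 F i := by
  have hlt := L.lk_lt _ hl1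
  have e0 : L.m - 2 - (i + 1) + 1 = L.m - 2 - i := by omega
  have e1 : (L.rev hC).h (L.m - 2 - (i + 1)) = L.h (i + 2) := by
    rw [L.rev_h]; congr 1; omega
  have e2 : (L.rev hC).h (L.m - 2 - (i + 1) + 2) = L.h i := by
    rw [L.rev_h]; congr 1; omega
  have hemp' : ∀ f ∈ F, rcol col f ≠ rcol col ((L.rev hC).h (L.m - 2 - (i + 1))) + 1 := by
    intro f hf hfc
    apply hemp f hf
    rw [e1] at hfc
    simp only [rcol] at hfc
    have e2 : L.h (i + 2) = L.h (i + 1 + 1) := rfl
    rw [e2, L.lk_col _ hl1, L.lk_col i hl] at hfc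
    revert hfc
    generalize col (L.h i) = b
    generalize col f = a
    revert a b
    decide
  have key1 : ∀ T, IsT G A T → L.h i ∈ T → T ≠ L.Q i → ¬ Hit F T := by
    intro T hT h1 h2
    refine (L.rev hC).one_miss hC.rev hF (i := L.m - 2 - (i + 1)) (L.rev_lk' hC hl1)
      (by rw [e0]; exact L.rev_lk' hC hl) (by rw [L.rev_mid' hC hl1]; exact hm1)
      (by rw [e0, L.rev_mid' hC hl]; exact hm) hemp' hT (by rw [e2]; exact h1) ?_
    rw [e0, L.rev_Q' hC hl]
    exact h2
  have key2 : ∀ T, IsT G A T → L.blk T ≤ 2 * i + 3 → (L.h i ∉ T ∨ T = L.Q i) → Hit F T := by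
    intro T hT h1 h2
    refine (L.rev hC).one_right hC.rev hF (i := L.m - 2 - (i + 1)) (L.rev_lk' hC hl1)
      (by rw [e0]; exact L.rev_lk' hC hl) (by rw [L.rev_mid' hC hl1]; exact hm1)
      (by rw [e0, L.rev_mid' hC hl]; exact hm) hemp' hT ?_ ?_
    · rw [L.rev_blk]
      have := L.blk_le hT
      omega
    · rw [e2, e0, L.rev_Q' hC hl]
      exact h2
  refine ⟨hl, hl1, fun T hT => ⟨?_, ?_⟩⟩
  · intro hh
    by_contra hcon
    rw [not_or, not_and, not_and, not_not, not_not] at hcon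
    apply hh
    by_cases hb : L.blk T ≤ 2 * i + 3
    · apply key2 T hT hb
      by_cases h1 : L.h i ∈ T
      · exact Or.inr (hcon.1 h1)
      · exact Or.inl h1
    · apply L.one_right hC hF hl hl1 hm hm1 hemp hT (by omega)
      by_cases h1 : L.h (i + 2) ∈ T
      · exact Or.inr (hcon.2 h1)
      · exact Or.inl h1
  · rintro (⟨h1, h2⟩ | ⟨h1, h2⟩)
    · exact key1 T hT h1 h2
    · exact L.one_miss hC hF hl hl1 hm hm1 hemp hT h1 h2

/-- a run of three: facts about the left end -/
structure ThreeL (F : Finset α) (i : ℕ) : Prop where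
  low : ∀ T, IsT G A T → Hit F T → 2 * i ≤ L.blk T
  or : ((∀ T, IsT G A T → L.h i ∈ T → L.HitB F (L.blk T)) ∧
      ∀ T, IsT G A T → L.blk T = 2 * (i + 2) → Hit F T) ∨
    (∀ T, IsT G A T → L.h i ∈ T → Hit F T → T = L.Q i)

theorem threeL (hC : PC G A col) {F : Finset α} (hF : MaxS G A F) {i : ℕ} (hl : L.lk i)
    (hl1 : L.lk (i + 1)) (hl2 : L.lk (i + 2)) (hm : L.mid i ∈ F) (hm1 : L.mid (i + 1) ∈ F)
    (hm2 : L.mid (i + 2) ∈ F) (hno : ∀ k, i = k + 1 → L.lk k → L.mid k ∉ F) :
    L.ThreeL F i := by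
  have c1 := L.lk_col i hl
  have hout : ∀ T, IsT G A T → Hit F T → L.h (i + 1) ∉ T → L.blk T < 2 * i + 3 →
      (∀ f ∈ F, col f = col (L.h i) + 2 → f = L.mid i) ∧ L.h i ∈ T ∧ T ≠ L.Q i := by
    intro T hT hh h1 h2
    have h3 := L.left_out hC hF hl1 hl2 hm1 hm2 hT h1 (by omega) hh
    have h4 : ∀ f ∈ F, col f = col (L.h i) + 2 → f = L.mid i ∧ L.h i ∈ T ∧ T ≠ L.Q i := by
      intro f hf hfc
      obtain ⟨k, a1, a2, a3, a4, a5⟩ := h3 f hf (by rw [hfc, c1, z3_11])
      have : k = i := by omega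
      subst this
      exact ⟨a3, a4, a5⟩
    have h5 := h4 _ hm (L.lk_mid i hl)
    exact ⟨fun f hf hfc => (h4 f hf hfc).1, h5.2⟩
  by_cases hone : ∀ f ∈ F, col f = col (L.h i) + 2 → f = L.mid i
  · have hnl : ∀ k, i = k + 1 → ¬ L.lk k := by
      rintro k rfl hk
      exact hno k rfl hk (L.three_prev hC hF hk hl hl1 hl2 hm hm2 hone)
    refine ⟨?_, Or.inl ⟨?_, ?_⟩⟩
    · intro T hT hh
      by_contra hlt
      have h1 : L.h (i + 1) ∉ T := by
        intro h
        have := (L.hub_iff hT (L.lk_lt i hl)).1 h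
        omega
      obtain ⟨_, h2, h3⟩ := hout T hT hh h1 (by omega)
      have h4 := (L.hub_iff hT (L.lk_m hl)).1 h2
      have h5 : 1 ≤ i := by omega
      obtain ⟨k, rfl⟩ : ∃ k, i = k + 1 := ⟨i - 1, by omega⟩
      exact hnl k rfl (L.blk_odd T hT k (by omega)).1
    · intro T hT h
      exact ⟨T, hT, rfl, L.three_left hC hF hl hl1 hl2 hm hm2 hone hT h⟩
    · intro T hT hb
      exact L.three_far hC hF hl hl1 hl2 hm hm2 hone hT hb
  · have hstar : ∀ T, IsT G A T → L.h i ∈ T → Hit F T → T = L.Q i := by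
      intro T hT h hh
      by_contra hne
      have h1 := (L.hub_iff hT (L.lk_m hl)).1 h
      have h2 : L.blk T ≠ 2 * i + 1 := fun e => hne (L.eq_Q hT e)
      have h3 : L.h (i + 1) ∉ T := by
        intro h
        have := (L.hub_iff hT (L.lk_lt i hl)).1 h
        omega
      exact hone (hout T hT hh h3 (by omega)).1
    refine ⟨?_, Or.inr hstar⟩
    intro T hT hh
    by_contra hlt
    have h1 : L.h (i + 1) ∉ T := by
      intro h
      have := (L.hub_iff hT (L.lk_lt i hl)).1 h
      omega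
    exact hone (hout T hT hh h1 (by omega)).1

/-- mirror image of `threeL` -/
theorem threeR (hC : PC G A col) {F : Finset α} (hF : MaxS G A F) {i : ℕ} (hl : L.lk i)
    (hl1 : L.lk (i + 1)) (hl2 : L.lk (i + 2)) (hm : L.mid i ∈ F) (hm1 : L.mid (i + 1) ∈ F)
    (hm2 : L.mid (i + 2) ∈ F) (hno : L.lk (i + 3) → L.mid (i + 3) ∉ F) :
    (∀ T, IsT G A T → Hit F T → L.blk T ≤ 2 * i + 6) ∧
    (((∀ T, IsT G A T → L.h (i + 3) ∈ T → L.HitB F (L.blk T)) ∧
      ∀ T, IsT G A T → L.blk T = 2 * (i + 1) → Hit F T) ∨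
    (∀ T, IsT G A T → L.h (i + 3) ∈ T → Hit F T → T = L.Q (i + 2))) := by
  have hlt := L.lk_lt _ hl2
  have e0 : L.m - 2 - (i + 2) + 1 = L.m - 2 - (i + 1) := by omega
  have e0' : L.m - 2 - (i + 2) + 2 = L.m - 2 - i := by omega
  have e1 : (L.rev hC).h (L.m - 2 - (i + 2)) = L.h (i + 3) := by
    rw [L.rev_h]; congr 1; omega
  have key := (L.rev hC).threeL hC.rev hF (i := L.m - 2 - (i + 2)) (L.rev_lk' hC hl2)
    (by rw [e0]; exact L.rev_lk' hC hl1) (by rw [e0']; exact L.rev_lk' hC hl)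
    (by rw [L.rev_mid' hC hl2]; exact hm2)
    (by rw [e0, L.rev_mid' hC hl1]; exact hm1) (by rw [e0', L.rev_mid' hC hl]; exact hm) (by
      intro k hk hk1
      have e1 : L.m - 2 - k = i + 3 := by omega
      rw [L.rev_lk, e1] at hk1
      rw [L.rev_mid, e1]
      exact hno hk1.2)
  obtain ⟨k1, k2⟩ := key
  rw [e1, L.rev_Q' hC hl2] at k2
  constructor
  · intro T hT hh
    have h1 := k1 T hT hh
    rw [L.rev_blk] at h1
    have h2 := L.blk_le hT
    omega
  · rcases k2 with ⟨k2, k3⟩ | k2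
    · left
      refine ⟨?_, ?_⟩
      · intro T hT h
        obtain ⟨T', h1, h2, h3⟩ := k2 T hT h
        refine ⟨T', h1, ?_, h3⟩
        rw [L.rev_blk, L.rev_blk] at h2
        have h4 := L.blk_le hT
        have h5 := L.blk_le h1
        omega
      · intro T hT hb
        apply k3 T hT
        rw [L.rev_blk, hb]
        omega
    · right
      exact k2

/-- run of exactly three -/
theorem shape_three (hC : PC G A col) {F : Finset α} (hF : MaxS G A F) {i : ℕ} (hl : L.lk i)
    (hl1 : L.lk (i + 1)) (hl2 : L.lk (i + 2)) (hm : L.mid i ∈ F) (hm1 : L.mid (i + 1) ∈ F)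
    (hm2 : L.mid (i + 2) ∈ F) (hno : ∀ k, i = k + 1 → L.lk k → L.mid k ∉ F)
    (hno' : L.lk (i + 3) → L.mid (i + 3) ∉ F) :
    L.Shape0 F ∨ (∃ i, L.Shape2 F i) ∨ (∃ i, L.Shape3 F i) := by
  obtain ⟨l1, l2⟩ := L.threeL hC hF hl hl1 hl2 hm hm1 hm2 hno
  obtain ⟨r1, r2⟩ := L.threeR hC hF hl hl1 hl2 hm hm1 hm2 hno'
  have hQ0 : Hit F (L.Q i) := ⟨_, L.mid_mem_Q i, hm⟩
  have hQ1 : Hit F (L.Q (i + 1)) := ⟨_, L.mid_mem_Q _, hm1⟩
  have hQ2 : Hit F (L.Q (i + 2)) := ⟨_, L.mid_mem_Q _, hm2⟩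
  -- membership from the block number
  have m0 : ∀ T, IsT G A T → 2 * i ≤ L.blk T → L.blk T ≤ 2 * i + 1 → L.h i ∈ T := fun T hT h h' =>
    (L.hub_iff hT (L.lk_m hl)).2 (by omega)
  have m1 : ∀ T, IsT G A T → 2 * i + 1 ≤ L.blk T → L.blk T ≤ 2 * i + 3 → L.h (i + 1) ∈ T :=
    fun T hT h h' => (L.hub_iff hT (L.lk_lt _ hl)).2 (by omega)
  have m2 : ∀ T, IsT G A T → 2 * i + 3 ≤ L.blk T → L.blk T ≤ 2 * i + 5 → L.h (i + 2) ∈ T :=
    fun T hT h h' => (L.hub_iff hT (L.lk_lt _ hl1)).2 (by omega)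
  have m3 : ∀ T, IsT G A T → 2 * i + 5 ≤ L.blk T → L.blk T ≤ 2 * i + 7 → L.h (i + 3) ∈ T :=
    fun T hT h h' => (L.hub_iff hT (L.lk_lt _ hl2)).2 (by omega)
  have bQ0 : ∀ T, IsT G A T → L.blk T = 2 * i + 1 → T = L.Q i := fun T hT h => L.eq_Q hT h
  have bQ1 : ∀ T, IsT G A T → L.blk T = 2 * i + 3 → T = L.Q (i + 1) := fun T hT h =>
    L.eq_Q hT (by omega)
  have bQ2 : ∀ T, IsT G A T → L.blk T = 2 * i + 5 → T = L.Q (i + 2) := fun T hT h =>
    L.eq_Q hT (by omega)
  by_cases hB1 : L.AllMiss F (2 * (i + 1))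
  · -- the right end is `Q (i+2)`
    have r3 : ∀ T, IsT G A T → L.h (i + 3) ∈ T → Hit F T → T = L.Q (i + 2) ∨
        ∀ T, IsT G A T → L.blk T ≠ 2 * (i + 1) := by
      intro T hT h hh
      rcases r2 with ⟨_, r2⟩ | r2
      · right
        intro T' hT' e
        exact hB1 T' hT' e (r2 T' hT' e)
      · exact Or.inl (r2 T hT h hh)
    by_cases hB2 : L.AllMiss F (2 * (i + 2))
    · by_cases hL : ∀ T, IsT G A T → L.h i ∈ T → Hit F T → T = L.Q i
      · by_cases hR : ∀ T, IsT G A T → L.h (i + 3) ∈ T → Hit F T → T = L.Q (i + 2)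
        · -- shape 3
          right; right
          refine ⟨i, hl, hl1, hl2, fun T hT => ⟨?_, ?_⟩⟩
          · intro hh
            have a1 := l1 T hT hh
            have a2 := r1 T hT hh
            have a3 : L.blk T ≠ 2 * (i + 1) := fun e => hB1 T hT e hh
            have a4 : L.blk T ≠ 2 * (i + 2) := fun e => hB2 T hT e hh
            by_cases b0 : L.blk T ≤ 2 * i + 1
            · exact Or.inl (hL T hT (m0 T hT a1 b0) hh)
            · by_cases b1 : L.blk T ≤ 2 * i + 3
              · exact Or.inr (Or.inl (bQ1 T hT (by omega)))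
              · by_cases b2 : L.blk T ≤ 2 * i + 5
                · exact Or.inr (Or.inr (bQ2 T hT (by omega)))
                · exact Or.inr (Or.inr (hR T hT (m3 T hT (by omega) (by omega)) hh))
          · rintro (rfl | rfl | rfl) <;> assumption
        · -- `B (i+1)` is empty, the right end is the whole star
          have hR' : ∀ T, IsT G A T → L.h (i + 3) ∈ T → L.HitB F (L.blk T) := by
            rcases r2 with ⟨r2, _⟩ | r2
            · exact r2
            · exact absurd r2 hR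
          have hE : ∀ T, IsT G A T → L.blk T ≠ 2 * (i + 1) := by
            rcases r2 with ⟨_, r2⟩ | r2
            · intro T' hT' e
              exact hB1 T' hT' e (r2 T' hT' e)
            · exact absurd r2 hR
          right; left
          refine ⟨i + 1, hl1, hl2, hQ1, hQ2, hB2, ?_, ?_, Or.inl hR'⟩
          · intro T hT hh
            have a1 := l1 T hT hh
            have a2 := r1 T hT hh
            have a4 : L.blk T ≠ 2 * (i + 2) := fun e => hB2 T hT e hh
            by_cases b0 : L.blk T ≤ 2 * i + 1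
            · have := hL T hT (m0 T hT a1 b0) hh
              rw [this]
              exact Or.inl (L.h1_mem_Q i)
            · by_cases b1 : L.blk T ≤ 2 * i + 3
              · exact Or.inl (m1 T hT (by omega) b1)
              · exact Or.inr (m3 T hT (by omega) (by omega))
          · left
            intro T hT h
            rcases (L.hub_iff hT (L.lk_lt _ hl)).1 h with e | e | e
            · exact absurd e (hE T hT)
            · rw [e]; exact ⟨_, L.Q_T hl1, L.Q_blk hl1, hQ1⟩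
            · have e' : L.blk T = 2 * i + 1 := by omega
              rw [e']; exact ⟨_, L.Q_T hl, L.Q_blk hl, hQ0⟩
      · -- the left end is the whole star, `B (i+2)` is hit, so it is empty
        have hL' : ∀ T, IsT G A T → L.h i ∈ T → L.HitB F (L.blk T) := by
          rcases l2 with ⟨l2, _⟩ | l2
          · exact l2
          · exact absurd l2 hL
        have hE : ∀ T, IsT G A T → L.blk T ≠ 2 * (i + 2) := by
          rcases l2 with ⟨_, l2⟩ | l2
          · intro T' hT' e
            exact hB2 T' hT' e (l2 T' hT' e)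
          · exact absurd l2 hL
        by_cases hR : ∀ T, IsT G A T → L.h (i + 3) ∈ T → Hit F T → T = L.Q (i + 2)
        · right; left
          refine ⟨i, hl, hl1, hQ0, hQ1, hB1, ?_, Or.inl hL', ?_⟩
          · intro T hT hh
            have a1 := l1 T hT hh
            have a2 := r1 T hT hh
            have a3 : L.blk T ≠ 2 * (i + 1) := fun e => hB1 T hT e hh
            by_cases b0 : L.blk T ≤ 2 * i + 1
            · exact Or.inl (m0 T hT a1 b0)
            · by_cases b1 : L.blk T ≤ 2 * i + 5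
              · exact Or.inr (m2 T hT (by omega) b1)
              · have := hR T hT (m3 T hT (by omega) (by omega)) hh
                rw [this]
                exact Or.inr (L.h_mem_Q (i + 2))
          · left
            intro T hT h
            rcases (L.hub_iff hT (L.lk_lt _ hl1)).1 h with e | e | e
            · exact absurd e (hE T hT)
            · have e' : L.blk T = 2 * (i + 2) + 1 := by omega
              rw [e']; exact ⟨_, L.Q_T hl2, L.Q_blk hl2, hQ2⟩
            · have e' : L.blk T = 2 * (i + 1) + 1 := by omega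
              rw [e']; exact ⟨_, L.Q_T hl1, L.Q_blk hl1, hQ1⟩
        · -- both `B (i+1)` and `B (i+2)` are empty: an interval
          have hE1 : ∀ T, IsT G A T → L.blk T ≠ 2 * (i + 1) := by
            rcases r2 with ⟨_, r2⟩ | r2
            · intro T' hT' e
              exact hB1 T' hT' e (r2 T' hT' e)
            · exact absurd r2 hR
          left
          intro T S T' S₀ hT hS hT' hS₀ hhT hmS hhT' hmS₀ h1 h2 h3
          have a1 := l1 T hT hhT
          have a2 := r1 T' hT' hhT'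
          have b1 : L.blk S ≠ 2 * i + 1 := by
            intro e
            exact hmS _ (L.Q_T hl) (by rw [e, L.Q_blk hl]) hQ0
          have b2 := hE1 S hS
          have b3 : L.blk S ≠ 2 * (i + 1) + 1 := by
            intro e
            exact hmS _ (L.Q_T hl1) (by rw [e, L.Q_blk hl1]) hQ1
          have b4 := hE S hS
          have b5 : L.blk S ≠ 2 * (i + 2) + 1 := by
            intro e
            exact hmS _ (L.Q_T hl2) (by rw [e, L.Q_blk hl2]) hQ2
          omega
    · -- `B (i+2)` is met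
      have hB2' : L.HitB F (2 * (i + 2)) := by
        unfold AllMiss at hB2
        push Not at hB2
        obtain ⟨T, a, b, c⟩ := hB2
        exact ⟨T, a, b, c⟩
      by_cases hR : ∀ T, IsT G A T → L.h (i + 3) ∈ T → Hit F T → T = L.Q (i + 2)
      · right; left
        refine ⟨i, hl, hl1, hQ0, hQ1, hB1, ?_, ?_, ?_⟩
        · intro T hT hh
          have a1 := l1 T hT hh
          have a2 := r1 T hT hh
          have a3 : L.blk T ≠ 2 * (i + 1) := fun e => hB1 T hT e hh
          by_cases b0 : L.blk T ≤ 2 * i + 1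
          · exact Or.inl (m0 T hT a1 b0)
          · by_cases b1 : L.blk T ≤ 2 * i + 5
            · exact Or.inr (m2 T hT (by omega) b1)
            · have := hR T hT (m3 T hT (by omega) (by omega)) hh
              rw [this]
              exact Or.inr (L.h_mem_Q (i + 2))
        · rcases l2 with ⟨l2, _⟩ | l2
          · exact Or.inl l2
          · exact Or.inr l2
        · left
          intro T hT h
          rcases (L.hub_iff hT (L.lk_lt _ hl1)).1 h with e | e | e
          · have e' : L.blk T = 2 * (i + 2) := by omega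
            rw [e']; exact hB2'
          · have e' : L.blk T = 2 * (i + 2) + 1 := by omega
            rw [e']; exact ⟨_, L.Q_T hl2, L.Q_blk hl2, hQ2⟩
          · have e' : L.blk T = 2 * (i + 1) + 1 := by omega
            rw [e']; exact ⟨_, L.Q_T hl1, L.Q_blk hl1, hQ1⟩
      · -- then `B (i+1)` is empty: an interval
        have hE1 : ∀ T, IsT G A T → L.blk T ≠ 2 * (i + 1) := by
          rcases r2 with ⟨_, r2⟩ | r2
          · intro T' hT' e
            exact hB1 T' hT' e (r2 T' hT' e)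
          · exact absurd r2 hR
        left
        intro T S T' S₀ hT hS hT' hS₀ hhT hmS hhT' hmS₀ h1 h2 h3
        have a1 := l1 T hT hhT
        have a2 := r1 T' hT' hhT'
        have b1 : L.blk S ≠ 2 * i + 1 := by
          intro e
          exact hmS _ (L.Q_T hl) (by rw [e, L.Q_blk hl]) hQ0
        have b2 := hE1 S hS
        have b3 : L.blk S ≠ 2 * (i + 1) + 1 := by
          intro e
          exact hmS _ (L.Q_T hl1) (by rw [e, L.Q_blk hl1]) hQ1
        have b4 : L.blk S ≠ 2 * (i + 2) := by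
          intro e
          rw [e] at hmS
          exact hB2 hmS
        have b5 : L.blk S ≠ 2 * (i + 2) + 1 := by
          intro e
          exact hmS _ (L.Q_T hl2) (by rw [e, L.Q_blk hl2]) hQ2
        omega
  · have hB1' : L.HitB F (2 * (i + 1)) := by
      unfold AllMiss at hB1
      push Not at hB1
      obtain ⟨T, a, b, c⟩ := hB1
      exact ⟨T, a, b, c⟩
    by_cases hB2 : L.AllMiss F (2 * (i + 2))
    · by_cases hL : ∀ T, IsT G A T → L.h i ∈ T → Hit F T → T = L.Q i
      · right; left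
        refine ⟨i + 1, hl1, hl2, hQ1, hQ2, hB2, ?_, ?_, ?_⟩
        · intro T hT hh
          have a1 := l1 T hT hh
          have a2 := r1 T hT hh
          have a4 : L.blk T ≠ 2 * (i + 2) := fun e => hB2 T hT e hh
          by_cases b0 : L.blk T ≤ 2 * i + 1
          · have := hL T hT (m0 T hT a1 b0) hh
            rw [this]
            exact Or.inl (L.h1_mem_Q i)
          · by_cases b1 : L.blk T ≤ 2 * i + 3
            · exact Or.inl (m1 T hT (by omega) b1)
            · exact Or.inr (m3 T hT (by omega) (by omega))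
        · left
          intro T hT h
          rcases (L.hub_iff hT (L.lk_lt _ hl)).1 h with e | e | e
          · rw [e]; exact hB1'
          · rw [e]; exact ⟨_, L.Q_T hl1, L.Q_blk hl1, hQ1⟩
          · have e' : L.blk T = 2 * i + 1 := by omega
            rw [e']; exact ⟨_, L.Q_T hl, L.Q_blk hl, hQ0⟩
        · rcases r2 with ⟨r2, _⟩ | r2
          · exact Or.inl r2
          · exact Or.inr r2
      · -- `B (i+2)` is empty: an interval
        have hE : ∀ T, IsT G A T → L.blk T ≠ 2 * (i + 2) := by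
          rcases l2 with ⟨_, l2⟩ | l2
          · intro T' hT' e
            exact hB2 T' hT' e (l2 T' hT' e)
          · exact absurd l2 hL
        left
        intro T S T' S₀ hT hS hT' hS₀ hhT hmS hhT' hmS₀ h1 h2 h3
        have a1 := l1 T hT hhT
        have a2 := r1 T' hT' hhT'
        have b1 : L.blk S ≠ 2 * i + 1 := by
          intro e
          exact hmS _ (L.Q_T hl) (by rw [e, L.Q_blk hl]) hQ0
        have b2 : L.blk S ≠ 2 * (i + 1) := by
          intro e
          rw [e] at hmS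
          exact hB1 hmS
        have b3 : L.blk S ≠ 2 * (i + 1) + 1 := by
          intro e
          exact hmS _ (L.Q_T hl1) (by rw [e, L.Q_blk hl1]) hQ1
        have b4 := hE S hS
        have b5 : L.blk S ≠ 2 * (i + 2) + 1 := by
          intro e
          exact hmS _ (L.Q_T hl2) (by rw [e, L.Q_blk hl2]) hQ2
        omega
    · left
      intro T S T' S₀ hT hS hT' hS₀ hhT hmS hhT' hmS₀ h1 h2 h3
      have a1 := l1 T hT hhT
      have a2 := r1 T' hT' hhT'
      have b1 : L.blk S ≠ 2 * i + 1 := by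
        intro e
        exact hmS _ (L.Q_T hl) (by rw [e, L.Q_blk hl]) hQ0
      have b2 : L.blk S ≠ 2 * (i + 1) := by
        intro e
        rw [e] at hmS
        exact hB1 hmS
      have b3 : L.blk S ≠ 2 * (i + 1) + 1 := by
        intro e
        exact hmS _ (L.Q_T hl1) (by rw [e, L.Q_blk hl1]) hQ1
      have b4 : L.blk S ≠ 2 * (i + 2) := by
        intro e
        rw [e] at hmS
        exact hB2 hmS
      have b5 : L.blk S ≠ 2 * (i + 2) + 1 := by
        intro e
        exact hmS _ (L.Q_T hl2) (by rw [e, L.Q_blk hl2]) hQ2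
      omega

end Line

end Pool.Agent.H.MP_ebc13b_lc.h53
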