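import Pool.Agent.H.MP_ebc13b_lc.h53.FOne

/-!
Maximal stable sets with consecutive middle vertices: one-sided lemmas.
-/

namespace Pool.Agent.H.MP_ebc13b_lc.h53

open Pool.Agent.H.MP_ebc13b_lc.h46

variable {α : Type*} [DecidableEq α] {G : SimpleGraph α} {A : Finset α} {col : α → ZMod 3}

namespace Line

variable (L : Line G A col)

theorem left_notF {F : Finset α} (hF : MaxS G A F) {i : ℕ} (hl : L.lk i)
    (hm : L.mid i ∈ F) : L.h i ∉ F := fun h =>
  hF.stab _ hm _ h ((L.Q_T hl).adj (L.mid_mem_Q i) (L.h_mem_Q i) (L.mid_ne_h hl (L.lk_m hl)))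

theorem right_notF {F : Finset α} (hF : MaxS G A F) {i : ℕ} (hl : L.lk i)
    (hm : L.mid i ∈ F) : L.h (i + 1) ∉ F := fun h =>
  hF.stab _ hm _ h ((L.Q_T hl).adj (L.mid_mem_Q i) (L.h1_mem_Q i)
    (L.mid_ne_h hl (L.lk_lt i hl)))

theorem mid_inj {i j : ℕ} (hi : L.lk i) (hj : L.lk j) (h : L.mid i = L.mid j) : i = j := by
  have h1 : L.Q j = L.Q i := L.mid_unique hi (L.Q_T hj) (h ▸ L.mid_mem_Q j)
  have h2 := L.Q_blk hi
  rw [← h1, L.Q_blk hj] at h2
  omega

/-- (A) hits left of the star of `h i` -/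
theorem left_out (hC : PC G A col) {F : Finset α} (hF : MaxS G A F) {i : ℕ} (hl : L.lk i)
    (hl1 : L.lk (i + 1)) (hm : L.mid i ∈ F) (hm1 : L.mid (i + 1) ∈ F) {T : Finset α}
    (hT : IsT G A T) (hiT : L.h i ∉ T) (hb : L.blk T < 2 * i + 1) (hh : Hit F T) :
    ∀ f ∈ F, col f = col (L.h i) + 1 →
      ∃ k, i = k + 1 ∧ L.lk k ∧ f = L.mid k ∧ L.h k ∈ T ∧ T ≠ L.Q k := by
  intro f hf hfc
  obtain ⟨u, hu, huF⟩ := hh
  have c1 := L.lk_col i hl
  have c2 := L.lk_mid i hl
  have c4 := L.lk_mid _ hl1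
  have hi1T : L.h (i + 1) ∉ T := by
    intro h
    have := (L.hub_iff hT (L.lk_lt i hl)).1 h
    omega
  have g1 := L.mid_gt hC hl hT hiT hb
  have g2 := L.mid_gt hC hl1 hT hi1T (by omega)
  have n1 : col u ≠ col (L.h i) + 1 := by
    intro e
    exact hC.not_both hT (hF.sub hm) (hF.lt_of_hit hC hT hu huF hm (by rw [c2, e, z3_11])) g1
  have n2 : col u ≠ col (L.h i) + 2 := by
    intro e
    refine hC.not_both hT (hF.sub hm1) (hF.lt_of_hit hC hT hu huF hm1 ?_) g2
    rw [c4, e, c1]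
    generalize col (L.h i) = b
    revert b
    decide
  have hcu : col u = col (L.h i) := by
    revert n1 n2
    generalize col u = a
    generalize col (L.h i) = b
    revert a b
    decide
  have h1 := hF.lt_of_hit hC hT hu huF hf (by rw [hfc, hcu])
  have hfQ : f ∉ L.Q i := by
    intro hfQ
    have : f = L.h (i + 1) := hC.col_inj (L.Q_T hl) hfQ (L.h1_mem_Q i) (by rw [hfc, c1])
    exact L.right_notF hF hl hm (this ▸ hf)
  have h2 : vgt G col f (L.Q i) := by
    apply hC.gt_of_not_lt (L.Q_T hl) (hF.sub hf) hfQ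
    intro h3
    exact L.M2 hC hF hl hm hf hfc (L.Q_T hl) (L.h_mem_Q i) h3
  obtain ⟨l, a1, a2, a3, a4, a5, a6⟩ :=
    L.inv hC hT (L.Q_T hl) (by rw [L.Q_blk hl]; exact hb) (hF.sub hf) h1 h2
  have a7 := (L.hub_iff (L.Q_T hl) (L.lk_lt l a1)).1 a4
  rw [L.Q_blk hl] at a7
  have a8 : l ≠ i := by
    rintro rfl
    exact a6 rfl
  exact ⟨l, by omega, a1, a2, a3, a5⟩

/-- (B) -/
theorem B_ext (hC : PC G A col) {F : Finset α} (hF : MaxS G A F) {k : ℕ} (hk : L.lk k)
    (hl : L.lk (k + 1)) (hl1 : L.lk (k + 1 + 1)) (hm : L.mid (k + 1) ∈ F)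
    (hm1 : L.mid (k + 1 + 1) ∈ F) {T : Finset α}
    (hT : IsT G A T) (hb : L.blk T = 2 * (k + 1)) (hh : Hit F T) : L.mid k ∈ F := by
  obtain ⟨u, hu, huF⟩ := hh
  have c0 := L.lk_col k hk
  have c0' := L.lk_mid k hk
  have c1 := L.lk_col _ hl
  have c2 := L.lk_mid _ hl
  have c3 := L.lk_col _ hl1
  have c4 := L.lk_mid _ hl1
  have hiT : L.h (k + 1) ∈ T := (L.hub_iff hT (L.lk_lt k hk)).2 (Or.inl hb)
  have hi1T : L.h (k + 1 + 1) ∉ T := by
    intro h
    have := (L.hub_iff hT (L.lk_lt _ hl)).1 h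
    omega
  have g2 := L.mid_gt hC hl1 hT hi1T (by omega)
  have n0 : col u ≠ col (L.h (k + 1)) := by
    intro e
    have : u = L.h (k + 1) := hC.col_inj hT hu hiT e
    exact L.left_notF hF hl hm (this ▸ huF)
  have n2 : col u ≠ col (L.h (k + 1)) + 2 := by
    intro e
    refine hC.not_both hT (hF.sub hm1) (hF.lt_of_hit hC hT hu huF hm1 ?_) g2
    rw [c4, e, c1]
    generalize col (L.h (k + 1)) = b
    revert b
    decide
  have hcu : col u = col (L.h (k + 1)) + 1 := by
    revert n0 n2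
    generalize col u = a
    generalize col (L.h (k + 1)) = b
    revert a b
    decide
  by_contra hmk
  obtain ⟨f, hf, hadj⟩ := hF.max _ (L.mid_A hk) hmk
  -- `f` is not in `Q_k`
  have hkF : L.h k ∉ F := by
    intro h
    have h1 : L.h k ∉ L.Q (k + 1) := by
      intro h2
      have := (L.hub_iff (L.Q_T hl) (L.lk_m hk)).1 h2
      rw [L.Q_blk hl] at this
      omega
    have h2 := L.h_lt hC (L.lk_m hk) (L.Q_T hl) h1 (by rw [L.Q_blk hl]; omega)
    refine L.M2 hC hF hl1 hm1 h ?_ (L.Q_T hl) (L.h1_mem_Q (k + 1)) h2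
    rw [c1, c0]
    generalize col (L.h k) = b
    revert b
    decide
  have hfQ : f ∉ L.Q k := by
    intro hfQ
    rcases L.Q_cases hfQ with rfl | rfl | rfl
    · exact hkF hf
    · exact hmk hf
    · exact L.left_notF hF hl hm hf
  have hne := hC.col _ (L.mid_A hk) f (hF.sub hf) hadj
  rcases z3_cases _ _ hne with h | h
  · -- `col f = col (mid k) + 1`: `f > Q_k`
    have h1 : vgt G col f (L.Q k) := ⟨hfQ, L.mid k, L.mid_mem_Q k, hadj.symm, z3_sub1 _ _ h⟩
    have h2 := hF.lt_of_hit hC hT hu huF hf (by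
      rw [h, hcu, c0', c0]
      generalize col (L.h k) = b
      revert b
      decide)
    refine hC.not_both hT (hF.sub hf) h2 (hC.uni_gt (L.Q_T hk) hT (L.h1_mem_Q k) hiT (hF.sub hf)
      h2.1 ?_ h1)
    rw [h, c0', c0]
    generalize col (L.h k) = b
    revert b
    decide
  · have h1 : vlt G col f (L.Q k) := ⟨hfQ, L.mid k, L.mid_mem_Q k, hadj.symm, z3_sub2 _ _ h⟩
    have h2 := hF.gt_of_hit hC hT hu huF hf (by
      rw [h, hcu, c0', c0]
      generalize col (L.h k) = b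
      revert b
      decide)
    obtain ⟨l, a1, a2, a3, a4, a5, a6⟩ :=
      L.inv hC (L.Q_T hk) hT (by rw [L.Q_blk hk]; omega) (hF.sub hf) h1 h2
    have a7 := (L.hub_iff hT (L.lk_lt l a1)).1 a4
    have a8 : l = k := by omega
    subst a8
    exact a5 rfl

/-- (C) -/
theorem Q_ext (hC : PC G A col) {F : Finset α} (hF : MaxS G A F) {k : ℕ} (hk : L.lk k)
    (hl : L.lk (k + 1)) (hl1 : L.lk (k + 1 + 1)) (hm : L.mid (k + 1) ∈ F)
    (hm1 : L.mid (k + 1 + 1) ∈ F) (hh : Hit F (L.Q k)) : L.mid k ∈ F := by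
  obtain ⟨u, hu, huF⟩ := hh
  have c0 := L.lk_col k hk
  have c1 := L.lk_col _ hl
  rcases L.Q_cases hu with rfl | rfl | rfl
  · exfalso
    have h1 : L.h k ∉ L.Q (k + 1) := by
      intro h2
      have := (L.hub_iff (L.Q_T hl) (L.lk_m hk)).1 h2
      rw [L.Q_blk hl] at this
      omega
    have h2 := L.h_lt hC (L.lk_m hk) (L.Q_T hl) h1 (by rw [L.Q_blk hl]; omega)
    refine L.M2 hC hF hl1 hm1 huF ?_ (L.Q_T hl) (L.h1_mem_Q (k + 1)) h2
    rw [c1, c0]
    generalize col (L.h k) = b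
    revert b
    decide
  · exact huF
  · exact absurd huF (L.left_notF hF hl hm)

/-- claim 1a: hits on the right when the third class is empty -/
theorem one_right (hC : PC G A col) {F : Finset α} (hF : MaxS G A F) {i : ℕ} (hl : L.lk i)
    (hl1 : L.lk (i + 1)) (hm : L.mid i ∈ F) (hm1 : L.mid (i + 1) ∈ F)
    (hemp : ∀ f ∈ F, col f ≠ col (L.h i) + 1) {T : Finset α}
    (hT : IsT G A T) (hb : 2 * i + 1 ≤ L.blk T) (hiT : L.h (i + 2) ∉ T ∨ T = L.Q (i + 1)) :
    Hit F T := by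
  rcases hiT with hiT | rfl
  · have c1 := L.lk_col i hl
    have c2 := L.lk_mid i hl
    have c3 := L.lk_col _ hl1
    have c4 := L.lk_mid _ hl1
    apply hF.hit_of hC hT (col (L.h i) + 2)
    · intro f hf hfc
      exfalso
      apply hemp f hf
      rw [hfc]
      generalize col (L.h i) = b
      revert b
      decide
    · intro f hf hfc hfT
      have hfc' : col f = col (L.h i) := by
        rw [hfc, z3_21]
      by_cases h1 : L.h (i + 1) ∈ T
      · exact L.M1 hC hF hl hm hf hfc' hT h1 hfT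
      · have hb' : 2 * i + 6 ≤ L.blk T := by
          have a1 := mt (L.hub_iff hT (L.lk_lt i hl)).2 h1
          have a2 := mt (L.hub_iff hT (L.lk_lt _ hl1)).2 hiT
          omega
        by_cases h2 : f ∈ L.Q (i + 1)
        · have : f = L.mid (i + 1) := hC.col_inj (L.Q_T hl1) h2 (L.mid_mem_Q _) (by
            rw [hfc', c4, c1]
            generalize col (L.h i) = b
            revert b
            decide)
          subst this
          exact hC.not_both hT (hF.sub hf) (L.mid_lt hl1 hT hiT (by omega)) hfT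
        · have h3 : vlt G col f (L.Q (i + 1)) := by
            apply hC.lt_of_not_gt (L.Q_T hl1) (hF.sub hf) h2
            intro h3
            exact L.M1 hC hF hl hm hf hfc' (L.Q_T hl1) (L.h_mem_Q _) h3
          obtain ⟨l, a1, a2, a3, a4, a5, a6⟩ :=
            L.inv hC (L.Q_T hl1) hT (by rw [L.Q_blk hl1]; omega) (hF.sub hf) h3 hfT
          have a7 := (L.hub_iff (L.Q_T hl1) (L.lk_m a1)).1 a3
          rw [L.Q_blk hl1] at a7
          have a8 : l ≠ i + 1 := by
            rintro rfl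
            exact a5 rfl
          have a9 : l = i + 1 + 1 := by omega
          subst a9
          have a10 := L.lk_mid _ a1
          rw [← a2, hfc', c3, c1] at a10
          revert a10
          generalize col (L.h i) = b
          revert b
          decide
  · exact ⟨L.mid (i + 1), L.mid_mem_Q _, hm1⟩

/-- claim 1c -/
theorem one_miss (hC : PC G A col) {F : Finset α} (hF : MaxS G A F) {i : ℕ} (hl : L.lk i)
    (hl1 : L.lk (i + 1)) (hm : L.mid i ∈ F) (hm1 : L.mid (i + 1) ∈ F)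
    (hemp : ∀ f ∈ F, col f ≠ col (L.h i) + 1) {T : Finset α}
    (hT : IsT G A T) (hiT : L.h (i + 2) ∈ T) (hne : T ≠ L.Q (i + 1)) :
    ¬ Hit F T := by
  rintro ⟨u, hu, huF⟩
  have c1 := L.lk_col i hl
  have c2 := L.lk_mid i hl
  have c3 := L.lk_col _ hl1
  have a1 := (L.hub_iff hT (L.lk_lt _ hl1)).1 hiT
  have a2 : L.blk T ≠ 2 * (i + 1) + 1 := fun e => hne (L.eq_Q hT e)
  have a3 : L.h (i + 1) ∉ T := by
    intro h
    have := (L.hub_iff hT (L.lk_lt i hl)).1 h
    omega
  have n1 := hemp u huF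
  have n2 : col u ≠ col (L.h i) + 2 := by
    intro e
    have : u = L.h (i + 2) := hC.col_inj hT hu hiT (by rw [e, c3, c1, z3_11])
    exact L.right_notF hF hl1 hm1 (this ▸ huF)
  have hcu : col u = col (L.h i) := by
    revert n1 n2
    generalize col u = a
    generalize col (L.h i) = b
    revert a b
    decide
  exact hC.not_both hT (hF.sub hm) (L.mid_lt hl hT a3 (by omega))
    (hF.gt_of_hit hC hT hu huF hm (by rw [c2, hcu]))

/-- (E) the middle class of a run of three -/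
theorem three_mid (hC : PC G A col) {F : Finset α} (hF : MaxS G A F) {i : ℕ} (hl : L.lk i)
    (hl1 : L.lk (i + 1)) (hl2 : L.lk (i + 2)) (hm : L.mid i ∈ F)
    (hm2 : L.mid (i + 2) ∈ F) :
    ∀ f ∈ F, col f = col (L.h i) → f = L.mid (i + 1) := by
  intro f hf hfc
  have c1 := L.lk_col i hl
  have c3 := L.lk_col _ hl1
  have c4 := L.lk_mid _ hl1
  by_cases h1 : f ∈ L.Q (i + 1)
  · apply hC.col_inj (L.Q_T hl1) h1 (L.mid_mem_Q _)
    rw [hfc, c4, c1]
    generalize col (L.h i) = b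
    revert b
    decide
  · exfalso
    rcases hC.lt_or_gt (L.Q_T hl1) (hF.sub hf) h1 with h2 | h2
    · refine L.M2 hC hF hl2 hm2 hf ?_ (L.Q_T hl1) (L.h1_mem_Q _) h2
      have e : L.h (i + 2) = L.h (i + 1 + 1) := rfl
      rw [e, hfc, c3, c1]
      generalize col (L.h i) = b
      revert b
      decide
    · exact L.M1 hC hF hl hm hf hfc (L.Q_T hl1) (L.h_mem_Q _) h2

/-- (F) -/
theorem three_left (hC : PC G A col) {F : Finset α} (hF : MaxS G A F) {i : ℕ} (hl : L.lk i)
    (hl1 : L.lk (i + 1)) (hl2 : L.lk (i + 2)) (hm : L.mid i ∈ F)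
    (hm2 : L.mid (i + 2) ∈ F)
    (hone : ∀ f ∈ F, col f = col (L.h i) + 2 → f = L.mid i) {T : Finset α} (hT : IsT G A T)
    (hiT : L.h i ∈ T) : Hit F T := by
  by_cases hQ : T = L.Q i
  · exact ⟨L.mid i, hQ ▸ L.mid_mem_Q i, hm⟩
  have c1 := L.lk_col i hl
  have a1 := (L.hub_iff hT (L.lk_m hl)).1 hiT
  have a2 : L.blk T ≠ 2 * i + 1 := fun e => hQ (L.eq_Q hT e)
  have a3 : L.h (i + 1) ∉ T := by
    intro h
    have := (L.hub_iff hT (L.lk_lt i hl)).1 h
    omega
  apply hF.hit_of hC hT (col (L.h i) + 1)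
  · intro f hf hfc h
    have e := L.three_mid hC hF hl hl1 hl2 hm hm2 f hf (by
      rw [hfc]
      generalize col (L.h i) = b
      revert b
      decide)
    subst e
    exact hC.not_both hT (hF.sub hf) h (L.mid_gt hC hl1 hT a3 (by omega))
  · intro f hf hfc h
    have e := hone f hf (by rw [hfc, z3_11])
    subst e
    exact hC.not_both hT (hF.sub hf) (L.mid_lt_star hl hT hiT hQ) h

/-- (G) -/
theorem three_prev (hC : PC G A col) {F : Finset α} (hF : MaxS G A F) {k : ℕ} (hk : L.lk k)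
    (hl : L.lk (k + 1))
    (hl1 : L.lk (k + 1 + 1)) (hl2 : L.lk (k + 1 + 2)) (hm : L.mid (k + 1) ∈ F)
    (hm2 : L.mid (k + 1 + 2) ∈ F)
    (hone : ∀ f ∈ F, col f = col (L.h (k + 1)) + 2 → f = L.mid (k + 1)) : L.mid k ∈ F := by
  by_contra hmk
  obtain ⟨f, hf, hadj⟩ := hF.max _ (L.mid_A hk) hmk
  have c0 := L.lk_col k hk
  have c0' := L.lk_mid k hk
  have hne := hC.col _ (L.mid_A hk) f (hF.sub hf) hadj
  rcases z3_cases _ _ hne with h | h
  · -- colour of `mid (k+1)`
    have e := hone f hf (by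
      rw [h, c0', c0]
      generalize col (L.h k) = b
      revert b
      decide)
    subst e
    have h1 : L.mid (k + 1) ∉ L.Q k := by
      intro h2
      have h3 := L.mid_unique hl (L.Q_T hk) h2
      have h4 := L.Q_blk hk
      rw [h3, L.Q_blk hl] at h4
      omega
    have h2 := hC.nb_unique (L.Q_T hk) (hF.sub hf) h1 (L.h1_mem_Q k) (L.mid_mem_Q k)
      ((L.Q_T hl).adj (L.mid_mem_Q _) (L.h_mem_Q _) (L.mid_ne_h hl (L.lk_m hl))) hadj.symm
    exact L.mid_ne_h hk (L.lk_lt k hk) h2.symm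
  · have e := L.three_mid hC hF hl hl1 hl2 hm hm2 f hf (by
      rw [h, c0', c0]
      generalize col (L.h k) = b
      revert b
      decide)
    subst e
    have h3 : L.h (k + 1 + 1) ∉ L.Q k := by
      intro h2
      have := (L.hub_iff (L.Q_T hk) (L.lk_lt _ hl)).1 h2
      rw [L.Q_blk hk] at this
      omega
    have h1 := L.mid_gt hC hl1 (L.Q_T hk) h3 (by rw [L.Q_blk hk]; omega)
    refine hC.not_both (L.Q_T hk) (hF.sub hf)
      ⟨h1.1, L.mid k, L.mid_mem_Q k, hadj.symm, z3_sub2 _ _ h⟩ h1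

/-- (I) -/
theorem three_far (hC : PC G A col) {F : Finset α} (hF : MaxS G A F) {i : ℕ} (hl : L.lk i)
    (hl1 : L.lk (i + 1)) (hl2 : L.lk (i + 2)) (hm : L.mid i ∈ F)
    (hm2 : L.mid (i + 2) ∈ F)
    (hone : ∀ f ∈ F, col f = col (L.h i) + 2 → f = L.mid i) {T : Finset α} (hT : IsT G A T)
    (hb : L.blk T = 2 * (i + 2)) : Hit F T := by
  have hi2T : L.h (i + 2) ∈ T := (L.hub_iff hT (L.lk_m hl2)).2 (Or.inl hb)
  have hi1T : L.h (i + 1) ∉ T := by
    intro h
    have := (L.hub_iff hT (L.lk_lt i hl)).1 h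
    omega
  have hQ : T ≠ L.Q (i + 1) := by
    rintro rfl
    rw [L.Q_blk hl1] at hb
    omega
  apply hF.hit_of hC hT (col (L.h i) + 1)
  · intro f hf hfc h
    have e := L.three_mid hC hF hl hl1 hl2 hm hm2 f hf (by
      rw [hfc]
      generalize col (L.h i) = b
      revert b
      decide)
    subst e
    exact hC.not_both hT (hF.sub hf) h (L.mid_gt_star hl1 hT hi2T hQ)
  · intro f hf hfc h
    have e := hone f hf (by rw [hfc, z3_11])
    subst e
    exact hC.not_both hT (hF.sub hf) (L.mid_lt hl hT hi1T (by omega)) h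

end Line

end Pool.Agent.H.MP_ebc13b_lc.h53
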