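import Pool.Agent.H.MP_ebc13b_lc.h53.Ord

/-!
The natural order: enumeration of the hubs, blocks.
-/

namespace Pool.Agent.H.MP_ebc13b_lc.h53

open Pool.Agent.H.MP_ebc13b_lc.h46

variable {α : Type*} [DecidableEq α]

/-- The natural order of a 3-coloured prismatic graph without `L(K_33)` and parallels.  The hubs
(and one pseudo hub in every isolated triangle) are `h 0, h 1, ..., h (m-1)`.  `lk i` means that
`h i` and `h (i+1)` lie in a common triangle `Q_i = {h i, mid i, h (i+1)}`.  The block of `Q_i` is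
`2 i + 1`, the block of the triangles containing only the hub `h i` is `2 i`. -/
structure Line (G : SimpleGraph α) (A : Finset α) (col : α → ZMod 3) where
  m : ℕ
  h : ℕ → α
  mid : ℕ → α
  lk : ℕ → Prop
  blk : Finset α → ℕ
  hA : ∀ i < m, h i ∈ A
  inj : ∀ i < m, ∀ j < m, h i = h j → i = j
  lk_lt : ∀ i, lk i → i + 1 < m
  lk_T : ∀ i, lk i → IsT G A {h i, mid i, h (i + 1)}
  lk_col : ∀ i, lk i → col (h (i + 1)) = col (h i) + 1
  lk_mid : ∀ i, lk i → col (mid i) = col (h i) + 2
  lk_blk : ∀ i, lk i → blk {h i, mid i, h (i + 1)} = 2 * i + 1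
  blk_odd : ∀ T, IsT G A T → ∀ i, blk T = 2 * i + 1 → lk i ∧ T = {h i, mid i, h (i + 1)}
  blk_even : ∀ T, IsT G A T → ∀ i, blk T = 2 * i → i < m ∧ h i ∈ T ∧ ∀ j < m, h j ∈ T → j = i
  blk_mem : ∀ T, IsT G A T → ∀ i < m, h i ∈ T → blk T = 2 * i ∨ (blk T = 2 * i + 1 ∧ lk i) ∨
    (1 ≤ i ∧ blk T = 2 * (i - 1) + 1 ∧ lk (i - 1))
  share : ∀ T T', IsT G A T → IsT G A T' → T ≠ T' → ∀ v ∈ T, v ∈ T' → ∃ i < m, v = h i
  ne : ∀ i < m, (∃ T, IsT G A T ∧ blk T = 2 * i) ∨ (lk i ∧ 1 ≤ i ∧ lk (i - 1))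
  dis : ∀ T T', IsT G A T → IsT G A T' → Disjoint T T' → blk T < blk T' → tlt G col T T'

/-- enumeration of a finite set by an injective rank function -/
theorem exists_enum {β : Type*} [Nonempty β] (s : Finset β) (f : β → ℕ)
    (hf : Set.InjOn f (s : Set β)) :
    ∃ e : ℕ → β, (∀ i < s.card, e i ∈ s) ∧
      (∀ i j, i < j → j < s.card → f (e i) < f (e j)) ∧ (∀ x ∈ s, ∃ i < s.card, e i = x) := by
  classical
  induction s using Finset.strongInduction with
  | H s ih =>
    rcases s.eq_empty_or_nonempty with rfl | hne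
    · exact ⟨fun _ => Classical.arbitrary β, by simp, by simp, by simp⟩
    · obtain ⟨x, hx, hmax⟩ := Finset.exists_max_image s f hne
      obtain ⟨e, h1, h2, h3⟩ := ih (s.erase x) (Finset.erase_ssubset hx)
        (hf.mono (by simp))
      have hc : (s.erase x).card + 1 = s.card := Finset.card_erase_add_one hx
      refine ⟨fun i => if i < (s.erase x).card then e i else x, ?_, ?_, ?_⟩
      · intro i hi
        dsimp only
        split_ifs with hi'
        · exact Finset.mem_of_mem_erase (h1 i hi')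
        · exact hx
      · intro i j hij hj
        have hi' : i < (s.erase x).card := by omega
        dsimp only
        rw [if_pos hi']
        split_ifs with hj'
        · exact h2 i j hij hj'
        · have hm := h1 i hi'
          rw [Finset.mem_erase] at hm
          refine lt_of_le_of_ne (hmax _ hm.2) ?_
          intro heq
          exact hm.1 (hf (by simpa using hm.2) (by simpa using hx) heq)
      · intro y hy
        by_cases hyx : y = x
        · refine ⟨(s.erase x).card, by omega, ?_⟩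
          simp [hyx]
        · obtain ⟨i, hi, he⟩ := h3 y (Finset.mem_erase.2 ⟨hyx, hy⟩)
          exact ⟨i, by omega, by simp [hi, he]⟩

section

variable {G : SimpleGraph α} {A : Finset α} {col : α → ZMod 3}

/-- hubs and pseudo hubs -/
def HS (G : SimpleGraph α) (A : Finset α) (col : α → ZMod 3) (v : α) : Prop :=
  Hub G A v ∨ (col v = 0 ∧ ∃ T, IsT G A T ∧ v ∈ T ∧ ∀ u ∈ T, ¬ Hub G A u)

/-- `x` is before `y` -/
def bef (G : SimpleGraph α) (A : Finset α) (col : α → ZMod 3) (x y : α) : Prop :=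
  ∃ T T', IsT G A T ∧ IsT G A T' ∧ x ∈ T ∧ y ∈ T' ∧ tlt G col T T'

theorem HS.exT {v : α} (h : HS G A col v) : ∃ T, IsT G A T ∧ v ∈ T := by
  rcases h with ⟨T, _, h1, _, _, h2, _⟩ | ⟨_, T, h1, h2, _⟩
  · exact ⟨T, h1, h2⟩
  · exact ⟨T, h1, h2⟩

theorem HS.mem {v : α} (h : HS G A col v) : v ∈ A := by
  obtain ⟨T, h1, h2⟩ := h.exT
  exact h1.1 h2

/-- an element of a triangle without hubs is in no other triangle -/
theorem iso_eq {T T' : Finset α} (hT : IsT G A T) (hT' : IsT G A T')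
    (hiso : ∀ u ∈ T, ¬ Hub G A u) {v : α} (hv : v ∈ T) (hv' : v ∈ T') : T = T' := by
  by_contra hne
  exact hiso v hv ⟨T, T', hT, hT', hne, hv, hv'⟩

/-- a triangle missing the (pseudo) hub `x` is disjoint from a triangle through `x` -/
theorem HS.disj (hC : PC G A col) {x : α} (hx : HS G A col x) {T : Finset α} (hT : IsT G A T)
    (hxT : x ∉ T) : ∃ T', IsT G A T' ∧ x ∈ T' ∧ Disjoint T' T := by
  rcases hx with ⟨T₁, T₂, h1, h2, hne, hx1, hx2⟩ | ⟨_, T₁, h1, hx1, hiso⟩
  · rcases hC.disj_or h1 h2 hT hne hx1 hx2 hxT with h | h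
    · exact ⟨T₁, h1, hx1, h⟩
    · exact ⟨T₂, h2, hx2, h⟩
  · refine ⟨T₁, h1, hx1, ?_⟩
    rw [Finset.disjoint_left]
    intro v hv hv'
    have := iso_eq h1 hT hiso hv hv'
    exact hxT (this ▸ hx1)

/-- two (pseudo) hubs have disjoint triangles -/
theorem HS.disj2 (hC : PC G A col) {x y : α} (hx : HS G A col x) (hy : HS G A col y)
    (hne : x ≠ y) : ∃ T T', IsT G A T ∧ IsT G A T' ∧ x ∈ T ∧ y ∈ T' ∧ Disjoint T T' := by
  have key : ∃ T', IsT G A T' ∧ y ∈ T' ∧ x ∉ T' := by
    rcases hy with ⟨T₁, T₂, h1, h2, hne', hy1, hy2⟩ | ⟨hc, T₁, h1, hy1, hiso⟩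
    · by_cases hx1 : x ∈ T₁
      · refine ⟨T₂, h2, hy2, fun hx2 => hne (hC.share h1 h2 hne' hx1 hy1 hx2 hy2)⟩
      · exact ⟨T₁, h1, hy1, hx1⟩
    · refine ⟨T₁, h1, hy1, fun hx1 => ?_⟩
      rcases hx with hx | ⟨hc', _⟩
      · exact hiso x hx1 hx
      · exact hne (hC.col_inj h1 hx1 hy1 (hc'.trans hc.symm))
  obtain ⟨T', h', hy', hx'⟩ := key
  obtain ⟨T, hT, hxT, hd⟩ := hx.disj hC h' hx'
  exact ⟨T, T', hT, h', hxT, hy', hd⟩

theorem HS.bef_or (hC : PC G A col) {x y : α} (hx : HS G A col x) (hy : HS G A col y)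
    (hne : x ≠ y) : bef G A col x y ∨ bef G A col y x := by
  obtain ⟨T, T', h1, h2, h3, h4, hd⟩ := hx.disj2 hC hy hne
  rcases hC.tlt_or h1 h2 hd with h | h
  · exact Or.inl ⟨T, T', h1, h2, h3, h4, h⟩
  · exact Or.inr ⟨T', T, h2, h1, h4, h3, h⟩

theorem bef_asymm (hC : PC G A col) (hP : NoPar G A col) {x y : α} (hne : x ≠ y)
    (h1 : bef G A col x y) (h2 : bef G A col y x) : False := by
  obtain ⟨T, T', a1, a2, a3, a4, a5⟩ := h1
  obtain ⟨S, S', b1, b2, b3, b4, b5⟩ := h2
  exact hC.uniform hP hne a1 b2 a2 b1 a3 b4 a4 b3 a5 b5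

open Classical in
/-- the triangles before `x` -/
noncomputable def Lset (G : SimpleGraph α) (A : Finset α) (col : α → ZMod 3) (x : α) :
    Finset (Finset α) :=
  (A.powerset).filter (fun S => IsT G A S ∧ ∃ T, IsT G A T ∧ x ∈ T ∧ tlt G col S T)

theorem mem_Lset {x : α} {S : Finset α} : S ∈ Lset G A col x ↔
    IsT G A S ∧ ∃ T, IsT G A T ∧ x ∈ T ∧ tlt G col S T := by
  classical
  unfold Lset
  rw [Finset.mem_filter, Finset.mem_powerset]
  exact ⟨fun h => h.2, fun h => ⟨h.1.1, h⟩⟩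

theorem Lset_lt (hC : PC G A col) (hN : NoCyc G A col) (hP : NoPar G A col) {x y : α}
    (hy : HS G A col y) (hne : x ≠ y) (h : bef G A col x y) :
    Lset G A col x ⊂ Lset G A col y := by
  obtain ⟨T₁, T₁', a1, a2, a3, a4, a5⟩ := h
  rw [Finset.ssubset_iff_of_subset]
  · refine ⟨T₁, ?_, ?_⟩
    · exact mem_Lset.2 ⟨a1, T₁', a2, a4, a5⟩
    · intro hm
      obtain ⟨_, T, b1, b2, b3⟩ := mem_Lset.1 hm
      exact (b3 x a3).1 b2
  · intro S hS
    obtain ⟨c1, T, b1, b2, b3⟩ := mem_Lset.1 hS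
    refine mem_Lset.2 ⟨c1, ?_⟩
    by_cases hyT : y ∈ T
    · exact ⟨T, b1, hyT, b3⟩
    · obtain ⟨T', d1, d2, d3⟩ := hy.disj hC b1 hyT
      refine ⟨T', d1, d2, ?_⟩
      have : tlt G col T T' := by
        rcases hC.tlt_or b1 d1 d3.symm with h | h
        · exact h
        · exact absurd h (fun h => hC.uniform hP hne a1 b1 a2 d1 a3 b2 a4 d2 a5 h)
      exact hC.tlt_trans hN c1 b1 d1 b3 this

/-- colours of two (pseudo) hubs in a common triangle, `x` before `y` -/
theorem HS.col_succ (hC : PC G A col) (hP : NoPar G A col) {x y : α} (hx : HS G A col x)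
    (hy : HS G A col y) (hne : x ≠ y) (hb : bef G A col x y) {Q : Finset α} (hQ : IsT G A Q)
    (hxQ : x ∈ Q) (hyQ : y ∈ Q) : col y = col x + 1 := by
  have hub : ∀ z w : α, z ≠ w → HS G A col z → HS G A col w → z ∈ Q → w ∈ Q →
      ∃ T, IsT G A T ∧ T ≠ Q ∧ z ∈ T := by
    intro z w hzw hz hw hzQ hwQ
    rcases hz with ⟨T₁, T₂, h1, h2, hne', hz1, hz2⟩ | ⟨hc, T₁, h1, hz1, hiso⟩
    · by_cases hT : T₁ = Q
      · exact ⟨T₂, h2, fun e => hne' (hT.trans e.symm), hz2⟩
      · exact ⟨T₁, h1, hT, hz1⟩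
    · exfalso
      have e := iso_eq h1 hQ hiso hz1 hzQ
      subst e
      rcases hw with hw | ⟨hc', _⟩
      · exact hiso w hwQ hw
      · exact hzw (hC.col_inj hQ hzQ hwQ (hc.trans hc'.symm))
  obtain ⟨T, h1, h2, h3⟩ := hub x y hne hx hy hxQ hyQ
  obtain ⟨T', h1', h2', h3'⟩ := hub y x hne.symm hy hx hyQ hxQ
  have hd := hC.disj_link hQ h1 h1' h2 h2' hne hxQ hyQ h3 h3'
  have hlt : tlt G col T T' := by
    rcases hC.tlt_or h1 h1' hd with h | h
    · exact h
    · exact absurd ⟨T', T, h1', h1, h3', h3, h⟩ (fun h => bef_asymm hC hP hne hb h)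
  have hne_col := hC.col x (hQ.1 hxQ) y (hQ.1 hyQ) (hQ.adj hxQ hyQ hne)
  rcases z3_cases _ _ hne_col with h | h
  · exact h
  · exfalso
    exact hC.not_both h1' (hQ.1 hxQ) (hlt x h3)
      ⟨Finset.disjoint_left.1 hd h3, y, h3', hQ.adj hxQ hyQ hne, h⟩

/-- existence of the natural order -/
theorem exists_line [Nonempty α] (hC : PC G A col) (hN : NoCyc G A col) (hP : NoPar G A col) :
    Nonempty (Line G A col) := by
  classical
  set H : Finset α := A.filter (fun v => HS G A col v) with hH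
  have memH : ∀ v, v ∈ H ↔ HS G A col v := by
    intro v
    rw [hH, Finset.mem_filter]
    exact ⟨fun h => h.2, fun h => ⟨h.mem, h⟩⟩
  set pos : α → ℕ := fun x => (Lset G A col x).card with hpos
  have pos_lt : ∀ x ∈ H, ∀ y ∈ H, x ≠ y → bef G A col x y → pos x < pos y := by
    intro x _ y hy hne hb
    exact Finset.card_lt_card (Lset_lt hC hN hP ((memH y).1 hy) hne hb)
  have lt_bef : ∀ x ∈ H, ∀ y ∈ H, pos x < pos y → bef G A col x y := by
    intro x hx y hy hlt
    have hne : x ≠ y := by rintro rfl; exact lt_irrefl _ hlt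
    rcases ((memH x).1 hx).bef_or hC ((memH y).1 hy) hne with h | h
    · exact h
    · exact absurd (pos_lt y hy x hx hne.symm h) (not_lt.2 hlt.le)
  have inj : Set.InjOn pos (H : Set α) := by
    intro x hx y hy hxy
    by_contra hne
    have hx' : x ∈ H := by simpa using hx
    have hy' : y ∈ H := by simpa using hy
    rcases ((memH x).1 hx').bef_or hC ((memH y).1 hy') hne with h | h
    · exact absurd hxy (pos_lt x hx' y hy' hne h).ne
    · exact absurd hxy (pos_lt y hy' x hx' (Ne.symm hne) h).ne'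
  obtain ⟨e, e1, e2, e3⟩ := exists_enum H pos inj
  have eHS : ∀ i < H.card, HS G A col (e i) := fun i hi => (memH _).1 (e1 i hi)
  have ene : ∀ i < H.card, ∀ j < H.card, e i = e j → i = j := by
    intro i hi j hj hij
    by_contra hne
    rcases lt_or_gt_of_ne hne with h | h
    · exact absurd (congrArg pos hij) (e2 i j h hj).ne
    · exact absurd (congrArg pos hij) (e2 j i h hi).ne'
  have ebef : ∀ i j, i < j → j < H.card → bef G A col (e i) (e j) := by
    intro i j hij hj
    exact lt_bef _ (e1 i (hij.trans hj)) _ (e1 j hj) (e2 i j hij hj)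
  -- linked hubs are consecutive
  have cons : ∀ Q, IsT G A Q → ∀ i j, i < j → j < H.card → e i ∈ Q → e j ∈ Q → j = i + 1 := by
    intro Q hQ i j hij hj hiQ hjQ
    by_contra hne
    have hk : i + 1 < j := by omega
    have hi' : i < H.card := by omega
    have hk' : i + 1 < H.card := by omega
    have nik : e i ≠ e (i + 1) := fun h => by have := ene i hi' (i + 1) hk' h; omega
    have nkj : e (i + 1) ≠ e j := fun h => by have := ene (i + 1) hk' j hj h; omega
    have nij : e i ≠ e j := fun h => by have := ene i hi' j hj h; omega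
    have bik := ebef i (i + 1) (by omega) hk'
    have bkj := ebef (i + 1) j hk hj
    have bij := ebef i j hij hj
    by_cases hkQ : e (i + 1) ∈ Q
    · have c1 := (eHS i hi').col_succ hC hP (eHS _ hk') nik bik hQ hiQ hkQ
      have c2 := (eHS i hi').col_succ hC hP (eHS _ hj) nij bij hQ hiQ hjQ
      exact nkj (hC.col_inj hQ hkQ hjQ (c1.trans c2.symm))
    · obtain ⟨T, h1, h2, h3⟩ := (eHS _ hk').disj hC hQ hkQ
      rcases hC.tlt_or h1 hQ h3 with h | h
      · exact bef_asymm hC hP nik bik ⟨T, Q, h1, hQ, h2, hiQ, h⟩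
      · exact bef_asymm hC hP nkj bkj ⟨Q, T, hQ, h1, hjQ, h2, h⟩
  have colS : ∀ Q, IsT G A Q → ∀ i, i + 1 < H.card → e i ∈ Q → e (i + 1) ∈ Q →
      col (e (i + 1)) = col (e i) + 1 := by
    intro Q hQ i hi hiQ hjQ
    have nij : e i ≠ e (i + 1) := fun h => by have := ene i (by omega) (i + 1) hi h; omega
    exact (eHS i (by omega)).col_succ hC hP (eHS _ hi) nij (ebef i (i + 1) (by omega) hi) hQ hiQ
      hjQ
  -- every triangle contains a (pseudo) hub
  have exH : ∀ T, IsT G A T → ∃ i < H.card, e i ∈ T := by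
    intro T hT
    by_cases hh : ∃ u ∈ T, Hub G A u
    · obtain ⟨u, hu, hub⟩ := hh
      obtain ⟨i, hi, he⟩ := e3 u ((memH u).2 (Or.inl hub))
      exact ⟨i, hi, he ▸ hu⟩
    · push Not at hh
      obtain ⟨u, hu, huc⟩ := hC.ex_col hT 0
      obtain ⟨i, hi, he⟩ := e3 u ((memH u).2 (Or.inr ⟨huc, T, hT, hu, hh⟩))
      exact ⟨i, hi, he ▸ hu⟩
  -- the index of the first hub
  set lk : ℕ → Prop := fun i => i + 1 < H.card ∧ ∃ T, IsT G A T ∧ e i ∈ T ∧ e (i + 1) ∈ T with hlk
  have exmid : ∀ i, ∃ x, lk i → IsT G A {e i, x, e (i + 1)} ∧ col x = col (e i) + 2 := by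
    intro i
    by_cases hi : lk i
    · obtain ⟨hi1, T, hT, h1, h2⟩ := hi
      obtain ⟨x, hx, hxc⟩ := hC.ex_col hT (col (e i) + 2)
      have hc := colS T hT i hi1 h1 h2
      have hset : ({e i, x, e (i + 1)} : Finset α) = T := by
        apply Finset.eq_of_subset_of_card_le
        · intro w hw
          simp only [Finset.mem_insert, Finset.mem_singleton] at hw
          rcases hw with rfl | rfl | rfl <;> assumption
        · rw [hT.2.card_eq]
          have n1 : e i ≠ x := by
            intro h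
            rw [← h] at hxc
            revert hxc
            generalize col (e i) = a
            revert a
            decide
          have n2 : e i ≠ e (i + 1) := fun h => by have := ene i (by omega) (i + 1) hi1 h; omega
          have n3 : x ≠ e (i + 1) := by
            intro h
            rw [h, hc] at hxc
            exact z3_12 _ hxc
          rw [Finset.card_insert_of_notMem (by simp [n1, n2]),
            Finset.card_insert_of_notMem (by simpa using n3), Finset.card_singleton]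
      exact ⟨x, fun _ => ⟨by rw [hset]; exact hT, hxc⟩⟩
    · exact ⟨e i, fun h => absurd h hi⟩
  choose mid hmid using exmid
  -- the triangle of a link
  have lkT : ∀ T, IsT G A T → ∀ i, i + 1 < H.card → e i ∈ T → e (i + 1) ∈ T →
      lk i ∧ T = {e i, mid i, e (i + 1)} := by
    intro T hT i hi h1 h2
    have hl : lk i := ⟨hi, T, hT, h1, h2⟩
    refine ⟨hl, ?_⟩
    by_contra hne
    have nij : e i ≠ e (i + 1) := fun h => by have := ene i (by omega) (i + 1) hi h; omega
    exact nij (hC.share hT (hmid i hl).1 hne h1 h2 (by simp) (by simp))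
  -- the block
  set blk : Finset α → ℕ := fun T =>
    if h : ∃ i, i + 1 < H.card ∧ e i ∈ T ∧ e (i + 1) ∈ T then 2 * Classical.choose h + 1
    else if h' : ∃ i, i < H.card ∧ e i ∈ T then 2 * Classical.choose h' else 0 with hblk
  have blk1 : ∀ T, IsT G A T → ∀ i, i + 1 < H.card → e i ∈ T → e (i + 1) ∈ T →
      blk T = 2 * i + 1 := by
    intro T hT i hi h1 h2
    have hex : ∃ i, i + 1 < H.card ∧ e i ∈ T ∧ e (i + 1) ∈ T := ⟨i, hi, h1, h2⟩
    have hb : blk T = 2 * Classical.choose hex + 1 := by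
      rw [hblk]; dsimp only; rw [dif_pos hex]
    rw [hb]
    obtain ⟨c1, c2, c3⟩ := Classical.choose_spec hex
    set j := Classical.choose hex
    have : j = i := by
      rcases lt_trichotomy j i with h | h | h
      · have := cons T hT j (i + 1) (by omega) hi c2 h2
        omega
      · exact h
      · have := cons T hT i (j + 1) (by omega) c1 h1 c3
        omega
    omega
  have blk0 : ∀ T, IsT G A T → ∀ i, i < H.card → e i ∈ T →
      (¬ ∃ i, i + 1 < H.card ∧ e i ∈ T ∧ e (i + 1) ∈ T) → blk T = 2 * i := by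
    intro T hT i hi h1 hno
    have hex : ∃ i, i < H.card ∧ e i ∈ T := ⟨i, hi, h1⟩
    have hb : blk T = 2 * Classical.choose hex := by
      rw [hblk]; dsimp only; rw [dif_neg hno, dif_pos hex]
    rw [hb]
    obtain ⟨c1, c2⟩ := Classical.choose_spec hex
    set j := Classical.choose hex
    have : j = i := by
      rcases lt_trichotomy j i with h | h | h
      · have := cons T hT j i h hi c2 h1
        subst this
        exact absurd ⟨j, hi, c2, h1⟩ hno
      · exact h
      · have := cons T hT i j h c1 h1 c2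
        rw [this] at c1 c2
        exact absurd ⟨i, c1, h1, c2⟩ hno
    omega
  -- every triangle is of one of the two kinds
  have kind : ∀ T, IsT G A T → (∃ i, i + 1 < H.card ∧ e i ∈ T ∧ e (i + 1) ∈ T ∧
      blk T = 2 * i + 1) ∨ (∃ i, i < H.card ∧ e i ∈ T ∧ blk T = 2 * i ∧
      ¬ ∃ i, i + 1 < H.card ∧ e i ∈ T ∧ e (i + 1) ∈ T) := by
    intro T hT
    by_cases hh : ∃ i, i + 1 < H.card ∧ e i ∈ T ∧ e (i + 1) ∈ T
    · obtain ⟨i, hi, h1, h2⟩ := hh
      exact Or.inl ⟨i, hi, h1, h2, blk1 T hT i hi h1 h2⟩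
    · obtain ⟨i, hi, h1⟩ := exH T hT
      exact Or.inr ⟨i, hi, h1, blk0 T hT i hi h1 hh, hh⟩
  have bmem : ∀ T, IsT G A T → ∀ i < H.card, e i ∈ T → blk T = 2 * i ∨
      (blk T = 2 * i + 1 ∧ lk i) ∨ (1 ≤ i ∧ blk T = 2 * (i - 1) + 1 ∧ lk (i - 1)) := by
    intro T hT i hi h1
    rcases kind T hT with ⟨j, hj, a1, a2, a3⟩ | ⟨j, hj, a1, a2, a3⟩
    · by_cases hij : i = j
      · subst hij
        exact Or.inr (Or.inl ⟨a3, (lkT T hT i hj a1 a2).1⟩)
      · by_cases hij' : i = j + 1
        · subst hij'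
          exact Or.inr (Or.inr ⟨by omega, by simpa using a3,
            by simpa using (lkT T hT j hj a1 a2).1⟩)
        · exfalso
          rcases lt_or_gt_of_ne hij with h | h
          · have := cons T hT i (j + 1) (by omega) hj h1 a2
            omega
          · have := cons T hT j i (by omega) hi a1 h1
            omega
    · left
      rcases lt_trichotomy i j with h | h | h
      · have := cons T hT i j h hj h1 a1
        subst this
        exact absurd ⟨i, hj, h1, a1⟩ a3
      · rw [h]; exact a2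
      · have := cons T hT j i h hi a1 h1
        subst this
        exact absurd ⟨j, hi, a1, h1⟩ a3
  refine ⟨{
    m := H.card
    h := e
    mid := mid
    lk := lk
    blk := blk
    hA := fun i hi => (eHS i hi).mem
    inj := ene
    lk_lt := fun i hi => hi.1
    lk_T := fun i hi => (hmid i hi).1
    lk_col := ?_
    lk_mid := fun i hi => (hmid i hi).2
    lk_blk := ?_
    blk_odd := ?_
    blk_even := ?_
    blk_mem := bmem
    share := ?_
    ne := ?_
    dis := ?_ }⟩
  · intro i hi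
    obtain ⟨hi1, T, hT, h1, h2⟩ := hi
    exact colS T hT i hi1 h1 h2
  · intro i hi
    exact blk1 _ (hmid i hi).1 i hi.1 (by simp) (by simp)
  · intro T hT i hi
    rcases kind T hT with ⟨j, hj, a1, a2, a3⟩ | ⟨j, hj, a1, a2, a3⟩
    · have : j = i := by omega
      subst this
      exact lkT T hT j hj a1 a2
    · omega
  · intro T hT i hi
    rcases kind T hT with ⟨j, hj, a1, a2, a3⟩ | ⟨j, hj, a1, a2, a3⟩
    · omega
    · have : j = i := by omega
      subst this
      refine ⟨hj, a1, ?_⟩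
      intro k hk hkT
      rcases bmem T hT k hk hkT with h | ⟨h, _⟩ | ⟨_, h, _⟩ <;> omega
  · intro T T' hT hT' hne v hv hv'
    obtain ⟨i, hi, he⟩ := e3 v ((memH v).2 (Or.inl ⟨T, T', hT, hT', hne, hv, hv'⟩))
    exact ⟨i, hi, he.symm⟩
  · intro i hi
    rcases eHS i hi with ⟨T₁, T₂, h1, h2, hne, hx1, hx2⟩ | ⟨_, T, hT, hx, hiso⟩
    · rcases bmem T₁ h1 i hi hx1 with a | ⟨a, a'⟩ | ⟨a, a', a''⟩
      · exact Or.inl ⟨T₁, h1, a⟩
      · rcases bmem T₂ h2 i hi hx2 with b | ⟨b, b'⟩ | ⟨b, b', b''⟩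
        · exact Or.inl ⟨T₂, h2, b⟩
        · exfalso
          apply hne
          rcases kind T₁ h1 with ⟨j, hj, c1, c2, c3⟩ | ⟨j, hj, c1, c2, c3⟩
          · rcases kind T₂ h2 with ⟨k, hk, d1, d2, d3⟩ | ⟨k, hk, d1, d2, d3⟩
            · have hjk : j = k := by omega
              subst hjk
              rw [(lkT T₁ h1 j hj c1 c2).2, (lkT T₂ h2 j hk d1 d2).2]
            · omega
          · omega
        · exact Or.inr ⟨a', b, b''⟩
      · rcases bmem T₂ h2 i hi hx2 with b | ⟨b, b'⟩ | ⟨b, b', b''⟩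
        · exact Or.inl ⟨T₂, h2, b⟩
        · exact Or.inr ⟨b', a, a''⟩
        · exfalso
          apply hne
          rcases kind T₁ h1 with ⟨j, hj, c1, c2, c3⟩ | ⟨j, hj, c1, c2, c3⟩
          · rcases kind T₂ h2 with ⟨k, hk, d1, d2, d3⟩ | ⟨k, hk, d1, d2, d3⟩
            · have hjk : j = k := by omega
              subst hjk
              rw [(lkT T₁ h1 j hj c1 c2).2, (lkT T₂ h2 j hk d1 d2).2]
            · omega
          · omega
    · left
      refine ⟨T, hT, ?_⟩
      apply blk0 T hT i hi hx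
      rintro ⟨j, hj, c1, c2⟩
      have nij : e j ≠ e (j + 1) := fun h => by have := ene j (by omega) (j + 1) hj h; omega
      rcases eHS j (by omega) with hj' | ⟨d1, _⟩
      · exact hiso _ c1 hj'
      · rcases eHS (j + 1) hj with hj' | ⟨d2, _⟩
        · exact hiso _ c2 hj'
        · exact nij (hC.col_inj hT c1 c2 (d1.trans d2.symm))
  · intro T T' hT hT' hd hlt
    -- hubs `e i ∈ T`, `e j ∈ T'` with `i < j`
    have hij : ∃ i j, i < j ∧ j < H.card ∧ e i ∈ T ∧ e j ∈ T' := by
      rcases kind T hT with ⟨i, hi, a1, a2, a3⟩ | ⟨i, hi, a1, a3, a4⟩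
      · rcases kind T' hT' with ⟨j, hj, b1, b2, b3⟩ | ⟨j, hj, b1, b3, b4⟩
        · exact ⟨i, j + 1, by omega, hj, a1, b2⟩
        · exact ⟨i, j, by omega, hj, a1, b1⟩
      · rcases kind T' hT' with ⟨j, hj, b1, b2, b3⟩ | ⟨j, hj, b1, b3, b4⟩
        · exact ⟨i, j + 1, by omega, hj, a1, b2⟩
        · exact ⟨i, j, by omega, hj, a1, b1⟩
    obtain ⟨i, j, hij, hj, h1, h2⟩ := hij
    have nij : e i ≠ e j := fun h => by have := ene i (by omega) j hj h; omega
    rcases hC.tlt_or hT hT' hd with h | h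
    · exact h
    · exact absurd ⟨T', T, hT', hT, h2, h1, h⟩ (fun h => bef_asymm hC hP nij (ebef i j hij hj) h)

end

end Pool.Agent.H.MP_ebc13b_lc.h53
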