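import Pool.Agent.H.MP_ebc13b_lc.h53.Pos

/-!
Reversal of the natural order: the colouring `-col`.
-/

namespace Pool.Agent.H.MP_ebc13b_lc.h53

open Pool.Agent.H.MP_ebc13b_lc.h46

variable {α : Type*} [DecidableEq α] {G : SimpleGraph α} {A : Finset α} {col : α → ZMod 3}

/-- the reversed colouring -/
def rcol (col : α → ZMod 3) : α → ZMod 3 := fun v => - col v

theorem z3_neg1 (a b : ZMod 3) : -a = -b + 1 ↔ a = b + 2 := by revert a b; decide

theorem z3_neg2 (a b : ZMod 3) : -a = -b + 2 ↔ a = b + 1 := by revert a b; decide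

theorem rcol_rcol : rcol (rcol col) = col := by
  funext v
  simp [rcol]

theorem vlt_rcol {v : α} {T : Finset α} : vlt G (rcol col) v T ↔ vgt G col v T := by
  unfold vlt vgt rcol
  simp only [z3_neg1]

theorem vgt_rcol {v : α} {T : Finset α} : vgt G (rcol col) v T ↔ vlt G col v T := by
  unfold vlt vgt rcol
  simp only [z3_neg2]

theorem PC.rev (hC : PC G A col) : PC G A (rcol col) :=
  ⟨hC.pr, fun u hu v hv huv h => hC.col u hu v hv huv (neg_injective h)⟩

theorem PC.tlt_rcol (hC : PC G A col) {T T' : Finset α} (hT : IsT G A T) (hT' : IsT G A T') :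
    tlt G (rcol col) T T' ↔ tlt G col T' T := by
  constructor
  · intro h
    obtain ⟨v, hv, _⟩ := hC.ex_col hT 0
    exact hC.tlt_of_gt hT' hT h.disj.symm hv (vlt_rcol.1 (h v hv))
  · intro h v hv
    exact vlt_rcol.2 (hC.tlt_gt hT' hT h v hv)

namespace Line

variable (L : Line G A col)

theorem blk_le {T : Finset α} (hT : IsT G A T) : L.blk T ≤ 2 * (L.m - 1) ∧ 1 ≤ L.m := by
  rcases Nat.even_or_odd' (L.blk T) with ⟨i, hi | hi⟩
  · have := (L.blk_even T hT i hi).1
    omega
  · have := L.lk_lt i (L.blk_odd T hT i hi).1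
    omega

/-- the reversed line -/
def rev (hC : PC G A col) : Line G A (rcol col) where
  m := L.m
  h := fun i => L.h (L.m - 1 - i)
  mid := fun i => L.mid (L.m - 2 - i)
  lk := fun i => i + 1 < L.m ∧ L.lk (L.m - 2 - i)
  blk := fun T => 2 * (L.m - 1) - L.blk T
  hA := fun i hi => L.hA _ (by omega)
  inj := by
    intro i hi j hj h
    have := L.inj _ (by omega) _ (by omega) h
    omega
  lk_lt := fun i hi => hi.1
  lk_T := by
    intro i hi
    have h1 : L.m - 1 - i = (L.m - 2 - i) + 1 := by have := hi.1; omega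
    have h2 : L.m - 1 - (i + 1) = L.m - 2 - i := by omega
    have h3 := L.lk_T _ hi.2
    rw [h1, h2]
    convert h3 using 1
    ext w
    simp only [Finset.mem_insert, Finset.mem_singleton]
    tauto
  lk_col := by
    intro i hi
    have h1 : L.m - 1 - i = (L.m - 2 - i) + 1 := by have := hi.1; omega
    have h2 : L.m - 1 - (i + 1) = L.m - 2 - i := by omega
    have h3 := L.lk_col _ hi.2
    simp only [rcol]
    rw [h1, h2, h3]
    ring
  lk_mid := by
    intro i hi
    have h1 : L.m - 1 - i = (L.m - 2 - i) + 1 := by have := hi.1; omega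
    have h3 := L.lk_col _ hi.2
    have h4 := L.lk_mid _ hi.2
    simp only [rcol]
    rw [h1, h3, h4]
    generalize col (L.h (L.m - 2 - i)) = a
    revert a
    decide
  lk_blk := by
    intro i hi
    have h1 : L.m - 1 - i = (L.m - 2 - i) + 1 := by have := hi.1; omega
    have h2 : L.m - 1 - (i + 1) = L.m - 2 - i := by omega
    have h3 := L.lk_blk _ hi.2
    have h4 : ({L.h (L.m - 1 - i), L.mid (L.m - 2 - i), L.h (L.m - 1 - (i + 1))} : Finset α) =
        {L.h (L.m - 2 - i), L.mid (L.m - 2 - i), L.h (L.m - 2 - i + 1)} := by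
      rw [h1, h2]
      ext w
      simp only [Finset.mem_insert, Finset.mem_singleton]
      tauto
    rw [h4, h3]
    have := hi.1
    omega
  blk_odd := by
    intro T hT i hi
    have hle := L.blk_le hT
    have hb : L.blk T = 2 * (L.m - 2 - i) + 1 := by omega
    obtain ⟨h1, h2⟩ := L.blk_odd T hT _ hb
    have h3 := L.lk_lt _ h1
    have h4 : i + 1 < L.m := by omega
    have h5 : L.m - 1 - i = (L.m - 2 - i) + 1 := by omega
    have h6 : L.m - 1 - (i + 1) = L.m - 2 - i := by omega
    refine ⟨⟨h4, h1⟩, ?_⟩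
    rw [h5, h6]
    conv_lhs => rw [h2]
    ext w
    simp only [Finset.mem_insert, Finset.mem_singleton]
    tauto
  blk_even := by
    intro T hT i hi
    have hle := L.blk_le hT
    have hb : L.blk T = 2 * (L.m - 1 - i) := by omega
    obtain ⟨h1, h2, h3⟩ := L.blk_even T hT _ hb
    refine ⟨?_, h2, ?_⟩
    · by_contra hcon
      have h7 : L.m - 1 - i = 0 := by omega
      rw [h7] at hb
      have h8 : 2 * (L.m - 1) - L.blk T = 2 * (L.m - 1) := by omega
      omega
    · intro j hj hjT
      have h9 := h3 _ (by omega) hjT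
      have h10 : i < L.m := by
        by_contra hcon
        have h7 : L.m - 1 - i = 0 := by omega
        rw [h7] at hb
        omega
      omega
  blk_mem := by
    intro T hT i hi hiT
    have hle := L.blk_le hT
    rcases L.blk_mem T hT _ (by omega) hiT with h | ⟨h, h'⟩ | ⟨h1, h, h'⟩
    · left; omega
    · right; right
      have h3 := L.lk_lt _ h'
      refine ⟨by omega, by omega, by omega, ?_⟩
      have h4 : L.m - 2 - (i - 1) = L.m - 1 - i := by omega
      rw [h4]; exact h'
    · right; left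
      refine ⟨by omega, by omega, ?_⟩
      have h4 : L.m - 2 - i = L.m - 1 - i - 1 := by omega
      rw [h4]; exact h'
  share := by
    intro T T' hT hT' hne v hv hv'
    obtain ⟨i, hi, h⟩ := L.share T T' hT hT' hne v hv hv'
    refine ⟨L.m - 1 - i, by omega, ?_⟩
    have : L.m - 1 - (L.m - 1 - i) = i := by omega
    rw [this]; exact h
  ne := by
    intro i hi
    rcases L.ne (L.m - 1 - i) (by omega) with ⟨T, hT, hb⟩ | ⟨h1, h2, h3⟩
    · exact Or.inl ⟨T, hT, by omega⟩
    · right
      have h4 := L.lk_lt _ h1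
      refine ⟨⟨by omega, ?_⟩, by omega, by omega, ?_⟩
      · have h5 : L.m - 2 - i = L.m - 1 - i - 1 := by omega
        rw [h5]; exact h3
      · have h5 : L.m - 2 - (i - 1) = L.m - 1 - i := by omega
        rw [h5]; exact h1
  dis := by
    intro T T' hT hT' hd hb
    rw [hC.tlt_rcol hT hT']
    have h1 := L.blk_le hT
    have h2 := L.blk_le hT'
    exact L.dis T' T hT' hT hd.symm (by omega)

theorem rev_m (hC : PC G A col) : (L.rev hC).m = L.m := rfl

theorem rev_h (hC : PC G A col) (i : ℕ) : (L.rev hC).h i = L.h (L.m - 1 - i) := rfl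

theorem rev_mid (hC : PC G A col) (i : ℕ) : (L.rev hC).mid i = L.mid (L.m - 2 - i) := rfl

theorem rev_lk (hC : PC G A col) (i : ℕ) :
    (L.rev hC).lk i ↔ i + 1 < L.m ∧ L.lk (L.m - 2 - i) := Iff.rfl

theorem rev_blk (hC : PC G A col) (T : Finset α) :
    (L.rev hC).blk T = 2 * (L.m - 1) - L.blk T := rfl

end Line

end Pool.Agent.H.MP_ebc13b_lc.h53
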