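import Pool.Agent.H.MP_ebc13b_lc.h53.Alp
import Pool.Agent.H.MP_ebc13b_lc.h53.Rev

/-!
A pair of parallels.
-/

namespace Pool.Agent.H.MP_ebc13b_lc.h53

open Pool.Agent.H.MP_ebc13b_lc.h46

variable {α : Type*} [DecidableEq α]

/-- A pair of parallels: the hubs `h1 ≠ h2` are linked to the hub `h` by the triangles `Q1`, `Q2`, and
to the hub `v` by the triangles `T1`, `T2`. -/
structure Par (G : SimpleGraph α) (A : Finset α) (col : α → ZMod 3) (c : ZMod 3)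
    (h v h1 h2 m1 m2 b1 b2 : α) : Prop where
  Q1 : IsT G A {h, m1, h1}
  Q2 : IsT G A {h, m2, h2}
  T1 : IsT G A {v, b1, h1}
  T2 : IsT G A {v, b2, h2}
  ch : col h = c
  cv : col v = c + 2
  ch1 : col h1 = c + 1
  ch2 : col h2 = c + 1
  cm1 : col m1 = c + 2
  cm2 : col m2 = c + 2
  cb1 : col b1 = c
  cb2 : col b2 = c
  hh : h1 ≠ h2
  mm : m1 ≠ m2
  bb : b1 ≠ b2
  vm1 : v ≠ m1
  vm2 : v ≠ m2
  hb1 : h ≠ b1
  hb2 : h ≠ b2
  sh1 : ∀ T, IsT G A T → h1 ∈ T → T = {h, m1, h1} ∨ T = {v, b1, h1}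
  sh2 : ∀ T, IsT G A T → h2 ∈ T → T = {h, m2, h2} ∨ T = {v, b2, h2}
  sm1 : ∀ T, IsT G A T → m1 ∈ T → T = {h, m1, h1}
  sm2 : ∀ T, IsT G A T → m2 ∈ T → T = {h, m2, h2}
  sb1 : ∀ T, IsT G A T → b1 ∈ T → T = {v, b1, h1}
  sb2 : ∀ T, IsT G A T → b2 ∈ T → T = {v, b2, h2}

theorem z3_2ne0 (a : ZMod 3) : a + 2 ≠ a := by revert a; decide

theorem z3_1ne0 (a : ZMod 3) : a + 1 ≠ a := by revert a; decide

theorem z3_2ne1 (a : ZMod 3) : a + 2 ≠ a + 1 := by revert a; decide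

theorem z3_22 (a : ZMod 3) : a + 2 + 2 = a + 1 := by revert a; decide

theorem z3_12' (a : ZMod 3) : a + 1 + 2 = a := by revert a; decide

theorem z3_all (a c : ZMod 3) : a = c ∨ a = c + 1 ∨ a = c + 2 := by revert a c; decide

namespace Par

variable {G : SimpleGraph α} {A : Finset α} {col : α → ZMod 3} {c : ZMod 3}
  {h v h1 h2 m1 m2 b1 b2 : α}

theorem swap (P : Par G A col c h v h1 h2 m1 m2 b1 b2) : Par G A col c h v h2 h1 m2 m1 b2 b1 :=
  ⟨P.Q2, P.Q1, P.T2, P.T1, P.ch, P.cv, P.ch2, P.ch1, P.cm2, P.cm1, P.cb2, P.cb1, P.hh.symm,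
    P.mm.symm, P.bb.symm, P.vm2, P.vm1, P.hb2, P.hb1, P.sh2, P.sh1, P.sm2, P.sm1, P.sb2, P.sb1⟩

theorem mirror (P : Par G A col c h v h1 h2 m1 m2 b1 b2) :
    Par G A (rcol col) (-c + 1) v h h1 h2 b1 b2 m1 m2 := by
  have e1 : ∀ a : ZMod 3, -(a + 2) = -a + 1 := by decide
  have e2 : ∀ a : ZMod 3, -a = -a + 1 + 2 := by decide
  have e3 : ∀ a : ZMod 3, -(a + 1) = -a + 1 + 1 := by decide
  exact {
    Q1 := P.T1
    Q2 := P.T2
    T1 := P.Q1
    T2 := P.Q2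
    ch := by simp only [rcol, P.cv, e1]
    cv := by simp only [rcol, P.ch]; exact e2 c
    ch1 := by simp only [rcol, P.ch1, e3]
    ch2 := by simp only [rcol, P.ch2, e3]
    cm1 := by simp only [rcol, P.cb1]; exact e2 c
    cm2 := by simp only [rcol, P.cb2]; exact e2 c
    cb1 := by simp only [rcol, P.cm1, e1]
    cb2 := by simp only [rcol, P.cm2, e1]
    hh := P.hh
    mm := P.bb
    bb := P.mm
    vm1 := P.hb1
    vm2 := P.hb2
    hb1 := P.vm1
    hb2 := P.vm2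
    sh1 := fun T hT hm => (P.sh1 T hT hm).symm
    sh2 := fun T hT hm => (P.sh2 T hT hm).symm
    sm1 := P.sb1
    sm2 := P.sb2
    sb1 := P.sm1
    sb2 := P.sm2 }

/-- the vertices `h1, h2, m1, m2, b1, b2` -/
def K (_ : Par G A col c h v h1 h2 m1 m2 b1 b2) : Finset α := {h1, h2, m1, m2, b1, b2}

theorem memK (P : Par G A col c h v h1 h2 m1 m2 b1 b2) {x : α} :
    x ∈ P.K ↔ x = h1 ∨ x = h2 ∨ x = m1 ∨ x = m2 ∨ x = b1 ∨ x = b2 := by
  unfold K
  simp only [Finset.mem_insert, Finset.mem_singleton]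

section mem

variable (P : Par G A col c h v h1 h2 m1 m2 b1 b2)

include P

theorem Ah : h ∈ A := P.Q1.1 (by simp)
theorem Av : v ∈ A := P.T1.1 (by simp)
theorem Ah1 : h1 ∈ A := P.Q1.1 (by simp)
theorem Ah2 : h2 ∈ A := P.Q2.1 (by simp)
theorem Am1 : m1 ∈ A := P.Q1.1 (by simp)
theorem Am2 : m2 ∈ A := P.Q2.1 (by simp)
theorem Ab1 : b1 ∈ A := P.T1.1 (by simp)
theorem Ab2 : b2 ∈ A := P.T2.1 (by simp)

theorem KA : P.K ⊆ A := by
  intro x hx
  rcases P.memK.1 hx with rfl | rfl | rfl | rfl | rfl | rfl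
  · exact P.Ah1
  · exact P.Ah2
  · exact P.Am1
  · exact P.Am2
  · exact P.Ab1
  · exact P.Ab2

-- distinctness by colours
theorem n_h_v : h ≠ v := by
  intro e
  exact z3_2ne0 c (by rw [← P.cv, ← e, P.ch])
theorem n_h_h1 : h ≠ h1 := by
  intro e
  exact z3_1ne0 c (by rw [← P.ch1, ← e, P.ch])
theorem n_h_m1 : h ≠ m1 := by
  intro e
  exact z3_2ne0 c (by rw [← P.cm1, ← e, P.ch])
theorem n_h1_m1 : h1 ≠ m1 := by
  intro e
  exact z3_2ne1 c (by rw [← P.cm1, ← e, P.ch1])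
theorem n_h1_m2 : h1 ≠ m2 := by
  intro e
  exact z3_2ne1 c (by rw [← P.cm2, ← e, P.ch1])
theorem n_h1_b1 : h1 ≠ b1 := by
  intro e
  exact z3_1ne0 c (by rw [← P.ch1, e, P.cb1])
theorem n_h1_b2 : h1 ≠ b2 := by
  intro e
  exact z3_1ne0 c (by rw [← P.ch1, e, P.cb2])
theorem n_v_h1 : v ≠ h1 := by
  intro e
  exact z3_2ne1 c (by rw [← P.cv, e, P.ch1])
theorem n_v_b1 : v ≠ b1 := by
  intro e
  exact z3_2ne0 c (by rw [← P.cv, e, P.cb1])
theorem n_m1_b1 : m1 ≠ b1 := by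
  intro e
  exact z3_2ne0 c (by rw [← P.cm1, e, P.cb1])
theorem n_m1_b2 : m1 ≠ b2 := by
  intro e
  exact z3_2ne0 c (by rw [← P.cm1, e, P.cb2])

-- edges
theorem a_hm1 : G.Adj h m1 := P.Q1.adj (by simp) (by simp) P.n_h_m1
theorem a_hh1 : G.Adj h h1 := P.Q1.adj (by simp) (by simp) P.n_h_h1
theorem a_mh1 : G.Adj m1 h1 := P.Q1.adj (by simp) (by simp) P.n_h1_m1.symm
theorem a_vb1 : G.Adj v b1 := P.T1.adj (by simp) (by simp) P.n_v_b1
theorem a_vh1 : G.Adj v h1 := P.T1.adj (by simp) (by simp) P.n_v_h1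
theorem a_bh1 : G.Adj b1 h1 := P.T1.adj (by simp) (by simp) P.n_h1_b1.symm

theorem v_notin_Q1 : v ∉ ({h, m1, h1} : Finset α) := by
  simp only [Finset.mem_insert, Finset.mem_singleton, not_or]
  exact ⟨P.n_h_v.symm, P.vm1, P.n_v_h1⟩
theorem h1_notin_Q2 : h1 ∉ ({h, m2, h2} : Finset α) := by
  simp only [Finset.mem_insert, Finset.mem_singleton, not_or]
  exact ⟨P.n_h_h1.symm, P.n_h1_m2, P.hh⟩
theorem h1_notin_T2 : h1 ∉ ({v, b2, h2} : Finset α) := by
  simp only [Finset.mem_insert, Finset.mem_singleton, not_or]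
  exact ⟨P.n_v_h1.symm, P.n_h1_b2, P.hh⟩
theorem m1_notin_T1 : m1 ∉ ({v, b1, h1} : Finset α) := by
  simp only [Finset.mem_insert, Finset.mem_singleton, not_or]
  exact ⟨P.vm1.symm, P.n_m1_b1, P.n_h1_m1.symm⟩
theorem m1_notin_T2 : m1 ∉ ({v, b2, h2} : Finset α) := by
  simp only [Finset.mem_insert, Finset.mem_singleton, not_or]
  exact ⟨P.vm1.symm, P.n_m1_b2, P.swap.n_h1_m2.symm⟩
theorem m1_notin_Q2 : m1 ∉ ({h, m2, h2} : Finset α) := by
  simp only [Finset.mem_insert, Finset.mem_singleton, not_or]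
  exact ⟨P.n_h_m1.symm, P.mm, P.swap.n_h1_m2.symm⟩

-- non-edges
theorem x_h1m2 (hC : PC G A col) : ¬ G.Adj h1 m2 := by
  intro hadj
  exact P.swap.n_h_m1 (hC.nb_unique P.Q2 P.Ah1 P.h1_notin_Q2 (by simp) (by simp)
    P.a_hh1.symm hadj)
theorem x_h1b2 (hC : PC G A col) : ¬ G.Adj h1 b2 := by
  intro hadj
  exact P.swap.n_v_b1 (hC.nb_unique P.T2 P.Ah1 P.h1_notin_T2 (by simp) (by simp)
    P.a_vh1.symm hadj)
theorem x_m1b1 (hC : PC G A col) : ¬ G.Adj m1 b1 := by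
  intro hadj
  exact P.n_h1_b1 (hC.nb_unique P.T1 P.Am1 P.m1_notin_T1 (by simp) (by simp)
    P.a_mh1 hadj)
theorem x_vh (hC : PC G A col) : ¬ G.Adj v h := by
  intro hadj
  exact P.n_h_h1 (hC.nb_unique P.Q1 P.Av P.v_notin_Q1 (by simp) (by simp)
    hadj P.a_vh1)
theorem x_m1h2 (hC : PC G A col) : ¬ G.Adj m1 h2 := fun e => P.swap.x_h1m2 hC e.symm
theorem a_m1b2 (hC : PC G A col) : G.Adj m1 b2 := by
  obtain ⟨u, hu, hadj, _⟩ := hC.pr _ P.T2.1 P.T2.2 m1 P.Am1 P.m1_notin_T2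
  simp only [Finset.mem_insert, Finset.mem_singleton] at hu
  rcases hu with rfl | rfl | rfl
  · exact absurd (P.cm1.trans P.cv.symm) (hC.col _ P.Am1 _ P.Av hadj)
  · exact hadj
  · exact absurd hadj (P.x_m1h2 hC)

/-- `h1` and `h2` are twins outside `K` -/
theorem twin_h (hC : PC G A col) {u : α} (hu : u ∈ A) (huK : u ∉ P.K) (hadj : G.Adj h1 u) :
    G.Adj h2 u := by
  rw [P.memK, not_or, not_or, not_or, not_or, not_or] at huK
  obtain ⟨k1, k2, k3, k4, k5, k6⟩ := huK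
  by_cases e1 : u = h
  · rw [e1]; exact P.swap.a_hh1.symm
  by_cases e2 : u = v
  · rw [e2]; exact P.swap.a_vh1.symm
  have q1 : u ∉ ({h, m1, h1} : Finset α) := by simp [e1, k3, k1]
  have q2 : u ∉ ({h, m2, h2} : Finset α) := by simp [e1, k4, k2]
  have t1 : u ∉ ({v, b1, h1} : Finset α) := by simp [e2, k5, k1]
  have t2 : u ∉ ({v, b2, h2} : Finset α) := by simp [e2, k6, k2]
  rcases z3_all (col u) c with e | e | e
  · have l1 : vlt G col u {v, b1, h1} := ⟨t1, h1, by simp, hadj.symm, by rw [P.ch1, e]⟩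
    have l2 := hC.uni_lt P.T1 P.T2 (x := v) (by simp) (by simp) hu t2
      (by rw [e, P.cv]; exact (z3_2ne0 c).symm) l1
    exact (hC.lt_adj P.T2 l2 (by simp) (by rw [P.ch2, e])).symm
  · exact absurd (P.ch1.trans e.symm) (hC.col _ P.Ah1 _ hu hadj)
  · have l1 : vgt G col u {h, m1, h1} := ⟨q1, h1, by simp, hadj.symm, by rw [P.ch1, e, z3_22]⟩
    have l2 := hC.uni_gt P.Q1 P.Q2 (x := h) (by simp) (by simp) hu q2
      (by rw [e, P.ch]; exact z3_2ne0 c) l1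
    exact (hC.gt_adj P.Q2 l2 (by simp) (by rw [P.ch2, e, z3_22])).symm

/-- `m1` and `m2` are twins outside `K` -/
theorem twin_m (hC : PC G A col) {u : α} (hu : u ∈ A) (huK : u ∉ P.K) (hadj : G.Adj m1 u) :
    G.Adj m2 u := by
  have huK' := huK
  rw [P.memK, not_or, not_or, not_or, not_or, not_or] at huK
  obtain ⟨k1, k2, k3, k4, k5, k6⟩ := huK
  by_cases e1 : u = h
  · rw [e1]; exact P.swap.a_hm1.symm
  have q1 : u ∉ ({h, m1, h1} : Finset α) := by simp [e1, k3, k1]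
  have q2 : u ∉ ({h, m2, h2} : Finset α) := by simp [e1, k4, k2]
  rcases z3_all (col u) c with e | e | e
  · have n1 : ¬ G.Adj h1 u := by
      intro hn
      exact P.n_h1_m1 (hC.nb_unique P.Q1 hu q1 (by simp) (by simp) hn.symm hadj.symm)
    have n2 : ¬ G.Adj h2 u := by
      intro hn
      apply n1
      refine P.swap.twin_h hC hu ?_ hn
      intro hm
      apply huK'
      rw [P.swap.memK] at hm
      rw [P.memK]
      tauto
    obtain ⟨w, hw, hadj', _⟩ := hC.pr _ P.Q2.1 P.Q2.2 u hu q2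
    simp only [Finset.mem_insert, Finset.mem_singleton] at hw
    rcases hw with rfl | rfl | rfl
    · exact absurd (e.trans P.ch.symm) (hC.col _ hu _ P.Ah hadj')
    · exact hadj'.symm
    · exact absurd hadj'.symm n2
  · have l1 : vlt G col u {h, m1, h1} := ⟨q1, m1, by simp, hadj.symm, by rw [P.cm1, e, z3_11]⟩
    have l2 := hC.uni_lt P.Q1 P.Q2 (x := h) (by simp) (by simp) hu q2
      (by rw [e, P.ch]; exact z3_1ne0 c) l1
    exact (hC.lt_adj P.Q2 l2 (by simp) (by rw [P.cm2, e, z3_11])).symm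
  · exact absurd (P.cm1.trans e.symm) (hC.col _ P.Am1 _ hu hadj)

/-- `b1` and `b2` are twins outside `K` -/
theorem twin_b (hC : PC G A col) {u : α} (hu : u ∈ A) (huK : u ∉ P.K) (hadj : G.Adj b1 u) :
    G.Adj b2 u := by
  refine P.mirror.twin_m hC.rev hu ?_ hadj
  intro hm
  apply huK
  rw [P.mirror.memK] at hm
  rw [P.memK]
  tauto

theorem swapK : P.swap.K = P.K := by
  ext x
  rw [P.swap.memK, P.memK]
  tauto

theorem mirrorK : P.mirror.K = P.K := by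
  ext x
  rw [P.mirror.memK, P.memK]
  tauto

/-- vertices of `K` of the same colour are twins outside `K` -/
theorem twin (hC : PC G A col) {x x' u : α} (hx : x ∈ P.K) (hx' : x' ∈ P.K) (hc : col x = col x')
    (hu : u ∈ A) (huK : u ∉ P.K) (hadj : G.Adj x u) : G.Adj x' u := by
  have huK' : u ∉ P.swap.K := by rw [P.swapK]; exact huK
  have ne1 := z3_1ne0 c
  have ne2 := z3_2ne0 c
  have ne3 := z3_2ne1 c
  rcases P.memK.1 hx with rfl | rfl | rfl | rfl | rfl | rfl <;>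
  rcases P.memK.1 hx' with rfl | rfl | rfl | rfl | rfl | rfl <;>
  simp only [P.ch1, P.ch2, P.cm1, P.cm2, P.cb1, P.cb2, ne1, ne2, ne3, ne1.symm, ne2.symm,
    ne3.symm] at hc
  · exact hadj
  · exact P.twin_h hC hu huK hadj
  · exact P.swap.twin_h hC hu huK' hadj
  · exact hadj
  · exact hadj
  · exact P.twin_m hC hu huK hadj
  · exact P.swap.twin_m hC hu huK' hadj
  · exact hadj
  · exact hadj
  · exact P.twin_b hC hu huK hadj
  · exact P.swap.twin_b hC hu huK' hadj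
  · exact hadj

end mem

end Par

end Pool.Agent.H.MP_ebc13b_lc.h53
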