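import Mathlib

/-!
The arithmetic of case 3 of a pair of parallels.
-/

namespace Pool.Agent.H.MP_ebc13b_lc.h53

/-- splitting a mass -/
theorem splitF {x p q : ℝ} (hx : 0 ≤ x) (hp : 0 ≤ p) (hxpq : x ≤ p + q) (hq : 0 ≤ q) :
    ∃ x1 x2 : ℝ, 0 ≤ x1 ∧ 0 ≤ x2 ∧ x1 + x2 = x ∧ x1 ≤ p ∧ x2 ≤ q := by
  rcases le_total x p with h | h
  · exact ⟨x, 0, hx, le_rfl, by ring, h, hq⟩
  · exact ⟨p, x - p, hp, by linarith only [h], by ring, le_rfl, by linarith only [hxpq]⟩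

/-- product distribution -/
theorem transF {r1 r2 q1 q2 : ℝ} (h1 : 0 ≤ r1) (h2 : 0 ≤ r2) (h3 : 0 ≤ q1) (h4 : 0 ≤ q2)
    (he : r1 + r2 = q1 + q2) : ∃ a b c d : ℝ, 0 ≤ a ∧ 0 ≤ b ∧ 0 ≤ c ∧ 0 ≤ d ∧ a + b = r1 ∧
      c + d = r2 ∧ a + c = q1 ∧ b + d = q2 := by
  rcases le_total r1 q1 with h | h
  · exact ⟨r1, 0, q1 - r1, q2, h1, le_rfl, by linarith only [h], h4, by ring,
      by linarith only [he], by ring, by ring⟩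
  · exact ⟨q1, r1 - q1, 0, r2, h3, by linarith only [h], le_rfl, h2, by ring, by ring, by ring,
      by linarith only [he]⟩

/-- the choice of the new masses -/
theorem ar3 {K T a b d S1 S2 S3 : ℝ} (d0 : 0 ≤ d) (p1 : 0 ≤ S1) (p2 : 0 ≤ S2) (p3 : 0 ≤ S3)
    (hK : K + a ≤ 1) (hT : T + b ≤ 1) (r1 : a + b + S1 ≤ 2 - K - T) (r2 : a + d + S2 ≤ 2 - K)
    (r3 : b + d + S3 ≤ 2 - T) (dK : d ≤ 1 - K - a + 1) (dT : d ≤ 1 + (1 - T - b)) :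
    ∃ σ1 σ2 σ3 σ4 σ5 σ6 x5 x6 x7 x8 : ℝ, (0 ≤ σ1 ∧ 0 ≤ σ2 ∧ 0 ≤ σ3 ∧ 0 ≤ σ4 ∧ 0 ≤ σ5 ∧ 0 ≤ σ6) ∧
      (0 ≤ x5 ∧ 0 ≤ x6 ∧ 0 ≤ x7 ∧ 0 ≤ x8) ∧
      (σ1 + σ2 = S1 ∧ σ3 + σ4 = S2 ∧ σ5 + σ6 = S3 ∧ x5 + x6 + x7 + x8 = d) ∧
      (a + 0 ≤ 1 - K - σ1 ∧ 0 + b ≤ 1 - T - σ2 ∧ a + x5 + x6 ≤ 1 - K - σ3 ∧
      0 + x7 + x8 ≤ 1 - σ4 ∧ 0 + x5 + x7 ≤ 1 - σ5 ∧ b + x6 + x8 ≤ 1 - T - σ6) := by
  obtain ⟨σ1, σ2, σ10, σ20, σe, σa, σb⟩ := splitF (x := S1)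
    (p := 1 - K - a) (q := 1 - T - b) p1 (by linarith only [hK]) (by linarith only [r1])
    (by linarith only [hT])
  obtain ⟨ρ1, ρ2, ρ10, ρ20, ρe, ρa, ρb⟩ := splitF (x := d)
    (p := 1 - K - a) (q := 1) d0 (by linarith only [hK]) dK zero_le_one
  obtain ⟨σ3, σ4, σ30, σ40, σe3, σa3, σb3⟩ := splitF (x := S2)
    (p := 1 - K - a - ρ1) (q := 1 - ρ2) p2 (by linarith only [ρa])
    (by linarith only [r2, ρe]) (by linarith only [ρb])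
  obtain ⟨θ1, θ2, θ10, θ20, θe, θa, θb⟩ := splitF (x := d)
    (p := 1) (q := 1 - T - b) d0 zero_le_one dT (by linarith only [hT])
  obtain ⟨σ5, σ6, σ50, σ60, σe5, σa5, σb5⟩ := splitF (x := S3)
    (p := 1 - θ1) (q := 1 - T - b - θ2) p3 (by linarith only [θa])
    (by linarith only [r3, θe]) (by linarith only [θb])
  obtain ⟨x5, x6, x7, x8, p5, p6, p7, p8, q1, q2, q3, q4⟩ := transF ρ10 ρ20 θ10 θ20
    (by linarith only [ρe, θe])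
  exact ⟨σ1, σ2, σ3, σ4, σ5, σ6, x5, x6, x7, x8, ⟨σ10, σ20, σ30, σ40, σ50, σ60⟩,
    ⟨p5, p6, p7, p8⟩, ⟨σe, σe3, σe5, by linarith only [ρe, q1, q2]⟩,
    ⟨by linarith only [σa], by linarith only [σb], by linarith only [σa3, q1],
      by linarith only [σb3, q2], by linarith only [σa5, q3], by linarith only [σb5, q4]⟩⟩

end Pool.Agent.H.MP_ebc13b_lc.h53
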