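import Pool.Agent.H.MP_ebc13b_lc.h53.ParL

/-!
Moving the weights of the triangles of a pair of parallels.
-/

namespace Pool.Agent.H.MP_ebc13b_lc.h53

open Pool.Agent.H.MP_ebc13b_lc.h46

variable {α : Type*} [DecidableEq α]

namespace Par

variable {G : SimpleGraph α} {A : Finset α} {col : α → ZMod 3} {c : ZMod 3}
  {h v h1 h2 m1 m2 b1 b2 : α}

theorem sh_far (P : Par G A col c h v h1 h2 m1 m2 b1 b2) {z : Finset α → ℝ} :
    sh {h, m2, h2} {h, m1, h1} (z {h, m2, h2}) z {v, b1, h1} = z {v, b1, h1} := by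
  unfold sh
  have e1 : ({v, b1, h1} : Finset α) ≠ {h, m1, h1} := P.QT1.symm
  have e2 : ({v, b1, h1} : Finset α) ≠ {h, m2, h2} := by
    intro e
    have : h1 ∈ ({v, b1, h1} : Finset α) := by simp
    rw [e] at this
    exact P.h1_notin_Q2 this
  rw [if_neg e1, if_neg e2]
  ring

/-- Both moves at once. -/
theorem move2 (P : Par G A col c h v h1 h2 m1 m2 b1 b2) (hC : PC G A col)
    {z : Finset α → ℝ} (hz : ZT G A z) : ∃ z2 : Finset α → ℝ, ZT P.g A z2 ∧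
      (∀ u, ld A z2 u = ld A z u + (if u ∈ ({h, m1, h1} : Finset α) then z {h, m2, h2} else 0) -
      (if u ∈ ({h, m2, h2} : Finset α) then z {h, m2, h2} else 0) +
      (if u ∈ ({v, b2, h2} : Finset α) then z {v, b1, h1} else 0) -
      (if u ∈ ({v, b1, h1} : Finset α) then z {v, b1, h1} else 0)) ∧
      ∑ T ∈ A.powerset, z2 T = ∑ T ∈ A.powerset, z T := by
  have hz1t : ZT G A (sh {h, m2, h2} {h, m1, h1} (z {h, m2, h2}) z) := sh_zt hz P.QQ P.Q1
  have z1T := P.sh_far (z := z)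
  have hz2t : ZT G A (sh {v, b1, h1} {v, b2, h2}
      (sh {h, m2, h2} {h, m1, h1} (z {h, m2, h2}) z {v, b1, h1})
      (sh {h, m2, h2} {h, m1, h1} (z {h, m2, h2}) z)) := sh_zt hz1t P.TT P.T2
  refine ⟨_, ⟨hz2t.1, ?_⟩, ?_, ?_⟩
  · intro T hne
    obtain ⟨u1, u2⟩ := sh_ne P.TT hne
    refine P.tri_g hC (hz2t.2 T hne) ?_ u1
    rintro rfl
    rcases u2 with u2 | u2
    · exact (sh_ne P.QQ u2).1 rfl
    · have : h ∈ ({h, m2, h2} : Finset α) := by simp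
      rw [u2] at this
      simp only [Finset.mem_insert, Finset.mem_singleton] at this
      rcases this with e | e | e
      · exact P.n_h_v e
      · exact P.hb2 e
      · exact P.swap.n_h_h1 e
  · intro u
    rw [sh_ld P.T1.1 P.T2.1, z1T, sh_ld P.Q2.1 P.Q1.1]
  · rw [sh_sum P.T1.1 P.T2.1, sh_sum P.Q2.1 P.Q1.1]

theorem out_iff (P : Par G A col c h v h1 h2 m1 m2 b1 b2) {u : α} (huK : u ∉ P.K) :
    (u ∈ ({v, b2, h2} : Finset α) ↔ u ∈ ({v, b1, h1} : Finset α)) ∧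
    (u ∈ ({h, m1, h1} : Finset α) ↔ u ∈ ({h, m2, h2} : Finset α)) := by
  simp only [Finset.mem_insert, Finset.mem_singleton]
  rw [P.memK] at huK
  tauto

/-- The members of the four triangles in `K`. -/
theorem tri_mem (P : Par G A col c h v h1 h2 m1 m2 b1 b2) :
    (h1 ∈ ({h, m1, h1} : Finset α) ∧ h1 ∉ ({h, m2, h2} : Finset α) ∧
      h1 ∉ ({v, b2, h2} : Finset α) ∧ h1 ∈ ({v, b1, h1} : Finset α)) ∧
    (m1 ∈ ({h, m1, h1} : Finset α) ∧ m1 ∉ ({h, m2, h2} : Finset α) ∧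
      m1 ∉ ({v, b2, h2} : Finset α) ∧ m1 ∉ ({v, b1, h1} : Finset α)) := by
  refine ⟨⟨by simp, P.h1_notin_Q2, P.h1_notin_T2, by simp⟩,
    ⟨by simp, P.m1_notin_Q2, P.m1_notin_T2, P.m1_notin_T1⟩⟩

theorem tri_memb (P : Par G A col c h v h1 h2 m1 m2 b1 b2) :
    b1 ∉ ({h, m1, h1} : Finset α) ∧ b1 ∉ ({h, m2, h2} : Finset α) ∧
      b1 ∉ ({v, b2, h2} : Finset α) ∧ b1 ∈ ({v, b1, h1} : Finset α) := by
  obtain ⟨d1, d2, d3, d4, d5, d6, d7, d8, d9, d10, d11, d12, d13, d14, d15⟩ := P.ds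
  refine ⟨?_, ?_, ?_, by simp⟩
  · simp only [Finset.mem_insert, Finset.mem_singleton, not_or]
    exact ⟨P.hb1.symm, d11.symm, d4.symm⟩
  · simp only [Finset.mem_insert, Finset.mem_singleton, not_or]
    exact ⟨P.hb1.symm, d13.symm, d8.symm⟩
  · simp only [Finset.mem_insert, Finset.mem_singleton, not_or]
    exact ⟨P.n_v_b1.symm, d15, d8.symm⟩

end Par

end Pool.Agent.H.MP_ebc13b_lc.h53
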