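import Pool.Agent.H.MP_ebc13b_lc.h53.ParFb

/-!
The demands of the modified graph.
-/

namespace Pool.Agent.H.MP_ebc13b_lc.h53

open Pool.Agent.H.MP_ebc13b_lc.h46

variable {α : Type*} [DecidableEq α]

namespace Par

variable {G : SimpleGraph α} {A : Finset α} {col : α → ZMod 3} {c : ZMod 3}
  {h v h1 h2 m1 m2 b1 b2 : α}

theorem cong3 (P : Par G A col c h v h1 h2 m1 m2 b1 b2) {z z2 : Finset α → ℝ} (s : α → ℝ)
    (hz : ZT G A z)
    (hld : ∀ u, ld A z2 u = ld A z u +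
      (if u ∈ ({h, m1, h1} : Finset α) then z {h, m2, h2} else 0) -
      (if u ∈ ({h, m2, h2} : Finset α) then z {h, m2, h2} else 0) +
      (if u ∈ ({v, b2, h2} : Finset α) then z {v, b1, h1} else 0) -
      (if u ∈ ({v, b1, h1} : Finset α) then z {v, b1, h1} else 0))
    (σ1 σ2 σ3 σ4 σ5 σ6 : ℝ) (u : α) :
    1 - ld A z2 u - kf h1 h2 m1 m2 b1 b2 σ1 σ2 σ3 σ4 σ5 σ6 s u =
    kf h1 h2 m1 m2 b1 b2 (1 - (z {h, m1, h1} + z {h, m2, h2}) - σ1)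
      (1 - (z {v, b1, h1} + z {v, b2, h2}) - σ2)
      (1 - (z {h, m1, h1} + z {h, m2, h2}) - σ3) (1 - σ4) (1 - σ5)
      (1 - (z {v, b1, h1} + z {v, b2, h2}) - σ6) (fun u => 1 - ld A z u - s u) u := by
  obtain ⟨l1, l2, l3, l4, l5, l6⟩ := P.lds (le_refl A) hz
  by_cases huK : u ∈ P.K
  · obtain ⟨e1, e2, e3, e4, e5, e6⟩ := P.kfs (1 - (z {h, m1, h1} + z {h, m2, h2}) - σ1)
      (1 - (z {v, b1, h1} + z {v, b2, h2}) - σ2)
      (1 - (z {h, m1, h1} + z {h, m2, h2}) - σ3) (1 - σ4) (1 - σ5)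
      (1 - (z {v, b1, h1} + z {v, b2, h2}) - σ6) (fun u => 1 - ld A z u - s u)
    obtain ⟨k1, k2, k3, k4, k5, k6⟩ := P.kfs σ1 σ2 σ3 σ4 σ5 σ6 s
    obtain ⟨⟨a1, a2, a3, a4⟩, a5, a6, a7, a8⟩ := P.tri_mem
    obtain ⟨⟨b1, b2, b3, b4⟩, b5, b6, b7, b8⟩ := P.swap.tri_mem
    obtain ⟨c1, c2, c3, c4⟩ := P.tri_memb
    obtain ⟨c5, c6, c7, c8⟩ := P.swap.tri_memb
    rw [hld u]
    rcases P.memK.1 huK with e | e | e | e | e | e
    · rw [e, e1, k1, l1, if_pos a1, if_neg a2, if_neg a3, if_pos a4]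
      ring
    · rw [e, e2, k2, l2, if_neg b2, if_pos b1, if_pos b4, if_neg b3]
      ring
    · rw [e, e3, k3, l3, if_pos a5, if_neg a6, if_neg a7, if_neg a8]
      ring
    · rw [e, e4, k4, l4, if_neg b6, if_pos b5, if_neg b8, if_neg b7]
      ring
    · rw [e, e5, k5, l5, if_neg c1, if_neg c2, if_neg c3, if_pos c4]
      ring
    · rw [e, e6, k6, l6, if_neg c6, if_neg c5, if_pos c8, if_neg c7]
      ring
  · rw [P.kf_out _ _ _ _ _ _ _ huK, P.kf_out _ _ _ _ _ _ _ huK, hld u]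
    obtain ⟨i1, i2⟩ := P.out_iff huK
    rw [if_congr i1 rfl rfl, if_congr i2 rfl rfl]
    ring

end Par

end Pool.Agent.H.MP_ebc13b_lc.h53
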