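import Pool.Agent.H.MP_ebc13b_lc.h53.ParFc
import Pool.Agent.H.MP_ebc13b_lc.h53.ParFa

/-!
The matching of the modified graph.
-/

namespace Pool.Agent.H.MP_ebc13b_lc.h53

open Pool.Agent.H.MP_ebc13b_lc.h46

variable {α : Type*} [DecidableEq α]

namespace Par

variable {G : SimpleGraph α} {A : Finset α} {col : α → ZMod 3} {c : ZMod 3}
  {h v h1 h2 m1 m2 b1 b2 : α}

/-- The matching of the modified graph, for given masses. -/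
theorem match3 (P : Par G A col c h v h1 h2 m1 m2 b1 b2) (hC : PC G A col) {w : α → ℝ}
    {y : α → α → ℝ} (hy : YF G A w y) {K T a b d S1 S2 S3 : ℝ}
    {σ1 σ2 σ3 σ4 σ5 σ6 x5 x6 x7 x8 : ℝ} (a0 : 0 ≤ a) (b0 : 0 ≤ b)
    (x0 : 0 ≤ x5 ∧ 0 ≤ x6 ∧ 0 ≤ x7 ∧ 0 ≤ x8)
    (eq : σ1 + σ2 = S1 ∧ σ3 + σ4 = S2 ∧ σ5 + σ6 = S3 ∧ x5 + x6 + x7 + x8 = d)
    (le : a + 0 ≤ 1 - K - σ1 ∧ 0 + b ≤ 1 - T - σ2 ∧ a + x5 + x6 ≤ 1 - K - σ3 ∧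
      0 + x7 + x8 ≤ 1 - σ4 ∧ 0 + x5 + x7 ≤ 1 - σ5 ∧ b + x6 + x8 ≤ 1 - T - σ6)
    (ha : a = y h1 m1 + y h2 m2) (hb : b = y h1 b1 + y h2 b2)
    (hd : d = y m1 b1 + y m1 b2 + y m2 b1 + y m2 b2)
    (hS1 : w h1 + w h2 = 2 - K - T - S1) (hS2 : w m1 + w m2 = 2 - K - S2)
    (hS3 : w b1 + w b2 = 2 - T - S3) :
    ∃ y2, YF P.g A (kf h1 h2 m1 m2 b1 b2 (1 - K - σ1) (1 - T - σ2)
      (1 - K - σ3) (1 - σ4) (1 - σ5) (1 - T - σ6) w) y2 := by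
  have KA := P.KA
  obtain ⟨e1, e2, e3, e4, e5, e6⟩ := P.kfs (1 - K - σ1) (1 - T - σ2)
    (1 - K - σ3) (1 - σ4) (1 - σ5) (1 - T - σ6) w
  obtain ⟨p5, p6, p7, p8⟩ := x0
  obtain ⟨q1, q2, q3, q4⟩ := eq
  obtain ⟨k1, k2, k3, k4, k5, k6⟩ := le
  refine P.redist8 hC (G1 := G) (G2 := P.g) (w := w) (le_refl A)
    (fun u w _ => Iff.rfl) P.g_out
    hC.col (P.x_h1m2 hC) (P.x_h1b2 hC)
    (P.swap.x_h1m2 hC) (P.swap.x_h1b2 hC) hy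
    (fun u _ huK => P.kf_out _ _ _ _ _ _ _ huK)
    (fun x hx hxB => absurd (KA hx) hxB)
    a 0 0 b x5 x6 x7 x8
    a0 le_rfl le_rfl b0 p5 p6 p7 p8
    (fun _ => ⟨P.g_h1m1, P.Ah1, P.Am1⟩)
    (fun e => absurd rfl e)
    (fun e => absurd rfl e)
    (fun _ => ⟨P.g_h2b2, P.Ah2, P.Ab2⟩)
    (fun _ => ⟨P.g_m1b1, P.Am1, P.Ab1⟩)
    (fun _ => ⟨P.g_m1b2 hC, P.Am1, P.Ab2⟩)
    (fun _ => ⟨P.g_m2b1 hC, P.Am2, P.Ab1⟩)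
    (fun _ => ⟨P.g_m2b2, P.Am2, P.Ab2⟩)
    ?_ ?_ ?_ ?_ ?_ ?_ ?_ ?_ ?_
  · rw [e1]; exact k1
  · rw [e2]; exact k2
  · rw [e3]; exact k3
  · rw [e4]; exact k4
  · rw [e5]; exact k5
  · rw [e6]; exact k6
  · rw [e1, e2]; linarith only [hS1, ha, hb, q1]
  · rw [e3, e4]; linarith only [hS2, ha, hd, q2, q4]
  · rw [e5, e6]; linarith only [hS3, hb, hd, q3, q4]

end Par

end Pool.Agent.H.MP_ebc13b_lc.h53
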