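import Pool.Agent.H.MP_ebc13b_lc.h53.ParR

/-!
The modified graph of a pair of parallels.
-/

namespace Pool.Agent.H.MP_ebc13b_lc.h53

open Pool.Agent.H.MP_ebc13b_lc.h46

variable {α : Type*} [DecidableEq α]

namespace Par

variable {G : SimpleGraph α} {A : Finset α} {col : α → ZMod 3} {c : ZMod 3}
  {h v h1 h2 m1 m2 b1 b2 : α}

/-- `u w` is a deleted edge -/
def bad (_ : Par G A col c h v h1 h2 m1 m2 b1 b2) (u w : α) : Prop :=
  (u = h2 ∧ w = m2) ∨ (u = m2 ∧ w = h2) ∨ (u = h1 ∧ w = b1) ∨ (u = b1 ∧ w = h1)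

/-- `u w` is a new edge -/
def new (_ : Par G A col c h v h1 h2 m1 m2 b1 b2) (u w : α) : Prop :=
  (u = m1 ∧ w = b1) ∨ (u = b1 ∧ w = m1) ∨ (u = m2 ∧ w = b2) ∨ (u = b2 ∧ w = m2)

/-- The modified graph: the edges `h2 m2`, `h1 b1` are deleted, the edges `m1 b1`, `m2 b2` are
added. -/
def g (P : Par G A col c h v h1 h2 m1 m2 b1 b2) : SimpleGraph α where
  Adj u w := (G.Adj u w ∧ ¬ P.bad u w) ∨ P.new u w
  symm := ⟨by
    intro u w hh
    rcases hh with ⟨h3, h4⟩ | h3
    · left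
      refine ⟨h3.symm, ?_⟩
      intro h5
      apply h4
      unfold bad at h5 ⊢
      tauto
    · right
      unfold new at h3 ⊢
      tauto⟩
  loopless := ⟨by
    intro u hh
    rcases hh with ⟨h3, _⟩ | h3
    · exact G.loopless.irrefl _ h3
    · unfold new at h3
      rcases h3 with ⟨e1, e2⟩ | ⟨e1, e2⟩ | ⟨e1, e2⟩ | ⟨e1, e2⟩
      · exact P.n_m1_b1 (e1.symm.trans e2)
      · exact P.n_m1_b1 (e2.symm.trans e1)
      · exact P.swap.n_m1_b1 (e1.symm.trans e2)
      · exact P.swap.n_m1_b1 (e2.symm.trans e1)⟩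

theorem g_adj (P : Par G A col c h v h1 h2 m1 m2 b1 b2) {u w : α} :
    P.g.Adj u w ↔ (G.Adj u w ∧ ¬ P.bad u w) ∨ P.new u w := Iff.rfl

theorem bad_K (P : Par G A col c h v h1 h2 m1 m2 b1 b2) {u w : α} (hb : P.bad u w) :
    u ∈ P.K ∧ w ∈ P.K := by
  unfold bad at hb
  rw [P.memK, P.memK]
  tauto

theorem new_K (P : Par G A col c h v h1 h2 m1 m2 b1 b2) {u w : α} (hb : P.new u w) :
    u ∈ P.K ∧ w ∈ P.K := by
  unfold new at hb
  rw [P.memK, P.memK]
  tauto

theorem g_out (P : Par G A col c h v h1 h2 m1 m2 b1 b2) (u w : α) (hu : u ∉ P.K ∨ w ∉ P.K) :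
    P.g.Adj u w ↔ G.Adj u w := by
  rw [P.g_adj]
  constructor
  · rintro (⟨h3, _⟩ | h3)
    · exact h3
    · have := P.new_K h3
      tauto
  · intro h3
    left
    refine ⟨h3, ?_⟩
    intro h4
    have := P.bad_K h4
    tauto

theorem g_col (P : Par G A col c h v h1 h2 m1 m2 b1 b2) (hC : PC G A col) :
    ∀ u ∈ A, ∀ w ∈ A, P.g.Adj u w → col u ≠ col w := by
  intro u hu w hw hadj
  rcases P.g_adj.1 hadj with ⟨h3, _⟩ | h3
  · exact hC.col u hu w hw h3
  · unfold new at h3
    rcases h3 with ⟨rfl, rfl⟩ | ⟨rfl, rfl⟩ | ⟨rfl, rfl⟩ | ⟨rfl, rfl⟩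
    · rw [P.cm1, P.cb1]; exact z3_2ne0 c
    · rw [P.cm1, P.cb1]; exact (z3_2ne0 c).symm
    · rw [P.cm2, P.cb2]; exact z3_2ne0 c
    · rw [P.cm2, P.cb2]; exact (z3_2ne0 c).symm

section tab

variable (P : Par G A col c h v h1 h2 m1 m2 b1 b2) (hC : PC G A col)

include P

-- new graph: edges
theorem g_h1m1 : P.g.Adj h1 m1 := by
  obtain ⟨d1, d2, d3, d4, d5, d6, d7, d8, d9, d10, d11, d12, d13, d14, d15⟩ := P.ds
  exact Or.inl ⟨P.a_mh1.symm, by simp [bad, d1, d2, d3, d4, d11, d10]⟩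
theorem g_h2b2 : P.g.Adj h2 b2 := by
  obtain ⟨d1, d2, d3, d4, d5, d6, d7, d8, d9, d10, d11, d12, d13, d14, d15⟩ := P.ds
  exact Or.inl ⟨P.swap.a_bh1.symm, by simp [bad, d1.symm, d7, d8, d14.symm]⟩
theorem g_m1b1 : P.g.Adj m1 b1 := Or.inr (Or.inl ⟨rfl, rfl⟩)
theorem g_m2b2 : P.g.Adj m2 b2 := Or.inr (Or.inr (Or.inr (Or.inl ⟨rfl, rfl⟩)))

include hC

theorem g_m1b2 : P.g.Adj m1 b2 := by
  obtain ⟨d1, d2, d3, d4, d5, d6, d7, d8, d9, d10, d11, d12, d13, d14, d15⟩ := P.ds
  exact Or.inl ⟨P.a_m1b2 hC, by simp [bad, d6.symm, d10, d2.symm, d11]⟩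
theorem g_m2b1 : P.g.Adj m2 b1 := by
  obtain ⟨d1, d2, d3, d4, d5, d6, d7, d8, d9, d10, d11, d12, d13, d14, d15⟩ := P.ds
  exact Or.inl ⟨P.swap.a_m1b2 hC, by simp [bad, d7.symm, d8.symm, d3.symm, d13]⟩

-- non-edges
theorem gx_h1m2 : ¬ P.g.Adj h1 m2 := by
  obtain ⟨d1, d2, d3, d4, d5, d6, d7, d8, d9, d10, d11, d12, d13, d14, d15⟩ := P.ds
  rintro (⟨h3, _⟩ | h3)
  · exact P.x_h1m2 hC h3
  · simp [new, d2, d4, d3, d5] at h3
theorem gx_h1b2 : ¬ P.g.Adj h1 b2 := by
  obtain ⟨d1, d2, d3, d4, d5, d6, d7, d8, d9, d10, d11, d12, d13, d14, d15⟩ := P.ds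
  rintro (⟨h3, _⟩ | h3)
  · exact P.x_h1b2 hC h3
  · simp [new, d2, d4, d3, d5] at h3
theorem gx_h2m1 : ¬ P.g.Adj h2 m1 := by
  obtain ⟨d1, d2, d3, d4, d5, d6, d7, d8, d9, d10, d11, d12, d13, d14, d15⟩ := P.ds
  rintro (⟨h3, _⟩ | h3)
  · exact P.swap.x_h1m2 hC h3
  · simp [new, d6, d8, d7, d9] at h3
theorem gx_h2b1 : ¬ P.g.Adj h2 b1 := by
  obtain ⟨d1, d2, d3, d4, d5, d6, d7, d8, d9, d10, d11, d12, d13, d14, d15⟩ := P.ds
  rintro (⟨h3, _⟩ | h3)
  · exact P.swap.x_h1b2 hC h3
  · simp [new, d6, d8, d7, d9] at h3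

omit hC

theorem gx_h1b1 : ¬ P.g.Adj h1 b1 := by
  obtain ⟨d1, d2, d3, d4, d5, d6, d7, d8, d9, d10, d11, d12, d13, d14, d15⟩ := P.ds
  rintro (⟨_, h3⟩ | h3)
  · exact h3 (Or.inr (Or.inr (Or.inl ⟨rfl, rfl⟩)))
  · simp [new, d2, d4, d3, d5] at h3
theorem gx_h2m2 : ¬ P.g.Adj h2 m2 := by
  obtain ⟨d1, d2, d3, d4, d5, d6, d7, d8, d9, d10, d11, d12, d13, d14, d15⟩ := P.ds
  rintro (⟨_, h3⟩ | h3)
  · exact h3 (Or.inl ⟨rfl, rfl⟩)
  · simp [new, d6, d8, d7, d9] at h3

theorem hK : h ∉ P.K := by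
  rw [P.memK]
  have := P.n_h_h1
  have := P.swap.n_h_h1
  have := P.n_h_m1
  have := P.swap.n_h_m1
  have := P.hb1
  have := P.hb2
  tauto
theorem vK : v ∉ P.K := by
  rw [P.memK]
  have := P.n_v_h1
  have := P.swap.n_v_h1
  have := P.vm1
  have := P.vm2
  have := P.n_v_b1
  have := P.swap.n_v_b1
  tauto

end tab

/-- a triangle of the new graph is a triangle of `G`, other than `Q2`, `T1` -/
theorem g_tri (P : Par G A col c h v h1 h2 m1 m2 b1 b2) (hC : PC G A col) {T : Finset α}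
    (hT : IsT P.g A T) : IsT G A T ∧ T ≠ {h, m2, h2} ∧ T ≠ {v, b1, h1} := by
  have gcol := P.g_col hC
  have gadj : ∀ {a b : α}, a ∈ T → b ∈ T → a ≠ b → P.g.Adj a b := fun ha hb hn => hT.adj ha hb hn
  have q1 : T ≠ {h, m2, h2} := by
    intro e
    exact P.gx_h2m2 (gadj (by rw [e]; simp) (by rw [e]; simp) P.swap.n_h1_m1)
  have q2 : T ≠ {v, b1, h1} := by
    intro e
    exact P.gx_h1b1 (gadj (by rw [e]; simp) (by rw [e]; simp) P.n_h1_b1)
  refine ⟨⟨hT.1, ?_, hT.2.card_eq⟩, q1, q2⟩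
  -- no new edge is inside a triangle
  have third : ∀ a b, a ∈ T → b ∈ T → col a = c + 2 → col b = c → ∃ w ∈ T, col w = c + 1 := by
    intro a b ha hb hca hcb
    have hi : Set.InjOn col (T : Set α) := by
      intro u hu w hw huw
      by_contra hn
      exact gcol u (hT.1 (by simpa using hu)) w (hT.1 (by simpa using hw))
        (gadj (by simpa using hu) (by simpa using hw) hn) huw
    have hcard : (T.image col).card = 3 := by
      rw [Finset.card_image_of_injOn hi, hT.2.card_eq]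
    have huniv : T.image col = Finset.univ := by
      apply Finset.eq_univ_of_card
      rw [hcard]
      decide
    have : c + 1 ∈ T.image col := by rw [huniv]; exact Finset.mem_univ _
    obtain ⟨u, hu, huk⟩ := Finset.mem_image.1 this
    exact ⟨u, hu, huk⟩
  have key : ∀ (u w : α), u ∈ T → w ∈ T → ¬ P.new u w := by
    have base1 : m1 ∈ T → b1 ∈ T → False := by
      intro ha hb
      obtain ⟨w, hw, hwc⟩ := third m1 b1 ha hb P.cm1 P.cb1
      have n1 : w ≠ m1 := by rintro rfl; exact z3_2ne1 c (P.cm1.symm.trans hwc)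
      have n2 : w ≠ b1 := by rintro rfl; exact z3_1ne0 c (hwc.symm.trans P.cb1)
      have g1 := gadj hw ha n1
      have g2 := gadj hw hb n2
      by_cases hwK : w ∈ P.K
      · rcases P.memK.1 hwK with rfl | rfl | rfl | rfl | rfl | rfl
        · exact P.gx_h1b1 g2
        · exact P.gx_h2b1 hC g2
        · exact z3_2ne1 c (P.cm1.symm.trans hwc)
        · exact z3_2ne1 c (P.cm2.symm.trans hwc)
        · exact z3_1ne0 c (hwc.symm.trans P.cb1)
        · exact z3_1ne0 c (hwc.symm.trans P.cb2)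
      · rw [P.g_out _ _ (Or.inl hwK)] at g1 g2
        have g3 := P.twin_b hC (hT.1 hw) hwK g2.symm
        have hS : IsT G A {w, m1, b2} := by
          refine ⟨?_, clique_abc g1 g3.symm (P.a_m1b2 hC)⟩
          intro x hx
          simp only [Finset.mem_insert, Finset.mem_singleton] at hx
          rcases hx with rfl | rfl | rfl
          · exact hT.1 hw
          · exact P.Am1
          · exact P.Ab2
        have e := P.sm1 _ hS (by simp)
        have hb2 : b2 ∈ ({w, m1, b2} : Finset α) := by simp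
        rw [e] at hb2
        simp only [Finset.mem_insert, Finset.mem_singleton] at hb2
        rcases hb2 with e | e | e
        · exact P.hb2 e.symm
        · exact P.n_m1_b2 e.symm
        · exact P.n_h1_b2 e.symm
    have base2 : m2 ∈ T → b2 ∈ T → False := by
      intro ha hb
      obtain ⟨w, hw, hwc⟩ := third m2 b2 ha hb P.cm2 P.cb2
      have n1 : w ≠ m2 := by rintro rfl; exact z3_2ne1 c (P.cm2.symm.trans hwc)
      have n2 : w ≠ b2 := by rintro rfl; exact z3_1ne0 c (hwc.symm.trans P.cb2)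
      have g1 := gadj hw ha n1
      have g2 := gadj hw hb n2
      by_cases hwK : w ∈ P.K
      · rcases P.memK.1 hwK with rfl | rfl | rfl | rfl | rfl | rfl
        · exact P.gx_h1m2 hC g1
        · exact P.gx_h2m2 g1
        · exact z3_2ne1 c (P.cm1.symm.trans hwc)
        · exact z3_2ne1 c (P.cm2.symm.trans hwc)
        · exact z3_1ne0 c (hwc.symm.trans P.cb1)
        · exact z3_1ne0 c (hwc.symm.trans P.cb2)
      · rw [P.g_out _ _ (Or.inl hwK)] at g1 g2
        have hwK' : w ∉ P.swap.K := by rw [P.swapK]; exact hwK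
        have g3 := P.swap.twin_b hC (hT.1 hw) hwK' g2.symm
        have hS : IsT G A {w, m2, b1} := by
          refine ⟨?_, clique_abc g1 g3.symm (P.swap.a_m1b2 hC)⟩
          intro x hx
          simp only [Finset.mem_insert, Finset.mem_singleton] at hx
          rcases hx with rfl | rfl | rfl
          · exact hT.1 hw
          · exact P.Am2
          · exact P.Ab1
        have e := P.sm2 _ hS (by simp)
        have hb2 : b1 ∈ ({w, m2, b1} : Finset α) := by simp
        rw [e] at hb2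
        simp only [Finset.mem_insert, Finset.mem_singleton] at hb2
        rcases hb2 with e | e | e
        · exact P.hb1 e.symm
        · exact P.swap.n_m1_b2 e.symm
        · exact P.swap.n_h1_b2 e.symm
    intro u w hu hw hn
    rcases hn with ⟨rfl, rfl⟩ | ⟨rfl, rfl⟩ | ⟨rfl, rfl⟩ | ⟨rfl, rfl⟩
    · exact base1 hu hw
    · exact base1 hw hu
    · exact base2 hu hw
    · exact base2 hw hu
  intro u hu w hw hn
  have hu' : u ∈ T := by simpa using hu
  have hw' : w ∈ T := by simpa using hw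
  rcases P.g_adj.1 (gadj hu' hw' hn) with ⟨h3, _⟩ | h3
  · exact h3
  · exact absurd h3 (key u w hu' hw')

theorem tri_g (P : Par G A col c h v h1 h2 m1 m2 b1 b2) (hC : PC G A col) {T : Finset α}
    (hT : IsT G A T) (n1 : T ≠ {h, m2, h2}) (n2 : T ≠ {v, b1, h1}) : IsT P.g A T := by
  refine ⟨hT.1, ?_, hT.2.card_eq⟩
  intro u hu w hw hn
  have hu' : u ∈ T := by simpa using hu
  have hw' : w ∈ T := by simpa using hw
  left
  refine ⟨hT.adj hu' hw' hn, ?_⟩
  have k1 : h2 ∈ T → m2 ∈ T → False := fun _ h4 => n1 (P.sm2 T hT h4)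
  have k2 : h1 ∈ T → b1 ∈ T → False := fun _ h4 => n2 (P.sb1 T hT h4)
  rintro (⟨rfl, rfl⟩ | ⟨rfl, rfl⟩ | ⟨rfl, rfl⟩ | ⟨rfl, rfl⟩)
  · exact k1 hu' hw'
  · exact k1 hw' hu'
  · exact k2 hu' hw'
  · exact k2 hw' hu'

/-- a triangle of `G` meeting `K` is one of the four triangles -/
theorem tri_K (P : Par G A col c h v h1 h2 m1 m2 b1 b2) {T : Finset α} (hT : IsT G A T) {x : α}
    (hx : x ∈ T) (hxK : x ∈ P.K) : T = {h, m1, h1} ∨ T = {h, m2, h2} ∨ T = {v, b1, h1} ∨
      T = {v, b2, h2} := by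
  rcases P.memK.1 hxK with rfl | rfl | rfl | rfl | rfl | rfl
  · rcases P.sh1 T hT hx with e | e
    · exact Or.inl e
    · exact Or.inr (Or.inr (Or.inl e))
  · rcases P.sh2 T hT hx with e | e
    · exact Or.inr (Or.inl e)
    · exact Or.inr (Or.inr (Or.inr e))
  · exact Or.inl (P.sm1 T hT hx)
  · exact Or.inr (Or.inl (P.sm2 T hT hx))
  · exact Or.inr (Or.inr (Or.inl (P.sb1 T hT hx)))
  · exact Or.inr (Or.inr (Or.inr (P.sb2 T hT hx)))

theorem g_pc (P : Par G A col c h v h1 h2 m1 m2 b1 b2) (hC : PC G A col) : PC P.g A col := by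
  have gcol := P.g_col hC
  refine ⟨?_, gcol⟩
  intro T hT h3 x hx hxT
  obtain ⟨hTG, n1, n2⟩ := P.g_tri hC ⟨hT, h3⟩
  obtain ⟨u, hu, hadj, huniq⟩ := hC.pr T hT hTG.2 x hx hxT
  by_cases hxK : x ∈ P.K
  · by_cases hTK : ∀ w ∈ T, w ∉ P.K
    · refine ⟨u, hu, (P.g_out _ _ (Or.inr (hTK u hu))).2 hadj, ?_⟩
      intro u' hu' hadj'
      exact huniq u' hu' ((P.g_out _ _ (Or.inr (hTK u' hu'))).1 hadj')
    · push Not at hTK
      obtain ⟨w, hw, hwK⟩ := hTK
      have hsame : ∀ {a b : α}, a ∈ A → b ∈ A → col a = col b → ¬ P.g.Adj a b :=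
        fun ha hb hc hadj => gcol _ ha _ hb hadj hc
      rcases P.tri_K hTG hw hwK with e | e | e | e
      · subst e
        simp only [Finset.mem_insert, Finset.mem_singleton, not_or] at hxT
        rcases P.memK.1 hxK with rfl | rfl | rfl | rfl | rfl | rfl
        · exact absurd rfl hxT.2.2
        · refine ⟨h, by simp, (P.g_out _ _ (Or.inr P.hK)).2 P.swap.a_hh1.symm, ?_⟩
          intro u' hu' hadj'
          simp only [Finset.mem_insert, Finset.mem_singleton] at hu'
          rcases hu' with rfl | rfl | rfl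
          · rfl
          · exact absurd hadj' (P.gx_h2m1 hC)
          · exact absurd hadj' (hsame P.Ah2 P.Ah1 (P.ch2.trans P.ch1.symm))
        · exact absurd rfl hxT.2.1
        · refine ⟨h, by simp, (P.g_out _ _ (Or.inr P.hK)).2 P.swap.a_hm1.symm, ?_⟩
          intro u' hu' hadj'
          simp only [Finset.mem_insert, Finset.mem_singleton] at hu'
          rcases hu' with rfl | rfl | rfl
          · rfl
          · exact absurd hadj' (hsame P.Am2 P.Am1 (P.cm2.trans P.cm1.symm))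
          · exact absurd hadj'.symm (P.gx_h1m2 hC)
        · refine ⟨m1, by simp, P.g_m1b1.symm, ?_⟩
          intro u' hu' hadj'
          simp only [Finset.mem_insert, Finset.mem_singleton] at hu'
          rcases hu' with rfl | rfl | rfl
          · exact absurd hadj' (hsame P.Ab1 P.Ah (P.cb1.trans P.ch.symm))
          · rfl
          · exact absurd hadj'.symm P.gx_h1b1
        · refine ⟨m1, by simp, (P.g_m1b2 hC).symm, ?_⟩
          intro u' hu' hadj'
          simp only [Finset.mem_insert, Finset.mem_singleton] at hu'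
          rcases hu' with rfl | rfl | rfl
          · exact absurd hadj' (hsame P.Ab2 P.Ah (P.cb2.trans P.ch.symm))
          · rfl
          · exact absurd hadj'.symm (P.gx_h1b2 hC)
      · exact absurd e n1
      · exact absurd e n2
      · subst e
        simp only [Finset.mem_insert, Finset.mem_singleton, not_or] at hxT
        rcases P.memK.1 hxK with rfl | rfl | rfl | rfl | rfl | rfl
        · refine ⟨v, by simp, (P.g_out _ _ (Or.inr P.vK)).2 P.a_vh1.symm, ?_⟩
          intro u' hu' hadj'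
          simp only [Finset.mem_insert, Finset.mem_singleton] at hu'
          rcases hu' with rfl | rfl | rfl
          · rfl
          · exact absurd hadj' (P.gx_h1b2 hC)
          · exact absurd hadj' (hsame P.Ah1 P.Ah2 (P.ch1.trans P.ch2.symm))
        · exact absurd rfl hxT.2.2
        · refine ⟨b2, by simp, P.g_m1b2 hC, ?_⟩
          intro u' hu' hadj'
          simp only [Finset.mem_insert, Finset.mem_singleton] at hu'
          rcases hu' with rfl | rfl | rfl
          · exact absurd hadj' (hsame P.Am1 P.Av (P.cm1.trans P.cv.symm))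
          · rfl
          · exact absurd hadj'.symm (P.gx_h2m1 hC)
        · refine ⟨b2, by simp, P.g_m2b2, ?_⟩
          intro u' hu' hadj'
          simp only [Finset.mem_insert, Finset.mem_singleton] at hu'
          rcases hu' with rfl | rfl | rfl
          · exact absurd hadj' (hsame P.Am2 P.Av (P.cm2.trans P.cv.symm))
          · rfl
          · exact absurd hadj'.symm P.gx_h2m2
        · refine ⟨v, by simp, (P.g_out _ _ (Or.inr P.vK)).2 P.a_vb1.symm, ?_⟩
          intro u' hu' hadj'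
          simp only [Finset.mem_insert, Finset.mem_singleton] at hu'
          rcases hu' with rfl | rfl | rfl
          · rfl
          · exact absurd hadj' (hsame P.Ab1 P.Ab2 (P.cb1.trans P.cb2.symm))
          · exact absurd hadj'.symm (P.gx_h2b1 hC)
        · exact absurd rfl hxT.2.1
  · refine ⟨u, hu, (P.g_out _ _ (Or.inl hxK)).2 hadj, ?_⟩
    intro u' hu' hadj'
    exact huniq u' hu' ((P.g_out _ _ (Or.inl hxK)).1 hadj')

end Par

end Pool.Agent.H.MP_ebc13b_lc.h53
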