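import Pool.Agent.H.MP_ebc13b_lc.h53.ParG
import Pool.Agent.H.MP_ebc13b_lc.h53.DV

/-!
Loads for a pair of parallels.
-/

namespace Pool.Agent.H.MP_ebc13b_lc.h53

open Pool.Agent.H.MP_ebc13b_lc.h46

variable {α : Type*} [DecidableEq α]

theorem ld_one {B X : Finset α} {z : Finset α → ℝ} {v : α} (hX : v ∈ X)
    (hu : ∀ T, z T ≠ 0 → v ∈ T → T = X) (hXB : z X ≠ 0 → X ⊆ B) : ld B z v = z X := by
  classical
  unfold ld
  rw [Finset.sum_eq_single X]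
  · rw [if_pos hX]
  · intro T _ hne
    split_ifs with h1
    · by_contra h2
      exact hne (hu T h2 h1)
    · rfl
  · intro hn
    rw [if_pos hX]
    by_contra h2
    exact hn (Finset.mem_powerset.2 (hXB h2))

theorem ld_two {B X Y : Finset α} {z : Finset α → ℝ} {v : α} (hXY : X ≠ Y) (hX : v ∈ X)
    (hY : v ∈ Y) (hu : ∀ T, z T ≠ 0 → v ∈ T → T = X ∨ T = Y) (hXB : z X ≠ 0 → X ⊆ B)
    (hYB : z Y ≠ 0 → Y ⊆ B) : ld B z v = z X + z Y := by
  classical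
  have h1 : ld B z v = ld B (fun T => if T = X then z T else 0) v +
      ld B (fun T => if T = X then 0 else z T) v := by
    unfold ld
    rw [← Finset.sum_add_distrib]
    apply Finset.sum_congr rfl
    intro T _
    by_cases h2 : v ∈ T <;> by_cases h3 : T = X <;> simp [h2, h3]
  rw [h1, ld_one hX, ld_one hY]
  · rw [if_pos rfl, if_neg hXY.symm]
  · intro T h2 h3
    by_cases h4 : T = X
    · rw [if_pos h4] at h2
      exact absurd rfl h2
    · rw [if_neg h4] at h2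
      exact (hu T h2 h3).resolve_left h4
  · intro h2
    rw [if_neg hXY.symm] at h2
    exact hYB h2
  · intro T h2 h3
    by_cases h4 : T = X
    · exact h4
    · rw [if_neg h4] at h2
      exact absurd rfl h2
  · intro h2
    rw [if_pos rfl] at h2
    exact hXB h2

/-- move the weight `d` from `X` to `Y` -/
def sh (X Y : Finset α) (d : ℝ) (z : Finset α → ℝ) (T : Finset α) : ℝ :=
  z T + (if T = Y then d else 0) - (if T = X then d else 0)

theorem sh_sum {B X Y : Finset α} {d : ℝ} {z : Finset α → ℝ} (hX : X ⊆ B) (hY : Y ⊆ B) :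
    ∑ T ∈ B.powerset, sh X Y d z T = ∑ T ∈ B.powerset, z T := by
  unfold sh
  rw [Finset.sum_sub_distrib, Finset.sum_add_distrib, Finset.sum_ite_eq', Finset.sum_ite_eq',
    if_pos (Finset.mem_powerset.2 hX), if_pos (Finset.mem_powerset.2 hY)]
  ring

theorem sh_ld {B X Y : Finset α} {d : ℝ} {z : Finset α → ℝ} (hX : X ⊆ B) (hY : Y ⊆ B) (u : α) :
    ld B (sh X Y d z) u = ld B z u + (if u ∈ Y then d else 0) - (if u ∈ X then d else 0) := by
  unfold ld sh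
  have h1 : ∀ T ∈ B.powerset, (if u ∈ T then z T + (if T = Y then d else 0) -
      (if T = X then d else 0) else 0) = (if u ∈ T then z T else 0) +
      (if T = Y then (if u ∈ Y then d else 0) else 0) -
      (if T = X then (if u ∈ X then d else 0) else 0) := by
    intro T _
    by_cases h2 : T = Y
    · subst h2
      by_cases h3 : T = X
      · subst h3
        by_cases h4 : u ∈ T <;> simp [h4]
      · by_cases h4 : u ∈ T <;> simp [h4, h3]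
    · by_cases h3 : T = X
      · subst h3
        by_cases h4 : u ∈ T <;> simp [h4, h2]
      · by_cases h4 : u ∈ T <;> simp [h4, h2, h3]
  rw [Finset.sum_congr rfl h1, Finset.sum_sub_distrib, Finset.sum_add_distrib,
    Finset.sum_ite_eq', Finset.sum_ite_eq', if_pos (Finset.mem_powerset.2 hX),
    if_pos (Finset.mem_powerset.2 hY)]

theorem sh_ne {X Y : Finset α} {z : Finset α → ℝ} (hXY : X ≠ Y) {T : Finset α}
    (h : sh X Y (z X) z T ≠ 0) : T ≠ X ∧ (z T ≠ 0 ∨ T = Y) := by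
  unfold sh at h
  constructor
  · rintro rfl
    apply h
    rw [if_pos rfl, if_neg hXY]
    ring
  · by_contra hcon
    rw [not_or, not_not] at hcon
    apply h
    rw [hcon.1, if_neg hcon.2]
    by_cases h3 : T = X
    · subst h3
      rw [if_pos rfl, hcon.1]
      ring
    · rw [if_neg h3]
      ring

theorem sh_zt {G : SimpleGraph α} {B X Y : Finset α} {z : Finset α → ℝ} (hz : ZT G B z)
    (hXY : X ≠ Y) (hY : IsT G B Y) : ZT G B (sh X Y (z X) z) := by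
  constructor
  · intro T
    unfold sh
    by_cases h3 : T = X
    · subst h3
      rw [if_pos rfl, if_neg hXY]
      linarith
    · rw [if_neg h3]
      have := hz.1 T
      have := hz.1 X
      split_ifs <;> linarith
  · intro T hT
    rcases (sh_ne hXY hT).2 with h | h
    · exact hz.2 T h
    · rw [h]; exact hY

/-- splitting a mass -/
theorem split_le {x p q : ℝ} (hx : 0 ≤ x) (hp : 0 ≤ p) (hxpq : x ≤ p + q) :
    ∃ x1 x2 : ℝ, 0 ≤ x1 ∧ 0 ≤ x2 ∧ x1 + x2 = x ∧ x1 ≤ p ∧ (0 ≤ q → x2 ≤ q) := by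
  rcases le_total x p with h | h
  · exact ⟨x, 0, hx, le_rfl, by ring, h, fun hq => hq⟩
  · exact ⟨p, x - p, hp, by linarith, by ring, le_rfl, fun _ => by linarith⟩

/-- product distribution -/
theorem transport {r1 r2 q1 q2 : ℝ} (h1 : 0 ≤ r1) (h2 : 0 ≤ r2) (h3 : 0 ≤ q1) (h4 : 0 ≤ q2)
    (he : r1 + r2 = q1 + q2) : ∃ a b c d : ℝ, 0 ≤ a ∧ 0 ≤ b ∧ 0 ≤ c ∧ 0 ≤ d ∧ a + b = r1 ∧
      c + d = r2 ∧ a + c = q1 ∧ b + d = q2 := by
  rcases le_total r1 q1 with h | h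
  · exact ⟨r1, 0, q1 - r1, q2, h1, le_rfl, by linarith, h4, by ring, by linarith, by ring,
      by ring⟩
  · exact ⟨q1, r1 - q1, 0, r2, h3, by linarith, le_rfl, h2, by ring, by ring, by ring,
      by linarith⟩

namespace Par

variable {G : SimpleGraph α} {A : Finset α} {col : α → ZMod 3} {c : ZMod 3}
  {h v h1 h2 m1 m2 b1 b2 : α}

theorem QT1 (P : Par G A col c h v h1 h2 m1 m2 b1 b2) :
    ({h, m1, h1} : Finset α) ≠ {v, b1, h1} := by
  intro e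
  have : m1 ∈ ({h, m1, h1} : Finset α) := by simp
  rw [e] at this
  exact P.m1_notin_T1 this

theorem QQ (P : Par G A col c h v h1 h2 m1 m2 b1 b2) :
    ({h, m2, h2} : Finset α) ≠ {h, m1, h1} := by
  intro e
  have : m1 ∈ ({h, m1, h1} : Finset α) := by simp
  rw [← e] at this
  exact P.m1_notin_Q2 this

theorem TT (P : Par G A col c h v h1 h2 m1 m2 b1 b2) :
    ({v, b1, h1} : Finset α) ≠ {v, b2, h2} := by
  intro e
  have : h1 ∈ ({v, b1, h1} : Finset α) := by simp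
  rw [e] at this
  exact P.h1_notin_T2 this

/-- loads on `K` -/
theorem lds (P : Par G A col c h v h1 h2 m1 m2 b1 b2) {B : Finset α} (hB : B ⊆ A)
    {z : Finset α → ℝ} (hz : ZT G B z) :
    ld B z h1 = z {h, m1, h1} + z {v, b1, h1} ∧ ld B z h2 = z {h, m2, h2} + z {v, b2, h2} ∧
    ld B z m1 = z {h, m1, h1} ∧ ld B z m2 = z {h, m2, h2} ∧
    ld B z b1 = z {v, b1, h1} ∧ ld B z b2 = z {v, b2, h2} := by
  have hT : ∀ T, z T ≠ 0 → IsT G A T := fun T hne => ⟨(hz.2 T hne).1.trans hB, (hz.2 T hne).2⟩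
  have hs : ∀ T, z T ≠ 0 → T ⊆ B := fun T hne => (hz.2 T hne).1
  refine ⟨?_, ?_, ?_, ?_, ?_, ?_⟩
  · exact ld_two P.QT1 (by simp) (by simp) (fun T hne hm => P.sh1 T (hT T hne) hm) (hs _) (hs _)
  · exact ld_two P.swap.QT1 (by simp) (by simp) (fun T hne hm => P.sh2 T (hT T hne) hm) (hs _)
      (hs _)
  · exact ld_one (by simp) (fun T hne hm => P.sm1 T (hT T hne) hm) (hs _)
  · exact ld_one (by simp) (fun T hne hm => P.sm2 T (hT T hne) hm) (hs _)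
  · exact ld_one (by simp) (fun T hne hm => P.sb1 T (hT T hne) hm) (hs _)
  · exact ld_one (by simp) (fun T hne hm => P.sb2 T (hT T hne) hm) (hs _)

/-- a function with given values on `K` -/
def kf (h1 h2 m1 m2 b1 b2 : α) (a1 a2 a3 a4 a5 a6 : ℝ) (f : α → ℝ) (u : α) : ℝ :=
  if u = h1 then a1 else if u = h2 then a2 else if u = m1 then a3 else if u = m2 then a4
    else if u = b1 then a5 else if u = b2 then a6 else f u

theorem kfs (P : Par G A col c h v h1 h2 m1 m2 b1 b2) (a1 a2 a3 a4 a5 a6 : ℝ) (f : α → ℝ) :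
    kf h1 h2 m1 m2 b1 b2 a1 a2 a3 a4 a5 a6 f h1 = a1 ∧
    kf h1 h2 m1 m2 b1 b2 a1 a2 a3 a4 a5 a6 f h2 = a2 ∧
    kf h1 h2 m1 m2 b1 b2 a1 a2 a3 a4 a5 a6 f m1 = a3 ∧
    kf h1 h2 m1 m2 b1 b2 a1 a2 a3 a4 a5 a6 f m2 = a4 ∧
    kf h1 h2 m1 m2 b1 b2 a1 a2 a3 a4 a5 a6 f b1 = a5 ∧
    kf h1 h2 m1 m2 b1 b2 a1 a2 a3 a4 a5 a6 f b2 = a6 := by
  obtain ⟨d1, d2, d3, d4, d5, d6, d7, d8, d9, d10, d11, d12, d13, d14, d15⟩ := P.ds
  unfold kf
  refine ⟨?_, ?_, ?_, ?_, ?_, ?_⟩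
  · rw [if_pos rfl]
  · rw [if_neg d1.symm, if_pos rfl]
  · rw [if_neg d2.symm, if_neg d6.symm, if_pos rfl]
  · rw [if_neg d3.symm, if_neg d7.symm, if_neg d10.symm, if_pos rfl]
  · rw [if_neg d4.symm, if_neg d8.symm, if_neg d11.symm, if_neg d13.symm, if_pos rfl]
  · rw [if_neg d5.symm, if_neg d9.symm, if_neg d12.symm, if_neg d14.symm, if_neg d15.symm,
      if_pos rfl]

theorem kf_out (P : Par G A col c h v h1 h2 m1 m2 b1 b2) (a1 a2 a3 a4 a5 a6 : ℝ) (f : α → ℝ)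
    {u : α} (hu : u ∉ P.K) : kf h1 h2 m1 m2 b1 b2 a1 a2 a3 a4 a5 a6 f u = f u := by
  rw [P.memK, not_or, not_or, not_or, not_or, not_or] at hu
  obtain ⟨k1, k2, k3, k4, k5, k6⟩ := hu
  unfold kf
  rw [if_neg k1, if_neg k2, if_neg k3, if_neg k4, if_neg k5, if_neg k6]

theorem kf_nonneg {a1 a2 a3 a4 a5 a6 : ℝ} {f : α → ℝ} (p1 : 0 ≤ a1) (p2 : 0 ≤ a2)
    (p3 : 0 ≤ a3) (p4 : 0 ≤ a4) (p5 : 0 ≤ a5) (p6 : 0 ≤ a6) (pf : ∀ u, 0 ≤ f u) (u : α) :
    0 ≤ kf h1 h2 m1 m2 b1 b2 a1 a2 a3 a4 a5 a6 f u := by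
  unfold kf
  split_ifs
  · exact p1
  · exact p2
  · exact p3
  · exact p4
  · exact p5
  · exact p6
  · exact pf u

theorem kf_sum (P : Par G A col c h v h1 h2 m1 m2 b1 b2) (a1 a2 a3 a4 a5 a6 : ℝ) (f : α → ℝ)
    {B : Finset α} (hK : P.K ⊆ B) :
    ∑ u ∈ B, kf h1 h2 m1 m2 b1 b2 a1 a2 a3 a4 a5 a6 f u = ∑ u ∈ B, f u +
      (a1 + a2 + a3 + a4 + a5 + a6) - (f h1 + f h2 + f m1 + f m2 + f b1 + f b2) := by
  obtain ⟨e1, e2, e3, e4, e5, e6⟩ := P.kfs a1 a2 a3 a4 a5 a6 f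
  rw [← Finset.sum_sdiff hK, ← Finset.sum_sdiff (f := f) hK, P.sumK, P.sumK, e1, e2, e3, e4, e5,
    e6, Finset.sum_congr rfl (fun u hu => P.kf_out a1 a2 a3 a4 a5 a6 f (Finset.mem_sdiff.1 hu).2)]
  ring

/-- the inner sums are at most the demands -/
theorem y_le (P : Par G A col c h v h1 h2 m1 m2 b1 b2)
    {G1 : SimpleGraph α} {B : Finset α}
    (c1 : ∀ u ∈ A, ∀ w ∈ A, G1.Adj u w → col u ≠ col w)
    (f1 : ¬ G1.Adj h1 m2) (f2 : ¬ G1.Adj h1 b2) (f3 : ¬ G1.Adj h2 m1) (f4 : ¬ G1.Adj h2 b1)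
    {w : α → ℝ} {y : α → α → ℝ} (hy : YF G1 B w y) (hw : ∀ x ∈ P.K, x ∉ B → w x = 0) :
    y h1 m1 + y h1 b1 ≤ w h1 ∧ y h2 m2 + y h2 b2 ≤ w h2 ∧
    y h1 m1 + y m1 b1 + y m1 b2 ≤ w m1 ∧ y h2 m2 + y m2 b1 + y m2 b2 ≤ w m2 ∧
    y h1 b1 + y m1 b1 + y m2 b1 ≤ w b1 ∧ y h2 b2 + y m1 b2 + y m2 b2 ≤ w b2 := by
  obtain ⟨I1, I2, I3, I4, I5, I6⟩ := P.y_sums c1 f1 f2 f3 f4 hy
  have key : ∀ x ∈ P.K, ∑ u ∈ P.K ∩ B, y x u ≤ w x := by
    intro x hx
    by_cases hxB : x ∈ B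
    · rw [← hy.sum x hxB]
      exact Finset.sum_le_sum_of_subset_of_nonneg Finset.inter_subset_right
        (fun u _ _ => hy.y0 x u)
    · rw [hw x hx hxB, Finset.sum_eq_zero]
      intro u _
      rw [hy.ysymm]
      exact hy.zero hxB
  refine ⟨?_, ?_, ?_, ?_, ?_, ?_⟩
  · rw [← I1]; exact key _ (P.memK.2 (Or.inl rfl))
  · rw [← I2]; exact key _ (P.memK.2 (Or.inr (Or.inl rfl)))
  · rw [← I3]; exact key _ (P.memK.2 (Or.inr (Or.inr (Or.inl rfl))))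
  · rw [← I4]; exact key _ (P.memK.2 (Or.inr (Or.inr (Or.inr (Or.inl rfl)))))
  · rw [← I5]; exact key _ (P.memK.2 (Or.inr (Or.inr (Or.inr (Or.inr (Or.inl rfl))))))
  · rw [← I6]; exact key _ (P.memK.2 (Or.inr (Or.inr (Or.inr (Or.inr (Or.inr rfl))))))

end Par

end Pool.Agent.H.MP_ebc13b_lc.h53
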