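import Pool.Agent.H.MP_ebc13b_lc.h53.Par

/-!
Redistribution for a pair of parallels.
-/

namespace Pool.Agent.H.MP_ebc13b_lc.h53

open Pool.Agent.H.MP_ebc13b_lc.h46

variable {α : Type*} [DecidableEq α]

/-- the weight `t` on the edge `pq` -/
def pr (p q : α) (t : ℝ) (u w : α) : ℝ := if (u = p ∧ w = q) ∨ (u = q ∧ w = p) then t else 0

theorem pr_nonneg {p q : α} {t : ℝ} (ht : 0 ≤ t) (u w : α) : 0 ≤ pr p q t u w := by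
  unfold pr
  split_ifs
  · exact ht
  · exact le_rfl

theorem pr_symm (p q : α) (t : ℝ) (u w : α) : pr p q t u w = pr p q t w u := by
  unfold pr
  congr 1
  apply propext
  tauto

theorem pr_ne {p q : α} {t : ℝ} {u w : α} (h : pr p q t u w ≠ 0) :
    t ≠ 0 ∧ ((u = p ∧ w = q) ∨ (u = q ∧ w = p)) := by
  unfold pr at h
  split_ifs at h with h1
  · exact ⟨h, h1⟩
  · exact absurd rfl h

theorem sum_pr {p q : α} {t : ℝ} {S : Finset α} (hpq : p ≠ q) (hp : t ≠ 0 → p ∈ S ∧ q ∈ S)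
    (u : α) : ∑ w ∈ S, pr p q t u w = if u = p ∨ u = q then t else 0 := by
  by_cases ht : t = 0
  · subst ht
    simp [pr]
  obtain ⟨h1, h2⟩ := hp ht
  unfold pr
  by_cases e1 : u = p
  · subst e1
    rw [if_pos (Or.inl rfl), Finset.sum_eq_single q]
    · simp
    · intro w _ hw
      rw [if_neg]
      rintro (⟨_, h3⟩ | ⟨h3, _⟩)
      · exact hw h3
      · exact hpq h3
    · intro h3
      exact absurd h2 h3
  · by_cases e2 : u = q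
    · subst e2
      rw [if_pos (Or.inr rfl), Finset.sum_eq_single p]
      · simp
      · intro w _ hw
        rw [if_neg]
        rintro (⟨h3, _⟩ | ⟨_, h3⟩)
        · exact e1 h3
        · exact hw h3
      · intro h3
        exact absurd h1 h3
    · rw [if_neg (by tauto)]
      apply Finset.sum_eq_zero
      intro w _
      rw [if_neg]
      tauto

namespace Par

variable {G : SimpleGraph α} {A : Finset α} {col : α → ZMod 3} {c : ZMod 3}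
  {h v h1 h2 m1 m2 b1 b2 : α}

/-- all the vertices of `K` are different -/
theorem ds (P : Par G A col c h v h1 h2 m1 m2 b1 b2) :
    h1 ≠ h2 ∧ h1 ≠ m1 ∧ h1 ≠ m2 ∧ h1 ≠ b1 ∧ h1 ≠ b2 ∧ h2 ≠ m1 ∧ h2 ≠ m2 ∧ h2 ≠ b1 ∧ h2 ≠ b2 ∧
      m1 ≠ m2 ∧ m1 ≠ b1 ∧ m1 ≠ b2 ∧ m2 ≠ b1 ∧ m2 ≠ b2 ∧ b1 ≠ b2 :=
  ⟨P.hh, P.n_h1_m1, P.n_h1_m2, P.n_h1_b1, P.n_h1_b2, P.swap.n_h1_m2, P.swap.n_h1_m1,
    P.swap.n_h1_b2, P.swap.n_h1_b1, P.mm, P.n_m1_b1, P.n_m1_b2, P.swap.n_m1_b2, P.swap.n_m1_b1,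
    P.bb⟩

theorem class_b (P : Par G A col c h v h1 h2 m1 m2 b1 b2) (f : α → ℝ) :
    ∑ x ∈ P.K.filter (fun x => col x = c), f x = f b1 + f b2 := by
  have e : P.K.filter (fun x => col x = c) = {b1, b2} := by
    ext x
    rw [Finset.mem_filter, P.memK, Finset.mem_insert, Finset.mem_singleton]
    constructor
    · rintro ⟨rfl | rfl | rfl | rfl | h1 | h1, hc⟩
      · exact absurd (P.ch1.symm.trans hc) (z3_1ne0 c)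
      · exact absurd (P.ch2.symm.trans hc) (z3_1ne0 c)
      · exact absurd (P.cm1.symm.trans hc) (z3_2ne0 c)
      · exact absurd (P.cm2.symm.trans hc) (z3_2ne0 c)
      · exact Or.inl h1
      · exact Or.inr h1
    · rintro (rfl | rfl)
      · exact ⟨by tauto, P.cb1⟩
      · exact ⟨by tauto, P.cb2⟩
  rw [e, Finset.sum_pair P.bb]

theorem class_h (P : Par G A col c h v h1 h2 m1 m2 b1 b2) (f : α → ℝ) :
    ∑ x ∈ P.K.filter (fun x => col x = c + 1), f x = f h1 + f h2 := by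
  have e : P.K.filter (fun x => col x = c + 1) = {h1, h2} := by
    ext x
    rw [Finset.mem_filter, P.memK, Finset.mem_insert, Finset.mem_singleton]
    constructor
    · rintro ⟨h1 | h1 | rfl | rfl | rfl | rfl, hc⟩
      · exact Or.inl h1
      · exact Or.inr h1
      · exact absurd (P.cm1.symm.trans hc) (z3_2ne1 c)
      · exact absurd (P.cm2.symm.trans hc) (z3_2ne1 c)
      · exact absurd (P.cb1.symm.trans hc).symm (z3_1ne0 c)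
      · exact absurd (P.cb2.symm.trans hc).symm (z3_1ne0 c)
    · rintro (rfl | rfl)
      · exact ⟨by tauto, P.ch1⟩
      · exact ⟨by tauto, P.ch2⟩
  rw [e, Finset.sum_pair P.hh]

theorem class_m (P : Par G A col c h v h1 h2 m1 m2 b1 b2) (f : α → ℝ) :
    ∑ x ∈ P.K.filter (fun x => col x = c + 2), f x = f m1 + f m2 := by
  have e : P.K.filter (fun x => col x = c + 2) = {m1, m2} := by
    ext x
    rw [Finset.mem_filter, P.memK, Finset.mem_insert, Finset.mem_singleton]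
    constructor
    · rintro ⟨rfl | rfl | h1 | h1 | rfl | rfl, hc⟩
      · exact absurd (P.ch1.symm.trans hc).symm (z3_2ne1 c)
      · exact absurd (P.ch2.symm.trans hc).symm (z3_2ne1 c)
      · exact Or.inl h1
      · exact Or.inr h1
      · exact absurd (P.cb1.symm.trans hc).symm (z3_2ne0 c)
      · exact absurd (P.cb2.symm.trans hc).symm (z3_2ne0 c)
    · rintro (rfl | rfl)
      · exact ⟨by tauto, P.cm1⟩
      · exact ⟨by tauto, P.cm2⟩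
  rw [e, Finset.sum_pair P.mm]

/-- the sum over `K` -/
theorem sumK (P : Par G A col c h v h1 h2 m1 m2 b1 b2) (f : α → ℝ) :
    ∑ x ∈ P.K, f x = f h1 + f h2 + f m1 + f m2 + f b1 + f b2 := by
  obtain ⟨d1, d2, d3, d4, d5, d6, d7, d8, d9, d10, d11, d12, d13, d14, d15⟩ := P.ds
  unfold K
  rw [Finset.sum_insert (by simp [d1, d2, d3, d4, d5]), Finset.sum_insert (by simp [d6, d7, d8, d9]),
    Finset.sum_insert (by simp [d10, d11, d12]), Finset.sum_insert (by simp [d13, d14]),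
    Finset.sum_pair d15]
  ring

/-- the weight inside `K` -/
def eta (h1 h2 m1 m2 b1 b2 : α) (x1 x2 x3 x4 x5 x6 x7 x8 : ℝ) (u w : α) : ℝ :=
  pr h1 m1 x1 u w + pr h2 m2 x2 u w + pr h1 b1 x3 u w +
    pr h2 b2 x4 u w + pr m1 b1 x5 u w + pr m1 b2 x6 u w + pr m2 b1 x7 u w + pr m2 b2 x8 u w

theorem eta_nonneg {x1 x2 x3 x4 x5 x6 x7 x8 : ℝ}
    (p1 : 0 ≤ x1) (p2 : 0 ≤ x2) (p3 : 0 ≤ x3) (p4 : 0 ≤ x4) (p5 : 0 ≤ x5) (p6 : 0 ≤ x6)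
    (p7 : 0 ≤ x7) (p8 : 0 ≤ x8) (u w : α) :
    0 ≤ eta h1 h2 m1 m2 b1 b2 x1 x2 x3 x4 x5 x6 x7 x8 u w := by
  unfold eta
  have q1 := pr_nonneg (p := h1) (q := m1) p1 u w
  have q2 := pr_nonneg (p := h2) (q := m2) p2 u w
  have q3 := pr_nonneg (p := h1) (q := b1) p3 u w
  have q4 := pr_nonneg (p := h2) (q := b2) p4 u w
  have q5 := pr_nonneg (p := m1) (q := b1) p5 u w
  have q6 := pr_nonneg (p := m1) (q := b2) p6 u w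
  have q7 := pr_nonneg (p := m2) (q := b1) p7 u w
  have q8 := pr_nonneg (p := m2) (q := b2) p8 u w
  linarith

theorem eta_symm {x1 x2 x3 x4 x5 x6 x7 x8 : ℝ} (u w : α) :
    eta h1 h2 m1 m2 b1 b2 x1 x2 x3 x4 x5 x6 x7 x8 u w =
      eta h1 h2 m1 m2 b1 b2 x1 x2 x3 x4 x5 x6 x7 x8 w u := by
  unfold eta
  rw [pr_symm h1 m1, pr_symm h2 m2, pr_symm h1 b1, pr_symm h2 b2, pr_symm m1 b1, pr_symm m1 b2,
    pr_symm m2 b1, pr_symm m2 b2]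

theorem eta_ne {x1 x2 x3 x4 x5 x6 x7 x8 : ℝ} {R : α → α → Prop} (hR : ∀ u w, R u w → R w u)
    (e1 : x1 ≠ 0 → R h1 m1) (e2 : x2 ≠ 0 → R h2 m2) (e3 : x3 ≠ 0 → R h1 b1)
    (e4 : x4 ≠ 0 → R h2 b2) (e5 : x5 ≠ 0 → R m1 b1) (e6 : x6 ≠ 0 → R m1 b2)
    (e7 : x7 ≠ 0 → R m2 b1) (e8 : x8 ≠ 0 → R m2 b2) {u w : α}
    (hne : eta h1 h2 m1 m2 b1 b2 x1 x2 x3 x4 x5 x6 x7 x8 u w ≠ 0) : R u w := by
  have key : ∀ {p q : α} {t : ℝ}, pr p q t u w ≠ 0 → (t ≠ 0 → R p q) → R u w := by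
    intro p q t ht he
    obtain ⟨t0, h3⟩ := pr_ne ht
    rcases h3 with ⟨rfl, rfl⟩ | ⟨rfl, rfl⟩
    · exact he t0
    · exact hR _ _ (he t0)
  by_contra hcon
  apply hne
  have z1 : pr h1 m1 x1 u w = 0 := by by_contra hz; exact hcon (key hz e1)
  have z2 : pr h2 m2 x2 u w = 0 := by by_contra hz; exact hcon (key hz e2)
  have z3 : pr h1 b1 x3 u w = 0 := by by_contra hz; exact hcon (key hz e3)
  have z4 : pr h2 b2 x4 u w = 0 := by by_contra hz; exact hcon (key hz e4)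
  have z5 : pr m1 b1 x5 u w = 0 := by by_contra hz; exact hcon (key hz e5)
  have z6 : pr m1 b2 x6 u w = 0 := by by_contra hz; exact hcon (key hz e6)
  have z7 : pr m2 b1 x7 u w = 0 := by by_contra hz; exact hcon (key hz e7)
  have z8 : pr m2 b2 x8 u w = 0 := by by_contra hz; exact hcon (key hz e8)
  unfold eta
  rw [z1, z2, z3, z4, z5, z6, z7, z8]
  norm_num

theorem eta_sum (P : Par G A col c h v h1 h2 m1 m2 b1 b2) {S : Finset α}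
    {x1 x2 x3 x4 x5 x6 x7 x8 : ℝ}
    (e1 : x1 ≠ 0 → h1 ∈ S ∧ m1 ∈ S) (e2 : x2 ≠ 0 → h2 ∈ S ∧ m2 ∈ S)
    (e3 : x3 ≠ 0 → h1 ∈ S ∧ b1 ∈ S) (e4 : x4 ≠ 0 → h2 ∈ S ∧ b2 ∈ S)
    (e5 : x5 ≠ 0 → m1 ∈ S ∧ b1 ∈ S) (e6 : x6 ≠ 0 → m1 ∈ S ∧ b2 ∈ S)
    (e7 : x7 ≠ 0 → m2 ∈ S ∧ b1 ∈ S) (e8 : x8 ≠ 0 → m2 ∈ S ∧ b2 ∈ S) (u : α) :
    ∑ w ∈ S, eta h1 h2 m1 m2 b1 b2 x1 x2 x3 x4 x5 x6 x7 x8 u w =
      (if u = h1 ∨ u = m1 then x1 else 0) +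
      (if u = h2 ∨ u = m2 then x2 else 0) + (if u = h1 ∨ u = b1 then x3 else 0) +
      (if u = h2 ∨ u = b2 then x4 else 0) + (if u = m1 ∨ u = b1 then x5 else 0) +
      (if u = m1 ∨ u = b2 then x6 else 0) + (if u = m2 ∨ u = b1 then x7 else 0) +
      (if u = m2 ∨ u = b2 then x8 else 0) := by
  obtain ⟨d1, d2, d3, d4, d5, d6, d7, d8, d9, d10, d11, d12, d13, d14, d15⟩ := P.ds
  unfold eta
  rw [Finset.sum_add_distrib, Finset.sum_add_distrib, Finset.sum_add_distrib,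
    Finset.sum_add_distrib, Finset.sum_add_distrib, Finset.sum_add_distrib,
    Finset.sum_add_distrib, sum_pr d2 e1, sum_pr d7 e2, sum_pr d4 e3, sum_pr d9 e4,
    sum_pr d11 e5, sum_pr d12 e6, sum_pr d13 e7, sum_pr d14 e8]

theorem eta_sums (P : Par G A col c h v h1 h2 m1 m2 b1 b2) {S : Finset α}
    {x1 x2 x3 x4 x5 x6 x7 x8 : ℝ}
    (e1 : x1 ≠ 0 → h1 ∈ S ∧ m1 ∈ S) (e2 : x2 ≠ 0 → h2 ∈ S ∧ m2 ∈ S)
    (e3 : x3 ≠ 0 → h1 ∈ S ∧ b1 ∈ S) (e4 : x4 ≠ 0 → h2 ∈ S ∧ b2 ∈ S)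
    (e5 : x5 ≠ 0 → m1 ∈ S ∧ b1 ∈ S) (e6 : x6 ≠ 0 → m1 ∈ S ∧ b2 ∈ S)
    (e7 : x7 ≠ 0 → m2 ∈ S ∧ b1 ∈ S) (e8 : x8 ≠ 0 → m2 ∈ S ∧ b2 ∈ S) :
    ∑ w ∈ S, eta h1 h2 m1 m2 b1 b2 x1 x2 x3 x4 x5 x6 x7 x8 h1 w = x1 + x3 ∧
    ∑ w ∈ S, eta h1 h2 m1 m2 b1 b2 x1 x2 x3 x4 x5 x6 x7 x8 h2 w = x2 + x4 ∧
    ∑ w ∈ S, eta h1 h2 m1 m2 b1 b2 x1 x2 x3 x4 x5 x6 x7 x8 m1 w = x1 + x5 + x6 ∧
    ∑ w ∈ S, eta h1 h2 m1 m2 b1 b2 x1 x2 x3 x4 x5 x6 x7 x8 m2 w = x2 + x7 + x8 ∧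
    ∑ w ∈ S, eta h1 h2 m1 m2 b1 b2 x1 x2 x3 x4 x5 x6 x7 x8 b1 w = x3 + x5 + x7 ∧
    ∑ w ∈ S, eta h1 h2 m1 m2 b1 b2 x1 x2 x3 x4 x5 x6 x7 x8 b2 w = x4 + x6 + x8 := by
  obtain ⟨d1, d2, d3, d4, d5, d6, d7, d8, d9, d10, d11, d12, d13, d14, d15⟩ := P.ds
  have J := eta_sum P e1 e2 e3 e4 e5 e6 e7 e8
  refine ⟨?_, ?_, ?_, ?_, ?_, ?_⟩
  · rw [J, if_pos (Or.inl rfl), if_neg (by simp [d1, d3]), if_pos (Or.inl rfl),
      if_neg (by simp [d1, d5]), if_neg (by simp [d2, d4]), if_neg (by simp [d2, d5]),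
      if_neg (by simp [d3, d4]), if_neg (by simp [d3, d5])]
    ring
  · rw [J, if_neg (by simp [d1.symm, d6]), if_pos (Or.inl rfl), if_neg (by simp [d1.symm, d8]),
      if_pos (Or.inl rfl), if_neg (by simp [d6, d8]), if_neg (by simp [d6, d9]),
      if_neg (by simp [d7, d8]), if_neg (by simp [d7, d9])]
    ring
  · rw [J, if_pos (Or.inr rfl), if_neg (by simp [d6.symm, d10]),
      if_neg (by simp [d2.symm, d11]), if_neg (by simp [d6.symm, d12]), if_pos (Or.inl rfl),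
      if_pos (Or.inl rfl), if_neg (by simp [d10, d11]), if_neg (by simp [d10, d12])]
    ring
  · rw [J, if_neg (by simp [d3.symm, d10.symm]), if_pos (Or.inr rfl),
      if_neg (by simp [d3.symm, d13]), if_neg (by simp [d7.symm, d14]),
      if_neg (by simp [d10.symm, d13]), if_neg (by simp [d10.symm, d14]), if_pos (Or.inl rfl),
      if_pos (Or.inl rfl)]
    ring
  · rw [J, if_neg (by simp [d4.symm, d11.symm]), if_neg (by simp [d8.symm, d13.symm]),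
      if_pos (Or.inr rfl), if_neg (by simp [d8.symm, d15]), if_pos (Or.inr rfl),
      if_neg (by simp [d11.symm, d15]), if_pos (Or.inr rfl), if_neg (by simp [d13.symm, d15])]
    ring
  · rw [J, if_neg (by simp [d5.symm, d12.symm]), if_neg (by simp [d9.symm, d14.symm]),
      if_neg (by simp [d5.symm, d15.symm]), if_pos (Or.inr rfl),
      if_neg (by simp [d12.symm, d15.symm]), if_pos (Or.inr rfl),
      if_neg (by simp [d14.symm, d15.symm]), if_pos (Or.inr rfl)]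
    ring

/-- the inner sums of a solution -/
theorem y_sums (P : Par G A col c h v h1 h2 m1 m2 b1 b2)
    {G1 : SimpleGraph α} {B : Finset α}
    (c1 : ∀ u ∈ A, ∀ w ∈ A, G1.Adj u w → col u ≠ col w)
    (f1 : ¬ G1.Adj h1 m2) (f2 : ¬ G1.Adj h1 b2) (f3 : ¬ G1.Adj h2 m1) (f4 : ¬ G1.Adj h2 b1)
    {w : α → ℝ} {y : α → α → ℝ} (hy : YF G1 B w y) :
    ∑ u ∈ P.K ∩ B, y h1 u = y h1 m1 + y h1 b1 ∧
    ∑ u ∈ P.K ∩ B, y h2 u = y h2 m2 + y h2 b2 ∧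
    ∑ u ∈ P.K ∩ B, y m1 u = y h1 m1 + y m1 b1 + y m1 b2 ∧
    ∑ u ∈ P.K ∩ B, y m2 u = y h2 m2 + y m2 b1 + y m2 b2 ∧
    ∑ u ∈ P.K ∩ B, y b1 u = y h1 b1 + y m1 b1 + y m2 b1 ∧
    ∑ u ∈ P.K ∩ B, y b2 u = y h2 b2 + y m1 b2 + y m2 b2 := by
  have y0 : ∀ x x', ¬ G1.Adj x x' → y x x' = 0 := by
    intro x x' hn
    by_contra hne
    exact hn (hy.yE x x' hne).1
  have yc : ∀ x x', x ∈ A → x' ∈ A → col x = col x' → y x x' = 0 := by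
    intro x x' hx hx' hcc
    apply y0 x x'
    intro hadj
    exact c1 x hx x' hx' hadj hcc
  have ys : ∀ x x', y x x' = 0 → y x' x = 0 := fun x x' e => by rw [hy.ysymm]; exact e
  have I : ∀ x, ∑ u ∈ P.K ∩ B, y x u = y x h1 + y x h2 + y x m1 + y x m2 + y x b1 + y x b2 := by
    intro x
    rw [← P.sumK (fun u => y x u)]
    apply Finset.sum_subset Finset.inter_subset_left
    intro u hu huB
    apply hy.zero
    intro hm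
    exact huB (Finset.mem_inter.2 ⟨hu, hm⟩)
  have z1 := yc h1 h2 P.Ah1 P.Ah2 (P.ch1.trans P.ch2.symm)
  have z2 := yc m1 m2 P.Am1 P.Am2 (P.cm1.trans P.cm2.symm)
  have z3 := yc b1 b2 P.Ab1 P.Ab2 (P.cb1.trans P.cb2.symm)
  have z4 := y0 h1 m2 f1
  have z5 := y0 h1 b2 f2
  have z6 := y0 h2 m1 f3
  have z7 := y0 h2 b1 f4
  have l1 := yc h1 h1 P.Ah1 P.Ah1 rfl
  have l2 := yc h2 h2 P.Ah2 P.Ah2 rfl
  have l3 := yc m1 m1 P.Am1 P.Am1 rfl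
  have l4 := yc m2 m2 P.Am2 P.Am2 rfl
  have l5 := yc b1 b1 P.Ab1 P.Ab1 rfl
  have l6 := yc b2 b2 P.Ab2 P.Ab2 rfl
  refine ⟨?_, ?_, ?_, ?_, ?_, ?_⟩
  · rw [I]; linarith
  · rw [I]; linarith [ys _ _ z1]
  · rw [I]; linarith [ys _ _ z6, hy.ysymm m1 h1]
  · rw [I]; linarith [ys _ _ z4, ys _ _ z2, hy.ysymm m2 h2]
  · rw [I]; linarith [ys _ _ z7, hy.ysymm b1 h1, hy.ysymm b1 m1, hy.ysymm b1 m2]
  · rw [I]; linarith [ys _ _ z5, ys _ _ z3, hy.ysymm b2 h2, hy.ysymm b2 m1, hy.ysymm b2 m2]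

theorem redist8 (P : Par G A col c h v h1 h2 m1 m2 b1 b2) (hC : PC G A col)
    {G1 G2 : SimpleGraph α} {B : Finset α} (hB : B ⊆ A)
    (o1 : ∀ u w, u ∉ P.K ∨ w ∉ P.K → (G1.Adj u w ↔ G.Adj u w))
    (o2 : ∀ u w, u ∉ P.K ∨ w ∉ P.K → (G2.Adj u w ↔ G.Adj u w))
    (c1 : ∀ u ∈ A, ∀ w ∈ A, G1.Adj u w → col u ≠ col w)
    (f1 : ¬ G1.Adj h1 m2) (f2 : ¬ G1.Adj h1 b2) (f3 : ¬ G1.Adj h2 m1) (f4 : ¬ G1.Adj h2 b1)
    {w w' : α → ℝ} {y : α → α → ℝ} (hy : YF G1 B w y)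
    (hw : ∀ u ∈ B, u ∉ P.K → w' u = w u)
    (hw0 : ∀ x ∈ P.K, x ∉ B → w x = 0 ∧ w' x = 0)
    (x1 x2 x3 x4 x5 x6 x7 x8 : ℝ)
    (p1 : 0 ≤ x1) (p2 : 0 ≤ x2) (p3 : 0 ≤ x3) (p4 : 0 ≤ x4) (p5 : 0 ≤ x5) (p6 : 0 ≤ x6)
    (p7 : 0 ≤ x7) (p8 : 0 ≤ x8)
    (e1 : x1 ≠ 0 → G2.Adj h1 m1 ∧ h1 ∈ B ∧ m1 ∈ B)
    (e2 : x2 ≠ 0 → G2.Adj h2 m2 ∧ h2 ∈ B ∧ m2 ∈ B)
    (e3 : x3 ≠ 0 → G2.Adj h1 b1 ∧ h1 ∈ B ∧ b1 ∈ B)
    (e4 : x4 ≠ 0 → G2.Adj h2 b2 ∧ h2 ∈ B ∧ b2 ∈ B)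
    (e5 : x5 ≠ 0 → G2.Adj m1 b1 ∧ m1 ∈ B ∧ b1 ∈ B)
    (e6 : x6 ≠ 0 → G2.Adj m1 b2 ∧ m1 ∈ B ∧ b2 ∈ B)
    (e7 : x7 ≠ 0 → G2.Adj m2 b1 ∧ m2 ∈ B ∧ b1 ∈ B)
    (e8 : x8 ≠ 0 → G2.Adj m2 b2 ∧ m2 ∈ B ∧ b2 ∈ B)
    (k1 : x1 + x3 ≤ w' h1) (k2 : x2 + x4 ≤ w' h2) (k3 : x1 + x5 + x6 ≤ w' m1)
    (k4 : x2 + x7 + x8 ≤ w' m2) (k5 : x3 + x5 + x7 ≤ w' b1) (k6 : x4 + x6 + x8 ≤ w' b2)
    (s1 : w' h1 + w' h2 - (x1 + x2 + x3 + x4) =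
      w h1 + w h2 - (y h1 m1 + y h2 m2 + y h1 b1 + y h2 b2))
    (s2 : w' m1 + w' m2 - (x1 + x2 + x5 + x6 + x7 + x8) =
      w m1 + w m2 - (y h1 m1 + y h2 m2 + y m1 b1 + y m1 b2 + y m2 b1 + y m2 b2))
    (s3 : w' b1 + w' b2 - (x3 + x4 + x5 + x6 + x7 + x8) =
      w b1 + w b2 - (y h1 b1 + y h2 b2 + y m1 b1 + y m1 b2 + y m2 b1 + y m2 b2)) :
    ∃ y', YF G2 B w' y' := by
  have kh1 : h1 ∈ P.K := P.memK.2 (Or.inl rfl)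
  have kh2 : h2 ∈ P.K := P.memK.2 (Or.inr (Or.inl rfl))
  have km1 : m1 ∈ P.K := P.memK.2 (Or.inr (Or.inr (Or.inl rfl)))
  have km2 : m2 ∈ P.K := P.memK.2 (Or.inr (Or.inr (Or.inr (Or.inl rfl))))
  have kb1 : b1 ∈ P.K := P.memK.2 (Or.inr (Or.inr (Or.inr (Or.inr (Or.inl rfl)))))
  have kb2 : b2 ∈ P.K := P.memK.2 (Or.inr (Or.inr (Or.inr (Or.inr (Or.inr rfl)))))
  have ηE : ∀ u w, eta h1 h2 m1 m2 b1 b2 x1 x2 x3 x4 x5 x6 x7 x8 u w ≠ 0 →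
      G2.Adj u w ∧ u ∈ P.K ∩ B ∧ w ∈ P.K ∩ B := by
    intro u w hne
    refine eta_ne (R := fun u w => G2.Adj u w ∧ u ∈ P.K ∩ B ∧ w ∈ P.K ∩ B)
      (fun u w h => ⟨h.1.symm, h.2.2, h.2.1⟩) ?_ ?_ ?_ ?_ ?_ ?_ ?_ ?_ hne
    · exact fun e => ⟨(e1 e).1, Finset.mem_inter.2 ⟨kh1, (e1 e).2.1⟩,
        Finset.mem_inter.2 ⟨km1, (e1 e).2.2⟩⟩
    · exact fun e => ⟨(e2 e).1, Finset.mem_inter.2 ⟨kh2, (e2 e).2.1⟩,
        Finset.mem_inter.2 ⟨km2, (e2 e).2.2⟩⟩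
    · exact fun e => ⟨(e3 e).1, Finset.mem_inter.2 ⟨kh1, (e3 e).2.1⟩,
        Finset.mem_inter.2 ⟨kb1, (e3 e).2.2⟩⟩
    · exact fun e => ⟨(e4 e).1, Finset.mem_inter.2 ⟨kh2, (e4 e).2.1⟩,
        Finset.mem_inter.2 ⟨kb2, (e4 e).2.2⟩⟩
    · exact fun e => ⟨(e5 e).1, Finset.mem_inter.2 ⟨km1, (e5 e).2.1⟩,
        Finset.mem_inter.2 ⟨kb1, (e5 e).2.2⟩⟩
    · exact fun e => ⟨(e6 e).1, Finset.mem_inter.2 ⟨km1, (e6 e).2.1⟩,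
        Finset.mem_inter.2 ⟨kb2, (e6 e).2.2⟩⟩
    · exact fun e => ⟨(e7 e).1, Finset.mem_inter.2 ⟨km2, (e7 e).2.1⟩,
        Finset.mem_inter.2 ⟨kb1, (e7 e).2.2⟩⟩
    · exact fun e => ⟨(e8 e).1, Finset.mem_inter.2 ⟨km2, (e8 e).2.1⟩,
        Finset.mem_inter.2 ⟨kb2, (e8 e).2.2⟩⟩
  obtain ⟨J1, J2, J3, J4, J5, J6⟩ := eta_sums P (S := P.K ∩ B)
    (fun e => ⟨Finset.mem_inter.2 ⟨kh1, (e1 e).2.1⟩, Finset.mem_inter.2 ⟨km1, (e1 e).2.2⟩⟩)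
    (fun e => ⟨Finset.mem_inter.2 ⟨kh2, (e2 e).2.1⟩, Finset.mem_inter.2 ⟨km2, (e2 e).2.2⟩⟩)
    (fun e => ⟨Finset.mem_inter.2 ⟨kh1, (e3 e).2.1⟩, Finset.mem_inter.2 ⟨kb1, (e3 e).2.2⟩⟩)
    (fun e => ⟨Finset.mem_inter.2 ⟨kh2, (e4 e).2.1⟩, Finset.mem_inter.2 ⟨kb2, (e4 e).2.2⟩⟩)
    (fun e => ⟨Finset.mem_inter.2 ⟨km1, (e5 e).2.1⟩, Finset.mem_inter.2 ⟨kb1, (e5 e).2.2⟩⟩)
    (fun e => ⟨Finset.mem_inter.2 ⟨km1, (e6 e).2.1⟩, Finset.mem_inter.2 ⟨kb2, (e6 e).2.2⟩⟩)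
    (fun e => ⟨Finset.mem_inter.2 ⟨km2, (e7 e).2.1⟩, Finset.mem_inter.2 ⟨kb1, (e7 e).2.2⟩⟩)
    (fun e => ⟨Finset.mem_inter.2 ⟨km2, (e8 e).2.1⟩, Finset.mem_inter.2 ⟨kb2, (e8 e).2.2⟩⟩)
  obtain ⟨I1, I2, I3, I4, I5, I6⟩ := P.y_sums c1 f1 f2 f3 f4 hy
  -- vanishing outside `B`
  have J0 : ∀ x ∈ P.K, x ∉ B →
      ∑ u ∈ P.K ∩ B, eta h1 h2 m1 m2 b1 b2 x1 x2 x3 x4 x5 x6 x7 x8 x u = 0 := by
    intro x _ hxB
    apply Finset.sum_eq_zero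
    intro u _
    by_contra hne
    exact hxB (Finset.mem_inter.1 (ηE x u hne).2.1).2
  have I0 : ∀ x ∈ P.K, x ∉ B → ∑ u ∈ P.K ∩ B, y x u = 0 := by
    intro x _ hxB
    apply Finset.sum_eq_zero
    intro u _
    rw [hy.ysymm]
    exact hy.zero hxB
  have ext : ∀ (k : ZMod 3) (f : α → ℝ), (∀ x ∈ P.K, x ∉ B → f x = 0) →
      ∑ x ∈ (P.K ∩ B).filter (fun x => col x = k), f x =
        ∑ x ∈ P.K.filter (fun x => col x = k), f x := by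
    intro k f hf
    apply Finset.sum_subset
    · intro x hx
      obtain ⟨a, b⟩ := Finset.mem_filter.1 hx
      exact Finset.mem_filter.2 ⟨(Finset.mem_inter.1 a).1, b⟩
    · intro x hx hn
      obtain ⟨a, b⟩ := Finset.mem_filter.1 hx
      apply hf x a
      intro hxB
      exact hn (Finset.mem_filter.2 ⟨Finset.mem_inter.2 ⟨a, hxB⟩, b⟩)
  have hoo : ∀ u w, u ∈ B → w ∈ B → (u ∉ P.K ∩ B ∨ w ∉ P.K ∩ B) → (u ∉ P.K ∨ w ∉ P.K) := by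
    intro u w hu hw hh
    rcases hh with hh | hh
    · exact Or.inl (fun e => hh (Finset.mem_inter.2 ⟨e, hu⟩))
    · exact Or.inr (fun e => hh (Finset.mem_inter.2 ⟨e, hw⟩))
  refine redist (G := G1) (G' := G2) (K := P.K ∩ B) (col := col) (w := w) (w' := w')
    (η := eta h1 h2 m1 m2 b1 b2 x1 x2 x3 x4 x5 x6 x7 x8)
    Finset.inter_subset_right ?_ ?_ hy ?_ (eta_nonneg p1 p2 p3 p4 p5 p6 p7 p8)
    (fun u w => eta_symm u w) ηE ?_ ?_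
  · intro u w hu hw hh
    have h3 := hoo u w hu hw hh
    rw [o1 u w h3, o2 u w h3]
  · intro x hx x' hx' hc u hu huK
    have hxK := (Finset.mem_inter.1 hx).1
    have hxK' := (Finset.mem_inter.1 hx').1
    have huK' : u ∉ P.K := fun e => huK (Finset.mem_inter.2 ⟨e, hu⟩)
    rw [o1 x u (Or.inr huK'), o1 x' u (Or.inr huK')]
    exact ⟨P.twin hC hxK hxK' hc (hB hu) huK', P.twin hC hxK' hxK hc.symm (hB hu) huK'⟩
  · intro u hu huK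
    exact hw u hu (fun e => huK (Finset.mem_inter.2 ⟨e, hu⟩))
  · intro x hx
    rcases P.memK.1 (Finset.mem_inter.1 hx).1 with rfl | rfl | rfl | rfl | rfl | rfl
    · rw [J1]; exact k1
    · rw [J2]; exact k2
    · rw [J3]; exact k3
    · rw [J4]; exact k4
    · rw [J5]; exact k5
    · rw [J6]; exact k6
  · intro k
    rw [ext k _ (fun x hx hxB => by rw [J0 x hx hxB, (hw0 x hx hxB).2, sub_zero]),
      ext k _ (fun x hx hxB => by rw [I0 x hx hxB, (hw0 x hx hxB).1, sub_zero])]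
    rcases z3_all k c with e | e | e
    · rw [e, P.class_b, P.class_b, J5, J6, I5, I6]
      linarith
    · rw [e, P.class_h, P.class_h, J1, J2, I1, I2]
      linarith
    · rw [e, P.class_m, P.class_m, J3, J4, I3, I4]
      linarith

end Par

end Pool.Agent.H.MP_ebc13b_lc.h53
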