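import Pool.Agent.H.MP_ebc13b_lc.h53.Alp

/-!
Averaging over the rows of a union of disjoint triangles whose colour classes are twins.
-/

namespace Pool.Agent.H.MP_ebc13b_lc.h53

open Pool.Agent.H.MP_ebc13b_lc.h46

variable {α : Type*} [DecidableEq α] {G G' : SimpleGraph α} {A B K : Finset α} {col : α → ZMod 3}

theorem z3_univ : (Finset.univ : Finset (ZMod 3)) = {0, 1, 2} := by decide

theorem sum_z3 (f : ZMod 3 → ℝ) (k : ZMod 3) : ∑ l, f l = f k + f (k + 1) + f (k + 2) := by
  have h : ∀ k : ZMod 3, (Finset.univ : Finset (ZMod 3)) = {k, k + 1, k + 2} := by decide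
  rw [h k, Finset.sum_insert, Finset.sum_insert, Finset.sum_singleton]
  · ring
  · simp only [Finset.mem_singleton]
    exact z3_12 k
  · simp only [Finset.mem_insert, Finset.mem_singleton, not_or]
    revert k
    decide

/-- the sum over a triangle -/
theorem PC.sum_T (hC : PC G A col) {T : Finset α} (hT : IsT G A T) (f : α → ℝ) {x a b : α}
    (hx : x ∈ T) (ha : a ∈ T) (hb : b ∈ T) (hac : col a = col x + 1) (hbc : col b = col x + 2) :
    ∑ u ∈ T, f u = f x + f a + f b := by
  have n1 : x ≠ a := by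
    intro e; rw [← e] at hac; revert hac; generalize col x = c; revert c; decide
  have n2 : x ≠ b := by
    intro e; rw [← e] at hbc; revert hbc; generalize col x = c; revert c; decide
  have n3 : a ≠ b := by
    intro e; rw [e, hbc] at hac; exact z3_12 _ hac.symm
  have hset : T = {x, a, b} := by
    symm
    apply Finset.eq_of_subset_of_card_le
    · intro w hw
      simp only [Finset.mem_insert, Finset.mem_singleton] at hw
      rcases hw with rfl | rfl | rfl <;> assumption
    · rw [hT.2.card_eq, Finset.card_insert_of_notMem (by simp [n1, n2]),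
        Finset.card_insert_of_notMem (by simpa using n3), Finset.card_singleton]
  rw [hset, Finset.sum_insert (by simp [n1, n2]), Finset.sum_insert (by simpa using n3),
    Finset.sum_singleton]
  ring

open Classical in
/-- **Averaging over rows.** -/
theorem rows_avg {R : Finset (Finset α)} (hC : PC G B col) (hC' : PC G' B col)
    (hR : ∀ T ∈ R, IsT G' B T) (hRd : ∀ T ∈ R, ∀ T' ∈ R, T ≠ T' → Disjoint T T')
    (hne : R.Nonempty) (hK : K = R.biUnion id)
    (hout : ∀ u v, u ∉ K ∨ v ∉ K → (G'.Adj u v ↔ G.Adj u v))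
    (htw : ∀ x ∈ K, ∀ x' ∈ K, col x = col x' → ∀ u ∈ B, u ∉ K → (G.Adj x u ↔ G.Adj x' u))
    {w : α → ℝ} {y : α → α → ℝ} (hy : YF G B w y) :
    ∃ y', YF G' B (fun x => if x ∈ K then (∑ x' ∈ K.filter (fun x' => col x' = col x), w x') / R.card
      else w x) y' := by
  have hKB : K ⊆ B := by
    rw [hK]
    intro x hx
    obtain ⟨T, hT, hxT⟩ := Finset.mem_biUnion.1 hx
    exact (hR T hT).1 hxT
  have hr : (0 : ℝ) < R.card := by exact_mod_cast Finset.card_pos.2 hne
  have memK : ∀ x, x ∈ K ↔ ∃ T ∈ R, x ∈ T := by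
    intro x
    rw [hK, Finset.mem_biUnion]
    rfl
  -- the class totals
  set Y : ZMod 3 → ZMod 3 → ℝ := fun k l => ∑ x ∈ K.filter (fun x => col x = k),
    ∑ u ∈ K.filter (fun u => col u = l), y x u with hY
  have Y0 : ∀ k l, 0 ≤ Y k l := fun k l =>
    Finset.sum_nonneg (fun x _ => Finset.sum_nonneg (fun u _ => hy.y0 x u))
  have Ysymm : ∀ k l, Y k l = Y l k := by
    intro k l
    rw [hY]
    dsimp only
    rw [Finset.sum_comm]
    exact Finset.sum_congr rfl (fun x _ => Finset.sum_congr rfl (fun u _ => hy.ysymm u x))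
  have Ykk : ∀ k, Y k k = 0 := by
    intro k
    rw [hY]
    dsimp only
    apply Finset.sum_eq_zero
    intro x hx
    apply Finset.sum_eq_zero
    intro u hu
    by_contra hne
    obtain ⟨h1, h2, h3⟩ := hy.yE x u hne
    exact hC.col x h2 u h3 h1 ((Finset.mem_filter.1 hx).2.trans (Finset.mem_filter.1 hu).2.symm)
  have Yin : ∀ k, ∑ x ∈ K.filter (fun x => col x = k), ∑ u ∈ K, y x u =
      Y k (k + 1) + Y k (k + 2) := by
    intro k
    have h1 : ∀ x, ∑ u ∈ K, y x u = ∑ l, ∑ u ∈ K.filter (fun u => col u = l), y x u := by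
      intro x
      rw [Finset.sum_fiberwise_of_maps_to (fun _ _ => Finset.mem_univ _)]
    rw [Finset.sum_congr rfl (fun x _ => h1 x), Finset.sum_comm]
    change ∑ l, Y k l = _
    rw [sum_z3 _ k, Ykk]
    ring
  -- the number of vertices of each colour
  have hcard : ∀ (f : ℝ) (k : ZMod 3), ∑ x ∈ K.filter (fun x => col x = k), f = R.card * f := by
    intro f k
    rw [Finset.sum_const, nsmul_eq_mul]
    congr 2
    have h1 : ∀ T ∈ R, ∃ u ∈ T, col u = k := fun T hT => hC'.ex_col (hR T hT) k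
    haveI : Nonempty α := by
      obtain ⟨T, hT⟩ := hne
      obtain ⟨u, _, _⟩ := h1 T hT
      exact ⟨u⟩
    choose! g hg1 hg2 using h1
    symm
    apply Finset.card_nbij g
    · intro T hT
      exact Finset.mem_filter.2 ⟨(memK _).2 ⟨T, hT, hg1 T hT⟩, hg2 T hT⟩
    · intro T hT T' hT' h
      by_contra hne
      exact Finset.disjoint_left.1 (hRd T hT T' hT' hne) (hg1 T hT) (h ▸ hg1 T' hT')
    · intro x hx
      have hx' : x ∈ K.filter (fun x => col x = k) := by simpa using hx
      obtain ⟨hxK, hxk⟩ := Finset.mem_filter.1 hx'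
      obtain ⟨T, hT, hxT⟩ := (memK x).1 hxK
      exact ⟨T, by simpa using hT, hC'.col_inj (hR T hT) (hg1 T hT) hxT
        ((hg2 T hT).trans hxk.symm)⟩
  set η : α → α → ℝ := fun u v =>
    if (∃ T ∈ R, u ∈ T ∧ v ∈ T) ∧ u ≠ v then Y (col u) (col v) / R.card else 0 with hη
  -- the row sums of `η`
  have ηsum : ∀ x ∈ K, ∑ u ∈ K, η x u =
      (Y (col x) (col x + 1) + Y (col x) (col x + 2)) / R.card := by
    intro x hx
    obtain ⟨T, hT, hxT⟩ := (memK x).1 hx
    obtain ⟨a, ha, hac⟩ := hC'.ex_col (hR T hT) (col x + 1)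
    obtain ⟨b, hb, hbc⟩ := hC'.ex_col (hR T hT) (col x + 2)
    have hTK : T ⊆ K := fun u hu => (memK u).2 ⟨T, hT, hu⟩
    have h1 : ∑ u ∈ K, η x u = ∑ u ∈ T, η x u := by
      symm
      apply Finset.sum_subset hTK
      intro u hu huT
      rw [hη]
      dsimp only
      rw [if_neg]
      rintro ⟨⟨T', hT', h2, h3⟩, _⟩
      by_cases hTT : T = T'
      · exact huT (hTT ▸ h3)
      · exact Finset.disjoint_left.1 (hRd T hT T' hT' hTT) hxT h2
    rw [h1, hC'.sum_T (hR T hT) _ hxT ha hb hac hbc]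
    have n1 : x ≠ a := by
      intro e; rw [← e] at hac; revert hac; generalize col x = c; revert c; decide
    have n2 : x ≠ b := by
      intro e; rw [← e] at hbc; revert hbc; generalize col x = c; revert c; decide
    have e1 : η x x = 0 := by
      rw [hη]; dsimp only; rw [if_neg]; rintro ⟨_, h⟩; exact h rfl
    have e2 : η x a = Y (col x) (col x + 1) / R.card := by
      rw [hη]; dsimp only; rw [if_pos ⟨⟨T, hT, hxT, ha⟩, n1⟩, hac]
    have e3 : η x b = Y (col x) (col x + 2) / R.card := by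
      rw [hη]; dsimp only; rw [if_pos ⟨⟨T, hT, hxT, hb⟩, n2⟩, hbc]
    rw [e1, e2, e3]
    ring
  have hin_le : ∀ x ∈ K, ∑ u ∈ K, y x u ≤ w x := by
    intro x hx
    rw [← hy.sum x (hKB hx)]
    exact Finset.sum_le_sum_of_subset_of_nonneg hKB (fun u _ _ => hy.y0 x u)
  refine redist (η := η) hKB (fun u v _ _ hh => hout u v hh) htw hy ?_ ?_ ?_ ?_ ?_ ?_
  · intro v _ hvK
    rw [if_neg hvK]
  · intro u v
    rw [hη]
    dsimp only
    split_ifs
    · exact div_nonneg (Y0 _ _) hr.le
    · exact le_rfl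
  · intro u v
    rw [hη]
    dsimp only
    have hiff : ((∃ T ∈ R, u ∈ T ∧ v ∈ T) ∧ u ≠ v) ↔ ((∃ T ∈ R, v ∈ T ∧ u ∈ T) ∧ v ≠ u) := by
      constructor
      · rintro ⟨⟨T, a, b, c⟩, d⟩
        exact ⟨⟨T, a, c, b⟩, d.symm⟩
      · rintro ⟨⟨T, a, b, c⟩, d⟩
        exact ⟨⟨T, a, c, b⟩, d.symm⟩
    by_cases h : (∃ T ∈ R, u ∈ T ∧ v ∈ T) ∧ u ≠ v
    · rw [if_pos h, if_pos (hiff.1 h), Ysymm]
    · rw [if_neg h, if_neg (fun h' => h (hiff.2 h'))]
  · intro u v hne
    rw [hη] at hne
    dsimp only at hne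
    by_cases h : (∃ T ∈ R, u ∈ T ∧ v ∈ T) ∧ u ≠ v
    · obtain ⟨⟨T, a, b, c⟩, d⟩ := h
      exact ⟨(hR T a).adj b c d, (memK u).2 ⟨T, a, b⟩, (memK v).2 ⟨T, a, c⟩⟩
    · rw [if_neg h] at hne
      exact absurd rfl hne
  · intro x hx
    rw [ηsum x hx, ← Yin]
    rw [if_pos hx]
    apply div_le_div_of_nonneg_right _ hr.le
    apply Finset.sum_le_sum
    intro x' hx'
    exact hin_le x' (Finset.mem_of_mem_filter x' hx')
  · intro k
    rw [Finset.sum_sub_distrib, Finset.sum_sub_distrib, Yin]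
    have h1 : ∑ x ∈ K.filter (fun x => col x = k),
        (if x ∈ K then (∑ x' ∈ K.filter (fun x' => col x' = col x), w x') / (R.card : ℝ)
          else w x) = ∑ x ∈ K.filter (fun x => col x = k), w x := by
      have h2 : ∀ x ∈ K.filter (fun x => col x = k),
          (if x ∈ K then (∑ x' ∈ K.filter (fun x' => col x' = col x), w x') / (R.card : ℝ)
          else w x) = (∑ x' ∈ K.filter (fun x' => col x' = k), w x') / (R.card : ℝ) := by
        intro x hx
        obtain ⟨hxK, hxk⟩ := Finset.mem_filter.1 hx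
        rw [if_pos hxK, hxk]
      rw [Finset.sum_congr rfl h2, hcard]
      field_simp
    have h3 : ∑ x ∈ K.filter (fun x => col x = k), ∑ u ∈ K, η x u =
        Y k (k + 1) + Y k (k + 2) := by
      have h4 : ∀ x ∈ K.filter (fun x => col x = k), ∑ u ∈ K, η x u =
          (Y k (k + 1) + Y k (k + 2)) / R.card := by
        intro x hx
        obtain ⟨hxK, hxk⟩ := Finset.mem_filter.1 hx
        rw [ηsum x hxK, hxk]
      rw [Finset.sum_congr rfl h4, hcard]
      field_simp
    rw [h1, h3]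

end Pool.Agent.H.MP_ebc13b_lc.h53
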