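import Pool.Agent.H.MP_ebc13b_lc.h53.FAll

/-!
The natural order, indexed by the integers; mirror images.
-/

namespace Pool.Agent.H.MP_ebc13b_lc.h53

open Pool.Agent.H.MP_ebc13b_lc.h46

variable {α : Type*} [DecidableEq α] {G : SimpleGraph α} {A : Finset α} {col : α → ZMod 3}

/-- The natural order of the triangles, indexed by the integers.  `bl (2 i)` is the set of the
triangles whose only (pseudo) hub is `h i`; `bl (2 i + 1)` is `{Q_i}`, `Q_i = {h i, mid i, h (i+1)}`,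
if `h i` and `h (i+1)` are linked, and empty otherwise. -/
structure ZLine (G : SimpleGraph α) (A : Finset α) (col : α → ZMod 3) where
  h : ℤ → α
  mid : ℤ → α
  bl : ℤ → Finset (Finset α)
  isT : ∀ b, ∀ T ∈ bl b, IsT G A T
  ex : ∀ T, IsT G A T → ∃ b, T ∈ bl b
  uniq : ∀ T b b', T ∈ bl b → T ∈ bl b' → b = b'
  mem : ∀ i b T, (b = 2 * i - 1 ∨ b = 2 * i ∨ b = 2 * i + 1) → T ∈ bl b → h i ∈ T
  hub : ∀ i, (∃ b, (b = 2 * i - 1 ∨ b = 2 * i ∨ b = 2 * i + 1) ∧ (bl b).Nonempty) →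
    ∀ b, ∀ T ∈ bl b, h i ∈ T → b = 2 * i - 1 ∨ b = 2 * i ∨ b = 2 * i + 1
  eqQ : ∀ i, ∀ T ∈ bl (2 * i + 1), T = {h i, mid i, h (i + 1)}
  col1 : ∀ i, (bl (2 * i + 1)).Nonempty → col (h (i + 1)) = col (h i) + 1
  colm : ∀ i, (bl (2 * i + 1)).Nonempty → col (mid i) = col (h i) + 2
  share : ∀ b b' T T', T ∈ bl b → T' ∈ bl b' → T ≠ T' → ∀ x ∈ T, x ∈ T' →
    ∃ i, x = h i ∧ (b = 2 * i - 1 ∨ b = 2 * i ∨ b = 2 * i + 1) ∧
      (b' = 2 * i - 1 ∨ b' = 2 * i ∨ b' = 2 * i + 1)
  ne : ∀ i, ¬ (bl (2 * i)).Nonempty → ((bl (2 * i - 1)).Nonempty ↔ (bl (2 * i + 1)).Nonempty)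
  dis : ∀ b b' T T', T ∈ bl b → T' ∈ bl b' → Disjoint T T' → b < b' → tlt G col T T'
  bd : ∃ N : ℤ, ∀ b, (bl b).Nonempty → - N ≤ b ∧ b ≤ N

namespace ZLine

/-- the mirror image -/
def mirror (Z : ZLine G A col) (hC : PC G A col) : ZLine G A (rcol col) where
  h := fun i => Z.h (-i)
  mid := fun i => Z.mid (-i - 1)
  bl := fun b => Z.bl (-b)
  isT := fun b T hT => Z.isT _ T hT
  ex := by
    intro T hT
    obtain ⟨b, hb⟩ := Z.ex T hT
    exact ⟨-b, by rw [neg_neg]; exact hb⟩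
  uniq := by
    intro T b b' hb hb'
    have := Z.uniq T _ _ hb hb'
    omega
  mem := by
    intro i b T hb hT
    exact Z.mem (-i) (-b) T (by omega) hT
  hub := by
    rintro i ⟨b₀, hb₀, hne⟩ b T hT hi
    have := Z.hub (-i) ⟨-b₀, by omega, hne⟩ (-b) T hT hi
    omega
  eqQ := by
    intro i T hT
    have e : -(2 * i + 1) = 2 * (-i - 1) + 1 := by ring
    rw [e] at hT
    have := Z.eqQ _ T hT
    have e1 : -i - 1 + 1 = -i := by ring
    have e2 : -(i + 1) = -i - 1 := by ring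
    rw [e1] at this
    rw [this, e2]
    ext w
    simp only [Finset.mem_insert, Finset.mem_singleton]
    tauto
  col1 := by
    intro i hi
    have e : -(2 * i + 1) = 2 * (-i - 1) + 1 := by ring
    rw [e] at hi
    have := Z.col1 _ hi
    have e1 : -i - 1 + 1 = -i := by ring
    have e2 : -(i + 1) = -i - 1 := by ring
    rw [e1] at this
    simp only [rcol]
    rw [this, e2]
    ring
  colm := by
    intro i hi
    have e : -(2 * i + 1) = 2 * (-i - 1) + 1 := by ring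
    rw [e] at hi
    have h1 := Z.col1 _ hi
    have h2 := Z.colm _ hi
    have e1 : -i - 1 + 1 = -i := by ring
    rw [e1] at h1
    simp only [rcol]
    rw [h2, h1]
    generalize col (Z.h (-i - 1)) = a
    revert a
    decide
  share := by
    intro b b' T T' hT hT' hne x hx hx'
    obtain ⟨i, h1, h2, h3⟩ := Z.share _ _ T T' hT hT' hne x hx hx'
    exact ⟨-i, by rw [neg_neg]; exact h1, by omega, by omega⟩
  ne := by
    intro i hi
    have e : -(2 * i) = 2 * (-i) := by ring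
    rw [e] at hi
    have := Z.ne (-i) hi
    have e1 : -(2 * i - 1) = 2 * (-i) + 1 := by ring
    have e2 : -(2 * i + 1) = 2 * (-i) - 1 := by ring
    rw [e1, e2]
    exact this.symm
  dis := by
    intro b b' T T' hT hT' hd hb
    rw [hC.tlt_rcol (Z.isT _ T hT) (Z.isT _ T' hT')]
    exact Z.dis _ _ T' T hT' hT hd.symm (by omega)
  bd := by
    obtain ⟨N, hN⟩ := Z.bd
    refine ⟨N, fun b hb => ?_⟩
    have := hN _ hb
    omega

theorem mirror_h (Z : ZLine G A col) (hC : PC G A col) (i : ℤ) : (Z.mirror hC).h i = Z.h (-i) := rfl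

theorem mirror_mid (Z : ZLine G A col) (hC : PC G A col) (i : ℤ) :
    (Z.mirror hC).mid i = Z.mid (-i - 1) := rfl

theorem mirror_bl (Z : ZLine G A col) (hC : PC G A col) (b : ℤ) :
    (Z.mirror hC).bl b = Z.bl (-b) := rfl

end ZLine

namespace Line

variable (L : Line G A col)

open Classical in
/-- the integer version of a line -/
noncomputable def toZ : ZLine G A col where
  h := fun i => L.h i.toNat
  mid := fun i => L.mid i.toNat
  bl := fun b => A.powerset.filter (fun T => IsT G A T ∧ (L.blk T : ℤ) = b)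
  isT := fun b T hT => (Finset.mem_filter.1 hT).2.1
  ex := fun T hT => ⟨L.blk T, Finset.mem_filter.2 ⟨Finset.mem_powerset.2 hT.1, hT, rfl⟩⟩
  uniq := by
    intro T b b' hb hb'
    exact (Finset.mem_filter.1 hb).2.2.symm.trans (Finset.mem_filter.1 hb').2.2
  mem := by
    intro i b T hb hTb
    obtain ⟨_, hT, hbT⟩ := Finset.mem_filter.1 hTb
    clear hTb
    have hle := L.blk_lt hT
    have hi : i.toNat < L.m ∧ (L.blk T = 2 * i.toNat ∨ L.blk T = 2 * i.toNat + 1 ∨
        L.blk T + 1 = 2 * i.toNat) := by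
      rcases hb with rfl | rfl | rfl
      · have h1 : L.blk T = 2 * (i.toNat - 1) + 1 := by omega
        have h2 := L.lk_lt _ (L.blk_odd T hT _ h1).1
        omega
      · omega
      · omega
    exact (L.hub_iff hT hi.1).2 hi.2
  hub := by
    rintro i ⟨b₀, hb₀, T₀, hTb₀⟩ b T hTb hi
    obtain ⟨_, hT₀, hbT₀⟩ := Finset.mem_filter.1 hTb₀
    obtain ⟨_, hT, hbT⟩ := Finset.mem_filter.1 hTb
    clear hTb hTb₀
    have hle := L.blk_lt hT₀
    have hi0 : 0 ≤ i ∧ i.toNat < L.m := by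
      rcases hb₀ with rfl | rfl | rfl
      · have h1 : L.blk T₀ = 2 * (i.toNat - 1) + 1 := by omega
        have h2 := L.lk_lt _ (L.blk_odd T₀ hT₀ _ h1).1
        omega
      · omega
      · omega
    have := (L.hub_iff hT hi0.2).1 hi
    omega
  eqQ := by
    intro i T hT
    obtain ⟨_, hT, hbT⟩ := Finset.mem_filter.1 hT
    have h1 : L.blk T = 2 * i.toNat + 1 := by omega
    have h2 := (L.blk_odd T hT _ h1).2
    have e : (i + 1).toNat = i.toNat + 1 := by omega
    rw [e]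
    exact h2
  col1 := by
    rintro i ⟨T, hT⟩
    obtain ⟨_, hT, hbT⟩ := Finset.mem_filter.1 hT
    have h1 : L.blk T = 2 * i.toNat + 1 := by omega
    have h2 := (L.blk_odd T hT _ h1).1
    have e : (i + 1).toNat = i.toNat + 1 := by omega
    rw [e]
    exact L.lk_col _ h2
  colm := by
    rintro i ⟨T, hT⟩
    obtain ⟨_, hT, hbT⟩ := Finset.mem_filter.1 hT
    have h1 : L.blk T = 2 * i.toNat + 1 := by omega
    have h2 := (L.blk_odd T hT _ h1).1
    exact L.lk_mid _ h2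
  share := by
    intro b b' T T' hT hT' hne x hx hx'
    obtain ⟨_, hT, hbT⟩ := Finset.mem_filter.1 hT
    obtain ⟨_, hT', hbT'⟩ := Finset.mem_filter.1 hT'
    obtain ⟨i, hi, rfl⟩ := L.share T T' hT hT' hne x hx hx'
    have h1 := (L.hub_iff hT hi).1 hx
    have h2 := (L.hub_iff hT' hi).1 hx'
    refine ⟨i, by simp, by omega, by omega⟩
  ne := by
    intro i hi
    have hno : ∀ T, IsT G A T → (L.blk T : ℤ) ≠ 2 * i := by
      intro T hT h
      exact hi ⟨T, Finset.mem_filter.2 ⟨Finset.mem_powerset.2 hT.1, hT, h⟩⟩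
    constructor
    · rintro ⟨T, hT⟩
      obtain ⟨_, hT, hbT⟩ := Finset.mem_filter.1 hT
      have h1 : L.blk T = 2 * (i.toNat - 1) + 1 := by omega
      have h2 := L.lk_lt _ (L.blk_odd T hT _ h1).1
      rcases L.ne i.toNat (by omega) with ⟨T', hT', hb'⟩ | ⟨h3, _, _⟩
      · exact absurd (by omega) (hno T' hT')
      · exact ⟨L.Q i.toNat, Finset.mem_filter.2 ⟨Finset.mem_powerset.2 (L.Q_T h3).1, L.Q_T h3, by
          rw [L.Q_blk h3]; omega⟩⟩
    · rintro ⟨T, hT⟩
      obtain ⟨_, hT, hbT⟩ := Finset.mem_filter.1 hT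
      have h1 : L.blk T = 2 * i.toNat + 1 := by omega
      have h2 := L.lk_lt _ (L.blk_odd T hT _ h1).1
      rcases L.ne i.toNat (by omega) with ⟨T', hT', hb'⟩ | ⟨_, h4, h3⟩
      · exact absurd (by omega) (hno T' hT')
      · exact ⟨L.Q (i.toNat - 1), Finset.mem_filter.2 ⟨Finset.mem_powerset.2 (L.Q_T h3).1,
          L.Q_T h3, by rw [L.Q_blk h3]; omega⟩⟩
  dis := by
    intro b b' T T' hT hT' hd hb
    obtain ⟨_, hT, hbT⟩ := Finset.mem_filter.1 hT
    obtain ⟨_, hT', hbT'⟩ := Finset.mem_filter.1 hT'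
    exact L.dis T T' hT hT' hd (by omega)
  bd := by
    refine ⟨2 * L.m, ?_⟩
    rintro b ⟨T, hT⟩
    obtain ⟨_, hT, hbT⟩ := Finset.mem_filter.1 hT
    have := L.blk_lt hT
    omega

theorem mem_toZ_bl {b : ℤ} {T : Finset α} : T ∈ L.toZ.bl b ↔ IsT G A T ∧ (L.blk T : ℤ) = b := by
  classical
  unfold toZ
  dsimp only
  rw [Finset.mem_filter, Finset.mem_powerset]
  exact ⟨fun h => h.2, fun h => ⟨h.1.1, h⟩⟩

theorem toZ_h (i : ℤ) : L.toZ.h i = L.h i.toNat := rfl

theorem toZ_mid (i : ℤ) : L.toZ.mid i = L.mid i.toNat := rfl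

end Line

/-- existence of the natural order, integer version -/
theorem exists_zline [Nonempty α] (hC : PC G A col) (hN : NoCyc G A col) (hP : NoPar G A col) :
    Nonempty (ZLine G A col) := by
  obtain ⟨L⟩ := exists_line hC hN hP
  exact ⟨L.toZ⟩

end Pool.Agent.H.MP_ebc13b_lc.h53
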