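import Pool.Agent.H.MP_ebc13b_lc.h53.ZLine

/-!
The shapes of maximal stable sets, integer version (block level).
-/

namespace Pool.Agent.H.MP_ebc13b_lc.h53

open Pool.Agent.H.MP_ebc13b_lc.h46

variable {α : Type*} [DecidableEq α] {G : SimpleGraph α} {A : Finset α} {col : α → ZMod 3}

namespace ZLine

variable (Z : ZLine G A col)

/-- `h i` and `h (i+1)` are linked -/
def lk (i : ℤ) : Prop := (Z.bl (2 * i + 1)).Nonempty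

/-- the block `b` is met by `F` -/
def HitB (F : Finset α) (b : ℤ) : Prop := ∃ T ∈ Z.bl b, Hit F T

/-- the block `b` is nonempty and entirely missed by `F` -/
def MissB (F : Finset α) (b : ℤ) : Prop := (Z.bl b).Nonempty ∧ ¬ Z.HitB F b

def Shape0 (F : Finset α) : Prop :=
  ∀ b₁ b₂ b₃ b₀, Z.HitB F b₁ → Z.MissB F b₂ → Z.HitB F b₃ → Z.MissB F b₀ → b₁ < b₂ → b₂ < b₃ →
    (b₀ < b₁ ∨ b₃ < b₀) → False

def Shape1 (F : Finset α) (i : ℤ) : Prop :=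
  Z.lk i ∧ Z.lk (i + 1) ∧ ∀ b, ∀ T ∈ Z.bl b,
    (¬ Hit F T ↔ b = 2 * i - 1 ∨ b = 2 * i ∨ b = 2 * i + 4 ∨ b = 2 * i + 5)

def Shape2 (F : Finset α) (i : ℤ) : Prop :=
  Z.lk i ∧ Z.lk (i + 1) ∧ Z.HitB F (2 * i + 1) ∧ Z.HitB F (2 * i + 3) ∧
    ¬ Z.HitB F (2 * i + 2) ∧
    (∀ b, Z.HitB F b → 2 * i - 1 ≤ b ∧ b ≤ 2 * i + 5) ∧
    ((∀ b, (b = 2 * i - 1 ∨ b = 2 * i) → (Z.bl b).Nonempty → Z.HitB F b) ∨
      (∀ b, (b = 2 * i - 1 ∨ b = 2 * i) → ¬ Z.HitB F b)) ∧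
    ((∀ b, (b = 2 * i + 4 ∨ b = 2 * i + 5) → (Z.bl b).Nonempty → Z.HitB F b) ∨
      (∀ b, (b = 2 * i + 4 ∨ b = 2 * i + 5) → ¬ Z.HitB F b))

def Shape3 (F : Finset α) (i : ℤ) : Prop :=
  Z.lk i ∧ Z.lk (i + 1) ∧ Z.lk (i + 2) ∧
    ∀ b, Z.HitB F b ↔ b = 2 * i + 1 ∨ b = 2 * i + 3 ∨ b = 2 * i + 5

end ZLine

namespace Line

variable (L : Line G A col)

theorem toZ_HitB {F : Finset α} {b : ℤ} : L.toZ.HitB F b ↔ 0 ≤ b ∧ L.HitB F b.toNat := by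
  constructor
  · rintro ⟨T, hT, hh⟩
    obtain ⟨h1, h2⟩ := L.mem_toZ_bl.1 hT
    exact ⟨by omega, T, h1, by omega, hh⟩
  · rintro ⟨h0, T, h1, h2, hh⟩
    exact ⟨T, L.mem_toZ_bl.2 ⟨h1, by omega⟩, hh⟩

theorem toZ_lk {i : ℤ} : L.toZ.lk i ↔ 0 ≤ i ∧ L.lk i.toNat := by
  constructor
  · rintro ⟨T, hT⟩
    obtain ⟨h1, h2⟩ := L.mem_toZ_bl.1 hT
    exact ⟨by omega, (L.blk_odd T h1 i.toNat (by omega)).1⟩
  · rintro ⟨h0, h1⟩
    exact ⟨L.Q i.toNat, L.mem_toZ_bl.2 ⟨L.Q_T h1, by rw [L.Q_blk h1]; omega⟩⟩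

theorem toZ_MissB {F : Finset α} {b : ℤ} (h : L.toZ.MissB F b) :
    ∃ S, IsT G A S ∧ (L.blk S : ℤ) = b ∧ L.AllMiss F (L.blk S) := by
  obtain ⟨⟨S, hS⟩, hm⟩ := h
  obtain ⟨h1, h2⟩ := L.mem_toZ_bl.1 hS
  refine ⟨S, h1, h2, ?_⟩
  intro T hT hb hh
  exact hm ⟨T, L.mem_toZ_bl.2 ⟨hT, by omega⟩, hh⟩

/-- **The shapes of maximal stable sets**, integer version. -/
theorem zshape (hC : PC G A col) {F : Finset α} (hF : MaxS G A F) :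
    L.toZ.Shape0 F ∨ (∃ i, L.toZ.Shape1 F i) ∨ (∃ i, L.toZ.Shape2 F i) ∨
      (∃ i, L.toZ.Shape3 F i) := by
  rcases L.shape hC hF with h | ⟨i, h⟩ | ⟨i, h⟩ | ⟨i, h⟩
  · left
    intro b₁ b₂ b₃ b₀ h1 h2 h3 h0 h12 h23 hb
    obtain ⟨T₁, a1, a2⟩ := h1
    obtain ⟨a1, a3⟩ := L.mem_toZ_bl.1 a1
    obtain ⟨T₃, c1, c2⟩ := h3
    obtain ⟨c1, c3⟩ := L.mem_toZ_bl.1 c1
    obtain ⟨S, d1, d2, d3⟩ := L.toZ_MissB h2
    obtain ⟨S₀, e1, e2, e3⟩ := L.toZ_MissB h0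
    exact h T₁ S T₃ S₀ a1 d1 c1 e1 a2 d3 c2 e3 (by omega) (by omega) (by omega)
  · right; left
    obtain ⟨h1, h2, h3⟩ := h
    refine ⟨i, L.toZ_lk.2 ⟨by omega, by simpa using h1⟩,
      L.toZ_lk.2 ⟨by omega, by
        have e : ((i : ℤ) + 1).toNat = i + 1 := by omega
        rw [e]; exact h2⟩, ?_⟩
    intro b T hT
    obtain ⟨hT, hb⟩ := L.mem_toZ_bl.1 hT
    rw [h3 T hT, L.hub_iff hT (L.lk_m h1), L.hub_iff hT (L.lk_lt _ h2)]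
    have q1 : T ≠ L.Q i ↔ L.blk T ≠ 2 * i + 1 := by
      refine not_congr ⟨?_, fun h => L.eq_Q hT h⟩
      rintro rfl
      exact L.Q_blk h1
    have q2 : T ≠ L.Q (i + 1) ↔ L.blk T ≠ 2 * (i + 1) + 1 := by
      refine not_congr ⟨?_, fun h => L.eq_Q hT h⟩
      rintro rfl
      exact L.Q_blk h2
    rw [q1, q2]
    omega
  · right; right; left
    obtain ⟨h1, h2, h3, h4, h5, h6, h7, h8⟩ := h
    have e : ((i : ℤ) + 1).toNat = i + 1 := by omega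
    refine ⟨i, L.toZ_lk.2 ⟨by omega, by simpa using h1⟩,
      L.toZ_lk.2 ⟨by omega, by rw [e]; exact h2⟩, ?_, ?_, ?_, ?_, ?_, ?_⟩
    · exact ⟨L.Q i, L.mem_toZ_bl.2 ⟨L.Q_T h1, by rw [L.Q_blk h1]; omega⟩, h3⟩
    · exact ⟨L.Q (i + 1), L.mem_toZ_bl.2 ⟨L.Q_T h2, by rw [L.Q_blk h2]; omega⟩, h4⟩
    · rintro ⟨T, hT, hh⟩
      obtain ⟨hT, hb⟩ := L.mem_toZ_bl.1 hT
      exact h5 T hT (by omega) hh
    · rintro b ⟨T, hT, hh⟩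
      obtain ⟨hT, hb⟩ := L.mem_toZ_bl.1 hT
      rcases h6 T hT hh with h | h
      · have := (L.hub_iff hT (L.lk_m h1)).1 h
        omega
      · have := (L.hub_iff hT (L.lk_lt _ h2)).1 h
        omega
    · rcases h7 with h7 | h7
      · left
        rintro b hb ⟨T, hT⟩
        obtain ⟨hT, hbT⟩ := L.mem_toZ_bl.1 hT
        have hi : L.h i ∈ T := (L.hub_iff hT (L.lk_m h1)).2 (by omega)
        obtain ⟨T', a1, a2, a3⟩ := h7 T hT hi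
        exact ⟨T', L.mem_toZ_bl.2 ⟨a1, by omega⟩, a3⟩
      · right
        rintro b hb ⟨T, hT, hh⟩
        obtain ⟨hT, hbT⟩ := L.mem_toZ_bl.1 hT
        have hi : L.h i ∈ T := (L.hub_iff hT (L.lk_m h1)).2 (by omega)
        have e1 := h7 T hT hi hh
        have e2 := L.Q_blk h1
        rw [← e1] at e2
        omega
    · rcases h8 with h8 | h8
      · left
        rintro b hb ⟨T, hT⟩
        obtain ⟨hT, hbT⟩ := L.mem_toZ_bl.1 hT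
        have hi : L.h (i + 2) ∈ T := (L.hub_iff hT (L.lk_lt _ h2)).2 (by omega)
        obtain ⟨T', a1, a2, a3⟩ := h8 T hT hi
        exact ⟨T', L.mem_toZ_bl.2 ⟨a1, by omega⟩, a3⟩
      · right
        rintro b hb ⟨T, hT, hh⟩
        obtain ⟨hT, hbT⟩ := L.mem_toZ_bl.1 hT
        have hi : L.h (i + 2) ∈ T := (L.hub_iff hT (L.lk_lt _ h2)).2 (by omega)
        have e1 := h8 T hT hi hh
        have e2 := L.Q_blk h2
        rw [← e1] at e2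
        omega
  · right; right; right
    obtain ⟨h1, h2, h3, h4⟩ := h
    have e : ((i : ℤ) + 1).toNat = i + 1 := by omega
    have e' : ((i : ℤ) + 2).toNat = i + 2 := by omega
    refine ⟨i, L.toZ_lk.2 ⟨by omega, by simpa using h1⟩,
      L.toZ_lk.2 ⟨by omega, by rw [e]; exact h2⟩, L.toZ_lk.2 ⟨by omega, by rw [e']; exact h3⟩, ?_⟩
    intro b
    constructor
    · rintro ⟨T, hT, hh⟩
      obtain ⟨hT, hb⟩ := L.mem_toZ_bl.1 hT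
      rcases (h4 T hT).1 hh with rfl | rfl | rfl
      · rw [L.Q_blk h1] at hb; omega
      · rw [L.Q_blk h2] at hb; omega
      · rw [L.Q_blk h3] at hb; omega
    · rintro (rfl | rfl | rfl)
      · exact ⟨L.Q i, L.mem_toZ_bl.2 ⟨L.Q_T h1, by rw [L.Q_blk h1]; omega⟩,
          (h4 _ (L.Q_T h1)).2 (Or.inl rfl)⟩
      · exact ⟨L.Q (i + 1), L.mem_toZ_bl.2 ⟨L.Q_T h2, by rw [L.Q_blk h2]; omega⟩,
          (h4 _ (L.Q_T h2)).2 (Or.inr (Or.inl rfl))⟩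
      · exact ⟨L.Q (i + 2), L.mem_toZ_bl.2 ⟨L.Q_T h3, by rw [L.Q_blk h3]; omega⟩,
          (h4 _ (L.Q_T h3)).2 (Or.inr (Or.inr rfl))⟩

end Line

end Pool.Agent.H.MP_ebc13b_lc.h53
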